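import Mathlib

set_option autoImplicit false

open Finset

namespace Pool.Agent.MP5g

/-- The number of zero-sum trees with `m` edges (as in the frozen statement). -/
noncomputable def zsm (m : ℕ) {n : ℕ} (c : Sym2 (Fin n) → ZMod m) : ℕ :=
  Set.ncard {T : SimpleGraph (Fin n) |
    (∃ U : Finset (Fin n), U.card = m + 1 ∧ (∀ u v, T.Adj u v → u ∈ U) ∧
      (T.induce (U : Set (Fin n))).IsTree) ∧
    ∑ᶠ e ∈ T.edgeSet, c e = 0}

/-- The number of monochromatic trees with `m` edges (as in the frozen statement). -/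
noncomputable def mom (m : ℕ) {n : ℕ} (c : Sym2 (Fin n) → Fin 2) : ℕ :=
  Set.ncard {T : SimpleGraph (Fin n) |
    (∃ U : Finset (Fin n), U.card = m + 1 ∧ (∀ u v, T.Adj u v → u ∈ U) ∧
      (T.induce (U : Set (Fin n))).IsTree) ∧
    ∃ i : Fin 2, ∀ e ∈ T.edgeSet, c e = i}

/-- A 2-colouring seen as a colouring by 0, 1 in `ZMod m`. -/
def lft (m : ℕ) {n : ℕ} (c : Sym2 (Fin n) → Fin 2) : Sym2 (Fin n) → ZMod m :=
  fun e => ((c e : ℕ) : ZMod m)

open Classical in
/-- all labelled trees on `Fin (m+1)` -/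
noncomputable def TT (m : ℕ) : Finset (SimpleGraph (Fin (m + 1))) := univ.filter (fun T => T.IsTree)

open Classical in
/-- the colour sum of the copy of `T` under `f` -/
noncomputable def SS {m n : ℕ} (c : Sym2 (Fin n) → ZMod m) (T : SimpleGraph (Fin (m + 1)))
    (f : Fin (m + 1) → Fin n) : ZMod m := ∑ e ∈ T.edgeFinset, c (e.map f)

open Classical in
/-- number of zero-sum labelled copies of `T` -/
noncomputable def cnt {m n : ℕ} (c : Sym2 (Fin n) → ZMod m) (T : SimpleGraph (Fin (m + 1))) : ℕ :=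
  (univ.filter (fun f : Fin (m + 1) → Fin n => Function.Injective f ∧ SS c T f = 0)).card

/-- number of all zero-sum labelled copies -/
noncomputable def tot {m n : ℕ} (c : Sym2 (Fin n) → ZMod m) : ℕ := ∑ T ∈ TT m, cnt c T

open Classical in
/-- zero-sum labelled copies of `T` in which `v` is mapped to `x` -/
noncomputable def cntv {m n : ℕ} (c : Sym2 (Fin n) → ZMod m) (T : SimpleGraph (Fin (m + 1)))
    (v : Fin (m + 1)) (x : Fin n) : ℕ :=
  (univ.filter (fun f : Fin (m + 1) → Fin n =>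
    Function.Injective f ∧ f v = x ∧ SS c T f = 0)).card

/-- zero-sum labelled copies through the vertex `x` -/
noncomputable def totv {m n : ℕ} (c : Sym2 (Fin n) → ZMod m) (x : Fin n) : ℕ :=
  ∑ T ∈ TT m, ∑ v : Fin (m + 1), cntv c T v x

open Classical in
/-- zero-sum labelled copies of `T` in which `(u,w)` is mapped to `(x,y)` -/
noncomputable def cnte {m n : ℕ} (c : Sym2 (Fin n) → ZMod m) (T : SimpleGraph (Fin (m + 1)))
    (u w : Fin (m + 1)) (x y : Fin n) : ℕ :=
  (univ.filter (fun f : Fin (m + 1) → Fin n =>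
    Function.Injective f ∧ f u = x ∧ f w = y ∧ SS c T f = 0)).card

open Classical in
/-- zero-sum labelled copies through the edge `xy` -/
noncomputable def tote {m n : ℕ} (c : Sym2 (Fin n) → ZMod m) (x y : Fin n) : ℕ :=
  ∑ T ∈ TT m, ∑ u : Fin (m + 1), ∑ w : Fin (m + 1), if T.Adj u w then cnte c T u w x y else 0

/-- number of edges at `x` with colour `k` -/
def dgm {m n : ℕ} (c : Sym2 (Fin n) → ZMod m) (x : Fin n) (k : ZMod m) : ℕ :=
  (univ.filter (fun y : Fin n => y ≠ x ∧ c s(x, y) = k)).card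

/-- `x` is balanced up to `δ n` between the colours 0 and 1 -/
def Bal {m n : ℕ} (c : Sym2 (Fin n) → ZMod m) (δ : ℝ) (x : Fin n) : Prop :=
  |(dgm c x 0 : ℝ) - n / 2| ≤ δ * n ∧ |(dgm c x 1 : ℝ) - n / 2| ≤ δ * n

/-- number of completions: `m - d` edges of colours 0/1 whose sum cancels `z` -/
def wt (m d : ℕ) (z : ZMod m) : ℕ := (m - d).choose (-z).val

open Classical in
/-- weighted number of `d`-tuples of neighbours of `x` -/
noncomputable def Ad {m n : ℕ} (c : Sym2 (Fin n) → ZMod m) (x : Fin n) (d : ℕ) : ℕ :=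
  ∑ y : Fin d → Fin n, if (∀ i, y i ≠ x) then wt m d (∑ i, c s(x, y i)) else 0

/-- the lower bound for `2^d Ad / n^d` -/
noncomputable def hh (m d : ℕ) (a0 a1 ε : ℝ) : ℝ :=
  if d = 1 then 2 * (a0 + a1 + (m - 1) * ε)
  else if d = 2 then 4 * (a0 ^ 2 + a1 ^ 2 + 2 * ε * (a0 + a1))
  else 2 ^ d * (a0 ^ d + a1 ^ d)

end Pool.Agent.MP5g
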