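import Mathlib
import Pool.Agent.MP_5f2667_co.L.Defs

set_option autoImplicit false

open Finset

namespace Pool.Agent.MP5g

open Classical in
/-- zero-sum labelled copies of the path with four edges -/
noncomputable def nPath {n : ℕ} (c : Sym2 (Fin n) → ZMod 4) : ℕ :=
  (univ.filter (fun f : Fin 5 → Fin n => Function.Injective f ∧
    c s(f 0, f 1) + c s(f 1, f 2) + c s(f 2, f 3) + c s(f 3, f 4) = 0)).card

open Classical in
/-- zero-sum labelled copies of the spider with legs 2, 1, 1 and centre 0 -/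
noncomputable def nChair {n : ℕ} (c : Sym2 (Fin n) → ZMod 4) : ℕ :=
  (univ.filter (fun f : Fin 5 → Fin n => Function.Injective f ∧
    c s(f 0, f 1) + c s(f 1, f 2) + c s(f 0, f 3) + c s(f 0, f 4) = 0)).card

open Classical in
/-- zero-sum labelled copies of the star with centre 0 -/
noncomputable def nStar {n : ℕ} (c : Sym2 (Fin n) → ZMod 4) : ℕ :=
  (univ.filter (fun f : Fin 5 → Fin n => Function.Injective f ∧
    c s(f 0, f 1) + c s(f 0, f 2) + c s(f 0, f 3) + c s(f 0, f 4) = 0)).card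

/-- fraction of the `y` (including `y = x`) with `c s(x,y) = k` -/
noncomputable def mu {n : ℕ} (c : Sym2 (Fin n) → ZMod 4) (x : Fin n) (k : ZMod 4) : ℝ :=
  ((univ.filter (fun y : Fin n => c s(x, y) = k)).card : ℝ) / n

/-- fraction of the 2-walks from `x` with colour sum `k` -/
noncomputable def ph {n : ℕ} (c : Sym2 (Fin n) → ZMod 4) (x : Fin n) (k : ZMod 4) : ℝ :=
  ((univ.filter (fun p : Fin n × Fin n => c s(x, p.1) + c s(p.1, p.2) = k)).card : ℝ) / (n : ℝ) ^ 2

/-- fraction of the pairs of neighbours of `x` with colour sum `k` -/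
noncomputable def rh {n : ℕ} (c : Sym2 (Fin n) → ZMod 4) (x : Fin n) (k : ZMod 4) : ℝ :=
  ((univ.filter (fun p : Fin n × Fin n => c s(x, p.1) + c s(x, p.2) = k)).card : ℝ) / (n : ℝ) ^ 2

/-- the excess at `x` -/
noncomputable def en {n : ℕ} (c : Sym2 (Fin n) → ZMod 4) (x : Fin n) : ℝ :=
  100 * (mu c x 0 + mu c x 2 - 1 / 2) ^ 2
    + 20 * (mu c x 0 * mu c x 2 * (mu c x 0 + mu c x 2) ^ 2
      + mu c x 1 * mu c x 3 * (mu c x 1 + mu c x 3) ^ 2)
    + 60 * (ph c x 1 * rh c x 3 + ph c x 3 * rh c x 1)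

end Pool.Agent.MP5g
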