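import Mathlib
import Pool.Agent.MP_5f2667_co.L.FDefs

set_option autoImplicit false

open Finset

/-
There are 125 labelled trees on 5 vertices: 60 paths, 60 spiders with legs 2,1,1 (chairs) and 5 stars. cnt c T is invariant under relabelling of T (compose f with a permutation), the three standard trees give nPath, nChair, nStar
(SS c T f is the sum over the four edges). Possible ways: (a) for each standard tree S0: the sum over all 120 permutations p of cnt c (S0.map p) is 120 * cnt c S0 and every tree isomorphic to S0 is hit |Aut| times (2, 2, 24);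
classification: sum of degrees 8, five degrees >= 1: degree sequences 4,1,1,1,1 or 3,2,1,1,1 or 2,2,2,1,1. (b) A finite computation (decide +kernel) over the 210 four-element sets of the 10 edges of Fin 5, with a boolean test for trees.
-/

namespace Pool.Agent.MP5g

/-- index of an edge -/
def F01_ix (u v : Fin 5) : ℕ :=
  (![![0, 0, 1, 2, 3], ![0, 0, 4, 5, 6], ![1, 4, 0, 7, 8], ![2, 5, 7, 0, 9], ![3, 6, 8, 9, 0]] :
    Fin 5 → Fin 5 → ℕ) u v

theorem F01_ix_comm : ∀ u v, F01_ix u v = F01_ix v u := by decide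

/-- the graph with code `k` -/
def F01_G (k : ℕ) : SimpleGraph (Fin 5) where
  Adj u v := u ≠ v ∧ Nat.testBit k (F01_ix u v) = true
  symm := ⟨fun u v h => ⟨h.1.symm, by rw [F01_ix_comm]; exact h.2⟩⟩
  loopless := ⟨fun u h => h.1 rfl⟩

instance F01_dec (k : ℕ) : DecidableRel (F01_G k).Adj :=
  fun u v => inferInstanceAs (Decidable (u ≠ v ∧ Nat.testBit k (F01_ix u v) = true))

/-- the paths -/
def F01_P : List (ℕ × (Fin 5 → Fin 5)) := [
  (58, ![3,1,2,0,4]), (60, ![2,1,3,0,4]), (86, ![3,0,2,1,4]), (92, ![2,1,4,0,3]), (102, ![2,0,3,1,4]),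
  (106, ![2,0,4,1,3]), (153, ![3,2,1,0,4]), (156, ![1,2,3,0,4]), (169, ![2,3,1,0,4]), (170, ![1,3,2,0,4]),
  (195, ![3,2,0,1,4]), (197, ![2,3,0,1,4]), (202, ![1,4,0,2,3]), (204, ![1,4,0,3,2]), (212, ![0,3,2,1,4]),
  (216, ![0,4,1,2,3]), (226, ![0,2,3,1,4]), (232, ![0,4,1,3,2]), (277, ![3,0,1,2,4]), (284, ![1,2,4,0,3]),
  (291, ![3,1,0,2,4]), (294, ![1,3,0,2,4]), (297, ![2,4,0,1,3]), (300, ![1,3,0,4,2]), (308, ![0,3,1,2,4]),
  (312, ![0,4,2,1,3]), (325, ![2,4,1,0,3]), (326, ![1,4,2,0,3]), (354, ![0,2,4,1,3]), (356, ![0,3,1,4,2]),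
  (389, ![1,0,3,2,4]), (393, ![1,0,4,2,3]), (417, ![0,1,3,2,4]), (424, ![0,4,2,3,1]), (449, ![0,1,4,2,3]),
  (452, ![0,3,2,4,1]), (533, ![2,1,0,3,4]), (534, ![1,2,0,3,4]), (537, ![2,1,0,4,3]), (538, ![1,2,0,4,3]),
  (547, ![2,0,1,3,4]), (554, ![1,3,4,0,2]), (562, ![0,2,1,3,4]), (568, ![0,4,3,1,2]), (579, ![2,0,1,4,3]),
  (582, ![1,4,3,0,2]), (594, ![0,2,1,4,3]), (596, ![0,3,4,1,2]), (643, ![1,0,2,3,4]), (649, ![1,0,4,3,2]),
  (657, ![0,1,2,3,4]), (664, ![0,4,3,2,1]), (705, ![0,1,4,3,2]), (706, ![0,2,3,4,1]), (771, ![1,0,2,4,3]),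
  (773, ![1,0,3,4,2]), (785, ![0,1,2,4,3]), (788, ![0,3,4,2,1]), (801, ![0,1,3,4,2]), (802, ![0,2,4,3,1])]

/-- the chairs -/
def F01_C : List (ℕ × (Fin 5 → Fin 5)) := [
  (29, ![0,1,2,3,4]), (30, ![0,2,1,3,4]), (43, ![0,1,3,2,4]), (46, ![0,3,1,2,4]), (57, ![1,0,4,2,3]),
  (71, ![0,1,4,2,3]), (78, ![0,4,1,2,3]), (85, ![1,0,3,2,4]), (99, ![1,0,2,3,4]), (114, ![1,2,0,3,4]),
  (116, ![1,3,0,2,4]), (120, ![1,4,0,2,3]), (139, ![0,2,3,1,4]), (141, ![0,3,2,1,4]), (154, ![2,0,4,1,3]),
  (172, ![3,0,4,1,2]), (209, ![1,2,3,0,4]), (210, ![2,1,4,0,3]), (225, ![1,3,2,0,4]), (228, ![3,1,4,0,2]),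
  (263, ![0,2,4,1,3]), (269, ![0,4,2,1,3]), (278, ![2,0,3,1,4]), (305, ![1,2,4,0,3]), (306, ![2,1,3,0,4]),
  (332, ![4,0,3,1,2]), (353, ![1,4,2,0,3]), (360, ![4,1,3,0,2]), (387, ![2,0,1,3,4]), (401, ![2,1,0,3,4]),
  (404, ![2,3,0,1,4]), (408, ![2,4,0,1,3]), (418, ![2,3,1,0,4]), (420, ![3,2,4,0,1]), (450, ![2,4,1,0,3]),
  (456, ![4,2,3,0,1]), (519, ![0,3,4,1,2]), (523, ![0,4,3,1,2]), (550, ![3,0,2,1,4]), (561, ![1,3,4,0,2]),
  (564, ![3,1,2,0,4]), (586, ![4,0,2,1,3]), (593, ![1,4,3,0,2]), (600, ![4,1,2,0,3]), (645, ![3,0,1,2,4]),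
  (658, ![2,3,4,0,1]), (660, ![3,2,1,0,4]), (673, ![3,1,0,2,4]), (674, ![3,2,0,1,4]), (680, ![3,4,0,1,2]),
  (708, ![3,4,1,0,2]), (712, ![4,3,2,0,1]), (777, ![4,0,1,2,3]), (786, ![2,4,3,0,1]), (792, ![4,2,1,0,3]),
  (804, ![3,4,2,0,1]), (808, ![4,3,1,0,2]), (833, ![4,1,0,2,3]), (834, ![4,2,0,1,3]), (836, ![4,3,0,1,2])]

/-- the stars -/
def F01_S : List (ℕ × (Fin 5 → Fin 5)) := [
  (15, ![0,1,2,3,4]), (113, ![1,0,2,3,4]), (402, ![2,0,1,3,4]), (676, ![3,0,1,2,4]), (840, ![4,0,1,2,3])]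

def F01_code (b01 b02 b03 b04 b12 b13 b14 b23 b24 b34 : Bool) : ℕ :=
  b01.toNat * 1 + b02.toNat * 2 + b03.toNat * 4 + b04.toNat * 8 + b12.toNat * 16 + b13.toNat * 32 + b14.toNat * 64 + b23.toNat * 128 + b24.toNat * 256 + b34.toNat * 512

def F01_count (b01 b02 b03 b04 b12 b13 b14 b23 b24 b34 : Bool) : ℕ :=
  b01.toNat + b02.toNat + b03.toNat + b04.toNat + b12.toNat + b13.toNat + b14.toNat + b23.toNat + b24.toNat + b34.toNat

def F01_cuts (b01 b02 b03 b04 b12 b13 b14 b23 b24 b34 : Bool) : Bool :=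
  (b01 || b02 || b03 || b04) &&
  (b01 || b12 || b13 || b14) &&
  (b02 || b12 || b23 || b24) &&
  (b03 || b13 || b23 || b34) &&
  (b04 || b14 || b24 || b34) &&
  (b02 || b03 || b04 || b12 || b13 || b14) &&
  (b01 || b03 || b04 || b12 || b23 || b24) &&
  (b01 || b02 || b04 || b13 || b23 || b34) &&
  (b01 || b02 || b03 || b14 || b24 || b34) &&
  (b01 || b13 || b14 || b02 || b23 || b24) &&
  (b01 || b12 || b14 || b03 || b23 || b34) &&
  (b01 || b12 || b13 || b04 || b24 || b34) &&
  (b02 || b12 || b24 || b03 || b13 || b34) &&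
  (b02 || b12 || b23 || b04 || b14 || b34) &&
  (b03 || b13 || b23 || b04 || b14 || b24)

theorem F01_key : ∀ b01 b02 b03 b04 b12 b13 b14 b23 b24 b34 : Bool, F01_cuts b01 b02 b03 b04 b12 b13 b14 b23 b24 b34 = true → F01_count b01 b02 b03 b04 b12 b13 b14 b23 b24 b34 = 4 →
    F01_code b01 b02 b03 b04 b12 b13 b14 b23 b24 b34 ∈ (F01_P ++ F01_C ++ F01_S).map Prod.fst := by
  decide +kernel

theorem F01_bits : ∀ b01 b02 b03 b04 b12 b13 b14 b23 b24 b34 : Bool,
    Nat.testBit (F01_code b01 b02 b03 b04 b12 b13 b14 b23 b24 b34) 0 = b01 ∧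
    Nat.testBit (F01_code b01 b02 b03 b04 b12 b13 b14 b23 b24 b34) 1 = b02 ∧
    Nat.testBit (F01_code b01 b02 b03 b04 b12 b13 b14 b23 b24 b34) 2 = b03 ∧
    Nat.testBit (F01_code b01 b02 b03 b04 b12 b13 b14 b23 b24 b34) 3 = b04 ∧
    Nat.testBit (F01_code b01 b02 b03 b04 b12 b13 b14 b23 b24 b34) 4 = b12 ∧
    Nat.testBit (F01_code b01 b02 b03 b04 b12 b13 b14 b23 b24 b34) 5 = b13 ∧
    Nat.testBit (F01_code b01 b02 b03 b04 b12 b13 b14 b23 b24 b34) 6 = b14 ∧
    Nat.testBit (F01_code b01 b02 b03 b04 b12 b13 b14 b23 b24 b34) 7 = b23 ∧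
    Nat.testBit (F01_code b01 b02 b03 b04 b12 b13 b14 b23 b24 b34) 8 = b24 ∧
    Nat.testBit (F01_code b01 b02 b03 b04 b12 b13 b14 b23 b24 b34) 9 = b34 := by
  decide +kernel

theorem F01_check (k0 : ℕ) (L : List (ℕ × (Fin 5 → Fin 5)))
    (h : (L.all fun e => decide (Function.Injective e.2) &&
      decide (∀ u v, (F01_G e.1).Adj (e.2 u) (e.2 v) ↔ (F01_G k0).Adj u v)) = true) :
    ∀ e ∈ L, Function.Injective e.2 ∧
      ∀ u v, (F01_G e.1).Adj (e.2 u) (e.2 v) ↔ (F01_G k0).Adj u v := by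
  intro e he
  have h1 := List.all_eq_true.1 h e he
  rw [Bool.and_eq_true, decide_eq_true_iff, decide_eq_true_iff] at h1
  exact h1

theorem F01_checkP : ∀ e ∈ F01_P, Function.Injective e.2 ∧
      ∀ u v, (F01_G e.1).Adj (e.2 u) (e.2 v) ↔ (F01_G 657).Adj u v :=
  F01_check _ _ (by decide +kernel)

theorem F01_checkC : ∀ e ∈ F01_C, Function.Injective e.2 ∧
      ∀ u v, (F01_G e.1).Adj (e.2 u) (e.2 v) ↔ (F01_G 29).Adj u v :=
  F01_check _ _ (by decide +kernel)

theorem F01_checkS : ∀ e ∈ F01_S, Function.Injective e.2 ∧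
      ∀ u v, (F01_G e.1).Adj (e.2 u) (e.2 v) ↔ (F01_G 15).Adj u v :=
  F01_check _ _ (by decide +kernel)

/-- the codes are different and less than 1024 -/
theorem F01_nodup : ((F01_P ++ F01_C ++ F01_S).map Prod.fst).Nodup := by
  decide +kernel

theorem F01_lt : ∀ k ∈ (F01_P ++ F01_C ++ F01_S).map Prod.fst, k < 1024 := by
  decide +kernel

open Classical in
/-- the code of a graph -/
noncomputable def F01_cd (T : SimpleGraph (Fin 5)) : ℕ :=
  F01_code (decide (T.Adj 0 1)) (decide (T.Adj 0 2)) (decide (T.Adj 0 3)) (decide (T.Adj 0 4)) (decide (T.Adj 1 2)) (decide (T.Adj 1 3)) (decide (T.Adj 1 4)) (decide (T.Adj 2 3)) (decide (T.Adj 2 4)) (decide (T.Adj 3 4))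

open Classical in
theorem F01_G_cd (T : SimpleGraph (Fin 5)) : F01_G (F01_cd T) = T := by
  obtain ⟨h0, h1, h2, h3, h4, h5, h6, h7, h8, h9⟩ := F01_bits (decide (T.Adj 0 1)) (decide (T.Adj 0 2)) (decide (T.Adj 0 3)) (decide (T.Adj 0 4)) (decide (T.Adj 1 2)) (decide (T.Adj 1 3)) (decide (T.Adj 1 4)) (decide (T.Adj 2 3)) (decide (T.Adj 2 4)) (decide (T.Adj 3 4))
  ext u v
  have hc := T.adj_comm
  have key : ∀ u v : Fin 5, u < v → ((F01_G (F01_cd T)).Adj u v ↔ T.Adj u v) := by
    intro u v huv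
    change (u ≠ v ∧ Nat.testBit (F01_cd T) (F01_ix u v) = true) ↔ T.Adj u v
    unfold F01_cd
    fin_cases u <;> fin_cases v <;> first
      | exact absurd huv (by decide)
      | (rw [and_iff_right (by decide)]
         first
          | exact (Bool.eq_iff_iff.1 h0).trans (by simp)
          | exact (Bool.eq_iff_iff.1 h1).trans (by simp)
          | exact (Bool.eq_iff_iff.1 h2).trans (by simp)
          | exact (Bool.eq_iff_iff.1 h3).trans (by simp)
          | exact (Bool.eq_iff_iff.1 h4).trans (by simp)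
          | exact (Bool.eq_iff_iff.1 h5).trans (by simp)
          | exact (Bool.eq_iff_iff.1 h6).trans (by simp)
          | exact (Bool.eq_iff_iff.1 h7).trans (by simp)
          | exact (Bool.eq_iff_iff.1 h8).trans (by simp)
          | exact (Bool.eq_iff_iff.1 h9).trans (by simp))
  rcases lt_trichotomy u v with h | h | h
  · exact key u v h
  · subst h
    simp
  · rw [SimpleGraph.adj_comm, T.adj_comm]
    exact key v u h

theorem F01_cross (T : SimpleGraph (Fin 5)) (hT : T.IsTree) (S : Finset (Fin 5))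
    (hS : S.Nonempty) (hS' : ∃ v, v ∉ S) : ∃ u ∈ S, ∃ v, v ∉ S ∧ T.Adj u v := by
  obtain ⟨a, ha⟩ := hS
  obtain ⟨b, hb⟩ := hS'
  obtain ⟨p⟩ := hT.connected.preconnected a b
  obtain ⟨d, -, h1, h2⟩ := p.exists_boundary_dart (S : Set (Fin 5)) (by exact_mod_cast ha)
    (by exact_mod_cast hb)
  exact ⟨d.fst, by exact_mod_cast h1, d.snd, by exact_mod_cast h2, d.adj⟩

open Classical in
theorem F01_cuts_of (T : SimpleGraph (Fin 5)) (hT : T.IsTree) :
    F01_cuts (decide (T.Adj 0 1)) (decide (T.Adj 0 2)) (decide (T.Adj 0 3)) (decide (T.Adj 0 4)) (decide (T.Adj 1 2)) (decide (T.Adj 1 3)) (decide (T.Adj 1 4)) (decide (T.Adj 2 3)) (decide (T.Adj 2 4)) (decide (T.Adj 3 4)) = true := by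
  unfold F01_cuts
  simp only [Bool.and_eq_true, Bool.or_eq_true, decide_eq_true_eq]
  have hc := T.adj_comm
  refine ⟨⟨⟨⟨⟨⟨⟨⟨⟨⟨⟨⟨⟨⟨?_, ?_⟩, ?_⟩, ?_⟩, ?_⟩, ?_⟩, ?_⟩, ?_⟩, ?_⟩, ?_⟩, ?_⟩, ?_⟩, ?_⟩, ?_⟩, ?_⟩
  · obtain ⟨u, hu, v, hv, h⟩ := F01_cross T hT {0} (by decide) (by decide)
    fin_cases hu <;> fin_cases v <;> first
      | exact absurd (by decide) hv
      | (simp only [Fin.zero_eta, Fin.mk_one, Fin.reduceFinMk] at h
         tauto)
      | (simp only [Fin.zero_eta, Fin.mk_one, Fin.reduceFinMk] at h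
         rw [T.adj_comm] at h
         tauto)
  · obtain ⟨u, hu, v, hv, h⟩ := F01_cross T hT {1} (by decide) (by decide)
    fin_cases hu <;> fin_cases v <;> first
      | exact absurd (by decide) hv
      | (simp only [Fin.zero_eta, Fin.mk_one, Fin.reduceFinMk] at h
         tauto)
      | (simp only [Fin.zero_eta, Fin.mk_one, Fin.reduceFinMk] at h
         rw [T.adj_comm] at h
         tauto)
  · obtain ⟨u, hu, v, hv, h⟩ := F01_cross T hT {2} (by decide) (by decide)
    fin_cases hu <;> fin_cases v <;> first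
      | exact absurd (by decide) hv
      | (simp only [Fin.zero_eta, Fin.mk_one, Fin.reduceFinMk] at h
         tauto)
      | (simp only [Fin.zero_eta, Fin.mk_one, Fin.reduceFinMk] at h
         rw [T.adj_comm] at h
         tauto)
  · obtain ⟨u, hu, v, hv, h⟩ := F01_cross T hT {3} (by decide) (by decide)
    fin_cases hu <;> fin_cases v <;> first
      | exact absurd (by decide) hv
      | (simp only [Fin.zero_eta, Fin.mk_one, Fin.reduceFinMk] at h
         tauto)
      | (simp only [Fin.zero_eta, Fin.mk_one, Fin.reduceFinMk] at h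
         rw [T.adj_comm] at h
         tauto)
  · obtain ⟨u, hu, v, hv, h⟩ := F01_cross T hT {4} (by decide) (by decide)
    fin_cases hu <;> fin_cases v <;> first
      | exact absurd (by decide) hv
      | (simp only [Fin.zero_eta, Fin.mk_one, Fin.reduceFinMk] at h
         tauto)
      | (simp only [Fin.zero_eta, Fin.mk_one, Fin.reduceFinMk] at h
         rw [T.adj_comm] at h
         tauto)
  · obtain ⟨u, hu, v, hv, h⟩ := F01_cross T hT {0, 1} (by decide) (by decide)
    fin_cases hu <;> fin_cases v <;> first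
      | exact absurd (by decide) hv
      | (simp only [Fin.zero_eta, Fin.mk_one, Fin.reduceFinMk] at h
         tauto)
      | (simp only [Fin.zero_eta, Fin.mk_one, Fin.reduceFinMk] at h
         rw [T.adj_comm] at h
         tauto)
  · obtain ⟨u, hu, v, hv, h⟩ := F01_cross T hT {0, 2} (by decide) (by decide)
    fin_cases hu <;> fin_cases v <;> first
      | exact absurd (by decide) hv
      | (simp only [Fin.zero_eta, Fin.mk_one, Fin.reduceFinMk] at h
         tauto)
      | (simp only [Fin.zero_eta, Fin.mk_one, Fin.reduceFinMk] at h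
         rw [T.adj_comm] at h
         tauto)
  · obtain ⟨u, hu, v, hv, h⟩ := F01_cross T hT {0, 3} (by decide) (by decide)
    fin_cases hu <;> fin_cases v <;> first
      | exact absurd (by decide) hv
      | (simp only [Fin.zero_eta, Fin.mk_one, Fin.reduceFinMk] at h
         tauto)
      | (simp only [Fin.zero_eta, Fin.mk_one, Fin.reduceFinMk] at h
         rw [T.adj_comm] at h
         tauto)
  · obtain ⟨u, hu, v, hv, h⟩ := F01_cross T hT {0, 4} (by decide) (by decide)
    fin_cases hu <;> fin_cases v <;> first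
      | exact absurd (by decide) hv
      | (simp only [Fin.zero_eta, Fin.mk_one, Fin.reduceFinMk] at h
         tauto)
      | (simp only [Fin.zero_eta, Fin.mk_one, Fin.reduceFinMk] at h
         rw [T.adj_comm] at h
         tauto)
  · obtain ⟨u, hu, v, hv, h⟩ := F01_cross T hT {1, 2} (by decide) (by decide)
    fin_cases hu <;> fin_cases v <;> first
      | exact absurd (by decide) hv
      | (simp only [Fin.zero_eta, Fin.mk_one, Fin.reduceFinMk] at h
         tauto)
      | (simp only [Fin.zero_eta, Fin.mk_one, Fin.reduceFinMk] at h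
         rw [T.adj_comm] at h
         tauto)
  · obtain ⟨u, hu, v, hv, h⟩ := F01_cross T hT {1, 3} (by decide) (by decide)
    fin_cases hu <;> fin_cases v <;> first
      | exact absurd (by decide) hv
      | (simp only [Fin.zero_eta, Fin.mk_one, Fin.reduceFinMk] at h
         tauto)
      | (simp only [Fin.zero_eta, Fin.mk_one, Fin.reduceFinMk] at h
         rw [T.adj_comm] at h
         tauto)
  · obtain ⟨u, hu, v, hv, h⟩ := F01_cross T hT {1, 4} (by decide) (by decide)
    fin_cases hu <;> fin_cases v <;> first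
      | exact absurd (by decide) hv
      | (simp only [Fin.zero_eta, Fin.mk_one, Fin.reduceFinMk] at h
         tauto)
      | (simp only [Fin.zero_eta, Fin.mk_one, Fin.reduceFinMk] at h
         rw [T.adj_comm] at h
         tauto)
  · obtain ⟨u, hu, v, hv, h⟩ := F01_cross T hT {2, 3} (by decide) (by decide)
    fin_cases hu <;> fin_cases v <;> first
      | exact absurd (by decide) hv
      | (simp only [Fin.zero_eta, Fin.mk_one, Fin.reduceFinMk] at h
         tauto)
      | (simp only [Fin.zero_eta, Fin.mk_one, Fin.reduceFinMk] at h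
         rw [T.adj_comm] at h
         tauto)
  · obtain ⟨u, hu, v, hv, h⟩ := F01_cross T hT {2, 4} (by decide) (by decide)
    fin_cases hu <;> fin_cases v <;> first
      | exact absurd (by decide) hv
      | (simp only [Fin.zero_eta, Fin.mk_one, Fin.reduceFinMk] at h
         tauto)
      | (simp only [Fin.zero_eta, Fin.mk_one, Fin.reduceFinMk] at h
         rw [T.adj_comm] at h
         tauto)
  · obtain ⟨u, hu, v, hv, h⟩ := F01_cross T hT {3, 4} (by decide) (by decide)
    fin_cases hu <;> fin_cases v <;> first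
      | exact absurd (by decide) hv
      | (simp only [Fin.zero_eta, Fin.mk_one, Fin.reduceFinMk] at h
         tauto)
      | (simp only [Fin.zero_eta, Fin.mk_one, Fin.reduceFinMk] at h
         rw [T.adj_comm] at h
         tauto)

open Classical in
theorem F01_count_of (T : SimpleGraph (Fin 5)) (hT : T.IsTree) :
    F01_count (decide (T.Adj 0 1)) (decide (T.Adj 0 2)) (decide (T.Adj 0 3)) (decide (T.Adj 0 4)) (decide (T.Adj 1 2)) (decide (T.Adj 1 3)) (decide (T.Adj 1 4)) (decide (T.Adj 2 3)) (decide (T.Adj 2 4)) (decide (T.Adj 3 4)) = 4 := by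
  have h1 := hT.card_edgeFinset
  have h2 := T.sum_degrees_eq_twice_card_edges
  rw [Fintype.card_fin] at h1
  have h3 : ∀ v, T.degree v = ∑ u : Fin 5, (decide (T.Adj v u)).toNat := by
    intro v
    rw [← SimpleGraph.card_neighborFinset_eq_degree, SimpleGraph.neighborFinset_eq_filter,
      Finset.card_filter]
    refine Finset.sum_congr rfl fun u _ => ?_
    by_cases h : T.Adj v u
    · simp [h]
    · simp [h]
  simp only [h3, Fin.sum_univ_five] at h2
  have hc := fun u v => T.adj_comm u v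
  rw [hc 1 0, hc 2 0, hc 3 0, hc 4 0, hc 2 1, hc 3 1, hc 4 1, hc 3 2, hc 4 2, hc 4 3] at h2
  simp only [SimpleGraph.irrefl, decide_false, Bool.toNat_false] at h2
  unfold F01_count
  omega

theorem F01_cd_mem (T : SimpleGraph (Fin 5)) (hT : T.IsTree) :
    F01_cd T ∈ (F01_P ++ F01_C ++ F01_S).map Prod.fst :=
  F01_key _ _ _ _ _ _ _ _ _ _ (F01_cuts_of T hT) (F01_count_of T hT)

theorem F01_inj : ∀ k ∈ (F01_P ++ F01_C ++ F01_S).map Prod.fst,
    ∀ k' ∈ (F01_P ++ F01_C ++ F01_S).map Prod.fst, F01_G k = F01_G k' → k = k' := by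
  intro k hk k' hk' h
  have hk1 := F01_lt k hk
  have hk1' := F01_lt k' hk'
  have hadj : ∀ u v, u ≠ v → Nat.testBit k (F01_ix u v) = Nat.testBit k' (F01_ix u v) := by
    intro u v huv
    have h1 : (F01_G k).Adj u v ↔ (F01_G k').Adj u v := by rw [h]
    have h2 : (u ≠ v ∧ Nat.testBit k (F01_ix u v) = true) ↔
      (u ≠ v ∧ Nat.testBit k' (F01_ix u v) = true) := h1
    rw [and_iff_right huv, and_iff_right huv] at h2
    exact Bool.eq_iff_iff.2 h2
  apply Nat.eq_of_testBit_eq
  intro i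
  by_cases hi : i < 10
  · interval_cases i
    · exact hadj 0 1 (by decide)
    · exact hadj 0 2 (by decide)
    · exact hadj 0 3 (by decide)
    · exact hadj 0 4 (by decide)
    · exact hadj 1 2 (by decide)
    · exact hadj 1 3 (by decide)
    · exact hadj 1 4 (by decide)
    · exact hadj 2 3 (by decide)
    · exact hadj 2 4 (by decide)
    · exact hadj 3 4 (by decide)
  · have h2 : 2 ^ 10 ≤ 2 ^ i := Nat.pow_le_pow_right (by norm_num) (by omega)
    rw [Nat.testBit_lt_two_pow (lt_of_lt_of_le hk1 h2),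
      Nat.testBit_lt_two_pow (lt_of_lt_of_le hk1' h2)]

theorem F01_tree_of (k : ℕ) (h : ∀ v, (F01_G k).Reachable 0 v)
    (hc : Nat.card (F01_G k).edgeSet = 4) : (F01_G k).IsTree := by
  rw [SimpleGraph.isTree_iff_connected_and_card]
  refine ⟨(SimpleGraph.connected_iff_exists_forall_reachable _).2 ⟨0, h⟩, ?_⟩
  rw [hc, Nat.card_eq_fintype_card, Fintype.card_fin]

theorem F01_tree_P : (F01_G 657).IsTree := by
  have a1 : (F01_G 657).Adj 0 1 := by decide +kernel
  have a2 : (F01_G 657).Adj 1 2 := by decide +kernel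
  have a3 : (F01_G 657).Adj 2 3 := by decide +kernel
  have a4 : (F01_G 657).Adj 3 4 := by decide +kernel
  refine F01_tree_of _ ?_ ?_
  · intro v
    have r1 := a1.reachable
    have r2 := r1.trans a2.reachable
    have r3 := r2.trans a3.reachable
    have r4 := r3.trans a4.reachable
    fin_cases v
    · exact SimpleGraph.Reachable.refl _
    · exact r1
    · exact r2
    · exact r3
    · exact r4
  · rw [Nat.card_eq_fintype_card]
    decide +kernel

theorem F01_tree_C : (F01_G 29).IsTree := by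
  have a1 : (F01_G 29).Adj 0 1 := by decide +kernel
  have a2 : (F01_G 29).Adj 1 2 := by decide +kernel
  have a3 : (F01_G 29).Adj 0 3 := by decide +kernel
  have a4 : (F01_G 29).Adj 0 4 := by decide +kernel
  refine F01_tree_of _ ?_ ?_
  · intro v
    have r1 := a1.reachable
    fin_cases v
    · exact SimpleGraph.Reachable.refl _
    · exact r1
    · exact r1.trans a2.reachable
    · exact a3.reachable
    · exact a4.reachable
  · rw [Nat.card_eq_fintype_card]
    decide +kernel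

theorem F01_tree_S : (F01_G 15).IsTree := by
  have a1 : (F01_G 15).Adj 0 1 := by decide +kernel
  have a2 : (F01_G 15).Adj 0 2 := by decide +kernel
  have a3 : (F01_G 15).Adj 0 3 := by decide +kernel
  have a4 : (F01_G 15).Adj 0 4 := by decide +kernel
  refine F01_tree_of _ ?_ ?_
  · intro v
    fin_cases v
    · exact SimpleGraph.Reachable.refl _
    · exact a1.reachable
    · exact a2.reachable
    · exact a3.reachable
    · exact a4.reachable
  · rw [Nat.card_eq_fintype_card]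
    decide +kernel

/-- the isomorphism -/
noncomputable def F01_iso (k k0 : ℕ) (p : Fin 5 → Fin 5) (hp : Function.Injective p)
    (h : ∀ u v, (F01_G k).Adj (p u) (p v) ↔ (F01_G k0).Adj u v) : F01_G k0 ≃g F01_G k where
  toEquiv := Equiv.ofBijective p (Finite.injective_iff_bijective.1 hp)
  map_rel_iff' := by
    intro u v
    exact h u v

open Classical in
theorem F01_edge (T : SimpleGraph (Fin 5)) (e : Sym2 (Fin 5)) : e ∈ T.edgeFinset ↔ e ∈ T.edgeSet :=
  SimpleGraph.mem_edgeFinset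

open Classical in
theorem F01_SS_eq {n : ℕ} (c : Sym2 (Fin n) → ZMod 4) (T : SimpleGraph (Fin 5))
    (s : Finset (Sym2 (Fin 5))) (h : ∀ e, e ∈ T.edgeSet ↔ e ∈ s) (f : Fin 5 → Fin n) :
    SS c T f = ∑ e ∈ s, c (e.map f) := by
  unfold SS
  refine Finset.sum_congr ?_ fun e _ => rfl
  ext e
  rw [SimpleGraph.mem_edgeFinset]
  exact h e

open Classical in
theorem F01_SS {n : ℕ} (c : Sym2 (Fin n) → ZMod 4) (T T0 : SimpleGraph (Fin 5)) (p : Fin 5 → Fin 5)
    (hp : Function.Injective p) (h : ∀ u v, T.Adj (p u) (p v) ↔ T0.Adj u v)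
    (f : Fin 5 → Fin n) : SS c T0 (f ∘ p) = SS c T f := by
  have hsurj : Function.Surjective p := Finite.injective_iff_surjective.1 hp
  unfold SS
  refine Finset.sum_bij (fun e _ => e.map p) ?_ ?_ ?_ ?_
  · intro e he
    rw [SimpleGraph.mem_edgeFinset] at he ⊢
    induction e using Sym2.ind with
    | _ u v => exact (h u v).2 he
  · intro e _ e' _ hee
    exact Sym2.map.injective hp hee
  · intro e he
    rw [SimpleGraph.mem_edgeFinset] at he
    induction e using Sym2.ind with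
    | _ u v =>
      obtain ⟨u, rfl⟩ := hsurj u
      obtain ⟨v, rfl⟩ := hsurj v
      refine ⟨s(u, v), ?_, rfl⟩
      rw [SimpleGraph.mem_edgeFinset]
      exact (h u v).1 he
  · intro e _
    rw [Sym2.map_map]

open Classical in
theorem F01_cnt' {n : ℕ} (c : Sym2 (Fin n) → ZMod 4) (T T0 : SimpleGraph (Fin 5)) (p : Fin 5 → Fin 5)
    (hp : Function.Injective p) (h : ∀ u v, T.Adj (p u) (p v) ↔ T0.Adj u v) :
    cnt c T = cnt c T0 := by
  have hbij : Function.Bijective p := Finite.injective_iff_bijective.1 hp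
  unfold cnt
  refine Finset.card_bij (fun f _ => f ∘ p) ?_ ?_ ?_
  · intro f hf
    rw [mem_filter] at hf ⊢
    exact ⟨mem_univ _, hf.2.1.comp hp, by rw [F01_SS c T T0 p hp h]; exact hf.2.2⟩
  · intro f _ g _ hfg
    exact hbij.2.injective_comp_right hfg
  · intro g hg
    rw [mem_filter] at hg
    set q := Equiv.ofBijective p hbij with hq
    have hgq : (g ∘ q.symm) ∘ p = g := by
      funext x
      change g (q.symm (q x)) = g x
      rw [Equiv.symm_apply_apply]
    refine ⟨g ∘ q.symm, ?_, hgq⟩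
    rw [mem_filter]
    refine ⟨mem_univ _, hg.2.1.comp q.symm.injective, ?_⟩
    rw [← F01_SS c T T0 p hp h, hgq]
    exact hg.2.2

theorem F01_cnt {n : ℕ} (c : Sym2 (Fin n) → ZMod 4) (k k0 : ℕ) (p : Fin 5 → Fin 5)
    (hp : Function.Injective p) (h : ∀ u v, (F01_G k).Adj (p u) (p v) ↔ (F01_G k0).Adj u v) :
    cnt c (F01_G k) = cnt c (F01_G k0) := F01_cnt' c _ _ p hp h

theorem F01_nPath {n : ℕ} (c : Sym2 (Fin n) → ZMod 4) : cnt c (F01_G 657) = nPath c := by
  unfold cnt nPath
  congr 1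
  refine Finset.filter_congr fun f _ => ?_
  refine and_congr_right fun _ => ?_
  have hE : ∀ e : Sym2 (Fin 5), e ∈ (F01_G 657).edgeSet ↔
      e ∈ ({s(0, 1), s(1, 2), s(2, 3), s(3, 4)} : Finset (Sym2 (Fin 5))) := by
    intro e
    induction e using Sym2.ind with
    | _ u v => revert u v; decide +kernel
  have h1 : SS c (F01_G 657) f = c s(f 0, f 1) + c s(f 1, f 2) + c s(f 2, f 3) + c s(f 3, f 4) := by
    rw [F01_SS_eq c _ _ hE f,
      Finset.sum_insert (by decide), Finset.sum_insert (by decide), Finset.sum_insert (by decide),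
      Finset.sum_singleton]
    simp only [Sym2.map_mk]
    ring
  rw [h1]

theorem F01_nChair {n : ℕ} (c : Sym2 (Fin n) → ZMod 4) : cnt c (F01_G 29) = nChair c := by
  unfold cnt nChair
  congr 1
  refine Finset.filter_congr fun f _ => ?_
  refine and_congr_right fun _ => ?_
  have hE : ∀ e : Sym2 (Fin 5), e ∈ (F01_G 29).edgeSet ↔
      e ∈ ({s(0, 1), s(1, 2), s(0, 3), s(0, 4)} : Finset (Sym2 (Fin 5))) := by
    intro e
    induction e using Sym2.ind with
    | _ u v => revert u v; decide +kernel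
  have h1 : SS c (F01_G 29) f = c s(f 0, f 1) + c s(f 1, f 2) + c s(f 0, f 3) + c s(f 0, f 4) := by
    rw [F01_SS_eq c _ _ hE f,
      Finset.sum_insert (by decide), Finset.sum_insert (by decide), Finset.sum_insert (by decide),
      Finset.sum_singleton]
    simp only [Sym2.map_mk]
    ring
  rw [h1]

theorem F01_nStar {n : ℕ} (c : Sym2 (Fin n) → ZMod 4) : cnt c (F01_G 15) = nStar c := by
  unfold cnt nStar
  congr 1
  refine Finset.filter_congr fun f _ => ?_
  refine and_congr_right fun _ => ?_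
  have hE : ∀ e : Sym2 (Fin 5), e ∈ (F01_G 15).edgeSet ↔
      e ∈ ({s(0, 1), s(0, 2), s(0, 3), s(0, 4)} : Finset (Sym2 (Fin 5))) := by
    intro e
    induction e using Sym2.ind with
    | _ u v => revert u v; decide +kernel
  have h1 : SS c (F01_G 15) f = c s(f 0, f 1) + c s(f 0, f 2) + c s(f 0, f 3) + c s(f 0, f 4) := by
    rw [F01_SS_eq c _ _ hE f,
      Finset.sum_insert (by decide), Finset.sum_insert (by decide), Finset.sum_insert (by decide),
      Finset.sum_singleton]
    simp only [Sym2.map_mk]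
    ring
  rw [h1]

theorem F01_isTree : ∀ e ∈ F01_P ++ F01_C ++ F01_S, (F01_G e.1).IsTree := by
  intro e he
  rw [List.mem_append, List.mem_append] at he
  rcases he with (he | he) | he
  · obtain ⟨h1, h2⟩ := F01_checkP e he
    exact (F01_iso e.1 657 e.2 h1 h2).isTree_iff.1 F01_tree_P
  · obtain ⟨h1, h2⟩ := F01_checkC e he
    exact (F01_iso e.1 29 e.2 h1 h2).isTree_iff.1 F01_tree_C
  · obtain ⟨h1, h2⟩ := F01_checkS e he
    exact (F01_iso e.1 15 e.2 h1 h2).isTree_iff.1 F01_tree_S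

open Classical in
theorem F01_TT : TT 4 = (((F01_P ++ F01_C ++ F01_S).map Prod.fst).toFinset).image F01_G := by
  ext T
  unfold TT
  rw [mem_filter, mem_image]
  constructor
  · rintro ⟨-, hT⟩
    exact ⟨F01_cd T, List.mem_toFinset.2 (F01_cd_mem T hT), F01_G_cd T⟩
  · rintro ⟨k, hk, rfl⟩
    rw [List.mem_toFinset, List.mem_map] at hk
    obtain ⟨e, he, rfl⟩ := hk
    exact ⟨mem_univ _, F01_isTree e he⟩

theorem F01_injOn : Set.InjOn F01_G
    ((((F01_P ++ F01_C ++ F01_S).map Prod.fst).toFinset : Finset ℕ) : Set ℕ) := by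
  intro k hk k' hk' h
  rw [mem_coe, List.mem_toFinset] at hk hk'
  exact F01_inj k hk k' hk' h

theorem F01_sum_const {n : ℕ} (c : Sym2 (Fin n) → ZMod 4) (L : List (ℕ × (Fin 5 → Fin 5))) (a : ℕ)
    (h : ∀ e ∈ L, cnt c (F01_G e.1) = a) :
    (L.map fun e => cnt c (F01_G e.1)).sum = L.length * a := by
  induction L with
  | nil => simp
  | cons e L ih =>
    rw [List.map_cons, List.sum_cons, h e (by simp), ih fun e he => h e (by simp [he]),
      List.length_cons]
    ring

theorem tot_four {n : ℕ} (c : Sym2 (Fin n) → ZMod 4) :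
    tot c = 60 * nPath c + 60 * nChair c + 5 * nStar c := by
  classical
  unfold tot
  rw [F01_TT, Finset.sum_image F01_injOn, List.sum_toFinset _ F01_nodup, List.map_map,
    List.map_append, List.map_append, List.sum_append, List.sum_append]
  have hP := F01_sum_const c F01_P (nPath c) fun e he => by
    obtain ⟨h1, h2⟩ := F01_checkP e he
    rw [F01_cnt c e.1 657 e.2 h1 h2, F01_nPath]
  have hC := F01_sum_const c F01_C (nChair c) fun e he => by
    obtain ⟨h1, h2⟩ := F01_checkC e he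
    rw [F01_cnt c e.1 29 e.2 h1 h2, F01_nChair]
  have hS := F01_sum_const c F01_S (nStar c) fun e he => by
    obtain ⟨h1, h2⟩ := F01_checkS e he
    rw [F01_cnt c e.1 15 e.2 h1 h2, F01_nStar]
  have lP : F01_P.length = 60 := rfl
  have lC : F01_C.length = 60 := rfl
  have lS : F01_S.length = 5 := rfl
  rw [lP] at hP
  rw [lC] at hC
  rw [lS] at hS
  have hf : ((fun k => cnt c (F01_G k)) ∘ Prod.fst) =
    fun e : ℕ × (Fin 5 → Fin 5) => cnt c (F01_G e.1) := rfl
  rw [hf, hP, hC, hS]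

theorem card_TT_four : (TT 4).card = 125 := by
  classical
  rw [F01_TT, Finset.card_image_of_injOn F01_injOn, List.toFinset_card_of_nodup F01_nodup]
  rfl

end Pool.Agent.MP5g
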