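import Mathlib
import Pool.Agent.MP_5f2667_co.L.FDefs

set_option autoImplicit false

open Finset

/-
Proof. The number of all maps f : Fin 5 -> Fin n (not only injective) with colour sum 0 is, for the path centred at x = f 2: sum_x sum_k #(2-walks f2 f1 f0 with sum k) * #(2-walks f2 f3 f4 with sum -k) = n^4 sum_x sum_k ph x k * ph x (-k);
for the chair: centre x = f 0, 2-walk f0 f1 f2 and pair f3, f4: ph x k * rh x (-k); for the star: rh x k * rh x (-k). At most 10 n^4 of the n^5 maps are not injective (10 pairs of indices).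
(n = 0: everything is 0.) Note c s(a,b) is symmetric in a, b.
-/

namespace Pool.Agent.MP5g

theorem F02_conv {n : ℕ} (s1 s2 : Fin n × Fin n → ZMod 4) :
    (univ.filter (fun r : (Fin n × Fin n) × (Fin n × Fin n) => s1 r.1 + s2 r.2 = 0)).card =
      ∑ k : ZMod 4, (univ.filter (fun p => s1 p = k)).card *
        (univ.filter (fun p => s2 p = -k)).card := by
  rw [Finset.card_eq_sum_card_fiberwise (f := fun r => s1 r.1) (t := univ) (by simp)]
  apply Finset.sum_congr rfl
  intro k _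
  rw [← Finset.card_product]
  congr 1
  ext ⟨p, q⟩
  simp only [Finset.mem_filter, Finset.mem_univ, true_and, Finset.mem_product]
  constructor
  · rintro ⟨h1, h2⟩
    refine ⟨h2, ?_⟩
    rw [← h2]
    exact eq_neg_of_add_eq_zero_right h1
  · rintro ⟨h1, h2⟩
    refine ⟨?_, h1⟩
    rw [h1, h2]
    exact add_neg_cancel k

theorem F02_eq {n : ℕ} (i j : Fin 5) (hij : i ≠ j) :
    (univ.filter (fun f : Fin 5 → Fin n => f i = f j)).card ≤ n ^ 4 := by
  have h1 : (univ.filter (fun f : Fin 5 → Fin n => f i = f j)).card ≤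
      (univ : Finset ({k : Fin 5 // k ≠ j} → Fin n)).card := by
    apply Finset.card_le_card_of_injOn (fun f => fun k : {k : Fin 5 // k ≠ j} => f k)
    · intro f _
      exact Finset.mem_coe.2 (Finset.mem_univ _)
    · intro f hf g hg hfg
      have hf' := (Finset.mem_filter.1 (Finset.mem_coe.1 hf)).2
      have hg' := (Finset.mem_filter.1 (Finset.mem_coe.1 hg)).2
      have hk : ∀ k : Fin 5, k ≠ j → f k = g k := fun k hk => congrFun hfg ⟨k, hk⟩
      funext k
      by_cases h : k = j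
      · rw [h, ← hf', ← hg']
        exact hk i hij
      · exact hk k h
  refine h1.trans (le_of_eq ?_)
  rw [Finset.card_univ, Fintype.card_fun, Fintype.card_fin]
  have h4 : ∀ j : Fin 5, Fintype.card {k : Fin 5 // k ≠ j} = 4 := by decide
  rw [h4 j]

theorem F02_noninj {n : ℕ} (N : Finset (Fin 5 → Fin n)) (hN : ∀ f ∈ N, ¬ Function.Injective f) :
    N.card ≤ 10 * n ^ 4 := by
  classical
  have hsub : N ⊆ (univ.filter (fun p : Fin 5 × Fin 5 => p.1 < p.2)).biUnion
      (fun p => univ.filter (fun f : Fin 5 → Fin n => f p.1 = f p.2)) := by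
    intro f hf
    have h1 := hN f hf
    unfold Function.Injective at h1
    push Not at h1
    obtain ⟨i, j, hij, hne⟩ := h1
    rw [Finset.mem_biUnion]
    rcases lt_or_gt_of_ne hne with h | h
    · exact ⟨(i, j), by simp [h], by simp [hij]⟩
    · exact ⟨(j, i), by simp [h], by simp [hij]⟩
  refine (Finset.card_le_card hsub).trans ?_
  have h2 := Finset.card_biUnion_le_card_mul (univ.filter (fun p : Fin 5 × Fin 5 => p.1 < p.2))
      (fun p => univ.filter (fun f : Fin 5 → Fin n => f p.1 = f p.2)) (n ^ 4) (by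
        intro p hp
        exact F02_eq p.1 p.2 (ne_of_lt (Finset.mem_filter.1 hp).2))
  have h3 : (univ.filter (fun p : Fin 5 × Fin 5 => p.1 < p.2)).card = 10 := by decide
  rw [h3] at h2
  exact h2

theorem F02_main {n : ℕ} (P : (Fin 5 → Fin n) → ZMod 4)
    (e : (Fin 5 → Fin n) ≃ Fin n × ((Fin n × Fin n) × (Fin n × Fin n)))
    (s1 s2 : Fin n → Fin n × Fin n → ZMod 4)
    (h : ∀ f, P f = s1 (e f).1 (e f).2.1 + s2 (e f).1 (e f).2.2)
    (S : Finset (Fin 5 → Fin n)) (hS : ∀ f, Function.Injective f → P f = 0 → f ∈ S) :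
    ∑ x : Fin n, ∑ k : ZMod 4, (univ.filter (fun p => s1 x p = k)).card *
        (univ.filter (fun p => s2 x p = -k)).card ≤ S.card + 10 * n ^ 4 := by
  classical
  have h1 : ∑ x : Fin n, ∑ k : ZMod 4, (univ.filter (fun p => s1 x p = k)).card *
        (univ.filter (fun p => s2 x p = -k)).card = (univ.filter (fun f => P f = 0)).card := by
    have h2 : ∀ x : Fin n, ∑ k : ZMod 4, (univ.filter (fun p => s1 x p = k)).card *
        (univ.filter (fun p => s2 x p = -k)).card =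
        ∑ r : (Fin n × Fin n) × (Fin n × Fin n), if s1 x r.1 + s2 x r.2 = 0 then 1 else 0 := by
      intro x
      rw [← F02_conv, Finset.card_filter]
    rw [Finset.sum_congr rfl (fun x _ => h2 x), Finset.card_filter]
    rw [Fintype.sum_equiv e (fun f => if P f = 0 then 1 else 0)
      (fun r => if s1 r.1 r.2.1 + s2 r.1 r.2.2 = 0 then 1 else 0) (fun f => by rw [h f])]
    rw [Fintype.sum_prod_type]
  rw [h1]
  have h3 : univ.filter (fun f => P f = 0) ⊆
      S ∪ univ.filter (fun f : Fin 5 → Fin n => ¬ Function.Injective f) := by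
    intro f hf
    rw [Finset.mem_union]
    by_cases hi : Function.Injective f
    · exact Or.inl (hS f hi (Finset.mem_filter.1 hf).2)
    · exact Or.inr (Finset.mem_filter.2 ⟨Finset.mem_univ _, hi⟩)
  refine (Finset.card_le_card h3).trans ((Finset.card_union_le _ _).trans ?_)
  exact Nat.add_le_add_left (F02_noninj _ (fun f hf => (Finset.mem_filter.1 hf).2)) _

theorem F02_real {n : ℕ} (u v : Fin n → ZMod 4 → ℕ) (N : ℕ)
    (h : ∑ x : Fin n, ∑ k : ZMod 4, u x k * v x (-k) ≤ N + 10 * n ^ 4) :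
    (n : ℝ) ^ 4 * (∑ x : Fin n, ∑ k : ZMod 4, ((u x k : ℝ) / (n : ℝ) ^ 2) *
      ((v x (-k) : ℝ) / (n : ℝ) ^ 2)) - 10 * (n : ℝ) ^ 4 ≤ N := by
  rcases Nat.eq_zero_or_pos n with rfl | hn
  · simp
  have hn' : (n : ℝ) ≠ 0 := by positivity
  have h1 : (n : ℝ) ^ 4 * (∑ x : Fin n, ∑ k : ZMod 4, ((u x k : ℝ) / (n : ℝ) ^ 2) *
      ((v x (-k) : ℝ) / (n : ℝ) ^ 2)) = ((∑ x : Fin n, ∑ k : ZMod 4, u x k * v x (-k) : ℕ) : ℝ) := by
    push_cast
    rw [Finset.mul_sum]
    apply Finset.sum_congr rfl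
    intro x _
    rw [Finset.mul_sum]
    apply Finset.sum_congr rfl
    intro k _
    field_simp
  have h2 : ((∑ x : Fin n, ∑ k : ZMod 4, u x k * v x (-k) : ℕ) : ℝ) ≤
      ((N + 10 * n ^ 4 : ℕ) : ℝ) := by exact_mod_cast h
  rw [h1]
  push_cast at h2 ⊢
  linarith

/-- path: centre `f 2`, walks `f 1, f 0` and `f 3, f 4` -/
def F02_ep (n : ℕ) : (Fin 5 → Fin n) ≃ Fin n × ((Fin n × Fin n) × (Fin n × Fin n)) where
  toFun f := (f 2, ((f 1, f 0), (f 3, f 4)))
  invFun r := ![r.2.1.2, r.2.1.1, r.1, r.2.2.1, r.2.2.2]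
  left_inv f := by
    funext i
    fin_cases i <;> rfl
  right_inv r := rfl

/-- chair: centre `f 0`, pair `f 3, f 4` and walk `f 1, f 2` -/
def F02_ec (n : ℕ) : (Fin 5 → Fin n) ≃ Fin n × ((Fin n × Fin n) × (Fin n × Fin n)) where
  toFun f := (f 0, ((f 3, f 4), (f 1, f 2)))
  invFun r := ![r.1, r.2.2.1, r.2.2.2, r.2.1.1, r.2.1.2]
  left_inv f := by
    funext i
    fin_cases i <;> rfl
  right_inv r := rfl

/-- star: centre `f 0`, pairs `f 1, f 2` and `f 3, f 4` -/
def F02_es (n : ℕ) : (Fin 5 → Fin n) ≃ Fin n × ((Fin n × Fin n) × (Fin n × Fin n)) where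
  toFun f := (f 0, ((f 1, f 2), (f 3, f 4)))
  invFun r := ![r.1, r.2.1.1, r.2.1.2, r.2.2.1, r.2.2.2]
  left_inv f := by
    funext i
    fin_cases i <;> rfl
  right_inv r := rfl

theorem nPath_ge {n : ℕ} (c : Sym2 (Fin n) → ZMod 4) :
    (n : ℝ) ^ 4 * (∑ x, ∑ k, ph c x k * ph c x (-k)) - 10 * (n : ℝ) ^ 4 ≤ nPath c := by
  unfold ph
  refine F02_real (fun x k => (univ.filter (fun p : Fin n × Fin n =>
    c s(x, p.1) + c s(p.1, p.2) = k)).card) (fun x k => (univ.filter (fun p : Fin n × Fin n =>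
    c s(x, p.1) + c s(p.1, p.2) = k)).card) (nPath c) ?_
  refine F02_main (fun f => c s(f 0, f 1) + c s(f 1, f 2) + c s(f 2, f 3) + c s(f 3, f 4))
    (F02_ep n) (fun x p => c s(x, p.1) + c s(p.1, p.2)) (fun x p => c s(x, p.1) + c s(p.1, p.2))
    ?_ _ ?_
  · intro f
    show c s(f 0, f 1) + c s(f 1, f 2) + c s(f 2, f 3) + c s(f 3, f 4) =
      (c s(f 2, f 1) + c s(f 1, f 0)) + (c s(f 2, f 3) + c s(f 3, f 4))
    rw [Sym2.eq_swap (a := f 2) (b := f 1), Sym2.eq_swap (a := f 1) (b := f 0)]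
    ring
  · intro f hi h0
    simp only [Finset.mem_filter, Finset.mem_univ, true_and]
    exact ⟨hi, h0⟩

theorem nChair_ge {n : ℕ} (c : Sym2 (Fin n) → ZMod 4) :
    (n : ℝ) ^ 4 * (∑ x, ∑ k, rh c x k * ph c x (-k)) - 10 * (n : ℝ) ^ 4 ≤ nChair c := by
  unfold ph rh
  refine F02_real (fun x k => (univ.filter (fun p : Fin n × Fin n =>
    c s(x, p.1) + c s(x, p.2) = k)).card) (fun x k => (univ.filter (fun p : Fin n × Fin n =>
    c s(x, p.1) + c s(p.1, p.2) = k)).card) (nChair c) ?_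
  refine F02_main (fun f => c s(f 0, f 1) + c s(f 1, f 2) + c s(f 0, f 3) + c s(f 0, f 4))
    (F02_ec n) (fun x p => c s(x, p.1) + c s(x, p.2)) (fun x p => c s(x, p.1) + c s(p.1, p.2))
    ?_ _ ?_
  · intro f
    show c s(f 0, f 1) + c s(f 1, f 2) + c s(f 0, f 3) + c s(f 0, f 4) =
      (c s(f 0, f 3) + c s(f 0, f 4)) + (c s(f 0, f 1) + c s(f 1, f 2))
    ring
  · intro f hi h0
    simp only [Finset.mem_filter, Finset.mem_univ, true_and]
    exact ⟨hi, h0⟩

theorem nStar_ge {n : ℕ} (c : Sym2 (Fin n) → ZMod 4) :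
    (n : ℝ) ^ 4 * (∑ x, ∑ k, rh c x k * rh c x (-k)) - 10 * (n : ℝ) ^ 4 ≤ nStar c := by
  unfold rh
  refine F02_real (fun x k => (univ.filter (fun p : Fin n × Fin n =>
    c s(x, p.1) + c s(x, p.2) = k)).card) (fun x k => (univ.filter (fun p : Fin n × Fin n =>
    c s(x, p.1) + c s(x, p.2) = k)).card) (nStar c) ?_
  refine F02_main (fun f => c s(f 0, f 1) + c s(f 0, f 2) + c s(f 0, f 3) + c s(f 0, f 4))
    (F02_es n) (fun x p => c s(x, p.1) + c s(x, p.2)) (fun x p => c s(x, p.1) + c s(x, p.2))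
    ?_ _ ?_
  · intro f
    show c s(f 0, f 1) + c s(f 0, f 2) + c s(f 0, f 3) + c s(f 0, f 4) =
      (c s(f 0, f 1) + c s(f 0, f 2)) + (c s(f 0, f 3) + c s(f 0, f 4))
    ring
  · intro f hi h0
    simp only [Finset.mem_filter, Finset.mem_univ, true_and]
    exact ⟨hi, h0⟩

end Pool.Agent.MP5g
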