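import Mathlib
import Pool.Agent.MP_5f2667_co.L.FDefs

set_option autoImplicit false

open Finset

/-
Proofs. mu_sum: every y has exactly one of the four colours. rh_eq: a pair (y,z) with c(x,y) + c(x,z) = k: sum over j = c(x,y) of (n mu_j)(n mu_(k-j)), divided by n^2; write out the four sums in ZMod 4.
ph_even: sum over x of the number of 2-walks x, y, z with even sum = number of triples (x,y,z) with c(x,y)+c(y,z) in (0,2) = sum over the middle y of #(pairs (x,z) with c(y,x)+c(y,z) in (0,2)) = sum_y n^2 ((mu0+mu2)^2+(mu1+mu3)^2)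
(both even or both odd). ph_sum is not needed.
-/

namespace Pool.Agent.MP5g

theorem F03_four {R : Type*} [AddCommMonoid R] (f : ZMod 4 → R) :
    ∑ j, f j = f 0 + f 1 + f 2 + f 3 := Fin.sum_univ_four f

theorem F03_fib {n : ℕ} (f : Fin n → ZMod 4) (F : ZMod 4 → ℝ) :
    ∑ y, F (f y) = ∑ j, ((univ.filter fun y => f y = j).card : ℝ) * F j := by
  rw [← Finset.sum_fiberwise (univ : Finset (Fin n)) f fun y => F (f y)]
  apply Finset.sum_congr rfl
  intro j _
  rw [Finset.sum_congr rfl (g := fun _ => F j) (by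
    intro y hy
    rw [(Finset.mem_filter.1 hy).2]), Finset.sum_const, nsmul_eq_mul]

theorem F03_pair {n : ℕ} (f : Fin n → ZMod 4) (P : ZMod 4 → Prop) [DecidablePred P] :
    ∑ y, ∑ z, (if P (f y + f z) then (1 : ℝ) else 0) =
      ∑ j, ∑ l, ((univ.filter fun y => f y = j).card : ℝ) *
        (((univ.filter fun y => f y = l).card : ℝ) * (if P (j + l) then 1 else 0)) := by
  have h1 : ∀ y, (∑ z, (if P (f y + f z) then (1 : ℝ) else 0)) =
      ∑ l, ((univ.filter fun y => f y = l).card : ℝ) * (if P (f y + l) then 1 else 0) :=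
    fun y => F03_fib f fun l => if P (f y + l) then 1 else 0
  simp only [h1]
  rw [F03_fib f fun j => ∑ l, ((univ.filter fun y => f y = l).card : ℝ) *
    (if P (j + l) then 1 else 0)]
  apply Finset.sum_congr rfl
  intro j _
  rw [Finset.mul_sum]

theorem F03_card {n : ℕ} (Q : Fin n → Fin n → Prop) [∀ x y, Decidable (Q x y)] :
    ((univ.filter (fun p : Fin n × Fin n => Q p.1 p.2)).card : ℝ) =
      ∑ y, ∑ z, (if Q y z then (1 : ℝ) else 0) := by
  rw [Finset.card_filter]
  push_cast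
  rw [← Finset.univ_product_univ, Finset.sum_product]

theorem mu_nonneg {n : ℕ} (c : Sym2 (Fin n) → ZMod 4) (x : Fin n) (k : ZMod 4) : 0 ≤ mu c x k := by
  unfold mu
  positivity

theorem ph_nonneg {n : ℕ} (c : Sym2 (Fin n) → ZMod 4) (x : Fin n) (k : ZMod 4) : 0 ≤ ph c x k := by
  unfold ph
  positivity

theorem mu_sum {n : ℕ} (c : Sym2 (Fin n) → ZMod 4) (x : Fin n) :
    mu c x 0 + mu c x 1 + mu c x 2 + mu c x 3 = 1 := by
  have h := F03_fib (fun y => c s(x, y)) fun _ => (1 : ℝ)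
  rw [F03_four] at h
  have hn : (n : ℝ) ≠ 0 := by
    have : 0 < n := x.pos
    positivity
  unfold mu
  field_simp
  simp only [Finset.sum_const, Finset.card_univ, Fintype.card_fin, nsmul_eq_mul, mul_one] at h
  linarith

theorem rh_eq {n : ℕ} (c : Sym2 (Fin n) → ZMod 4) (x : Fin n) :
    rh c x 0 = mu c x 0 ^ 2 + mu c x 2 ^ 2 + 2 * mu c x 1 * mu c x 3 ∧
    rh c x 1 = 2 * mu c x 0 * mu c x 1 + 2 * mu c x 2 * mu c x 3 ∧
    rh c x 2 = mu c x 1 ^ 2 + mu c x 3 ^ 2 + 2 * mu c x 0 * mu c x 2 ∧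
    rh c x 3 = 2 * mu c x 0 * mu c x 3 + 2 * mu c x 1 * mu c x 2 := by
  have hn : (n : ℝ) ≠ 0 := by
    have : 0 < n := x.pos
    positivity
  have h : ∀ k, rh c x k = (∑ j, ∑ l, ((univ.filter fun y => c s(x, y) = j).card : ℝ) *
        (((univ.filter fun y => c s(x, y) = l).card : ℝ) * (if j + l = k then 1 else 0)))
          / (n : ℝ) ^ 2 := by
    intro k
    unfold rh
    rw [F03_card (fun y z => c s(x, y) + c s(x, z) = k),
      F03_pair (fun y => c s(x, y)) (fun i => i = k)]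
  have a00 : (0 + 0 : ZMod 4) = 0 := by decide
  have a01 : (0 + 1 : ZMod 4) = 1 := by decide
  have a02 : (0 + 2 : ZMod 4) = 2 := by decide
  have a03 : (0 + 3 : ZMod 4) = 3 := by decide
  have a10 : (1 + 0 : ZMod 4) = 1 := by decide
  have a11 : (1 + 1 : ZMod 4) = 2 := by decide
  have a12 : (1 + 2 : ZMod 4) = 3 := by decide
  have a13 : (1 + 3 : ZMod 4) = 0 := by decide
  have a20 : (2 + 0 : ZMod 4) = 2 := by decide
  have a21 : (2 + 1 : ZMod 4) = 3 := by decide
  have a22 : (2 + 2 : ZMod 4) = 0 := by decide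
  have a23 : (2 + 3 : ZMod 4) = 1 := by decide
  have a30 : (3 + 0 : ZMod 4) = 3 := by decide
  have a31 : (3 + 1 : ZMod 4) = 0 := by decide
  have a32 : (3 + 2 : ZMod 4) = 1 := by decide
  have a33 : (3 + 3 : ZMod 4) = 2 := by decide
  have d01 : ((0 : ZMod 4) = 1) = False := eq_false (by decide)
  have d02 : ((0 : ZMod 4) = 2) = False := eq_false (by decide)
  have d03 : ((0 : ZMod 4) = 3) = False := eq_false (by decide)
  have d10 : ((1 : ZMod 4) = 0) = False := eq_false (by decide)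
  have d12 : ((1 : ZMod 4) = 2) = False := eq_false (by decide)
  have d13 : ((1 : ZMod 4) = 3) = False := eq_false (by decide)
  have d20 : ((2 : ZMod 4) = 0) = False := eq_false (by decide)
  have d21 : ((2 : ZMod 4) = 1) = False := eq_false (by decide)
  have d23 : ((2 : ZMod 4) = 3) = False := eq_false (by decide)
  have d30 : ((3 : ZMod 4) = 0) = False := eq_false (by decide)
  have d31 : ((3 : ZMod 4) = 1) = False := eq_false (by decide)
  have d32 : ((3 : ZMod 4) = 2) = False := eq_false (by decide)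
  refine ⟨?_, ?_, ?_, ?_⟩
  all_goals
    rw [h]
    simp only [F03_four, a00, a01, a02, a03, a10, a11, a12, a13, a20, a21, a22, a23, a30, a31,
      a32, a33, d01, d02, d03, d10, d12, d13, d20, d21, d23, d30, d31, d32, if_true, if_false]
    unfold mu
    field_simp
    ring

theorem ph_even {n : ℕ} (c : Sym2 (Fin n) → ZMod 4) :
    ∑ x, (ph c x 0 + ph c x 2) = ∑ x, ((mu c x 0 + mu c x 2) ^ 2 + (mu c x 1 + mu c x 3) ^ 2) := by
  have h1 : ∀ x, ph c x 0 + ph c x 2 =
      (∑ y, ∑ z, (if c s(x, y) + c s(y, z) = 0 ∨ c s(x, y) + c s(y, z) = 2 then (1 : ℝ) else 0))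
        / (n : ℝ) ^ 2 := by
    intro x
    unfold ph
    rw [F03_card (fun y z => c s(x, y) + c s(y, z) = 0),
      F03_card (fun y z => c s(x, y) + c s(y, z) = 2), ← add_div, ← Finset.sum_add_distrib]
    congr 1
    apply Finset.sum_congr rfl
    intro y _
    rw [← Finset.sum_add_distrib]
    apply Finset.sum_congr rfl
    intro z _
    have key : ∀ i : ZMod 4, (if i = 0 then (1 : ℝ) else 0) + (if i = 2 then (1 : ℝ) else 0)
        = if i = 0 ∨ i = 2 then (1 : ℝ) else 0 := by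
      intro i
      by_cases h0 : i = 0
      · have h2 : ¬ i = 2 := by
          rw [h0]
          decide
        simp [h0]
        decide
      · simp [h0]
    exact key _
  have h2 : ∀ y, (∑ x, ∑ z, (if c s(x, y) + c s(y, z) = 0 ∨ c s(x, y) + c s(y, z) = 2
      then (1 : ℝ) else 0)) / (n : ℝ) ^ 2
      = (mu c y 0 + mu c y 2) ^ 2 + (mu c y 1 + mu c y 3) ^ 2 := by
    intro y
    have hn : (n : ℝ) ≠ 0 := by
      have : 0 < n := y.pos
      positivity
    have h3 : (∑ x, ∑ z, (if c s(x, y) + c s(y, z) = 0 ∨ c s(x, y) + c s(y, z) = 2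
        then (1 : ℝ) else 0)) = ∑ x, ∑ z, (if c s(y, x) + c s(y, z) = 0 ∨
          c s(y, x) + c s(y, z) = 2 then (1 : ℝ) else 0) := by
      apply Finset.sum_congr rfl
      intro x _
      rw [Sym2.eq_swap]
    rw [h3, F03_pair (fun x => c s(y, x)) (fun i => i = 0 ∨ i = 2)]
    have b00 : ((0 + 0 : ZMod 4) = 0 ∨ (0 + 0 : ZMod 4) = 2) = True := eq_true (by decide)
    have b01 : ((0 + 1 : ZMod 4) = 0 ∨ (0 + 1 : ZMod 4) = 2) = False := eq_false (by decide)
    have b02 : ((0 + 2 : ZMod 4) = 0 ∨ (0 + 2 : ZMod 4) = 2) = True := eq_true (by decide)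
    have b03 : ((0 + 3 : ZMod 4) = 0 ∨ (0 + 3 : ZMod 4) = 2) = False := eq_false (by decide)
    have b10 : ((1 + 0 : ZMod 4) = 0 ∨ (1 + 0 : ZMod 4) = 2) = False := eq_false (by decide)
    have b11 : ((1 + 1 : ZMod 4) = 0 ∨ (1 + 1 : ZMod 4) = 2) = True := eq_true (by decide)
    have b12 : ((1 + 2 : ZMod 4) = 0 ∨ (1 + 2 : ZMod 4) = 2) = False := eq_false (by decide)
    have b13 : ((1 + 3 : ZMod 4) = 0 ∨ (1 + 3 : ZMod 4) = 2) = True := eq_true (by decide)
    have b20 : ((2 + 0 : ZMod 4) = 0 ∨ (2 + 0 : ZMod 4) = 2) = True := eq_true (by decide)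
    have b21 : ((2 + 1 : ZMod 4) = 0 ∨ (2 + 1 : ZMod 4) = 2) = False := eq_false (by decide)
    have b22 : ((2 + 2 : ZMod 4) = 0 ∨ (2 + 2 : ZMod 4) = 2) = True := eq_true (by decide)
    have b23 : ((2 + 3 : ZMod 4) = 0 ∨ (2 + 3 : ZMod 4) = 2) = False := eq_false (by decide)
    have b30 : ((3 + 0 : ZMod 4) = 0 ∨ (3 + 0 : ZMod 4) = 2) = False := eq_false (by decide)
    have b31 : ((3 + 1 : ZMod 4) = 0 ∨ (3 + 1 : ZMod 4) = 2) = True := eq_true (by decide)
    have b32 : ((3 + 2 : ZMod 4) = 0 ∨ (3 + 2 : ZMod 4) = 2) = False := eq_false (by decide)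
    have b33 : ((3 + 3 : ZMod 4) = 0 ∨ (3 + 3 : ZMod 4) = 2) = True := eq_true (by decide)
    simp only [F03_four, b00, b01, b02, b03, b10, b11, b12, b13, b20, b21, b22, b23, b30, b31,
      b32, b33, if_true, if_false]
    unfold mu
    field_simp
    ring
  simp only [h1]
  rw [← Finset.sum_div, Finset.sum_comm, Finset.sum_div]
  exact Finset.sum_congr rfl fun y _ => h2 y

end Pool.Agent.MP5g
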