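import Mathlib
import Pool.Agent.MP_5f2667_co.L.FDefs

set_option autoImplicit false

open Finset

/-
Pure algebra. With e = m0+m2, o = m1+m3 = 1-e, h = e-1/2, r0+r2 = e^2+o^2 = 1/2+2h^2:
LHS - RHS = 30 (f0-f2+(r0-r2)/2)^2 + 120 f1 f3 + 5[e^4-(m0-m2)^4] + 5[o^4-(m1-m3)^4] - 20(m0 m2 e^2 + m1 m3 o^2), where e^4-(m0-m2)^4 = 4 m0 m2 (e^2+(m0-m2)^2) >= 4 m0 m2 e^2, the same for o.
(Substitute the r's, and m3 = 1-m0-m1-m2, then linear_combination / nlinarith with these nonnegative terms.)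
-/

namespace Pool.Agent.MP5g

theorem pointwise (m0 m1 m2 m3 f0 f1 f2 f3 r0 r1 r2 r3 : ℝ) (h0 : 0 ≤ m0) (h1 : 0 ≤ m1) (h2 : 0 ≤ m2)
    (h3 : 0 ≤ m3) (hs : m0 + m1 + m2 + m3 = 1) (g1 : 0 ≤ f1) (g3 : 0 ≤ f3)
    (hr0 : r0 = m0 ^ 2 + m2 ^ 2 + 2 * m1 * m3) (hr1 : r1 = 2 * m0 * m1 + 2 * m2 * m3)
    (hr2 : r2 = m1 ^ 2 + m3 ^ 2 + 2 * m0 * m2) (hr3 : r3 = 2 * m0 * m3 + 2 * m1 * m2) :
    30 * (f0 + f2 + 1 / 4 + (m0 + m2 - 1 / 2) ^ 2) ^ 2 - 5 / 4 - 30 * (m0 + m2 - 1 / 2) ^ 2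
      - 20 * (m0 + m2 - 1 / 2) ^ 4 + 20 * (m0 * m2 * (m0 + m2) ^ 2 + m1 * m3 * (m1 + m3) ^ 2)
      + 60 * (f1 * r3 + f3 * r1)
    ≤ 60 * (f0 ^ 2 + f2 ^ 2 + 2 * f1 * f3) + 60 * (r0 * f0 + r2 * f2 + r1 * f3 + r3 * f1)
      + 5 * (r0 ^ 2 + r2 ^ 2 + 2 * r1 * r3) := by
  have hm3 : m3 = 1 - m0 - m1 - m2 := by linarith
  have p1 : 0 ≤ 30 * (f0 - f2 + (r0 - r2) / 2) ^ 2 := by positivity
  have p2 : 0 ≤ 120 * (f1 * f3) := by positivity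
  have p3 : 0 ≤ 20 * (m0 * m2 * (m0 - m2) ^ 2) := by positivity
  have p4 : 0 ≤ 20 * (m1 * m3 * (m1 - m3) ^ 2) := by positivity
  have key : 60 * (f0 ^ 2 + f2 ^ 2 + 2 * f1 * f3) + 60 * (r0 * f0 + r2 * f2 + r1 * f3 + r3 * f1)
      + 5 * (r0 ^ 2 + r2 ^ 2 + 2 * r1 * r3) -
      (30 * (f0 + f2 + 1 / 4 + (m0 + m2 - 1 / 2) ^ 2) ^ 2 - 5 / 4 - 30 * (m0 + m2 - 1 / 2) ^ 2
      - 20 * (m0 + m2 - 1 / 2) ^ 4 + 20 * (m0 * m2 * (m0 + m2) ^ 2 + m1 * m3 * (m1 + m3) ^ 2)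
      + 60 * (f1 * r3 + f3 * r1)) =
      30 * (f0 - f2 + (r0 - r2) / 2) ^ 2 + 120 * (f1 * f3) + 20 * (m0 * m2 * (m0 - m2) ^ 2) +
        20 * (m1 * m3 * (m1 - m3) ^ 2) := by
    rw [hr0, hr1, hr2, hr3, hm3]
    ring
  linarith

end Pool.Agent.MP5g
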