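import Mathlib
import Pool.Agent.MP_5f2667_co.L.F01
import Pool.Agent.MP_5f2667_co.L.F02
import Pool.Agent.MP_5f2667_co.L.F03
import Pool.Agent.MP_5f2667_co.L.F04

set_option autoImplicit false

open Finset

/-
Proof. tot = 60 nPath + 60 nChair + 5 nStar >= n^4 sum_x q_x - 1250 n^4, q_x = 60 sum_k ph k ph(-k) + 60 sum_k rh k ph(-k) + 5 sum_k rh k rh(-k) (sums over ZMod 4 written out: k = 0,1,2,3, -1 = 3, -2 = 2).
By pointwise q_x >= 30 w_x^2 - 5/4 - 30 h^2 - 20 h^4 + (en_x - 100 h^2), w_x = ph0+ph2+1/4+h^2, h = mu0+mu2-1/2. By ph_even sum_x w_x = sum_x (1/2+2h^2+1/4+h^2) = 3n/4 + 3 n H, n H = sum_x h^2 ((mu0+mu2)^2+(mu1+mu3)^2 = 1/2+2h^2).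
Cauchy-Schwarz (or w^2 >= 2 w t - t^2 with t = 3/4+3H): sum w^2 >= n (3/4+3H)^2. h^4 <= h^2/4 (|h| <= 1/2). So sum q_x >= n[30 (3/4+3H)^2 - 5/4 - 35 H - 100 H] + sum en = n[125/8 + 135 H + 270 H^2 - 135 H] + sum en >= 125/8 n + sum en.
(30*9/16 - 5/4 = 125/8, 30*2*(3/4)*3 = 135.) Together with tot <= 125/8 n^5: n^4 sum en <= 1250 n^4. n >= 1 (n = 0 trivial).
-/

namespace Pool.Agent.MP5g

theorem F05_sum (f : ZMod 4 → ℝ) : ∑ k, f k = f 0 + f 1 + f 2 + f 3 := by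
  have h := Fin.sum_univ_four (M := ℝ) f
  exact h

theorem F05_conv (f g : ZMod 4 → ℝ) :
    ∑ k, f k * g (-k) = f 0 * g 0 + f 1 * g 3 + f 2 * g 2 + f 3 * g 1 := by
  rw [F05_sum]
  rw [show (-0 : ZMod 4) = 0 by decide, show (-1 : ZMod 4) = 3 by decide,
    show (-2 : ZMod 4) = 2 by decide, show (-3 : ZMod 4) = 1 by decide]

/-- the quadratic form at `x` -/
noncomputable def F05_q {n : ℕ} (c : Sym2 (Fin n) → ZMod 4) (x : Fin n) : ℝ :=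
  60 * (ph c x 0 ^ 2 + ph c x 2 ^ 2 + 2 * ph c x 1 * ph c x 3)
    + 60 * (rh c x 0 * ph c x 0 + rh c x 2 * ph c x 2 + rh c x 1 * ph c x 3 + rh c x 3 * ph c x 1)
    + 5 * (rh c x 0 ^ 2 + rh c x 2 ^ 2 + 2 * rh c x 1 * rh c x 3)

theorem F05_tot {n : ℕ} (c : Sym2 (Fin n) → ZMod 4) :
    (n : ℝ) ^ 4 * (∑ x, F05_q c x) - 1250 * (n : ℝ) ^ 4 ≤ tot c := by
  have h1 := nPath_ge c
  have h2 := nChair_ge c
  have h3 := nStar_ge c
  have h4 : (tot c : ℝ) = 60 * nPath c + 60 * nChair c + 5 * nStar c := by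
    rw [tot_four c]
    push_cast
    ring
  have h5 : ∑ x, F05_q c x = 60 * (∑ x, ∑ k, ph c x k * ph c x (-k))
      + 60 * (∑ x, ∑ k, rh c x k * ph c x (-k)) + 5 * (∑ x, ∑ k, rh c x k * rh c x (-k)) := by
    rw [Finset.mul_sum, Finset.mul_sum, Finset.mul_sum, ← Finset.sum_add_distrib,
      ← Finset.sum_add_distrib]
    apply Finset.sum_congr rfl
    intro x _
    rw [F05_conv (ph c x) (ph c x), F05_conv (rh c x) (ph c x), F05_conv (rh c x) (rh c x)]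
    unfold F05_q
    ring
  rw [h4, h5]
  nlinarith [h1, h2, h3]

theorem F05_point {n : ℕ} (c : Sym2 (Fin n) → ZMod 4) (x : Fin n) (t : ℝ) :
    30 * (2 * (ph c x 0 + ph c x 2 + 1 / 4 + (mu c x 0 + mu c x 2 - 1 / 2) ^ 2) * t - t ^ 2)
      - 5 / 4 - 135 * (mu c x 0 + mu c x 2 - 1 / 2) ^ 2 + en c x ≤ F05_q c x := by
  obtain ⟨r0, r1, r2, r3⟩ := rh_eq c x
  have hp := pointwise (mu c x 0) (mu c x 1) (mu c x 2) (mu c x 3) (ph c x 0) (ph c x 1)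
    (ph c x 2) (ph c x 3) (rh c x 0) (rh c x 1) (rh c x 2) (rh c x 3)
    (mu_nonneg c x 0) (mu_nonneg c x 1) (mu_nonneg c x 2) (mu_nonneg c x 3) (mu_sum c x)
    (ph_nonneg c x 1) (ph_nonneg c x 3) r0 r1 r2 r3
  have hq : 60 * (ph c x 0 ^ 2 + ph c x 2 ^ 2 + 2 * ph c x 1 * ph c x 3)
    + 60 * (rh c x 0 * ph c x 0 + rh c x 2 * ph c x 2 + rh c x 1 * ph c x 3 + rh c x 3 * ph c x 1)
    + 5 * (rh c x 0 ^ 2 + rh c x 2 ^ 2 + 2 * rh c x 1 * rh c x 3) = F05_q c x := rfl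
  rw [hq] at hp
  have m0 := mu_nonneg c x 0
  have m1 := mu_nonneg c x 1
  have m2 := mu_nonneg c x 2
  have m3 := mu_nonneg c x 3
  have ms := mu_sum c x
  unfold en
  generalize hh : mu c x 0 + mu c x 2 - 1 / 2 = h at hp ⊢
  have hh1 : -(1 / 2) ≤ h := by linarith
  have hh2 : h ≤ 1 / 2 := by linarith
  have h4 : h ^ 4 ≤ h ^ 2 / 4 := by
    have : h ^ 2 ≤ 1 / 4 := by nlinarith
    nlinarith [sq_nonneg h]
  generalize hw : ph c x 0 + ph c x 2 + 1 / 4 + h ^ 2 = w at hp ⊢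
  have hw2 : 2 * w * t - t ^ 2 ≤ w ^ 2 := by nlinarith [sq_nonneg (w - t)]
  linarith

theorem F05_w {n : ℕ} (c : Sym2 (Fin n) → ZMod 4) :
    ∑ x, (ph c x 0 + ph c x 2 + 1 / 4 + (mu c x 0 + mu c x 2 - 1 / 2) ^ 2)
      = 3 / 4 * (n : ℝ) + 3 * ∑ x, (mu c x 0 + mu c x 2 - 1 / 2) ^ 2 := by
  have h1 := ph_even c
  have h2 : ∀ x, ((mu c x 0 + mu c x 2) ^ 2 + (mu c x 1 + mu c x 3) ^ 2)
      = 1 / 2 + 2 * (mu c x 0 + mu c x 2 - 1 / 2) ^ 2 := by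
    intro x
    have ms := mu_sum c x
    have : mu c x 1 + mu c x 3 = 1 - (mu c x 0 + mu c x 2) := by linarith
    rw [this]
    ring
  rw [Finset.sum_congr rfl (fun x _ => h2 x)] at h1
  rw [Finset.sum_add_distrib, Finset.sum_add_distrib, h1, Finset.sum_add_distrib, ← Finset.mul_sum,
    Finset.sum_const, Finset.sum_const, Finset.card_univ, Fintype.card_fin, nsmul_eq_mul,
    nsmul_eq_mul]
  ring

theorem energy {n : ℕ} (c : Sym2 (Fin n) → ZMod 4) (h : (tot c : ℝ) ≤ 125 / 8 * (n : ℝ) ^ 5) :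
    ∑ x, en c x ≤ 1250 := by
  rcases Nat.eq_zero_or_pos n with hn | hn
  · subst hn
    simp
  have hn' : (0 : ℝ) < n := by exact_mod_cast hn
  set S : ℝ := ∑ x, (mu c x 0 + mu c x 2 - 1 / 2) ^ 2 with hS
  set H : ℝ := S / n with hH
  have hnH : n * H = S := by rw [hH]; field_simp
  set t : ℝ := 3 / 4 + 3 * H with ht
  have h1 : 125 / 8 * (n : ℝ) + ∑ x, en c x ≤ ∑ x, F05_q c x := by
    have h2 := Finset.sum_le_sum (s := univ) (fun x _ => F05_point c x t)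
    refine le_trans ?_ h2
    have h3 : ∑ x, (30 * (2 * (ph c x 0 + ph c x 2 + 1 / 4 + (mu c x 0 + mu c x 2 - 1 / 2) ^ 2) * t - t ^ 2)
      - 5 / 4 - 135 * (mu c x 0 + mu c x 2 - 1 / 2) ^ 2 + en c x)
      = 60 * t * (∑ x, (ph c x 0 + ph c x 2 + 1 / 4 + (mu c x 0 + mu c x 2 - 1 / 2) ^ 2))
        - 135 * S + (∑ x, en c x) - n * (30 * t ^ 2 + 5 / 4) := by
      rw [hS, Finset.mul_sum, Finset.mul_sum, ← Finset.sum_sub_distrib, ← Finset.sum_add_distrib]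
      have h4 : (n : ℝ) * (30 * t ^ 2 + 5 / 4) = ∑ _x : Fin n, (30 * t ^ 2 + 5 / 4) := by
        rw [Finset.sum_const, Finset.card_univ, Fintype.card_fin, nsmul_eq_mul]
      rw [h4, ← Finset.sum_sub_distrib]
      apply Finset.sum_congr rfl
      intro x _
      ring
    rw [h3, F05_w c, ← hS, ← hnH]
    have h5 : 60 * t * (3 / 4 * (n : ℝ) + 3 * (n * H)) - 135 * (n * H) + ∑ x, en c x
        - n * (30 * t ^ 2 + 5 / 4) = 125 / 8 * n + ∑ x, en c x + 270 * n * H ^ 2 := by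
      rw [ht]
      ring
    rw [h5]
    have : 0 ≤ 270 * (n : ℝ) * H ^ 2 := by positivity
    linarith
  have h2 := F05_tot c
  have h4 : (0 : ℝ) < (n : ℝ) ^ 4 := by positivity
  have h5 : (n : ℝ) ^ 4 * (125 / 8 * (n : ℝ) + ∑ x, en c x) ≤ (n : ℝ) ^ 4 * ∑ x, F05_q c x :=
    mul_le_mul_of_nonneg_left h1 h4.le
  have h6 : (n : ℝ) ^ 4 * ∑ x, en c x ≤ (n : ℝ) ^ 4 * 1250 := by nlinarith
  exact le_of_mul_le_mul_left h6 h4

end Pool.Agent.MP5g
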