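import Mathlib
import Pool.Agent.MP_5f2667_co.L.F03

set_option autoImplicit false

open Finset

/-
Proof. All three parts of en are >= 0. kappa = delta^3 with delta <= 1/8 (without loss; smaller delta is stronger, so for delta > 1/8 use 1/8). h^2 <= kappa/100, so |h| <= delta/10 (delta^3 <= delta^2), e = mu0+mu2 >= 1/2 - delta/10 >= 2/5 and o = mu1+mu3 >= 2/5.
mu0 mu2 e^2 <= kappa/20, so mu0 mu2 <= kappa/20 * 25/4 = 5 kappa/16 <= delta^3/3. max(mu0,mu2) >= e/2 >= 1/5, hence min(mu0,mu2) <= 5 delta^3/3 <= delta/2 (delta <= 1/8), max >= 1/2 - delta/10 - delta/2 >= 1/2 - delta. The same for 1,3.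
-/

namespace Pool.Agent.MP5g

theorem F06_half (p q d : ℝ) (hq : 0 ≤ q) (hd : 0 < d) (hd8 : d ≤ 1 / 8)
    (hs : 1 / 2 - d / 10 ≤ p + q) (hm : p * q * (p + q) ^ 2 ≤ d ^ 3 / 20) (hqp : q ≤ p) :
    1 / 2 - d ≤ p := by
  have hp5 : 1 / 5 ≤ p := by linarith
  have he : 2 / 5 ≤ p + q := by linarith
  have he2 : (4 / 25 : ℝ) ≤ (p + q) ^ 2 := by nlinarith
  have hpq : 0 ≤ p * q := mul_nonneg (by linarith) hq
  have h1 : p * q * (4 / 25) ≤ d ^ 3 / 20 := le_trans (mul_le_mul_of_nonneg_left he2 hpq) hm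
  have h2 : 1 / 5 * q ≤ p * q := mul_le_mul_of_nonneg_right hp5 hq
  have h3 : d ^ 3 ≤ d * (1 / 64) := by
    have : d ^ 2 ≤ 1 / 64 := by nlinarith
    calc d ^ 3 = d * d ^ 2 := by ring
      _ ≤ d * (1 / 64) := mul_le_mul_of_nonneg_left this hd.le
  have h4 : q ≤ d / 2 := by nlinarith
  linarith

theorem typ (δ : ℝ) (hδ : 0 < δ) : ∃ κ > (0 : ℝ), ∀ (n : ℕ) (c : Sym2 (Fin n) → ZMod 4) (x : Fin n), en c x ≤ κ →
    ∃ a b : ZMod 4, (a = 0 ∨ a = 2) ∧ (b = 1 ∨ b = 3) ∧ 1 / 2 - δ ≤ mu c x a ∧ 1 / 2 - δ ≤ mu c x b := by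
  obtain ⟨d, hd, hd8, hdδ⟩ : ∃ d : ℝ, 0 < d ∧ d ≤ 1 / 8 ∧ d ≤ δ :=
    ⟨min δ (1 / 8), lt_min hδ (by norm_num), min_le_right _ _, min_le_left _ _⟩
  refine ⟨d ^ 3, by positivity, ?_⟩
  intro n c x hen
  have m0 := mu_nonneg c x 0
  have m1 := mu_nonneg c x 1
  have m2 := mu_nonneg c x 2
  have m3 := mu_nonneg c x 3
  have ms := mu_sum c x
  have p1 := ph_nonneg c x 1
  have p3 := ph_nonneg c x 3
  have r1 : 0 ≤ rh c x 1 := by unfold rh; positivity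
  have r3 : 0 ≤ rh c x 3 := by unfold rh; positivity
  unfold en at hen
  have n3 : 0 ≤ 60 * (ph c x 1 * rh c x 3 + ph c x 3 * rh c x 1) := by positivity
  have n1 : 0 ≤ 100 * (mu c x 0 + mu c x 2 - 1 / 2) ^ 2 := by positivity
  have n20 : 0 ≤ mu c x 0 * mu c x 2 * (mu c x 0 + mu c x 2) ^ 2 := by positivity
  have n21 : 0 ≤ mu c x 1 * mu c x 3 * (mu c x 1 + mu c x 3) ^ 2 := by positivity
  have hh : (mu c x 0 + mu c x 2 - 1 / 2) ^ 2 ≤ (d / 10) ^ 2 := by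
    have : d ^ 3 ≤ d ^ 2 := by nlinarith [sq_nonneg d]
    nlinarith
  have hh' := abs_le_of_sq_le_sq' hh (by positivity)
  obtain ⟨hl, hu⟩ := hh'
  have hE : mu c x 0 * mu c x 2 * (mu c x 0 + mu c x 2) ^ 2 ≤ d ^ 3 / 20 := by linarith
  have hO : mu c x 1 * mu c x 3 * (mu c x 1 + mu c x 3) ^ 2 ≤ d ^ 3 / 20 := by linarith
  have hA : ∃ a : ZMod 4, (a = 0 ∨ a = 2) ∧ 1 / 2 - δ ≤ mu c x a := by
    rcases le_total (mu c x 2) (mu c x 0) with h | h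
    · exact ⟨0, Or.inl rfl, by
        linarith [F06_half (mu c x 0) (mu c x 2) d m2 hd hd8 (by linarith) hE h]⟩
    · refine ⟨2, Or.inr rfl, ?_⟩
      have hE' : mu c x 2 * mu c x 0 * (mu c x 2 + mu c x 0) ^ 2 ≤ d ^ 3 / 20 := by
        rw [mul_comm (mu c x 2), add_comm (mu c x 2)]
        exact hE
      linarith [F06_half (mu c x 2) (mu c x 0) d m0 hd hd8 (by linarith) hE' h]
  have hB : ∃ b : ZMod 4, (b = 1 ∨ b = 3) ∧ 1 / 2 - δ ≤ mu c x b := by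
    rcases le_total (mu c x 3) (mu c x 1) with h | h
    · exact ⟨1, Or.inl rfl, by
        linarith [F06_half (mu c x 1) (mu c x 3) d m3 hd hd8 (by linarith) hO h]⟩
    · refine ⟨3, Or.inr rfl, ?_⟩
      have hO' : mu c x 3 * mu c x 1 * (mu c x 3 + mu c x 1) ^ 2 ≤ d ^ 3 / 20 := by
        rw [mul_comm (mu c x 3), add_comm (mu c x 3)]
        exact hO
      linarith [F06_half (mu c x 3) (mu c x 1) d m1 hd hd8 (by linarith) hO' h]
  obtain ⟨a, ha, ha'⟩ := hA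
  obtain ⟨b, hb, hb'⟩ := hB
  exact ⟨a, b, ha, hb, ha', hb'⟩

end Pool.Agent.MP5g
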