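import Mathlib
import Pool.Agent.MP_5f2667_co.L.F03
import Pool.Agent.MP_5f2667_co.L.F06

set_option autoImplicit false

open Finset

/-
Notation: V a b = set of x with mu a, mu b >= 1/2 - delta; 0 < delta <= 1/6. For x in V a b at most 2 delta n of the y have c(x,y) outside (a,b).
opposite: for a pair (x,y) in V a b x V (a+2) (b+2) the colour c(x,y) is outside (a,b) or outside (a+2,b+2) (disjoint sets since a, a+2, b, b+2 are all different); so |V||V_opp| <= 2 delta n |V| + 2 delta n |V_opp| <= 4 delta n^2.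
adjacent: P = (k,p), Q = (k,p+2), k and p of different parity. Pairs (x,y) in V k p x V k (p+2) with c(x,y) not k: at most 4 delta n^2 as before. For x in V k p: rh x (k+p) >= 2 mu_k mu_p >= 2(1/2-delta)^2 >= 2/9, and ph x (k+p+2) >= (1/n^2) #(y in V k (p+2), c(x,y) = k) * (1/2-delta) n
(for such y at least (1/2-delta)n of the z have c(y,z) = p+2), 1/2-delta >= 1/3. k+p is odd and k+p+2 = -(k+p), so en x >= 60 * rh x (k+p) * ph x (k+p+2) (it is one of the two products in the last term; the other terms are >= 0), hence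
#(y in V k (p+2) with c(x,y)=k) <= n * en x * 27/120. Sum over x in V k p: <= 27/120 * 1250 n <= 282 n.
-/

namespace Pool.Agent.MP5g

open Classical in
/-- vertices balanced between the colours `a`, `b` -/
noncomputable def VV {n : ℕ} (c : Sym2 (Fin n) → ZMod 4) (δ : ℝ) (a b : ZMod 4) : Finset (Fin n) :=
  univ.filter (fun x => 1 / 2 - δ ≤ mu c x a ∧ 1 / 2 - δ ≤ mu c x b)

theorem F07_mu {n : ℕ} (c : Sym2 (Fin n) → ZMod 4) (x : Fin n) (k : ZMod 4) :
    ((univ.filter (fun y : Fin n => c s(x, y) = k)).card : ℝ) = mu c x k * n := by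
  have hn : (n : ℝ) ≠ 0 := by
    have : 0 < n := x.pos
    positivity
  unfold mu
  field_simp

theorem F07_out {n : ℕ} (c : Sym2 (Fin n) → ZMod 4) (δ : ℝ) (x : Fin n) (a b : ZMod 4) (hab : a ≠ b)
    (h1 : 1 / 2 - δ ≤ mu c x a) (h2 : 1 / 2 - δ ≤ mu c x b) :
    ((univ.filter (fun y : Fin n => c s(x, y) ≠ a ∧ c s(x, y) ≠ b)).card : ℝ) ≤ 2 * δ * n := by
  have hn : (0 : ℝ) ≤ n := Nat.cast_nonneg n
  have h3 : (univ.filter (fun y : Fin n => c s(x, y) = a)).card +
      (univ.filter (fun y : Fin n => c s(x, y) = b)).card +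
      (univ.filter (fun y : Fin n => c s(x, y) ≠ a ∧ c s(x, y) ≠ b)).card = n := by
    have h4 := Finset.card_filter_add_card_filter_not (s := (univ : Finset (Fin n)))
      (fun y : Fin n => c s(x, y) = a)
    have h5 := Finset.card_filter_add_card_filter_not
      (s := univ.filter (fun y : Fin n => ¬ c s(x, y) = a)) (fun y : Fin n => c s(x, y) = b)
    rw [Finset.filter_filter, Finset.filter_filter] at h5
    have h6 : univ.filter (fun y : Fin n => ¬ c s(x, y) = a ∧ c s(x, y) = b) =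
        univ.filter (fun y : Fin n => c s(x, y) = b) := by
      apply Finset.filter_congr
      intro y _
      constructor
      · exact fun h => h.2
      · intro h
        exact ⟨by rw [h]; exact hab.symm, h⟩
    rw [h6] at h5
    have h7 : (univ : Finset (Fin n)).card = n := by simp
    simp only [ne_eq]
    omega
  have h8 : ((univ.filter (fun y : Fin n => c s(x, y) = a)).card : ℝ) +
      ((univ.filter (fun y : Fin n => c s(x, y) = b)).card : ℝ) +
      ((univ.filter (fun y : Fin n => c s(x, y) ≠ a ∧ c s(x, y) ≠ b)).card : ℝ) = n := by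
    exact_mod_cast h3
  rw [F07_mu, F07_mu] at h8
  nlinarith

open Classical in
theorem F07_pairs_eq {n : ℕ} (V W : Finset (Fin n)) (R : Fin n → Fin n → Prop) :
    ((V ×ˢ W).filter (fun p => R p.1 p.2)).card =
      ∑ x ∈ V, (univ.filter (fun y : Fin n => y ∈ W ∧ R x y)).card := by
  rw [Finset.card_eq_sum_card_fiberwise (f := Prod.fst) (t := V)]
  · apply Finset.sum_congr rfl
    intro x hx
    apply Finset.card_nbij' (fun p => p.2) (fun y => (x, y))
    · intro p hp
      simp only [Finset.coe_filter, Finset.mem_filter, Finset.mem_product, Set.mem_ofPred_eq,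
        Finset.mem_univ, true_and] at hp ⊢
      obtain ⟨⟨⟨-, h2⟩, h3⟩, rfl⟩ := hp
      exact ⟨h2, h3⟩
    · intro y hy
      simp only [Finset.coe_filter, Finset.mem_filter, Finset.mem_product, Set.mem_ofPred_eq,
        Finset.mem_univ, true_and] at hy ⊢
      exact ⟨⟨⟨hx, hy.1⟩, hy.2⟩, trivial⟩
    · intro p hp
      simp only [Finset.coe_filter, Finset.mem_filter, Finset.mem_product, Set.mem_ofPred_eq] at hp
      obtain ⟨-, rfl⟩ := hp
      rfl
    · intro y _
      rfl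
  · intro p hp
    simp only [Finset.coe_filter, Finset.mem_product, Set.mem_ofPred_eq] at hp
    exact hp.1.1

open Classical in
theorem F07_three {n : ℕ} (V W : Finset (Fin n)) (Q R S : Fin n → Fin n → Prop)
    (hRS : ∀ x ∈ V, ∀ y ∈ W, Q x y ∨ R x y ∨ S x y) :
    V.card * W.card ≤ ((V ×ˢ W).filter (fun p => Q p.1 p.2)).card +
      ((V ×ˢ W).filter (fun p => R p.1 p.2)).card +
      ((W ×ˢ V).filter (fun p => S p.2 p.1)).card := by
  have h3 : V ×ˢ W ⊆ ((V ×ˢ W).filter (fun p => Q p.1 p.2) ∪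
      (V ×ˢ W).filter (fun p => R p.1 p.2)) ∪ (V ×ˢ W).filter (fun p => S p.1 p.2) := by
    intro p hp
    have hp' := Finset.mem_product.1 hp
    rw [Finset.mem_union, Finset.mem_union, Finset.mem_filter, Finset.mem_filter,
      Finset.mem_filter]
    rcases hRS p.1 hp'.1 p.2 hp'.2 with h | h | h
    · exact Or.inl (Or.inl ⟨hp, h⟩)
    · exact Or.inl (Or.inr ⟨hp, h⟩)
    · exact Or.inr ⟨hp, h⟩
  have h4 := (Finset.card_le_card h3).trans (Finset.card_union_le _ _)
  have h4' := Finset.card_union_le ((V ×ˢ W).filter (fun p => Q p.1 p.2))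
    ((V ×ˢ W).filter (fun p => R p.1 p.2))
  rw [Finset.card_product] at h4
  have h5 : ((V ×ˢ W).filter (fun p => S p.1 p.2)).card =
      ((W ×ˢ V).filter (fun p => S p.2 p.1)).card := by
    apply Finset.card_nbij' Prod.swap Prod.swap
    · intro p hp
      simp only [Finset.coe_filter, Finset.mem_product, Set.mem_ofPred_eq, Prod.fst_swap,
        Prod.snd_swap] at hp ⊢
      exact ⟨⟨hp.1.2, hp.1.1⟩, hp.2⟩
    · intro p hp
      simp only [Finset.coe_filter, Finset.mem_product, Set.mem_ofPred_eq, Prod.fst_swap,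
        Prod.snd_swap] at hp ⊢
      exact ⟨⟨hp.1.2, hp.1.1⟩, hp.2⟩
    · intro p _; rfl
    · intro p _; rfl
  omega

open Classical in
theorem F07_pairs {n : ℕ} (V W : Finset (Fin n)) (R : Fin n → Fin n → Prop) (K : ℝ)
    (h : ∀ x ∈ V, ((univ.filter (fun y : Fin n => y ∈ W ∧ R x y)).card : ℝ) ≤ K) :
    (((V ×ˢ W).filter (fun p => R p.1 p.2)).card : ℝ) ≤ V.card * K := by
  have h1 : ((V ×ˢ W).filter (fun p => R p.1 p.2)).card =
      ∑ x ∈ V, (univ.filter (fun y : Fin n => y ∈ W ∧ R x y)).card := by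
    rw [Finset.card_eq_sum_card_fiberwise (f := Prod.fst) (t := V)]
    · apply Finset.sum_congr rfl
      intro x hx
      apply Finset.card_nbij' (fun p => p.2) (fun y => (x, y))
      · intro p hp
        simp only [Finset.coe_filter, Finset.mem_filter, Finset.mem_product, Set.mem_ofPred_eq,
          Finset.mem_univ, true_and] at hp ⊢
        obtain ⟨⟨⟨-, h2⟩, h3⟩, rfl⟩ := hp
        exact ⟨h2, h3⟩
      · intro y hy
        simp only [Finset.coe_filter, Finset.mem_filter, Finset.mem_product, Set.mem_ofPred_eq,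
          Finset.mem_univ, true_and] at hy ⊢
        exact ⟨⟨⟨hx, hy.1⟩, hy.2⟩, trivial⟩
      · intro p hp
        simp only [Finset.coe_filter, Finset.mem_filter, Finset.mem_product, Set.mem_ofPred_eq] at hp
        obtain ⟨-, rfl⟩ := hp
        rfl
      · intro y _
        rfl
    · intro p hp
      simp only [Finset.coe_filter, Finset.mem_product, Set.mem_ofPred_eq] at hp
      exact hp.1.1
  rw [h1]
  push_cast
  have h2 := Finset.sum_le_sum h
  rw [Finset.sum_const, nsmul_eq_mul] at h2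
  exact h2

open Classical in
theorem F07_prod {n : ℕ} (V W : Finset (Fin n)) (R S : Fin n → Fin n → Prop)
    (hRS : ∀ x ∈ V, ∀ y ∈ W, R x y ∨ S x y) (K L : ℝ)
    (h : ∀ x ∈ V, ((univ.filter (fun y : Fin n => y ∈ W ∧ R x y)).card : ℝ) ≤ K)
    (h' : ∀ y ∈ W, ((univ.filter (fun x : Fin n => x ∈ V ∧ S x y)).card : ℝ) ≤ L) :
    (V.card : ℝ) * W.card ≤ V.card * K + W.card * L := by
  have h1 := F07_pairs V W R K h
  have h2 := F07_pairs W V (fun y x => S x y) L h'
  have h3 : V ×ˢ W ⊆ (V ×ˢ W).filter (fun p => R p.1 p.2) ∪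
      (V ×ˢ W).filter (fun p => S p.1 p.2) := by
    intro p hp
    have hp' := Finset.mem_product.1 hp
    rw [Finset.mem_union, Finset.mem_filter, Finset.mem_filter]
    rcases hRS p.1 hp'.1 p.2 hp'.2 with h | h
    · exact Or.inl ⟨hp, h⟩
    · exact Or.inr ⟨hp, h⟩
  have h4 := (Finset.card_le_card h3).trans (Finset.card_union_le _ _)
  rw [Finset.card_product] at h4
  have h5 : ((V ×ˢ W).filter (fun p => S p.1 p.2)).card =
      ((W ×ˢ V).filter (fun p => S p.2 p.1)).card := by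
    apply Finset.card_nbij' Prod.swap Prod.swap
    · intro p hp
      simp only [Finset.coe_filter, Finset.mem_product, Set.mem_ofPred_eq, Prod.fst_swap,
        Prod.snd_swap] at hp ⊢
      exact ⟨⟨hp.1.2, hp.1.1⟩, hp.2⟩
    · intro p hp
      simp only [Finset.coe_filter, Finset.mem_product, Set.mem_ofPred_eq, Prod.fst_swap,
        Prod.snd_swap] at hp ⊢
      exact ⟨⟨hp.1.2, hp.1.1⟩, hp.2⟩
    · intro p _; rfl
    · intro p _; rfl
  rw [h5] at h4
  have h6 : (V.card : ℝ) * W.card ≤ (((V ×ˢ W).filter (fun p => R p.1 p.2)).card : ℝ) +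
      (((W ×ˢ V).filter (fun p => S p.2 p.1)).card : ℝ) := by exact_mod_cast h4
  linarith

theorem F07_card {n : ℕ} (V : Finset (Fin n)) : (V.card : ℝ) ≤ n := by
  have := Finset.card_le_univ V
  rw [Fintype.card_fin] at this
  exact_mod_cast this

open Classical in
theorem F07_sub {n : ℕ} (V : Finset (Fin n)) (R : Fin n → Prop) (K : ℝ)
    (h : ((univ.filter (fun y : Fin n => R y)).card : ℝ) ≤ K) :
    ((univ.filter (fun y : Fin n => y ∈ V ∧ R y)).card : ℝ) ≤ K := by
  refine le_trans ?_ h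
  have : (univ.filter (fun y : Fin n => y ∈ V ∧ R y)).card ≤
      (univ.filter (fun y : Fin n => R y)).card :=
    Finset.card_le_card (fun y hy => by
      simp only [Finset.mem_filter, Finset.mem_univ, true_and] at hy ⊢
      exact hy.2)
  exact_mod_cast this

open Classical in
theorem F07_out' {n : ℕ} (c : Sym2 (Fin n) → ZMod 4) (δ : ℝ) (x : Fin n) (a b : ZMod 4)
    (hab : a ≠ b) (hx : x ∈ VV c δ a b) :
    ((univ.filter (fun y : Fin n => c s(x, y) ≠ a ∧ c s(x, y) ≠ b)).card : ℝ) ≤ 2 * δ * n := by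
  unfold VV at hx
  have hx' := (Finset.mem_filter.1 hx).2
  convert F07_out c δ x a b hab hx'.1 hx'.2

theorem F07_neg (k p : ZMod 4)
    (hkp : ((k = 0 ∨ k = 2) ∧ (p = 1 ∨ p = 3)) ∨ ((k = 1 ∨ k = 3) ∧ (p = 0 ∨ p = 2))) :
    (k + p = 1 ∧ k + p + 2 = 3) ∨ (k + p = 3 ∧ k + p + 2 = 1) := by
  rcases hkp with ⟨rfl | rfl, rfl | rfl⟩ | ⟨rfl | rfl, rfl | rfl⟩ <;> decide

theorem F07_rh {n : ℕ} (c : Sym2 (Fin n) → ZMod 4) (x : Fin n) (k p : ZMod 4)
    (hkp : ((k = 0 ∨ k = 2) ∧ (p = 1 ∨ p = 3)) ∨ ((k = 1 ∨ k = 3) ∧ (p = 0 ∨ p = 2))) :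
    2 * mu c x k * mu c x p ≤ rh c x (k + p) := by
  obtain ⟨-, h1, -, h3⟩ := rh_eq c x
  have m0 := mu_nonneg c x 0
  have m1 := mu_nonneg c x 1
  have m2 := mu_nonneg c x 2
  have m3 := mu_nonneg c x 3
  have e01 : (0 : ZMod 4) + 1 = 1 := by decide
  have e03 : (0 : ZMod 4) + 3 = 3 := by decide
  have e21 : (2 : ZMod 4) + 1 = 3 := by decide
  have e23 : (2 : ZMod 4) + 3 = 1 := by decide
  have e10 : (1 : ZMod 4) + 0 = 1 := by decide
  have e12 : (1 : ZMod 4) + 2 = 3 := by decide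
  have e30 : (3 : ZMod 4) + 0 = 3 := by decide
  have e32 : (3 : ZMod 4) + 2 = 1 := by decide
  have p01 := mul_nonneg m0 m1
  have p03 := mul_nonneg m0 m3
  have p12 := mul_nonneg m1 m2
  have p23 := mul_nonneg m2 m3
  rcases hkp with ⟨rfl | rfl, rfl | rfl⟩ | ⟨rfl | rfl, rfl | rfl⟩
  · rw [e01, h1]; nlinarith
  · rw [e03, h3]; nlinarith
  · rw [e21, h3]; nlinarith
  · rw [e23, h1]; nlinarith
  · rw [e10, h1]; nlinarith
  · rw [e12, h3]; nlinarith
  · rw [e30, h3]; nlinarith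
  · rw [e32, h1]; nlinarith

theorem F07_rhnn {n : ℕ} (c : Sym2 (Fin n) → ZMod 4) (x : Fin n) (k : ZMod 4) : 0 ≤ rh c x k := by
  unfold rh
  positivity

theorem F07_en {n : ℕ} (c : Sym2 (Fin n) → ZMod 4) (x : Fin n) (k p : ZMod 4)
    (hkp : ((k = 0 ∨ k = 2) ∧ (p = 1 ∨ p = 3)) ∨ ((k = 1 ∨ k = 3) ∧ (p = 0 ∨ p = 2))) :
    60 * (rh c x (k + p) * ph c x (k + p + 2)) ≤ en c x := by
  have m0 := mu_nonneg c x 0
  have m1 := mu_nonneg c x 1
  have m2 := mu_nonneg c x 2
  have m3 := mu_nonneg c x 3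
  have h1 : 0 ≤ 100 * (mu c x 0 + mu c x 2 - 1 / 2) ^ 2
    + 20 * (mu c x 0 * mu c x 2 * (mu c x 0 + mu c x 2) ^ 2
      + mu c x 1 * mu c x 3 * (mu c x 1 + mu c x 3) ^ 2) := by positivity
  have h2 := mul_nonneg (ph_nonneg c x 1) (F07_rhnn c x 3)
  have h3 := mul_nonneg (ph_nonneg c x 3) (F07_rhnn c x 1)
  unfold en
  rcases F07_neg k p hkp with ⟨e1, e2⟩ | ⟨e1, e2⟩
  · rw [e2, e1]; nlinarith
  · rw [e2, e1]; nlinarith

open Classical in
theorem F07_ph {n : ℕ} (c : Sym2 (Fin n) → ZMod 4) (δ : ℝ) (x : Fin n) (k p : ZMod 4) :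
    ((univ.filter (fun y : Fin n => y ∈ VV c δ k (p + 2) ∧ c s(x, y) = k)).card : ℝ) *
      (1 / 2 - δ) ≤ ph c x (k + p + 2) * n := by
  have hn : (0 : ℝ) < n := by
    have : 0 < n := x.pos
    exact_mod_cast this
  set Y := univ.filter (fun y : Fin n => y ∈ VV c δ k (p + 2) ∧ c s(x, y) = k) with hY
  have h1 : ∑ y ∈ Y, (univ.filter (fun z : Fin n => c s(y, z) = p + 2)).card ≤
      (univ.filter (fun q : Fin n × Fin n => c s(x, q.1) + c s(q.1, q.2) = k + p + 2)).card := by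
    rw [← Finset.card_sigma]
    apply Finset.card_le_card_of_injOn (fun r => (r.1, r.2))
    · intro r hr
      have hr' := Finset.mem_sigma.1 (Finset.mem_coe.1 hr)
      have h2 := (Finset.mem_filter.1 hr'.1).2.2
      have h3 := (Finset.mem_filter.1 hr'.2).2
      simp only [Finset.coe_filter, Finset.mem_univ, true_and, Set.mem_ofPred_eq]
      rw [h2, h3]
      ring
    · rintro ⟨a, b⟩ _ ⟨a', b'⟩ _ h
      simp only [Prod.mk.injEq] at h
      obtain ⟨rfl, rfl⟩ := h
      rfl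
  have h2 : ∀ y ∈ Y, (1 / 2 - δ) * n ≤
      ((univ.filter (fun z : Fin n => c s(y, z) = p + 2)).card : ℝ) := by
    intro y hy
    rw [F07_mu]
    have h3 := (Finset.mem_filter.1 hy).2.1
    unfold VV at h3
    have h4 := (Finset.mem_filter.1 h3).2.2
    nlinarith
  have h3 := Finset.sum_le_sum h2
  rw [Finset.sum_const, nsmul_eq_mul] at h3
  have h4 : (∑ y ∈ Y, ((univ.filter (fun z : Fin n => c s(y, z) = p + 2)).card : ℝ)) ≤
      ((univ.filter (fun q : Fin n × Fin n =>
        c s(x, q.1) + c s(q.1, q.2) = k + p + 2)).card : ℝ) := by exact_mod_cast h1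
  have h5 : ((univ.filter (fun q : Fin n × Fin n =>
        c s(x, q.1) + c s(q.1, q.2) = k + p + 2)).card : ℝ) = ph c x (k + p + 2) * (n : ℝ) ^ 2 := by
    unfold ph
    field_simp
  have h6 : (Y.card : ℝ) * ((1 / 2 - δ) * n) ≤ ph c x (k + p + 2) * (n : ℝ) ^ 2 := by
    rw [← h5]; exact h3.trans h4
  have h7 : n * ((Y.card : ℝ) * (1 / 2 - δ)) ≤ n * (ph c x (k + p + 2) * (n : ℝ)) := by
    nlinarith
  exact le_of_mul_le_mul_left h7 hn

theorem opposite {n : ℕ} (c : Sym2 (Fin n) → ZMod 4) (δ : ℝ) (hδ : 0 < δ) (hδ' : δ ≤ 1 / 6) (a b : ZMod 4)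
    (ha : a = 0 ∨ a = 2) (hb : b = 1 ∨ b = 3) :
    ((VV c δ a b).card : ℝ) * (VV c δ (a + 2) (b + 2)).card ≤ 4 * δ * (n : ℝ) ^ 2 := by
  classical
  have hab : a ≠ b := by rcases ha with rfl | rfl <;> rcases hb with rfl | rfl <;> decide
  have hab' : a + 2 ≠ b + 2 := fun h => hab (add_right_cancel h)
  have key := F07_prod (VV c δ a b) (VV c δ (a + 2) (b + 2))
    (fun x y => c s(x, y) ≠ a ∧ c s(x, y) ≠ b)
    (fun x y => c s(x, y) ≠ a + 2 ∧ c s(x, y) ≠ b + 2)
    (by
      intro x _ y _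
      generalize c s(x, y) = k
      revert k
      rcases ha with rfl | rfl <;> rcases hb with rfl | rfl <;> decide)
    (2 * δ * n) (2 * δ * n)
    (fun x hx => F07_sub _ _ _ (by
      have := F07_out' c δ x a b hab hx
      convert this))
    (fun y hy => F07_sub _ _ _ (by
      have := F07_out' c δ y (a + 2) (b + 2) hab' hy
      have e : ∀ x, c s(x, y) = c s(y, x) := fun x => by rw [Sym2.eq_swap]
      simp only [e]
      convert this))
  have h1 := F07_card (VV c δ a b)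
  have h2 := F07_card (VV c δ (a + 2) (b + 2))
  have hn : (0 : ℝ) ≤ n := Nat.cast_nonneg n
  have h3 : (0 : ℝ) ≤ 2 * δ * n := by positivity
  nlinarith [mul_le_mul_of_nonneg_right h1 h3, mul_le_mul_of_nonneg_right h2 h3]

theorem adjacent {n : ℕ} (c : Sym2 (Fin n) → ZMod 4) (δ : ℝ) (hδ : 0 < δ) (hδ' : δ ≤ 1 / 6) (k p : ZMod 4)
    (hkp : ((k = 0 ∨ k = 2) ∧ (p = 1 ∨ p = 3)) ∨ ((k = 1 ∨ k = 3) ∧ (p = 0 ∨ p = 2)))
    (he : ∑ x, en c x ≤ 1250) :
    ((VV c δ k p).card : ℝ) * (VV c δ k (p + 2)).card ≤ 4 * δ * (n : ℝ) ^ 2 + 282 * n := by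
  classical
  have hkp' : k ≠ p := by
    rcases hkp with ⟨rfl | rfl, rfl | rfl⟩ | ⟨rfl | rfl, rfl | rfl⟩ <;> decide
  have hkp2 : k ≠ p + 2 := by
    rcases hkp with ⟨rfl | rfl, rfl | rfl⟩ | ⟨rfl | rfl, rfl | rfl⟩ <;> decide
  have hp : p ≠ p + 2 := by
    intro h
    have : (2 : ZMod 4) = 0 := by
      have := h.symm
      rwa [add_eq_left] at this
    exact absurd this (by decide)
  set V := VV c δ k p with hV
  set W := VV c δ k (p + 2) with hW
  have hn : (0 : ℝ) ≤ n := Nat.cast_nonneg n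
  -- pairs of colour k
  have hY : ∀ x ∈ V, ((univ.filter (fun y : Fin n => y ∈ W ∧ c s(x, y) = k)).card : ℝ) ≤
      9 / 40 * n * en c x := by
    intro x hx
    have h1 := F07_ph c δ x k p
    have h2 := F07_rh c x k p hkp
    have h3 := F07_en c x k p hkp
    have hx' := (Finset.mem_filter.1 (show x ∈ univ.filter (fun x => 1 / 2 - δ ≤ mu c x k ∧
      1 / 2 - δ ≤ mu c x p) from hx)).2
    set y : ℝ := ((univ.filter (fun y : Fin n => y ∈ VV c δ k (p + 2) ∧ c s(x, y) = k)).card : ℝ)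
      with hy
    have hy0 : 0 ≤ y := by positivity
    have h4 : (2 : ℝ) / 9 ≤ rh c x (k + p) := by
      have h5 : (1 : ℝ) / 3 ≤ 1 / 2 - δ := by linarith
      have h6 : (1 : ℝ) / 3 ≤ mu c x k := h5.trans hx'.1
      have h7 : (1 : ℝ) / 3 ≤ mu c x p := h5.trans hx'.2
      nlinarith
    have h5 : y * (1 / 3) ≤ ph c x (k + p + 2) * n := by nlinarith
    have h6 := ph_nonneg c x (k + p + 2)
    have h7 : 60 * (2 / 9 * ph c x (k + p + 2)) ≤ en c x := by nlinarith
    have h8 : 60 * (2 / 9) * (y * (1 / 3)) ≤ n * en c x := by nlinarith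
    have h9 : y ≤ 9 / 40 * n * en c x := by nlinarith
    exact h9
  -- sum over V
  have hsum : ∑ x ∈ V, ((univ.filter (fun y : Fin n => y ∈ W ∧ c s(x, y) = k)).card : ℝ) ≤
      282 * n := by
    have h1 := Finset.sum_le_sum hY
    rw [← Finset.mul_sum] at h1
    have h2 : ∑ x ∈ V, en c x ≤ ∑ x, en c x := by
      apply Finset.sum_le_sum_of_subset_of_nonneg (Finset.subset_univ _)
      intro x _ _
      have h3 := F07_en c x k p hkp
      have h4 := mul_nonneg (F07_rhnn c x (k + p)) (ph_nonneg c x (k + p + 2))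
      linarith
    have h3 : 9 / 40 * (n : ℝ) * ∑ x ∈ V, en c x ≤ 9 / 40 * (n : ℝ) * 1250 :=
      mul_le_mul_of_nonneg_left (h2.trans he) (by positivity)
    nlinarith
  have h1 := F07_pairs V W (fun x y => c s(x, y) ≠ k ∧ c s(x, y) ≠ p) (2 * δ * n)
    (fun x hx => F07_sub _ _ _ (by
      have := F07_out' c δ x k p hkp' hx
      convert this))
  have h2 := F07_pairs W V (fun y x => c s(x, y) ≠ k ∧ c s(x, y) ≠ p + 2) (2 * δ * n)
    (fun y hy => F07_sub _ _ _ (by
      have := F07_out' c δ y k (p + 2) hkp2 hy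
      have e : ∀ x, c s(x, y) = c s(y, x) := fun x => by rw [Sym2.eq_swap]
      simp only [e]
      convert this))
  have h4 := F07_three V W (fun x y => c s(x, y) = k)
    (fun x y => c s(x, y) ≠ k ∧ c s(x, y) ≠ p)
    (fun x y => c s(x, y) ≠ k ∧ c s(x, y) ≠ p + 2) (by
      intro x _ y _
      by_cases h : c s(x, y) = k
      · exact Or.inl h
      · by_cases h' : c s(x, y) = p
        · exact Or.inr (Or.inr ⟨h, by rw [h']; exact hp⟩)
        · exact Or.inr (Or.inl ⟨h, h'⟩))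
  have h5 := (Nat.cast_le (α := ℝ)).2 h4
  push_cast at h5
  have h6 := F07_card V
  have h7 := F07_card W
  have h8 : (0 : ℝ) ≤ 2 * δ * n := by positivity
  have h9 := mul_le_mul_of_nonneg_right h6 h8
  have h10 := mul_le_mul_of_nonneg_right h7 h8
  have h11 : (V.card : ℝ) * W.card ≤ 282 * n + V.card * (2 * δ * n) + W.card * (2 * δ * n) := by
    refine h5.trans (add_le_add (add_le_add ?_ ?_) ?_)
    · have h33 := congrArg (Nat.cast : ℕ → ℝ) (F07_pairs_eq V W (fun x y => c s(x, y) = k))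
      push_cast at h33
      rw [h33]
      refine le_trans (le_of_eq ?_) hsum
      apply Finset.sum_congr rfl
      intro x _
      congr!
    · exact h1
    · exact h2
  nlinarith

end Pool.Agent.MP5g
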