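import Mathlib
import Pool.Agent.MP_5f2667_co.L.F05
import Pool.Agent.MP_5f2667_co.L.F06
import Pool.Agent.MP_5f2667_co.L.F07

set_option autoImplicit false

open Finset

/-
Proof. delta = min(eta,1)/100. kappa from typ delta. By energy at most 1250/kappa <= delta n vertices have en > kappa (en >= 0), for n large. So the four sets V a b (a in (0,2), b in (1,3)) cover all but delta n vertices. Any two different ones have |V||V'| <= 5 delta n^2 for n >= 282/delta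
(opposite: (a,b),(a+2,b+2); adjacent with k = a common, p = b; or k = b common, p = a, where VV c delta b a = VV c delta a b up to the order). The largest has at least (1-delta)n/4 >= n/5 elements, so the other three together have at most 75 delta n; the number of x outside the largest is <= 76 delta n <= eta n.
For x in V a b: mu_a + mu_b <= 1, so mu_a, mu_b <= 1/2+delta. So the x not satisfying the two inequalities are outside the largest V a b.
-/

namespace Pool.Agent.MP5g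

theorem F08_en_nonneg {n : ℕ} (c : Sym2 (Fin n) → ZMod 4) (x : Fin n) : 0 ≤ en c x := by
  have hr : ∀ k, 0 ≤ rh c x k := fun k => by unfold rh; positivity
  have h0 := mu_nonneg c x 0
  have h1 := mu_nonneg c x 1
  have h2 := mu_nonneg c x 2
  have h3 := mu_nonneg c x 3
  have p1 := ph_nonneg c x 1
  have p3 := ph_nonneg c x 3
  have r1 := hr 1
  have r3 := hr 3
  unfold en
  positivity

theorem F08_mem_VV {n : ℕ} (c : Sym2 (Fin n) → ZMod 4) (δ : ℝ) (a b : ZMod 4) (x : Fin n) :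
    x ∈ VV c δ a b ↔ 1 / 2 - δ ≤ mu c x a ∧ 1 / 2 - δ ≤ mu c x b := by
  unfold VV
  simp

theorem F08_VV_comm {n : ℕ} (c : Sym2 (Fin n) → ZMod 4) (δ : ℝ) (a b : ZMod 4) :
    VV c δ a b = VV c δ b a := by
  ext x
  rw [F08_mem_VV, F08_mem_VV]
  exact and_comm

theorem F08_close {n : ℕ} (c : Sym2 (Fin n) → ZMod 4) (δ : ℝ) (a b : ZMod 4)
    (ha : a = 0 ∨ a = 2) (hb : b = 1 ∨ b = 3) (x : Fin n) (hx : x ∈ VV c δ a b) :
    |mu c x a - 1 / 2| ≤ δ ∧ |mu c x b - 1 / 2| ≤ δ := by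
  rw [F08_mem_VV] at hx
  have h0 := mu_nonneg c x 0
  have h1 := mu_nonneg c x 1
  have h2 := mu_nonneg c x 2
  have h3 := mu_nonneg c x 3
  have hs := mu_sum c x
  have hab : mu c x a + mu c x b ≤ 1 := by
    rcases ha with rfl | rfl <;> rcases hb with rfl | rfl <;> linarith
  rw [abs_le, abs_le]
  refine ⟨⟨?_, ?_⟩, ⟨?_, ?_⟩⟩ <;> linarith [hx.1, hx.2]

open Classical in
theorem F08_aux {n : ℕ} (hn : 0 < n) (c : Sym2 (Fin n) → ZMod 4) (δ η : ℝ) (hδ : 0 < δ)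
    (hδη : 100 * δ ≤ η) (a b : ZMod 4) (ha : a = 0 ∨ a = 2) (hb : b = 1 ∨ b = 3)
    (B V1 V2 V3 : Finset (Fin n))
    (hcov : ∀ x, x ∈ B ∨ x ∈ VV c δ a b ∨ x ∈ V1 ∨ x ∈ V2 ∨ x ∈ V3)
    (hB : (B.card : ℝ) ≤ δ * n) (hbig : (n : ℝ) / 5 ≤ (VV c δ a b).card)
    (h1 : ((VV c δ a b).card : ℝ) * V1.card ≤ 5 * δ * (n : ℝ) ^ 2)
    (h2 : ((VV c δ a b).card : ℝ) * V2.card ≤ 5 * δ * (n : ℝ) ^ 2)
    (h3 : ((VV c δ a b).card : ℝ) * V3.card ≤ 5 * δ * (n : ℝ) ^ 2) :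
    ((univ.filter (fun x => ¬ (|mu c x a - 1 / 2| ≤ η ∧ |mu c x b - 1 / 2| ≤ η))).card : ℝ)
      ≤ η * n := by
  have hn' : (0 : ℝ) < n := by exact_mod_cast hn
  have key : ∀ V : Finset (Fin n), ((VV c δ a b).card : ℝ) * V.card ≤ 5 * δ * (n : ℝ) ^ 2 →
      (V.card : ℝ) ≤ 25 * δ * n := by
    intro V hV
    have h4 : (n : ℝ) / 5 * V.card ≤ 5 * δ * (n : ℝ) ^ 2 :=
      le_trans (mul_le_mul_of_nonneg_right hbig (Nat.cast_nonneg _)) hV
    have h5 : (n : ℝ) * V.card ≤ n * (25 * δ * n) := by nlinarith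
    exact le_of_mul_le_mul_left h5 hn'
  have hsub : univ.filter (fun x => ¬ (|mu c x a - 1 / 2| ≤ η ∧ |mu c x b - 1 / 2| ≤ η)) ⊆
      B ∪ (V1 ∪ (V2 ∪ V3)) := by
    intro x hx
    rw [mem_filter] at hx
    rw [mem_union, mem_union, mem_union]
    rcases hcov x with h | h | h | h | h
    · exact Or.inl h
    · exfalso
      obtain ⟨g1, g2⟩ := F08_close c δ a b ha hb x h
      exact hx.2 ⟨by linarith, by linarith⟩
    · exact Or.inr (Or.inl h)
    · exact Or.inr (Or.inr (Or.inl h))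
    · exact Or.inr (Or.inr (Or.inr h))
  have hcard : (univ.filter (fun x => ¬ (|mu c x a - 1 / 2| ≤ η ∧
      |mu c x b - 1 / 2| ≤ η))).card ≤ B.card + (V1.card + (V2.card + V3.card)) := by
    refine (card_le_card hsub).trans ((card_union_le _ _).trans ?_)
    gcongr
    refine (card_union_le _ _).trans ?_
    gcongr
    exact card_union_le _ _
  have hcard' : ((univ.filter (fun x => ¬ (|mu c x a - 1 / 2| ≤ η ∧
      |mu c x b - 1 / 2| ≤ η))).card : ℝ) ≤ B.card + (V1.card + (V2.card + V3.card)) := by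
    exact_mod_cast hcard
  have k1 := key V1 h1
  have k2 := key V2 h2
  have k3 := key V3 h3
  have h6 : 100 * δ * n ≤ η * n := mul_le_mul_of_nonneg_right hδη hn'.le
  nlinarith

open Classical in
theorem stability (η : ℝ) (hη : 0 < η) : ∃ n0 : ℕ, ∀ n ≥ n0, ∀ c : Sym2 (Fin n) → ZMod 4,
    (tot c : ℝ) ≤ 125 / 8 * (n : ℝ) ^ 5 → ∃ a b : ZMod 4, (a = 0 ∨ a = 2) ∧ (b = 1 ∨ b = 3) ∧
    ((univ.filter (fun x => ¬ (|mu c x a - 1 / 2| ≤ η ∧ |mu c x b - 1 / 2| ≤ η))).card : ℝ) ≤ η * n := by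
  obtain ⟨δ, hδ, hδ1, hδη⟩ : ∃ δ : ℝ, 0 < δ ∧ δ ≤ 1 / 100 ∧ 100 * δ ≤ η := by
    refine ⟨min η 1 / 100, by positivity, ?_, ?_⟩
    · have := min_le_right η 1
      linarith
    · have := min_le_left η 1
      linarith
  obtain ⟨κ, hκ, htyp⟩ := typ δ hδ
  obtain ⟨n1, hn1⟩ := exists_nat_ge (1250 / (κ * δ))
  obtain ⟨n2, hn2⟩ := exists_nat_ge (282 / δ)
  refine ⟨n1 + n2 + 1, ?_⟩
  intro n hn c hc
  have hn0 : 0 < n := by omega
  have hn' : (0 : ℝ) < n := by exact_mod_cast hn0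
  have hnn1 : (n1 : ℝ) ≤ n := by exact_mod_cast (by omega : n1 ≤ n)
  have hnn2 : (n2 : ℝ) ≤ n := by exact_mod_cast (by omega : n2 ≤ n)
  have he := energy c hc
  -- few vertices have large excess
  set B : Finset (Fin n) := univ.filter (fun x => κ < en c x) with hBdef
  have hB : (B.card : ℝ) ≤ δ * n := by
    have h1 : ∑ x ∈ B, κ ≤ ∑ x ∈ B, en c x := by
      apply sum_le_sum
      intro x hx
      rw [hBdef, mem_filter] at hx
      exact hx.2.le
    have h2 : ∑ x ∈ B, en c x ≤ ∑ x, en c x :=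
      sum_le_sum_of_subset_of_nonneg (subset_univ _) (fun x _ _ => F08_en_nonneg c x)
    rw [sum_const, nsmul_eq_mul] at h1
    have h3 : (B.card : ℝ) * κ ≤ 1250 := by linarith
    have h4 : 1250 / (κ * δ) ≤ n := hn1.trans hnn1
    rw [div_le_iff₀ (by positivity)] at h4
    have h5 : κ * (B.card : ℝ) ≤ κ * (δ * n) := by nlinarith
    exact le_of_mul_le_mul_left h5 hκ
  have h282 : 282 * (n : ℝ) ≤ δ * (n : ℝ) ^ 2 := by
    have h4 : 282 / δ ≤ n := hn2.trans hnn2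
    rw [div_le_iff₀ hδ] at h4
    nlinarith
  have hδ6 : δ ≤ 1 / 6 := by linarith
  have hnsq : 0 ≤ δ * (n : ℝ) ^ 2 := by positivity
  -- products
  have p1 : ((VV c δ 0 1).card : ℝ) * (VV c δ 2 3).card ≤ 5 * δ * (n : ℝ) ^ 2 := by
    have := opposite c δ hδ hδ6 0 1 (Or.inl rfl) (Or.inl rfl)
    rw [show (0 : ZMod 4) + 2 = 2 from rfl, show (1 : ZMod 4) + 2 = 3 from rfl] at this
    linarith
  have p2 : ((VV c δ 0 3).card : ℝ) * (VV c δ 2 1).card ≤ 5 * δ * (n : ℝ) ^ 2 := by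
    have := opposite c δ hδ hδ6 0 3 (Or.inl rfl) (Or.inr rfl)
    rw [show (0 : ZMod 4) + 2 = 2 from rfl, show (3 : ZMod 4) + 2 = 1 from rfl] at this
    linarith
  have p3 : ((VV c δ 0 1).card : ℝ) * (VV c δ 0 3).card ≤ 5 * δ * (n : ℝ) ^ 2 := by
    have := adjacent c δ hδ hδ6 0 1 (Or.inl ⟨Or.inl rfl, Or.inl rfl⟩) he
    rw [show (1 : ZMod 4) + 2 = 3 from rfl] at this
    linarith
  have p4 : ((VV c δ 2 1).card : ℝ) * (VV c δ 2 3).card ≤ 5 * δ * (n : ℝ) ^ 2 := by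
    have := adjacent c δ hδ hδ6 2 1 (Or.inl ⟨Or.inr rfl, Or.inl rfl⟩) he
    rw [show (1 : ZMod 4) + 2 = 3 from rfl] at this
    linarith
  have p5 : ((VV c δ 0 1).card : ℝ) * (VV c δ 2 1).card ≤ 5 * δ * (n : ℝ) ^ 2 := by
    have := adjacent c δ hδ hδ6 1 0 (Or.inr ⟨Or.inl rfl, Or.inl rfl⟩) he
    rw [show (0 : ZMod 4) + 2 = 2 from rfl, F08_VV_comm c δ 1 0, F08_VV_comm c δ 1 2] at this
    linarith
  have p6 : ((VV c δ 0 3).card : ℝ) * (VV c δ 2 3).card ≤ 5 * δ * (n : ℝ) ^ 2 := by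
    have := adjacent c δ hδ hδ6 3 0 (Or.inr ⟨Or.inr rfl, Or.inl rfl⟩) he
    rw [show (0 : ZMod 4) + 2 = 2 from rfl, F08_VV_comm c δ 3 0, F08_VV_comm c δ 3 2] at this
    linarith
  -- covering
  have hcov : ∀ x, x ∈ B ∨ x ∈ VV c δ 0 1 ∨ x ∈ VV c δ 0 3 ∨ x ∈ VV c δ 2 1 ∨
      x ∈ VV c δ 2 3 := by
    intro x
    by_cases hx : κ < en c x
    · left
      rw [hBdef, mem_filter]
      exact ⟨mem_univ _, hx⟩
    · right
      obtain ⟨a, b, ha, hb, h1, h2⟩ := htyp n c x (not_lt.mp hx)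
      rcases ha with rfl | rfl <;> rcases hb with rfl | rfl
      · exact Or.inl ((F08_mem_VV _ _ _ _ _).mpr ⟨h1, h2⟩)
      · exact Or.inr (Or.inl ((F08_mem_VV _ _ _ _ _).mpr ⟨h1, h2⟩))
      · exact Or.inr (Or.inr (Or.inl ((F08_mem_VV _ _ _ _ _).mpr ⟨h1, h2⟩)))
      · exact Or.inr (Or.inr (Or.inr ((F08_mem_VV _ _ _ _ _).mpr ⟨h1, h2⟩)))
  have htotal : (n : ℝ) ≤ B.card + ((VV c δ 0 1).card + ((VV c δ 0 3).card +
      ((VV c δ 2 1).card + (VV c δ 2 3).card))) := by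
    have hsub : (univ : Finset (Fin n)) ⊆ B ∪ (VV c δ 0 1 ∪ (VV c δ 0 3 ∪
        (VV c δ 2 1 ∪ VV c δ 2 3))) := by
      intro x _
      simp only [mem_union]
      exact hcov x
    have h1 := card_le_card hsub
    rw [card_univ, Fintype.card_fin] at h1
    have h2 : n ≤ B.card + ((VV c δ 0 1).card + ((VV c δ 0 3).card +
      ((VV c δ 2 1).card + (VV c δ 2 3).card))) := by
      refine h1.trans ((card_union_le _ _).trans ?_)
      gcongr
      refine (card_union_le _ _).trans ?_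
      gcongr
      refine (card_union_le _ _).trans ?_
      gcongr
      exact card_union_le _ _
    exact_mod_cast h2
  have hδn : δ * n ≤ (1 / 100) * n := mul_le_mul_of_nonneg_right hδ1 hn'.le
  -- the largest of the four
  by_cases c1 : (n : ℝ) / 5 ≤ (VV c δ 0 1).card
  · refine ⟨0, 1, Or.inl rfl, Or.inl rfl, ?_⟩
    exact F08_aux hn0 c δ η hδ hδη 0 1 (Or.inl rfl) (Or.inl rfl) B (VV c δ 0 3) (VV c δ 2 1)
      (VV c δ 2 3) hcov hB c1 p3 p5 p1
  by_cases c2 : (n : ℝ) / 5 ≤ (VV c δ 0 3).card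
  · refine ⟨0, 3, Or.inl rfl, Or.inr rfl, ?_⟩
    refine F08_aux hn0 c δ η hδ hδη 0 3 (Or.inl rfl) (Or.inr rfl) B (VV c δ 0 1) (VV c δ 2 1)
      (VV c δ 2 3) ?_ hB c2 (by linarith) p2 p6
    intro x
    rcases hcov x with h | h | h | h | h <;> tauto
  by_cases c3 : (n : ℝ) / 5 ≤ (VV c δ 2 1).card
  · refine ⟨2, 1, Or.inr rfl, Or.inl rfl, ?_⟩
    refine F08_aux hn0 c δ η hδ hδη 2 1 (Or.inr rfl) (Or.inl rfl) B (VV c δ 0 1) (VV c δ 0 3)
      (VV c δ 2 3) ?_ hB c3 (by linarith) (by linarith) p4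
    intro x
    rcases hcov x with h | h | h | h | h <;> tauto
  · refine ⟨2, 3, Or.inr rfl, Or.inr rfl, ?_⟩
    refine F08_aux hn0 c δ η hδ hδη 2 3 (Or.inr rfl) (Or.inr rfl) B (VV c δ 0 1) (VV c δ 0 3)
      (VV c δ 2 1) ?_ hB ?_ (by linarith) (by linarith) (by linarith)
    · intro x
      rcases hcov x with h | h | h | h | h <;> tauto
    · push Not at c1 c2 c3
      linarith

end Pool.Agent.MP5g
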