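import Mathlib
import Pool.Agent.MP_5f2667_co.L.Defs

set_option autoImplicit false

open Finset

/-
Proof hint. Generalises R01 (trees with m edges). Both sides count pairs (tree subgraph with m+1 vertices and zero sum, labelling):
a zero-sum tree T in Fin n with vertex set U (U is determined by T because a tree with m+1 >= 2 vertices has no isolated vertex) together with a bijection f : Fin (m+1) -> U
corresponds to the pair (pull-back tree on Fin (m+1), injective f); (m+1)! bijections for each T. Inverse: (T', f) gives T'.map f (SimpleGraph.map with the embedding f).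
Edge sum: the edge set of T'.map f is the image of the edge set of T' under Sym2.map f (injective).
-/

namespace Pool.Agent.MP5g

/-- the condition of the definition of `zsm` -/
def L01_TC (m : ℕ) {n : ℕ} (T : SimpleGraph (Fin n)) : Prop :=
  ∃ U : Finset (Fin n), U.card = m + 1 ∧ (∀ u v, T.Adj u v → u ∈ U) ∧
      (T.induce (U : Set (Fin n))).IsTree

theorem L01_map_comap {V W : Type} (f : V → W) (T : SimpleGraph W)
    (hs : ∀ u v, T.Adj u v → u ∈ Set.range f) : (T.comap f).map f = T := by
  ext u v
  rw [SimpleGraph.map_adj']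
  constructor
  · rintro ⟨-, a, b, hab, rfl, rfl⟩
    exact hab
  · intro h
    obtain ⟨a, rfl⟩ := hs u v h
    obtain ⟨b, rfl⟩ := hs v _ h.symm
    exact ⟨h.ne, a, b, h, rfl, rfl⟩

theorem L01_comap_map {V W : Type} (f : V → W) (hf : Function.Injective f) (T : SimpleGraph V) :
    (T.map f).comap f = T := by
  ext u v
  rw [SimpleGraph.comap_adj, SimpleGraph.map_adj']
  constructor
  · rintro ⟨-, a, b, hab, h1, h2⟩
    rw [hf h1, hf h2] at hab
    exact hab
  · intro h
    exact ⟨fun h' => h.ne (hf h'), u, v, h, rfl, rfl⟩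

theorem L01_map_TC {m n : ℕ} (T : SimpleGraph (Fin (m + 1))) (hT : T.IsTree)
    (f : Fin (m + 1) → Fin n) (hf : Function.Injective f) : L01_TC m (T.map f) := by
  classical
  refine ⟨univ.image f, ?_, ?_, ?_⟩
  · rw [Finset.card_image_of_injective _ hf]
    simp
  · intro u v h
    rw [SimpleGraph.map_adj'] at h
    obtain ⟨-, a, b, -, rfl, -⟩ := h
    exact Finset.mem_image_of_mem f (mem_univ a)
  · have hset : ((univ.image f : Finset (Fin n)) : Set (Fin n)) = Set.range f := by
      simp
    rw [hset]
    let φ : T ≃g (T.map f).induce (Set.range f) :=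
      { toEquiv := Equiv.ofInjective f hf
        map_rel_iff' := by
          intro i j
          change (T.map f).Adj (f i) (f j) ↔ T.Adj i j
          conv_rhs => rw [← L01_comap_map f hf T]
          rfl }
    exact φ.isTree_iff.mp hT

open Classical in
theorem L01_sum {m n : ℕ} (c : Sym2 (Fin n) → ZMod m) (T : SimpleGraph (Fin (m + 1)))
    (f : Fin (m + 1) → Fin n) (hf : Function.Injective f) :
    ∑ᶠ e ∈ (T.map f).edgeSet, c e = SS c T f := by
  have h1 : (T.map f).edgeSet = Sym2.map f '' T.edgeSet := by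
    have := SimpleGraph.edgeSet_map ⟨f, hf⟩ T
    exact this
  rw [h1, finsum_mem_image (Sym2.map.injective hf).injOn, ← SimpleGraph.coe_edgeFinset,
    finsum_mem_coe_finset]
  rfl

open Classical in
theorem L01_tot {m n : ℕ} (c : Sym2 (Fin n) → ZMod m) :
    tot c = (univ.filter (fun p : SimpleGraph (Fin (m + 1)) × (Fin (m + 1) → Fin n) =>
      p.1.IsTree ∧ Function.Injective p.2 ∧ SS c p.1 p.2 = 0)).card := by
  unfold tot cnt TT
  rw [Finset.card_filter, Fintype.sum_prod_type, Finset.sum_filter]
  refine Finset.sum_congr rfl fun T _ => ?_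
  split_ifs with h
  · rw [Finset.card_filter]
    refine Finset.sum_congr rfl fun f _ => ?_
    simp only [h, true_and]
  · symm
    refine Finset.sum_eq_zero fun f _ => ?_
    rw [if_neg]
    exact fun h' => h h'.1

open Classical in
theorem L01_fiber {m n : ℕ} (hm : 1 ≤ m) (c : Sym2 (Fin n) → ZMod m) (T : SimpleGraph (Fin n))
    (hT : L01_TC m T) (hz : ∑ᶠ e ∈ T.edgeSet, c e = 0) :
    (univ.filter (fun p : SimpleGraph (Fin (m + 1)) × (Fin (m + 1) → Fin n) =>
      (p.1.IsTree ∧ Function.Injective p.2 ∧ SS c p.1 p.2 = 0) ∧ p.1.map p.2 = T)).card =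
      (m + 1).factorial := by
  obtain ⟨U, hU, hs, hTU⟩ := hT
  have hcard : Fintype.card (Fin (m + 1) ≃ U) = (m + 1).factorial := by
    have e : Fin (m + 1) ≃ U := (U.equivFinOfCardEq hU).symm
    rw [Fintype.card_equiv e, Fintype.card_fin]
  rw [← hcard, ← Finset.card_univ]
  symm
  have hTs : ∀ u ∈ U, ∃ v, T.Adj u v := by
    intro u hu
    haveI : Nontrivial (U : Set (Fin n)) := by
      have h2 : 1 < U.card := by omega
      obtain ⟨a, ha, b, hb, hab⟩ := Finset.one_lt_card.1 h2
      exact ⟨⟨⟨a, ha⟩, ⟨b, hb⟩, fun h => hab (congrArg Subtype.val h)⟩⟩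
    have h1 := hTU.connected.preconnected.degree_pos_of_nontrivial ⟨u, hu⟩
    rw [SimpleGraph.degree_pos_iff_exists_adj] at h1
    obtain ⟨⟨v, hv⟩, h⟩ := h1
    exact ⟨v, h⟩
  refine Finset.card_bij (fun e _ => (T.comap (fun i => ((e i : U) : Fin n)),
    fun i => ((e i : U) : Fin n))) ?_ ?_ ?_
  · intro e _
    have hinj : Function.Injective (fun i => ((e i : U) : Fin n)) :=
      Subtype.val_injective.comp e.injective
    have hsr : ∀ u v, T.Adj u v → u ∈ Set.range (fun i => ((e i : U) : Fin n)) := by
      intro u v h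
      refine ⟨e.symm ⟨u, hs u v h⟩, ?_⟩
      simp
    have hmap := L01_map_comap _ T hsr
    rw [Finset.mem_filter]
    refine ⟨mem_univ _, ⟨?_, hinj, ?_⟩, hmap⟩
    · let φ : T.comap (fun i => ((e i : U) : Fin n)) ≃g T.induce (U : Set (Fin n)) :=
        { toEquiv := e, map_rel_iff' := by intro i j; rfl }
      exact φ.isTree_iff.mpr hTU
    · rw [← L01_sum c _ _ hinj, hmap]
      exact hz
  · intro e _ e' _ h
    rw [Prod.mk.injEq] at h
    ext i
    have := congrFun h.2 i
    exact congrArg _ this
  · rintro ⟨T', f⟩ hp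
    rw [Finset.mem_filter] at hp
    obtain ⟨-, ⟨hT', hinj, -⟩, hmap⟩ := hp
    dsimp only at hT' hinj hmap
    have hUr : U ⊆ univ.image f := by
      intro u hu
      obtain ⟨v, hv⟩ := hTs u hu
      rw [← hmap, SimpleGraph.map_adj'] at hv
      obtain ⟨-, a, b, -, rfl, -⟩ := hv
      exact Finset.mem_image_of_mem f (mem_univ a)
    have hUe : U = univ.image f := by
      refine Finset.eq_of_subset_of_card_le hUr ?_
      rw [Finset.card_image_of_injective _ hinj, hU]
      simp
    have hmem : ∀ i, f i ∈ U := by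
      intro i
      rw [hUe]
      exact Finset.mem_image_of_mem f (mem_univ i)
    have hbij : Function.Bijective (fun i => (⟨f i, hmem i⟩ : U)) := by
      rw [Fintype.bijective_iff_injective_and_card]
      refine ⟨fun i j h => hinj (congrArg Subtype.val h), ?_⟩
      rw [Fintype.card_fin, Fintype.card_coe, hU]
    refine ⟨Equiv.ofBijective _ hbij, mem_univ _, ?_⟩
    rw [Prod.mk.injEq]
    constructor
    · change T.comap f = T'
      rw [← hmap]
      exact L01_comap_map f hinj T'
    · rfl

theorem tot_eq {m n : ℕ} (hm : 1 ≤ m) (c : Sym2 (Fin n) → ZMod m) :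
    (m + 1).factorial * zsm m c = tot c := by
  classical
  have hZ : zsm m c = (univ.filter (fun T : SimpleGraph (Fin n) => L01_TC m T ∧
      ∑ᶠ e ∈ T.edgeSet, c e = 0)).card := by
    rw [zsm, Set.ncard_eq_toFinset_card']
    congr 1
    ext T
    simp only [Set.mem_toFinset, Set.mem_setOf_eq, Finset.mem_filter, Finset.mem_univ, true_and]
    rfl
  rw [hZ, L01_tot, Finset.card_eq_sum_card_fiberwise
    (f := fun p : SimpleGraph (Fin (m + 1)) × (Fin (m + 1) → Fin n) => p.1.map p.2)
    (t := univ.filter (fun T : SimpleGraph (Fin n) => L01_TC m T ∧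
      ∑ᶠ e ∈ T.edgeSet, c e = 0))]
  · rw [mul_comm, ← smul_eq_mul, ← Finset.sum_const]
    refine Finset.sum_congr rfl fun T hT => ?_
    rw [Finset.mem_filter] at hT
    rw [Finset.filter_filter]
    exact (L01_fiber hm c T hT.2.1 hT.2.2).symm
  · rintro ⟨T', f⟩ hp
    simp only [Finset.coe_filter, Finset.mem_univ, true_and, Set.mem_setOf_eq] at hp ⊢
    exact ⟨L01_map_TC T' hp.1 f hp.2.1, by rw [L01_sum c T' f hp.2.1]; exact hp.2.2⟩

end Pool.Agent.MP5g
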