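import Mathlib
import Pool.Agent.MP_5f2667_co.L.Defs

set_option autoImplicit false

open Finset

/-
Proof hint. Same set of trees: a tree with m+1 vertices has exactly m edges; the sum of m bits is 0 in ZMod m iff all are 0 or all are 1 (the integer sum s is in [0,m] and m divides s).
(m = 1: one edge, ZMod 1 is trivial, both conditions hold.)
-/

namespace Pool.Agent.MP5g

theorem L02_card {m n : ℕ} {T : SimpleGraph (Fin n)} {U : Finset (Fin n)} (hU : U.card = m + 1)
    (hs : ∀ u v, T.Adj u v → u ∈ U) (ht : (T.induce (U : Set (Fin n))).IsTree) :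
    T.edgeSet.ncard = m := by
  classical
  have h1 : T.edgeSet = (Sym2.map (fun v : ↥(U : Set (Fin n)) => (v : Fin n))) ''
      (T.induce (U : Set (Fin n))).edgeSet := by
    ext e
    induction e using Sym2.ind with
    | _ x y =>
      constructor
      · intro h
        rw [SimpleGraph.mem_edgeSet] at h
        refine ⟨s(⟨x, hs x y h⟩, ⟨y, hs y x h.symm⟩), ?_, rfl⟩
        rw [SimpleGraph.mem_edgeSet]
        exact h
      · rintro ⟨e, he, hxy⟩
        induction e using Sym2.ind with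
        | _ a b =>
          rw [SimpleGraph.mem_edgeSet] at he
          rw [← hxy, Sym2.map_mk, SimpleGraph.mem_edgeSet]
          exact he
  rw [h1, Set.ncard_image_of_injective _ (Sym2.map.injective Subtype.val_injective)]
  have h2 := ht.card_edgeFinset
  rw [← SimpleGraph.coe_edgeFinset, Set.ncard_coe_finset]
  have h3 : Fintype.card ((U : Set (Fin n)) : Type) = m + 1 := by
    simp [hU]
  rw [h3] at h2
  omega

theorem L02_sum {ι : Type} {m : ℕ} (hm : 1 ≤ m) (F : Finset ι) (hF : F.card = m) (c : ι → Fin 2) :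
    ((∑ e ∈ F, ((c e : ℕ) : ZMod m)) = 0) ↔ ∃ i : Fin 2, ∀ e ∈ F, c e = i := by
  rw [← Nat.cast_sum, ZMod.natCast_eq_zero_iff]
  have hle : ∀ e ∈ F, (c e : ℕ) ≤ 1 := fun e _ => by have := (c e).2; omega
  have hsum : ∑ e ∈ F, (c e : ℕ) ≤ m := by
    have := Finset.sum_le_card_nsmul F (fun e => (c e : ℕ)) 1 hle
    simpa [hF] using this
  constructor
  · intro h
    by_cases h0 : ∑ e ∈ F, (c e : ℕ) = 0
    · refine ⟨0, fun e he => ?_⟩
      rw [Finset.sum_eq_zero_iff] at h0
      exact Fin.ext (h0 e he)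
    · have h1 : ∑ e ∈ F, (c e : ℕ) = m := le_antisymm hsum (Nat.le_of_dvd (Nat.pos_of_ne_zero h0) h)
      refine ⟨1, fun e he => ?_⟩
      by_contra hne
      have h2 : (c e : ℕ) = 0 := by
        have h3 := (c e).2
        have h4 : (c e : ℕ) ≠ 1 := fun h => hne (Fin.ext h)
        omega
      have h5 : ∑ x ∈ F, (c x : ℕ) < ∑ x ∈ F, 1 :=
        Finset.sum_lt_sum hle ⟨e, he, by omega⟩
      rw [Finset.sum_const, hF, h1] at h5
      simp at h5
  · rintro ⟨i, hi⟩
    rw [Finset.sum_congr rfl (fun e he => by rw [hi e he] : ∀ e ∈ F, (c e : ℕ) = (i : ℕ)),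
      Finset.sum_const, hF]
    exact ⟨i, by simp⟩

theorem mom_eq {m n : ℕ} (hm : 1 ≤ m) (c : Sym2 (Fin n) → Fin 2) : mom m c = zsm m (lft m c) := by
  unfold mom zsm
  congr 1
  ext T
  simp only [Set.mem_setOf_eq]
  refine and_congr_right ?_
  rintro ⟨U, hU, hs, ht⟩
  have hc := L02_card hU hs ht
  have hfin : T.edgeSet.Finite := Set.toFinite _
  have h1 : ∑ᶠ e ∈ T.edgeSet, lft m c e = ∑ e ∈ hfin.toFinset, lft m c e :=
    finsum_mem_eq_finite_toFinset_sum _ hfin
  rw [h1]
  have hcard : hfin.toFinset.card = m := by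
    rw [← Set.ncard_eq_toFinset_card _ hfin, hc]
  have h2 := L02_sum hm hfin.toFinset hcard c
  unfold lft
  rw [h2]
  simp

end Pool.Agent.MP5g
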