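import Mathlib
import Pool.Agent.MP_5f2667_co.L.L01
import Pool.Agent.MP_5f2667_co.L.L02

set_option autoImplicit false

open Finset

/-
Proof. Average over all 2-colourings of Sym2 (Fin n) (number 2^M). For a labelled injective copy (T,f) the number of 2-colourings making the m distinct edges f(E(T)) monochromatic
is 2 * 2^(M-m). So sum over c of (m+1)! * mom c = (number of (T,f)) * 2^(M+1-m) <= |TT m| n^(m+1) 2^(M+1-m); the minimum is at most the average.
(Use tot (lft m c) and: SS (lft m c) T f = 0 iff monochromatic on f(E(T)).)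
-/

namespace Pool.Agent.MP5g

open Classical in
private theorem L03_const {α : Type*} [Fintype α] [DecidableEq α] (E : Finset α) (i : Fin 2) :
    2 ^ E.card * (univ.filter (fun c : α → Fin 2 => ∀ e ∈ E, c e = i)).card =
      Fintype.card (α → Fin 2) := by
  have h1 : (univ.filter (fun c : α → Fin 2 => ∀ e ∈ E, c e = i)) =
      Fintype.piFinset (fun a => if a ∈ E then ({i} : Finset (Fin 2)) else univ) := by
    ext c
    simp only [Finset.mem_filter, Finset.mem_univ, true_and, Fintype.mem_piFinset]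
    constructor
    · intro h a
      by_cases ha : a ∈ E
      · rw [if_pos ha, h a ha]
        exact Finset.mem_singleton_self _
      · rw [if_neg ha]
        exact Finset.mem_univ _
    · intro h e he
      have := h e
      rw [if_pos he] at this
      exact Finset.mem_singleton.1 this
  have h2 : (2 : ℕ) ^ E.card = ∏ a : α, if a ∈ E then 2 else 1 := by
    rw [Finset.prod_ite_mem, Finset.univ_inter, Finset.prod_const]
  rw [h1, Fintype.card_piFinset, h2, ← Finset.prod_mul_distrib, Fintype.card_fun, Fintype.card_fin]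
  rw [← Finset.card_univ, ← Finset.prod_const]
  refine Finset.prod_congr rfl fun a _ => ?_
  by_cases ha : a ∈ E
  · simp [ha]
  · simp [ha]

private theorem L03_bits {ι : Type*} (s : Finset ι) (m : ℕ) (hm : 1 ≤ m) (hs : s.card = m)
    (g : ι → Fin 2) (h : (∑ e ∈ s, (((g e : ℕ) : ZMod m))) = 0) : ∃ i : Fin 2, ∀ e ∈ s, g e = i := by
  have hle : ∀ e ∈ s, (g e : ℕ) ≤ 1 := fun e _ => by
    have := (g e).isLt
    omega
  rw [← Nat.cast_sum, ZMod.natCast_eq_zero_iff] at h
  have h1 : ∑ e ∈ s, (g e : ℕ) ≤ m := by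
    calc ∑ e ∈ s, (g e : ℕ) ≤ ∑ _e ∈ s, 1 := Finset.sum_le_sum hle
      _ = m := by rw [Finset.sum_const, hs, smul_eq_mul, mul_one]
  rcases Nat.eq_zero_or_pos (∑ e ∈ s, (g e : ℕ)) with h0 | h0
  · refine ⟨0, fun e he => ?_⟩
    have := Finset.sum_eq_zero_iff.1 h0 e he
    exact Fin.ext this
  · have h2 := Nat.le_of_dvd h0 h
    have h3 : ∑ e ∈ s, (g e : ℕ) = ∑ _e ∈ s, 1 := by
      rw [Finset.sum_const, hs, smul_eq_mul, mul_one]
      omega
    have h4 := (Finset.sum_eq_sum_iff_of_le hle).1 h3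
    exact ⟨1, fun e he => Fin.ext (h4 e he)⟩

open Classical in
private theorem L03_count {m n : ℕ} (hm : 1 ≤ m) (T : SimpleGraph (Fin (m + 1))) (hT : T ∈ TT m)
    (f : Fin (m + 1) → Fin n) (hf : Function.Injective f) :
    2 ^ m * (univ.filter (fun c : Sym2 (Fin n) → Fin 2 => SS (lft m c) T f = 0)).card ≤
      2 * Fintype.card (Sym2 (Fin n) → Fin 2) := by
  have hT' : T.IsTree := by
    unfold TT at hT
    exact (Finset.mem_filter.1 hT).2
  have hcard : T.edgeFinset.card = m := by
    have := hT'.card_edgeFinset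
    rw [Fintype.card_fin] at this
    omega
  have hE : (T.edgeFinset.image (Sym2.map f)).card = m := by
    rw [Finset.card_image_of_injective _ (Sym2.map.injective hf), hcard]
  have hsub : (univ.filter (fun c : Sym2 (Fin n) → Fin 2 => SS (lft m c) T f = 0)) ⊆
      (univ.filter (fun c : Sym2 (Fin n) → Fin 2 => ∀ e ∈ T.edgeFinset.image (Sym2.map f), c e = 0)) ∪
      (univ.filter (fun c : Sym2 (Fin n) → Fin 2 => ∀ e ∈ T.edgeFinset.image (Sym2.map f), c e = 1)) := by
    intro c hc
    have hc' := (Finset.mem_filter.1 hc).2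
    unfold SS lft at hc'
    obtain ⟨i, hi⟩ := L03_bits T.edgeFinset m hm hcard (fun e => c (Sym2.map f e)) hc'
    have hi' : ∀ e ∈ T.edgeFinset.image (Sym2.map f), c e = i := by
      intro e he
      obtain ⟨e', he', rfl⟩ := Finset.mem_image.1 he
      exact hi e' he'
    rw [Finset.mem_union, Finset.mem_filter, Finset.mem_filter]
    have hi2 : i = 0 ∨ i = 1 := by
      fin_cases i
      · exact Or.inl rfl
      · exact Or.inr rfl
    rcases hi2 with rfl | rfl
    · exact Or.inl ⟨Finset.mem_univ _, hi'⟩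
    · exact Or.inr ⟨Finset.mem_univ _, hi'⟩
  have h1 := L03_const (T.edgeFinset.image (Sym2.map f)) 0
  have h2 := L03_const (T.edgeFinset.image (Sym2.map f)) 1
  rw [hE] at h1 h2
  calc _ ≤ 2 ^ m * (((univ.filter (fun c : Sym2 (Fin n) → Fin 2 =>
          ∀ e ∈ T.edgeFinset.image (Sym2.map f), c e = 0))).card +
          ((univ.filter (fun c : Sym2 (Fin n) → Fin 2 =>
          ∀ e ∈ T.edgeFinset.image (Sym2.map f), c e = 1))).card) :=
        Nat.mul_le_mul_left _ ((Finset.card_le_card hsub).trans (Finset.card_union_le _ _))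
    _ = _ := by
        rw [mul_add, h1, h2]
        ring

theorem mom_le {m n : ℕ} (hm : 1 ≤ m) :
    2 ^ m * ((m + 1).factorial * (⨅ c : Sym2 (Fin n) → Fin 2, mom m c)) ≤ 2 * ((TT m).card * n ^ (m + 1)) := by
  classical
  have h1 : ∀ c : Sym2 (Fin n) → Fin 2,
      (m + 1).factorial * (⨅ c : Sym2 (Fin n) → Fin 2, mom m c) ≤ tot (lft m c) := by
    intro c
    rw [← tot_eq hm, ← mom_eq hm]
    exact Nat.mul_le_mul_left _ (ciInf_le' _ c)
  have h2 : Fintype.card (Sym2 (Fin n) → Fin 2) *
      ((m + 1).factorial * (⨅ c : Sym2 (Fin n) → Fin 2, mom m c)) ≤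
      ∑ c : Sym2 (Fin n) → Fin 2, tot (lft m c) := by
    rw [← Finset.card_univ, ← smul_eq_mul]
    exact Finset.card_nsmul_le_sum _ _ _ fun c _ => h1 c
  have h3 : 2 ^ m * ∑ c : Sym2 (Fin n) → Fin 2, tot (lft m c) ≤
      ∑ T ∈ TT m, ∑ _f : Fin (m + 1) → Fin n, 2 * Fintype.card (Sym2 (Fin n) → Fin 2) := by
    have h4 : ∀ c : Sym2 (Fin n) → Fin 2, tot (lft m c) = ∑ T ∈ TT m, ∑ f : Fin (m + 1) → Fin n,
        if Function.Injective f ∧ SS (lft m c) T f = 0 then 1 else 0 := by
      intro c
      unfold tot cnt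
      simp only [Finset.card_filter]
    simp only [h4]
    rw [Finset.sum_comm, Finset.mul_sum]
    refine Finset.sum_le_sum fun T hT => ?_
    rw [Finset.sum_comm, Finset.mul_sum]
    refine Finset.sum_le_sum fun f _ => ?_
    by_cases hf : Function.Injective f
    · have h5 := L03_count hm T hT f hf
      rw [Finset.card_filter] at h5
      simpa only [hf, true_and] using h5
    · simp [hf]
  have h6 : ∑ T ∈ TT m, ∑ _f : Fin (m + 1) → Fin n, 2 * Fintype.card (Sym2 (Fin n) → Fin 2) =
      Fintype.card (Sym2 (Fin n) → Fin 2) * (2 * ((TT m).card * n ^ (m + 1))) := by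
    rw [Finset.sum_const, Finset.sum_const, Finset.card_univ, Fintype.card_fun (α := Fin (m + 1)),
      Fintype.card_fin, Fintype.card_fin]
    simp only [smul_eq_mul]
    ring
  rw [h6] at h3
  have h7 : 0 < Fintype.card (Sym2 (Fin n) → Fin 2) := Fintype.card_pos
  refine Nat.le_of_mul_le_mul_left ?_ h7
  refine le_trans ?_ h3
  calc Fintype.card (Sym2 (Fin n) → Fin 2) *
        (2 ^ m * ((m + 1).factorial * (⨅ c : Sym2 (Fin n) → Fin 2, mom m c))) =
        2 ^ m * (Fintype.card (Sym2 (Fin n) → Fin 2) *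
        ((m + 1).factorial * (⨅ c : Sym2 (Fin n) → Fin 2, mom m c))) := by ring
    _ ≤ _ := Nat.mul_le_mul_left _ h2

end Pool.Agent.MP5g
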