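import Mathlib
import Pool.Agent.MP_5f2667_co.L.Defs

set_option autoImplicit false

open Finset

/-
Proof. A tree with m+1 vertices has m edges, so the finsum of u*c+t is u * (finsum of c) + m * t = u * (finsum of c). Multiplication by a unit is injective. The two sets of trees are equal.
-/

namespace Pool.Agent.MP5g

theorem L06_card {m n : ℕ} {T : SimpleGraph (Fin n)} {U : Finset (Fin n)} (hU : U.card = m + 1)
    (hs : ∀ u v, T.Adj u v → u ∈ U) (ht : (T.induce (U : Set (Fin n))).IsTree) :
    T.edgeSet.ncard = m := by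
  classical
  have h1 : T.edgeSet = (Sym2.map (fun v : ↥(U : Set (Fin n)) => (v : Fin n))) ''
      (T.induce (U : Set (Fin n))).edgeSet := by
    ext e
    induction e using Sym2.ind with
    | _ x y =>
      constructor
      · intro h
        rw [SimpleGraph.mem_edgeSet] at h
        refine ⟨s(⟨x, hs x y h⟩, ⟨y, hs y x h.symm⟩), ?_, rfl⟩
        rw [SimpleGraph.mem_edgeSet]
        exact h
      · rintro ⟨e, he, hxy⟩
        induction e using Sym2.ind with
        | _ a b =>
          rw [SimpleGraph.mem_edgeSet] at he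
          rw [← hxy, Sym2.map_mk, SimpleGraph.mem_edgeSet]
          exact he
  rw [h1, Set.ncard_image_of_injective _ (Sym2.map.injective Subtype.val_injective)]
  have h2 := ht.card_edgeFinset
  rw [← SimpleGraph.coe_edgeFinset, Set.ncard_coe_finset]
  have h3 : Fintype.card ((U : Set (Fin n)) : Type) = m + 1 := by
    simp [hU]
  rw [h3] at h2
  omega

theorem zsm_affine {m n : ℕ} (u : (ZMod m)ˣ) (t : ZMod m) (c : Sym2 (Fin n) → ZMod m) :
    zsm m (fun e => (u : ZMod m) * c e + t) = zsm m c := by
  classical
  unfold zsm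
  congr 1
  ext T
  simp only [Set.mem_setOf_eq]
  apply and_congr_right
  rintro ⟨U, hU, hs, ht⟩
  have hc := L06_card hU hs ht
  have hfin : T.edgeSet.Finite := Set.toFinite _
  rw [finsum_mem_eq_finite_toFinset_sum _ hfin, finsum_mem_eq_finite_toFinset_sum _ hfin,
    Finset.sum_add_distrib, ← Finset.mul_sum, Finset.sum_const,
    ← Set.ncard_eq_toFinset_card _ hfin, hc, nsmul_eq_mul, ZMod.natCast_self, zero_mul, add_zero]
  exact Units.mul_right_eq_zero u

end Pool.Agent.MP5g
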