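import Mathlib
import Pool.Agent.MP_5f2667_co.L.Defs

set_option autoImplicit false

open Finset

/-
Proof. Split the injective f by whether x is in the range. If not, SS c T f = SS c' T f. If x is in the range there is exactly one v with f v = x, so the number of those f with SS = 0 is sum_v cntv.
So tot c = R + totv c x, tot c' = R + totv c' x with the same R.
-/

namespace Pool.Agent.MP5g

open Classical in
private theorem L04_cnt_split {m n : ℕ} (c : Sym2 (Fin n) → ZMod m) (T : SimpleGraph (Fin (m + 1)))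
    (x : Fin n) : cnt c T = (univ.filter (fun f : Fin (m + 1) → Fin n =>
      Function.Injective f ∧ (∀ v, f v ≠ x) ∧ SS c T f = 0)).card + ∑ v, cntv c T v x := by
  have h1 : ∀ v, cntv c T v x = ∑ f : Fin (m + 1) → Fin n,
      if (Function.Injective f ∧ SS c T f = 0) ∧ f v = x then 1 else 0 := by
    intro v
    unfold cntv
    rw [Finset.card_filter]
    refine Finset.sum_congr rfl fun f _ => ?_
    congr 1
    exact propext ⟨fun h => ⟨⟨h.1, h.2.2⟩, h.2.1⟩, fun h => ⟨h.1.1, h.2, h.1.2⟩⟩
  simp only [h1]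
  rw [Finset.sum_comm]
  unfold cnt
  rw [Finset.card_filter, Finset.card_filter, ← Finset.sum_add_distrib]
  refine Finset.sum_congr rfl fun f _ => ?_
  by_cases hf : Function.Injective f ∧ SS c T f = 0
  · by_cases hx : ∃ v, f v = x
    · obtain ⟨v0, hv0⟩ := hx
      rw [if_pos hf, if_neg (fun h => h.2.1 v0 hv0), zero_add,
        Finset.sum_eq_single v0 (fun v _ hv => if_neg fun h => hv (hf.1 (h.2.trans hv0.symm)))
          (fun h => absurd (Finset.mem_univ _) h), if_pos ⟨hf, hv0⟩]
    · push Not at hx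
      rw [if_pos hf, if_pos ⟨hf.1, hx, hf.2⟩,
        Finset.sum_eq_zero (fun v _ => if_neg fun h => hx v h.2), add_zero]
  · rw [if_neg hf, if_neg (fun h => hf ⟨h.1, h.2.2⟩),
      Finset.sum_eq_zero (fun v _ => if_neg fun h => hf h.1), add_zero]

theorem tot_vertex {m n : ℕ} (c c' : Sym2 (Fin n) → ZMod m) (x : Fin n)
    (h : ∀ y z, y ≠ x → z ≠ x → c s(y, z) = c' s(y, z)) : tot c + totv c' x = tot c' + totv c x := by
  classical
  unfold tot totv
  rw [← Finset.sum_add_distrib, ← Finset.sum_add_distrib]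
  refine Finset.sum_congr rfl fun T _ => ?_
  rw [L04_cnt_split c T x, L04_cnt_split c' T x]
  have h2 : (univ.filter (fun f : Fin (m + 1) → Fin n =>
      Function.Injective f ∧ (∀ v, f v ≠ x) ∧ SS c T f = 0)) =
      (univ.filter (fun f : Fin (m + 1) → Fin n =>
      Function.Injective f ∧ (∀ v, f v ≠ x) ∧ SS c' T f = 0)) := by
    refine Finset.filter_congr fun f _ => ?_
    refine and_congr_right fun _ => and_congr_right fun hx => ?_
    have : SS c T f = SS c' T f := by
      unfold SS
      refine Finset.sum_congr rfl fun e _ => ?_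
      induction e using Sym2.ind with
      | _ a b =>
        rw [Sym2.map_mk]
        exact h _ _ (hx a) (hx b)
    rw [this]
  rw [h2]
  ring

open Classical in
private theorem L04_cnt_split' {m n : ℕ} (c : Sym2 (Fin n) → ZMod m) (T : SimpleGraph (Fin (m + 1)))
    (x y : Fin n) : cnt c T = (univ.filter (fun f : Fin (m + 1) → Fin n =>
      Function.Injective f ∧ (∀ u w, T.Adj u w → ¬ (f u = x ∧ f w = y)) ∧ SS c T f = 0)).card +
      ∑ u : Fin (m + 1), ∑ w : Fin (m + 1), if T.Adj u w then cnte c T u w x y else 0 := by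
  have h1 : ∀ u w : Fin (m + 1), (if T.Adj u w then cnte c T u w x y else 0) =
      ∑ f : Fin (m + 1) → Fin n,
      if (Function.Injective f ∧ SS c T f = 0) ∧ T.Adj u w ∧ f u = x ∧ f w = y then 1 else 0 := by
    intro u w
    by_cases ha : T.Adj u w
    · rw [if_pos ha]
      unfold cnte
      rw [Finset.card_filter]
      refine Finset.sum_congr rfl fun f _ => ?_
      congr 1
      exact propext ⟨fun h => ⟨⟨h.1, h.2.2.2⟩, ha, h.2.1, h.2.2.1⟩,
        fun h => ⟨h.1.1, h.2.2.1, h.2.2.2, h.1.2⟩⟩
    · rw [if_neg ha]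
      exact (Finset.sum_eq_zero fun f _ => if_neg fun h => ha h.2.1).symm
  simp only [h1]
  have h3 : ∑ u : Fin (m + 1), ∑ w : Fin (m + 1), ∑ f : Fin (m + 1) → Fin n,
      (if (Function.Injective f ∧ SS c T f = 0) ∧ T.Adj u w ∧ f u = x ∧ f w = y then 1 else 0) =
      ∑ f : Fin (m + 1) → Fin n, ∑ u : Fin (m + 1), ∑ w : Fin (m + 1),
      (if (Function.Injective f ∧ SS c T f = 0) ∧ T.Adj u w ∧ f u = x ∧ f w = y then 1 else 0) := by
    rw [Finset.sum_comm (s := (univ : Finset (Fin (m + 1) → Fin n)))]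
    exact Finset.sum_congr rfl fun u _ => Finset.sum_comm
  rw [h3]
  unfold cnt
  rw [Finset.card_filter, Finset.card_filter, ← Finset.sum_add_distrib]
  refine Finset.sum_congr rfl fun f _ => ?_
  by_cases hf : Function.Injective f ∧ SS c T f = 0
  · by_cases hx : ∃ u w, T.Adj u w ∧ f u = x ∧ f w = y
    · obtain ⟨u0, w0, ha, hu0, hw0⟩ := hx
      rw [if_pos hf, if_neg (fun h => h.2.1 u0 w0 ha ⟨hu0, hw0⟩), zero_add,
        Finset.sum_eq_single u0 (fun u _ hu => Finset.sum_eq_zero fun w _ =>
          if_neg fun h => hu (hf.1 (h.2.2.1.trans hu0.symm)))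
          (fun h => absurd (Finset.mem_univ _) h),
        Finset.sum_eq_single w0 (fun w _ hw =>
          if_neg fun h => hw (hf.1 (h.2.2.2.trans hw0.symm)))
          (fun h => absurd (Finset.mem_univ _) h), if_pos ⟨hf, ha, hu0, hw0⟩]
    · push Not at hx
      rw [if_pos hf, if_pos ⟨hf.1, fun u w ha h => hx u w ha h.1 h.2, hf.2⟩,
        Finset.sum_eq_zero (fun u _ => Finset.sum_eq_zero fun w _ =>
          if_neg fun h => hx u w h.2.1 h.2.2.1 h.2.2.2), add_zero]
  · rw [if_neg hf, if_neg (fun h => hf ⟨h.1, h.2.2⟩),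
      Finset.sum_eq_zero (fun u _ => Finset.sum_eq_zero fun w _ => if_neg fun h => hf h.1), add_zero]

/-- the same for one edge: exactly one ordered adjacent pair `(u,w)` with `f u = x`, `f w = y` if the edge is used -/
theorem tot_edge {m n : ℕ} (c c' : Sym2 (Fin n) → ZMod m) (x y : Fin n) (hxy : x ≠ y)
    (h : ∀ e, e ≠ s(x, y) → c e = c' e) : tot c + tote c' x y = tot c' + tote c x y := by
  classical
  unfold tot tote
  rw [← Finset.sum_add_distrib, ← Finset.sum_add_distrib]
  refine Finset.sum_congr rfl fun T _ => ?_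
  rw [L04_cnt_split' c T x y, L04_cnt_split' c' T x y]
  have h2 : (univ.filter (fun f : Fin (m + 1) → Fin n =>
      Function.Injective f ∧ (∀ u w, T.Adj u w → ¬ (f u = x ∧ f w = y)) ∧ SS c T f = 0)) =
      (univ.filter (fun f : Fin (m + 1) → Fin n =>
      Function.Injective f ∧ (∀ u w, T.Adj u w → ¬ (f u = x ∧ f w = y)) ∧ SS c' T f = 0)) := by
    refine Finset.filter_congr fun f _ => ?_
    refine and_congr_right fun _ => and_congr_right fun hx => ?_
    have : SS c T f = SS c' T f := by
      unfold SS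
      refine Finset.sum_congr rfl fun e he => ?_
      induction e using Sym2.ind with
      | _ a b =>
        rw [SimpleGraph.mem_edgeFinset, SimpleGraph.mem_edgeSet] at he
        rw [Sym2.map_mk]
        refine h _ fun hc => ?_
        rcases Sym2.eq_iff.1 hc with ⟨h1, h2⟩ | ⟨h1, h2⟩
        · exact hx a b he ⟨h1, h2⟩
        · exact hx b a he.symm ⟨h2, h1⟩
    rw [this]
  rw [h2]
  ring

end Pool.Agent.MP5g
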