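import Mathlib
import Pool.Agent.MP_5f2667_co.L.Defs

set_option autoImplicit false

open Finset

/-
Proof. Order the vertices outside R by (distance to R, index) and let r be 1 + the position in this order, r = 0 on R; par w = the neighbour of w closer to R. Since R is connected and T is a tree, every w outside R has exactly one neighbour with smaller distance to R, and no neighbour
with the same distance (either would give a cycle). Alternative: induct on the number of vertices outside R: if R is not everything, some edge joins w outside R to u in R; insert w into R (still connected); recursion gives r' for R + w; put r w = 1 and r = r' + 1 for the others;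
w has only one neighbour in R (otherwise a cycle through the connected set R).
-/

namespace Pool.Agent.MP5g

/-- a vertex outside a connected set has at most one neighbour inside -/
private theorem L07a_unique {V : Type*} (T : SimpleGraph V) (hT : T.IsAcyclic) (R : Set V)
    (hc : (T.induce R).Connected) (w u u' : V) (hw : w ∉ R) (hu : u ∈ R) (hu' : u' ∈ R)
    (h1 : T.Adj w u) (h2 : T.Adj w u') : u = u' := by
  classical
  by_contra hne
  obtain ⟨p⟩ := hc.preconnected ⟨u, hu⟩ ⟨u', hu'⟩
  let q := p.toPath
  let φ : T.induce R →g T := (SimpleGraph.Embedding.induce R).toHom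
  have hφ : Function.Injective φ := (SimpleGraph.Embedding.induce R (G := T)).injective
  have hq : (q.1.map φ).IsPath := SimpleGraph.Walk.IsPath.map hφ q.2
  let p2 : T.Walk u u' := SimpleGraph.Walk.cons h1.symm (SimpleGraph.Walk.cons h2 SimpleGraph.Walk.nil)
  have hp2 : p2.IsPath := by
    simp only [p2, SimpleGraph.Walk.cons_isPath_iff, SimpleGraph.Walk.IsPath.nil, SimpleGraph.Walk.support_cons,
      SimpleGraph.Walk.support_nil, List.mem_cons, List.not_mem_nil, or_false, true_and]
    refine ⟨h2.ne, ?_⟩
    rintro (h | h)
    · exact h1.ne h.symm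
    · exact hne h
  have heq := (hT.subsingleton_path u u').elim (⟨q.1.map φ, hq⟩ : T.Path u u') ⟨p2, hp2⟩
  have h3 : w ∈ p2.support := by simp [p2]
  have h4 : q.1.map φ = p2 := congrArg Subtype.val heq
  have h5 : (q.1.map φ).support = p2.support := congrArg (fun z : T.Walk u u' => z.support) h4
  have h6 := SimpleGraph.Walk.support_map φ q.1
  have h7 : p2.support = q.1.support.map φ := h5.symm.trans h6
  rw [h7, List.mem_map] at h3
  obtain ⟨a, _, ha⟩ := h3
  exact hw (ha ▸ a.2)

private theorem L07a_aux {m : ℕ} (T : SimpleGraph (Fin (m + 1))) (hT : T.IsTree) (k : ℕ) :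
    ∀ R : Finset (Fin (m + 1)), Rᶜ.card = k → R.Nonempty →
    (T.induce (R : Set (Fin (m + 1)))).Connected →
    ∃ (r : Fin (m + 1) → ℕ) (par : Fin (m + 1) → Fin (m + 1)),
      (∀ w, r w = 0 ↔ w ∈ R) ∧ (∀ w w', w ∉ R → r w = r w' → w = w') ∧
      (∀ w, w ∉ R → T.Adj w (par w) ∧ r (par w) < r w) ∧
      (∀ w w', T.Adj w w' → w ∉ R → r w' < r w → w' = par w) := by
  classical
  induction k with
  | zero =>
    intro R hR _ _
    have hall : ∀ w, w ∈ R := by
      intro w
      by_contra h
      have := Finset.card_eq_zero.1 hR
      have h2 : w ∈ Rᶜ := Finset.mem_compl.2 h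
      rw [this] at h2
      exact absurd h2 (Finset.notMem_empty _)
    exact ⟨fun _ => 0, id, fun w => ⟨fun _ => hall w, fun _ => rfl⟩, fun w _ hw => absurd (hall w) hw,
      fun w hw => absurd (hall w) hw, fun w _ _ hw => absurd (hall w) hw⟩
  | succ k ih =>
    intro R hR hne hc
    obtain ⟨u1, hu1⟩ := hne
    obtain ⟨w1, hw1⟩ : ∃ w, w ∉ R := by
      have : (Rᶜ).Nonempty := Finset.card_pos.1 (by omega)
      obtain ⟨w, hw⟩ := this
      exact ⟨w, Finset.mem_compl.1 hw⟩
    obtain ⟨p⟩ := hT.connected.preconnected u1 w1
    obtain ⟨d, _, hd1, hd2⟩ := p.exists_boundary_dart (R : Set (Fin (m + 1))) hu1 hw1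
    set u := d.fst with hu
    set w := d.snd with hw
    have hadj : T.Adj w u := d.adj.symm
    have hwR : w ∉ R := hd2
    have huR : u ∈ R := hd1
    have hc' : (T.induce ((insert w R : Finset (Fin (m + 1))) : Set (Fin (m + 1)))).Connected := by
      have h1 : ((insert w R : Finset (Fin (m + 1))) : Set (Fin (m + 1))) =
          (R : Set (Fin (m + 1))) ∪ {u, w} := by
        ext z
        simp only [Finset.coe_insert, Set.mem_insert_iff, Finset.mem_coe, Set.mem_union,
          Set.mem_singleton_iff]
        constructor
        · rintro (h | h)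
          · exact Or.inr (Or.inr h)
          · exact Or.inl h
        · rintro (h | h | h)
          · exact Or.inr h
          · exact Or.inr (h ▸ huR)
          · exact Or.inl h
      rw [h1]
      exact SimpleGraph.induce_union_connected hc.preconnected
        (SimpleGraph.induce_pair_connected_of_adj hadj.symm).preconnected ⟨u, huR, Or.inl rfl⟩
    have hcard : (insert w R)ᶜ.card = k := by
      have h1 := Finset.card_compl_add_card R
      have h2 := Finset.card_compl_add_card (insert w R)
      rw [Finset.card_insert_of_notMem hwR] at h2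
      omega
    obtain ⟨r', par', i1, i2, i3, i4⟩ := ih (insert w R) hcard ⟨w, Finset.mem_insert_self _ _⟩ hc'
    have hw0 : r' w = 0 := (i1 w).2 (Finset.mem_insert_self _ _)
    have hR0 : ∀ z ∈ R, r' z = 0 := fun z hz => (i1 z).2 (Finset.mem_insert_of_mem hz)
    have hpos : ∀ z, z ∉ R → z ≠ w → 0 < r' z := by
      intro z hz hzw
      rcases Nat.eq_zero_or_pos (r' z) with h | h
      · exact absurd (Finset.mem_insert.1 ((i1 z).1 h)) (by tauto)
      · exact h
    refine ⟨fun z => if z ∈ R then 0 else r' z + 1, fun z => if z = w then u else par' z,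
      fun z => ?_, fun z z' hz he => ?_, fun z hz => ?_, fun z z' ha hz hlt => ?_⟩
    · by_cases h : z ∈ R
      · simp [h]
      · simp [h]
    · simp only [if_neg hz] at he
      have hz' : z' ∉ R := fun h => by simp [h] at he
      simp only [if_neg hz', add_left_inj] at he
      by_cases hzw : z = w
      · subst hzw
        by_contra hne
        have := hpos z' hz' (Ne.symm hne)
        omega
      · exact i2 z z' (by simp [hzw, hz]) he
    · by_cases hzw : z = w
      · simp only [if_pos hzw, if_pos huR, if_neg hz]
        exact ⟨hzw ▸ hadj, by omega⟩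
      · simp only [if_neg hzw, if_neg hz]
        obtain ⟨j1, j2⟩ := i3 z (by simp [hzw, hz])
        refine ⟨j1, ?_⟩
        split_ifs <;> omega
    · simp only [if_neg hz] at hlt
      by_cases hzw : z = w
      · have hz' : z' ∈ R := by
          by_contra h
          simp only [if_neg h] at hlt
          rw [hzw, hw0] at hlt
          omega
        simp only [if_pos hzw]
        exact (L07a_unique T hT.isAcyclic R hc z u z' hz huR hz' (hzw ▸ hadj) ha).symm
      · simp only [if_neg hzw]
        refine i4 z z' ha (by simp [hzw, hz]) ?_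
        by_cases h : z' ∈ R
        · rw [hR0 z' h]
          exact hpos z hz hzw
        · simp only [if_neg h] at hlt
          omega

/-- ordering of a tree outside a connected set `R` -/
theorem tree_order {m : ℕ} (T : SimpleGraph (Fin (m + 1))) (hT : T ∈ TT m) (R : Finset (Fin (m + 1)))
    (hR : R.Nonempty) (hc : (T.induce (R : Set (Fin (m + 1)))).Connected) :
    ∃ (r : Fin (m + 1) → ℕ) (par : Fin (m + 1) → Fin (m + 1)),
      (∀ w, r w = 0 ↔ w ∈ R) ∧ (∀ w w', w ∉ R → r w = r w' → w = w') ∧
      (∀ w, w ∉ R → T.Adj w (par w) ∧ r (par w) < r w) ∧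
      (∀ w w', T.Adj w w' → w ∉ R → r w' < r w → w' = par w) := by
  classical
  have hT' : T.IsTree := by
    unfold TT at hT
    exact (Finset.mem_filter.1 hT).2
  exact L07a_aux T hT' _ R rfl hR hc

end Pool.Agent.MP5g
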