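import Mathlib
import Pool.Agent.MP_5f2667_co.L.L07a

set_option autoImplicit false

open Finset

/-
Counting by adding vertices one by one in the order of tree_order (r = 0 exactly on R, injective outside R, each w outside R has exactly one neighbour par w with smaller rank). Fix f on R and extend in the order of r (or induct on the number of vertices outside R, removing the vertex
of largest rank, which is a leaf attached to par w).
grow_le: the new vertex w must satisfy A (f (par w)) (f w), and f (par w) is either g u with u = par w in R (which has the neighbour w outside R) or satisfies P: at most U choices.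
grow_ge: for the new vertex w take any z with K s(par w, w) (f (par w)) z and P z which is different from the at most m values already used: at least L choices. Both orders of the edge are fine by hK.
(P y means: y is an allowed value.)
-/

namespace Pool.Agent.MP5g

open Classical in
/-- the partial extensions, upper bound version -/
noncomputable def L07b_SU {m n : ℕ} (R : Finset (Fin (m + 1))) (par : Fin (m + 1) → Fin (m + 1))
    (g : Fin (m + 1) → Fin n) (A : Fin n → Fin n → Prop) (P : Fin n → Prop)
    (D : Finset (Fin (m + 1))) : Finset (Fin (m + 1) → Fin n) :=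
  univ.filter (fun f => (∀ u ∈ R, f u = g u) ∧ (∀ u ∈ D, u ∉ R → P (f u)) ∧
    (∀ w ∈ D, w ∉ R → A (f (par w)) (f w)) ∧ ∀ u, u ∉ D → f u = g u)

theorem L07b_mem_SU {m n : ℕ} {R : Finset (Fin (m + 1))} {par : Fin (m + 1) → Fin (m + 1)}
    {g : Fin (m + 1) → Fin n} {A : Fin n → Fin n → Prop} {P : Fin n → Prop}
    {D : Finset (Fin (m + 1))} {f : Fin (m + 1) → Fin n} :
    f ∈ L07b_SU R par g A P D ↔ (∀ u ∈ R, f u = g u) ∧ (∀ u ∈ D, u ∉ R → P (f u)) ∧
      (∀ w ∈ D, w ∉ R → A (f (par w)) (f w)) ∧ ∀ u, u ∉ D → f u = g u := by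
  unfold L07b_SU
  simp

open Classical in
theorem L07b_le' {m n : ℕ} (R : Finset (Fin (m + 1))) (r : Fin (m + 1) → ℕ)
    (par : Fin (m + 1) → Fin (m + 1)) (hr : ∀ w, w ∉ R → r (par w) < r w)
    (g : Fin (m + 1) → Fin n) (A : Fin n → Fin n → Prop) (P : Fin n → Prop) (U : ℝ) (hU : 0 ≤ U)
    (hA : ∀ y, (P y ∨ ∃ w, w ∉ R ∧ par w ∈ R ∧ g (par w) = y) →
      ((univ.filter (fun z => A y z)).card : ℝ) ≤ U) :
    ∀ (k : ℕ) (D : Finset (Fin (m + 1))), R ⊆ D → (∀ w ∈ D, w ∉ R → par w ∈ D) →
      (D \ R).card = k → ((L07b_SU R par g A P D).card : ℝ) ≤ U ^ k := by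
  intro k
  induction k with
  | zero =>
    intro D hRD _ hk
    have hDR : D = R := by
      apply Finset.Subset.antisymm _ hRD
      rw [Finset.card_eq_zero, Finset.sdiff_eq_empty_iff_subset] at hk
      exact hk
    subst hDR
    have h1 : L07b_SU D par g A P D ⊆ {g} := by
      intro f hf
      rw [L07b_mem_SU] at hf
      rw [Finset.mem_singleton]
      funext u
      by_cases hu : u ∈ D
      · exact hf.1 u hu
      · exact hf.2.2.2 u hu
    have h2 := Finset.card_le_card h1
    rw [Finset.card_singleton] at h2
    rw [pow_zero]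
    exact_mod_cast h2
  | succ k ih =>
    intro D hRD hclosed hk
    have hne : (D \ R).Nonempty := by
      rw [← Finset.card_pos]; omega
    obtain ⟨w, hw, hmax⟩ := Finset.exists_max_image (D \ R) r hne
    rw [Finset.mem_sdiff] at hw
    have hpw : par w ∈ D := hclosed w hw.1 hw.2
    have hpww : par w ≠ w := by
      intro h
      have := hr w hw.2
      rw [h] at this
      exact lt_irrefl _ this
    set D' := D.erase w with hD'
    have hRD' : R ⊆ D' := by
      intro u hu
      rw [hD', Finset.mem_erase]
      exact ⟨fun h => hw.2 (h ▸ hu), hRD hu⟩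
    have hclosed' : ∀ v ∈ D', v ∉ R → par v ∈ D' := by
      intro v hv hvR
      rw [hD', Finset.mem_erase] at hv ⊢
      refine ⟨?_, hclosed v hv.2 hvR⟩
      intro h
      have h1 := hr v hvR
      have h2 := hmax v (Finset.mem_sdiff.2 ⟨hv.2, hvR⟩)
      rw [h] at h1
      omega
    have hcard : (D' \ R).card = k := by
      have h1 : D' \ R = (D \ R).erase w := by
        ext v
        simp only [hD', Finset.mem_sdiff, Finset.mem_erase]
        tauto
      rw [h1, Finset.card_erase_of_mem (Finset.mem_sdiff.2 hw), hk]
      rfl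
    have hih := ih D' hRD' hclosed' hcard
    -- the map forgetting the value at `w`
    have hmaps : ∀ f ∈ L07b_SU R par g A P D, Function.update f w (g w) ∈ L07b_SU R par g A P D' := by
      intro f hf
      rw [L07b_mem_SU] at hf ⊢
      obtain ⟨h1, h2, h3, h4⟩ := hf
      refine ⟨?_, ?_, ?_, ?_⟩
      · intro u hu
        have huw : u ≠ w := fun h => hw.2 (h ▸ hu)
        rw [Function.update_of_ne huw]
        exact h1 u hu
      · intro u hu huR
        rw [hD', Finset.mem_erase] at hu
        rw [Function.update_of_ne hu.1]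
        exact h2 u hu.2 huR
      · intro v hv hvR
        have hv' := hv
        rw [hD', Finset.mem_erase] at hv'
        have h5 := hclosed' v hv hvR
        rw [hD', Finset.mem_erase] at h5
        rw [Function.update_of_ne hv'.1, Function.update_of_ne h5.1]
        exact h3 v hv'.2 hvR
      · intro u hu
        by_cases huw : u = w
        · rw [huw, Function.update_self]
        · rw [Function.update_of_ne huw]
          apply h4
          intro h
          exact hu (by rw [hD', Finset.mem_erase]; exact ⟨huw, h⟩)
    rw [Finset.card_eq_sum_card_fiberwise hmaps]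
    push_cast
    have hfib : ∀ f' ∈ L07b_SU R par g A P D',
        ((((L07b_SU R par g A P D).filter (fun f => Function.update f w (g w) = f')).card : ℕ) : ℝ) ≤ U := by
      intro f' hf'
      have hf'' := L07b_mem_SU.1 hf'
      have h1 : ((L07b_SU R par g A P D).filter (fun f => Function.update f w (g w) = f')).card ≤
          (univ.filter (fun z => A (f' (par w)) z)).card := by
        apply Finset.card_le_card_of_injOn (fun f => f w)
        · intro f hf
          rw [Finset.coe_filter] at hf
          obtain ⟨hf1, hf2⟩ := hf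
          have h3 := L07b_mem_SU.1 hf1
          have h4 := h3.2.2.1 w hw.1 hw.2
          have h5 : f' (par w) = f (par w) := by
            rw [← hf2, Function.update_of_ne hpww]
          simp only [Finset.coe_filter, Finset.mem_univ, true_and]
          show A (f' (par w)) (f w)
          rw [h5]
          exact h4
        · intro f hf f2 hf2 heq
          rw [Finset.coe_filter] at hf hf2
          funext v
          by_cases hv : v = w
          · rw [hv]; exact heq
          · have h6 := congrFun (hf.2.trans hf2.2.symm) v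
            rw [Function.update_of_ne hv, Function.update_of_ne hv] at h6
            exact h6
      refine (Nat.cast_le.2 h1).trans ?_
      apply hA
      by_cases hpR : par w ∈ R
      · right
        exact ⟨w, hw.2, hpR, (hf''.1 _ hpR).symm⟩
      · left
        exact hf''.2.1 _ (hclosed' w |> fun _ => by
          rw [hD', Finset.mem_erase]; exact ⟨hpww, hpw⟩) hpR
    calc ∑ f' ∈ L07b_SU R par g A P D',
          (((L07b_SU R par g A P D).filter (fun f => Function.update f w (g w) = f')).card : ℝ)
        ≤ ∑ _f' ∈ L07b_SU R par g A P D', U := Finset.sum_le_sum hfib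
      _ = (L07b_SU R par g A P D').card * U := by rw [Finset.sum_const, nsmul_eq_mul]
      _ ≤ U ^ k * U := mul_le_mul_of_nonneg_right hih hU
      _ = U ^ (k + 1) := (pow_succ U k).symm

open Classical in
/-- upper bound for the number of extensions of `g` from `R` -/
theorem grow_le {m n : ℕ} (T : SimpleGraph (Fin (m + 1))) (hT : T ∈ TT m) (R : Finset (Fin (m + 1)))
    (hR : R.Nonempty) (hc : (T.induce (R : Set (Fin (m + 1)))).Connected) (g : Fin (m + 1) → Fin n)
    (A : Fin n → Fin n → Prop) (P : Fin n → Prop) (U : ℝ) (hU : 0 ≤ U)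
    (hA : ∀ y, (P y ∨ ∃ u ∈ R, (∃ w, w ∉ R ∧ T.Adj u w) ∧ g u = y) →
      ((univ.filter (fun z => A y z)).card : ℝ) ≤ U) :
    ((univ.filter (fun f : Fin (m + 1) → Fin n => (∀ u ∈ R, f u = g u) ∧ (∀ u, u ∉ R → P (f u)) ∧
      (∀ u w, T.Adj u w → w ∉ R → A (f u) (f w)))).card : ℝ)
      ≤ U ^ (m + 1 - R.card) := by
  obtain ⟨r, par, h0, hinj, hpar, huniq⟩ := tree_order T hT R hR hc
  have h1 := L07b_le' R r par (fun w hw => (hpar w hw).2) g A P U hU (by
    intro y hy
    apply hA
    rcases hy with hy | ⟨w, hw, hpR, hg⟩
    · exact Or.inl hy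
    · exact Or.inr ⟨par w, hpR, ⟨w, hw, (hpar w hw).1.symm⟩, hg⟩)
    (m + 1 - R.card) univ (Finset.subset_univ R) (fun _ _ _ => Finset.mem_univ _) (by
      rw [Finset.card_sdiff_of_subset (Finset.subset_univ R), Finset.card_univ, Fintype.card_fin])
  refine le_trans ?_ h1
  apply Nat.cast_le.2
  apply Finset.card_le_card
  intro f hf
  rw [Finset.mem_filter] at hf
  rw [L07b_mem_SU]
  refine ⟨hf.2.1, fun u _ hu => hf.2.2.1 u hu, fun w _ hw => hf.2.2.2 (par w) w (hpar w hw).1.symm hw,
    fun u hu => absurd (Finset.mem_univ u) hu⟩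

open Classical in
/-- the partial extensions, lower bound version -/
noncomputable def L07b_SL {m n : ℕ} (R : Finset (Fin (m + 1))) (par : Fin (m + 1) → Fin (m + 1))
    (g : Fin (m + 1) → Fin n) (P : Fin n → Prop) (K : Sym2 (Fin (m + 1)) → Fin n → Fin n → Prop)
    (D : Finset (Fin (m + 1))) : Finset (Fin (m + 1) → Fin n) :=
  univ.filter (fun f => (∀ u ∈ R, f u = g u) ∧ (∀ u ∈ D, u ∉ R → P (f u)) ∧
    (∀ w ∈ D, w ∉ R → K s(par w, w) (f (par w)) (f w)) ∧ (∀ u, u ∉ D → f u = g u) ∧
    (∀ u ∈ D, ∀ v ∈ D, f u = f v → u = v))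

theorem L07b_mem_SL {m n : ℕ} {R : Finset (Fin (m + 1))} {par : Fin (m + 1) → Fin (m + 1)}
    {g : Fin (m + 1) → Fin n} {P : Fin n → Prop} {K : Sym2 (Fin (m + 1)) → Fin n → Fin n → Prop}
    {D : Finset (Fin (m + 1))} {f : Fin (m + 1) → Fin n} :
    f ∈ L07b_SL R par g P K D ↔ (∀ u ∈ R, f u = g u) ∧ (∀ u ∈ D, u ∉ R → P (f u)) ∧
      (∀ w ∈ D, w ∉ R → K s(par w, w) (f (par w)) (f w)) ∧ (∀ u, u ∉ D → f u = g u) ∧
      (∀ u ∈ D, ∀ v ∈ D, f u = f v → u = v) := by
  unfold L07b_SL
  simp

open Classical in
theorem L07b_ge' {m n : ℕ} (R : Finset (Fin (m + 1))) (r : Fin (m + 1) → ℕ)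
    (par : Fin (m + 1) → Fin (m + 1)) (hr : ∀ w, w ∉ R → r (par w) < r w)
    (g : Fin (m + 1) → Fin n) (hg : ∀ u ∈ R, ∀ w ∈ R, g u = g w → u = w) (P : Fin n → Prop)
    (K : Sym2 (Fin (m + 1)) → Fin n → Fin n → Prop) (L : ℝ) (hL : 0 ≤ L)
    (hA : ∀ e, ∀ y, (P y ∨ ∃ w, w ∉ R ∧ par w ∈ R ∧ g (par w) = y) →
      L + (m + 1) ≤ ((univ.filter (fun z => K e y z ∧ P z)).card : ℝ)) :
    ∀ (k : ℕ) (D : Finset (Fin (m + 1))), R ⊆ D → (∀ w ∈ D, w ∉ R → par w ∈ D) →
      (D \ R).card = k → L ^ k ≤ ((L07b_SL R par g P K D).card : ℝ) := by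
  intro k
  induction k with
  | zero =>
    intro D hRD _ hk
    have hDR : D = R := by
      apply Finset.Subset.antisymm _ hRD
      rw [Finset.card_eq_zero, Finset.sdiff_eq_empty_iff_subset] at hk
      exact hk
    subst hDR
    have h1 : {g} ⊆ L07b_SL D par g P K D := by
      intro f hf
      rw [Finset.mem_singleton] at hf
      subst hf
      rw [L07b_mem_SL]
      exact ⟨fun _ _ => rfl, fun u hu hu' => absurd hu hu', fun u hu hu' => absurd hu hu',
        fun _ _ => rfl, hg⟩
    have h2 := Finset.card_le_card h1
    rw [Finset.card_singleton] at h2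
    rw [pow_zero]
    exact_mod_cast h2
  | succ k ih =>
    intro D hRD hclosed hk
    have hne : (D \ R).Nonempty := by
      rw [← Finset.card_pos]; omega
    obtain ⟨w, hw, hmax⟩ := Finset.exists_max_image (D \ R) r hne
    rw [Finset.mem_sdiff] at hw
    have hpw : par w ∈ D := hclosed w hw.1 hw.2
    have hpww : par w ≠ w := by
      intro h
      have := hr w hw.2
      rw [h] at this
      exact lt_irrefl _ this
    set D' := D.erase w with hD'
    have hwD' : w ∉ D' := by rw [hD']; exact Finset.notMem_erase w D
    have hRD' : R ⊆ D' := by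
      intro u hu
      rw [hD', Finset.mem_erase]
      exact ⟨fun h => hw.2 (h ▸ hu), hRD hu⟩
    have hpD' : par w ∈ D' := by rw [hD', Finset.mem_erase]; exact ⟨hpww, hpw⟩
    have hclosed' : ∀ v ∈ D', v ∉ R → par v ∈ D' := by
      intro v hv hvR
      rw [hD', Finset.mem_erase] at hv ⊢
      refine ⟨?_, hclosed v hv.2 hvR⟩
      intro h
      have h1 := hr v hvR
      have h2 := hmax v (Finset.mem_sdiff.2 ⟨hv.2, hvR⟩)
      rw [h] at h1
      omega
    have hcard : (D' \ R).card = k := by
      have h1 : D' \ R = (D \ R).erase w := by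
        ext v
        simp only [hD', Finset.mem_sdiff, Finset.mem_erase]
        tauto
      rw [h1, Finset.card_erase_of_mem (Finset.mem_sdiff.2 hw), hk]
      rfl
    have hih := ih D' hRD' hclosed' hcard
    -- pairs `(f', z)` give extensions
    set Z : (Fin (m + 1) → Fin n) → Finset (Fin n) := fun f' =>
      (univ.filter (fun z => K s(par w, w) (f' (par w)) z ∧ P z)) \ D'.image f' with hZ
    have hZcard : ∀ f' ∈ L07b_SL R par g P K D', L ≤ ((Z f').card : ℝ) := by
      intro f' hf'
      have hf'' := L07b_mem_SL.1 hf'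
      have h1 : L + (m + 1) ≤ ((univ.filter (fun z => K s(par w, w) (f' (par w)) z ∧ P z)).card : ℝ) := by
        apply hA
        by_cases hpR : par w ∈ R
        · right
          exact ⟨w, hw.2, hpR, (hf''.1 _ hpR).symm⟩
        · left
          exact hf''.2.1 _ hpD' hpR
      have h2 : (univ.filter (fun z => K s(par w, w) (f' (par w)) z ∧ P z)).card ≤
          (Z f').card + (D'.image f').card := by
        have h20 := Finset.le_card_sdiff (D'.image f')
          (univ.filter (fun z => K s(par w, w) (f' (par w)) z ∧ P z))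
        show _ ≤ ((univ.filter (fun z => K s(par w, w) (f' (par w)) z ∧ P z)) \ D'.image f').card +
          (D'.image f').card
        omega
      have h3 : (D'.image f').card ≤ m + 1 := by
        refine Finset.card_image_le.trans ?_
        have := Finset.card_le_univ D'
        rwa [Fintype.card_fin] at this
      have h4 : ((univ.filter (fun z => K s(par w, w) (f' (par w)) z ∧ P z)).card : ℝ) ≤
          (Z f').card + (m + 1) := by
        have : (univ.filter (fun z => K s(par w, w) (f' (par w)) z ∧ P z)).card ≤
          (Z f').card + (m + 1) := by omega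
        exact_mod_cast this
      linarith
    have hinj : ((L07b_SL R par g P K D').sigma Z).card ≤ (L07b_SL R par g P K D).card := by
      apply Finset.card_le_card_of_injOn
        (fun q : (Σ _ : Fin (m + 1) → Fin n, Fin n) => Function.update q.1 w q.2)
      · intro q hq
        rw [Finset.mem_coe, Finset.mem_sigma] at hq
        obtain ⟨hq1, hq2⟩ := hq
        have hf := L07b_mem_SL.1 hq1
        rw [hZ] at hq2
        simp only [Finset.mem_sdiff, Finset.mem_filter, Finset.mem_univ, true_and,
          Finset.mem_image, not_exists, not_and] at hq2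
        obtain ⟨h1, h2, h3, h4, h5⟩ := hf
        show Function.update q.1 w q.2 ∈ L07b_SL R par g P K D
        rw [L07b_mem_SL]
        have hupd : ∀ v, v ∈ D' → Function.update q.1 w q.2 v = q.1 v := by
          intro v hv
          have hvw : v ≠ w := by
            rintro rfl
            exact hwD' hv
          exact Function.update_of_ne hvw _ _
        have hmemD' : ∀ v, v ∈ D → v ≠ w → v ∈ D' := by
          intro v hv hvw
          rw [hD', Finset.mem_erase]
          exact ⟨hvw, hv⟩
        refine ⟨?_, ?_, ?_, ?_, ?_⟩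
        · intro u hu
          rw [hupd u (hRD' hu)]
          exact h1 u hu
        · intro u hu huR
          by_cases huw : u = w
          · rw [huw, Function.update_self]
            exact hq2.1.2
          · rw [hupd u (hmemD' u hu huw)]
            exact h2 u (hmemD' u hu huw) huR
        · intro v hv hvR
          by_cases hvw : v = w
          · rw [hvw, Function.update_self, hupd _ hpD']
            exact hq2.1.1
          · have hvD' := hmemD' v hv hvw
            rw [hupd v hvD', hupd _ (hclosed' v hvD' hvR)]
            exact h3 v hvD' hvR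
        · intro u hu
          have huw : u ≠ w := fun h => hu (h ▸ hw.1)
          rw [Function.update_of_ne huw]
          apply h4
          intro h
          rw [hD', Finset.mem_erase] at h
          exact hu h.2
        · intro u hu v hv huv
          by_cases huw : u = w
          · by_cases hvw : v = w
            · rw [huw, hvw]
            · exfalso
              rw [huw, Function.update_self, hupd v (hmemD' v hv hvw)] at huv
              exact hq2.2 v (hmemD' v hv hvw) huv.symm
          · by_cases hvw : v = w
            · exfalso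
              rw [hvw, Function.update_self, hupd u (hmemD' u hu huw)] at huv
              exact hq2.2 u (hmemD' u hu huw) huv
            · rw [hupd u (hmemD' u hu huw), hupd v (hmemD' v hv hvw)] at huv
              exact h5 u (hmemD' u hu huw) v (hmemD' v hv hvw) huv
      · rintro ⟨f1, z1⟩ hq ⟨f2, z2⟩ hq' heq
        rw [Finset.mem_coe, Finset.mem_sigma] at hq hq'
        have hf1 := L07b_mem_SL.1 hq.1
        have hf2 := L07b_mem_SL.1 hq'.1
        have heq' : Function.update f1 w z1 = Function.update f2 w z2 := heq
        have hz : z1 = z2 := by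
          have := congrFun heq' w
          rwa [Function.update_self, Function.update_self] at this
        have hf : f1 = f2 := by
          funext v
          by_cases hv : v = w
          · rw [hv]
            exact (hf1.2.2.2.1 w hwD').trans (hf2.2.2.2.1 w hwD').symm
          · have := congrFun heq' v
            rwa [Function.update_of_ne hv, Function.update_of_ne hv] at this
        rw [hf, hz]
    have hsum : L * (L07b_SL R par g P K D').card ≤
        (((L07b_SL R par g P K D').sigma Z).card : ℝ) := by
      rw [Finset.card_sigma]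
      push_cast
      calc L * ((L07b_SL R par g P K D').card : ℝ) = ∑ _f' ∈ L07b_SL R par g P K D', L := by
            rw [Finset.sum_const, nsmul_eq_mul, mul_comm]
        _ ≤ _ := Finset.sum_le_sum hZcard
    calc L ^ (k + 1) = L * L ^ k := by rw [pow_succ, mul_comm]
      _ ≤ L * (L07b_SL R par g P K D').card := mul_le_mul_of_nonneg_left hih hL
      _ ≤ _ := hsum
      _ ≤ _ := Nat.cast_le.2 hinj

open Classical in
/-- lower bound for the number of injective extensions with prescribed relations on the new edges:
`K e` is the relation required on the edge `e` -/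
theorem grow_ge {m n : ℕ} (T : SimpleGraph (Fin (m + 1))) (hT : T ∈ TT m) (R : Finset (Fin (m + 1)))
    (hR : R.Nonempty) (hc : (T.induce (R : Set (Fin (m + 1)))).Connected) (g : Fin (m + 1) → Fin n)
    (hg : ∀ u ∈ R, ∀ w ∈ R, g u = g w → u = w) (P : Fin n → Prop)
    (K : Sym2 (Fin (m + 1)) → Fin n → Fin n → Prop) (hK : ∀ e y z, K e y z → K e z y) (L : ℝ) (hL : 0 ≤ L)
    (hA : ∀ e, ∀ y, (P y ∨ ∃ u ∈ R, (∃ w, w ∉ R ∧ T.Adj u w) ∧ g u = y) →
      L + (m + 1) ≤ ((univ.filter (fun z => K e y z ∧ P z)).card : ℝ)) :
    L ^ (m + 1 - R.card) ≤ ((univ.filter (fun f : Fin (m + 1) → Fin n => Function.Injective f ∧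
      (∀ u ∈ R, f u = g u) ∧ (∀ u, u ∉ R → P (f u)) ∧
      (∀ u w, T.Adj u w → w ∉ R → K s(u, w) (f u) (f w)))).card : ℝ) := by
  obtain ⟨r, par, h0, hinj, hpar, huniq⟩ := tree_order T hT R hR hc
  have h1 := L07b_ge' R r par (fun w hw => (hpar w hw).2) g hg P K L hL (by
    intro e y hy
    apply hA
    rcases hy with hy | ⟨w, hw, hpR, hg⟩
    · exact Or.inl hy
    · exact Or.inr ⟨par w, hpR, ⟨w, hw, (hpar w hw).1.symm⟩, hg⟩)
    (m + 1 - R.card) univ (Finset.subset_univ R) (fun _ _ _ => Finset.mem_univ _) (by
      rw [Finset.card_sdiff_of_subset (Finset.subset_univ R), Finset.card_univ, Fintype.card_fin])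
  refine h1.trans ?_
  apply Nat.cast_le.2
  apply Finset.card_le_card
  intro f hf
  rw [L07b_mem_SL] at hf
  obtain ⟨hf1, hf2, hf3, hf4, hf5⟩ := hf
  rw [Finset.mem_filter]
  refine ⟨Finset.mem_univ _, ?_, hf1, fun u hu => hf2 u (Finset.mem_univ _) hu, ?_⟩
  · intro u v huv
    exact hf5 u (Finset.mem_univ _) v (Finset.mem_univ _) huv
  · intro u w huw hw
    rcases lt_trichotomy (r u) (r w) with hlt | heq | hgt
    · have h2 := huniq w u huw.symm hw hlt
      rw [h2]
      exact hf3 w (Finset.mem_univ _) hw
    · exact absurd (hinj w u hw heq.symm) huw.ne.symm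
    · have huR : u ∉ R := by
        intro h
        have := (h0 u).2 h
        omega
      have h2 := huniq u w huw huR hgt
      have h3 := hf3 u (Finset.mem_univ _) huR
      rw [← h2] at h3
      rw [Sym2.eq_swap]
      exact hK _ _ _ h3

end Pool.Agent.MP5g
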