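import Mathlib
import Pool.Agent.MP_5f2667_co.L.L07b

set_option autoImplicit false

open Finset

/-
Proof. f injective with f v = x and sum 0. (i) f(u) in B for some u != v: at most sum_u |B| n^(m-1) <= m eta n^m. (ii) otherwise, some edge uw of T with u,w != v (say u nearer to v) has a colour not in {0,1}:
f(u)=y is not in B, y != x, and y has at most n-1-dgm y 0 - dgm y 1 <= 2 eta n such neighbours; choose f at all vertices except v, w, then f(w): at most (m-1)*2 eta n * n^(m-1) <= 2 m eta n^m.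
(iii) otherwise all edges have colours 0/1 (edges at v by h01); the sum of m bits is 0 mod m iff all equal; number of f with all edges of colour i: order the vertices from v outwards, every new vertex has at most (1/2+eta) n choices
(colour degree of the image of the parent, which is x or outside B): <= ((1/2+eta)n)^m, for i = 0, 1. Note the bound of a count by products along a leaf ordering: you may prove a general lemma by removing leaves:
for a tree T on a fintype W, root v, and relations A_w on V with every y having at most U choices, the number of maps f with f v = x is <= U^(|W|-1); L07b provides it.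
-/

namespace Pool.Agent.MP5g

open Classical in
/-- Counting maps with a prescribed value at `v`, by the values outside of `v`, `w`. -/
theorem L07_count {m n : ℕ} (v w : Fin (m + 1)) (hvw : v ≠ w) (S : Finset (Fin (m + 1) → Fin n))
    (U : ℝ) (hU : 0 ≤ U)
    (hfib : ∀ f0 ∈ S, ((S.filter (fun f => ∀ i, i ≠ v → i ≠ w → f i = f0 i)).card : ℝ) ≤ U) :
    (S.card : ℝ) ≤ U * (n : ℝ) ^ (m - 1) := by
  set φ : (Fin (m + 1) → Fin n) → ({i : Fin (m + 1) // i ≠ v ∧ i ≠ w} → Fin n) :=
    fun f i => f i.1 with hφ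
  have h1 := Finset.card_eq_sum_card_fiberwise (s := S)
    (t := (univ : Finset ({i : Fin (m + 1) // i ≠ v ∧ i ≠ w} → Fin n))) (f := φ)
    (fun f _ => by simp)
  rw [h1]
  push_cast
  have h2 : ∀ h ∈ (univ : Finset ({i : Fin (m + 1) // i ≠ v ∧ i ≠ w} → Fin n)),
      ((S.filter (fun f => φ f = h)).card : ℝ) ≤ U := by
    intro h _
    rcases (S.filter (fun f => φ f = h)).eq_empty_or_nonempty with he | ⟨f0, hf0⟩
    · rw [he]; simpa using hU
    · rw [Finset.mem_filter] at hf0
      refine le_trans ?_ (hfib f0 hf0.1)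
      norm_cast
      refine Finset.card_le_card fun f hf => ?_
      rw [Finset.mem_filter] at hf ⊢
      refine ⟨hf.1, fun i hi hi' => ?_⟩
      have := congrFun (hf.2.trans hf0.2.symm) ⟨i, hi, hi'⟩
      exact this
  refine (Finset.sum_le_sum h2).trans (le_of_eq ?_)
  rw [Finset.sum_const, nsmul_eq_mul, mul_comm, Finset.card_univ, Fintype.card_fun, Fintype.card_fin]
  have h3 : Fintype.card {i : Fin (m + 1) // i ≠ v ∧ i ≠ w} = m - 1 := by
    rw [Fintype.card_subtype]
    have : (univ.filter (fun i : Fin (m + 1) => i ≠ v ∧ i ≠ w)) = univ \ {v, w} := by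
      ext i; simp
    rw [this, Finset.card_sdiff_of_subset (Finset.subset_univ _), Finset.card_univ, Fintype.card_fin,
      Finset.card_pair hvw]
    omega
  rw [h3]
  push_cast
  rfl

open Classical in
/-- The maps which meet `B` at `w`. -/
theorem L07_B {m n : ℕ} (v w : Fin (m + 1)) (hvw : v ≠ w) (x : Fin n) (B : Finset (Fin n)) (η : ℝ)
    (hB : (B.card : ℝ) ≤ η * n) :
    ((univ.filter (fun f : Fin (m + 1) → Fin n => f v = x ∧ f w ∈ B)).card : ℝ) ≤
      η * n * (n : ℝ) ^ (m - 1) := by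
  refine L07_count v w hvw _ (η * n) (le_trans (by positivity) hB) fun f0 _ => ?_
  refine le_trans ?_ hB
  norm_cast
  refine Finset.card_le_card_of_injOn (fun f => f w) (fun f hf => ?_) ?_
  · simp only [Finset.coe_filter, Finset.mem_filter, Set.mem_ofPred_eq] at hf
    exact hf.1.2.2
  · intro f hf f' hf' h
    simp only [Finset.coe_filter, Finset.mem_filter, Finset.mem_univ, true_and,
      Set.mem_ofPred_eq] at hf hf'
    funext i
    by_cases hi : i = v
    · rw [hi, hf.1.1, hf'.1.1]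
    · by_cases hi' : i = w
      · rw [hi']; exact h
      · rw [hf.2 i hi hi', hf'.2 i hi hi']

open Classical in
/-- The maps with a bad colour at the edge `u w`. -/
theorem L07_E {m n : ℕ} (v u w : Fin (m + 1)) (x : Fin n) (c : Sym2 (Fin n) → ZMod m)
    (B : Finset (Fin n)) (η : ℝ) (hη : 0 ≤ η) (hm : 2 ≤ m) (hb : ∀ y, y ∉ B → y ≠ x → Bal c η y) :
    ((univ.filter (fun f : Fin (m + 1) → Fin n => (u ≠ v ∧ w ≠ v ∧ u ≠ w) ∧ f v = x ∧
      (f u ∉ B ∧ f u ≠ x) ∧ f w ≠ f u ∧ c s(f u, f w) ≠ 0 ∧ c s(f u, f w) ≠ 1)).card : ℝ) ≤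
      2 * η * n * (n : ℝ) ^ (m - 1) := by
  by_cases hne : u ≠ v ∧ w ≠ v ∧ u ≠ w
  swap
  · rw [Finset.filter_false_of_mem (fun f _ h => hne h.1)]
    simp only [Finset.card_empty, Nat.cast_zero]
    positivity
  refine L07_count v w (Ne.symm hne.2.1) _ (2 * η * n) (by positivity) fun f0 hf0 => ?_
  simp only [Finset.mem_filter, Finset.mem_univ, true_and] at hf0
  obtain ⟨-, -, ⟨hB0, hx0⟩, -⟩ := hf0
  have hbal := hb _ hB0 hx0
  set y := f0 u with hy
  have h01 : (0 : ZMod m) ≠ 1 := by
    have : Fact (1 < m) := ⟨by omega⟩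
    exact zero_ne_one
  have h1 : ((univ.filter (fun z : Fin n => z ≠ y ∧ c s(y, z) ≠ 0 ∧ c s(y, z) ≠ 1)).card : ℝ) ≤
      2 * η * n := by
    have h2 : (univ.filter (fun z : Fin n => z ≠ y ∧ c s(y, z) ≠ 0 ∧ c s(y, z) ≠ 1)).card +
        dgm c y 0 + dgm c y 1 ≤ n := by
      unfold dgm
      rw [← Finset.card_union_of_disjoint, ← Finset.card_union_of_disjoint]
      · refine (Finset.card_le_univ _).trans (le_of_eq (Fintype.card_fin n))
      · rw [Finset.disjoint_left]
        intro z hz hz'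
        simp only [Finset.mem_union, Finset.mem_filter, Finset.mem_univ, true_and] at hz hz'
        rcases hz with hz | hz
        · exact hz.2.2 hz'.2
        · exact h01 (hz.2.symm.trans hz'.2)
      · rw [Finset.disjoint_left]
        intro z hz hz'
        simp only [Finset.mem_filter, Finset.mem_univ, true_and] at hz hz'
        exact hz.2.1 hz'.2
    have h3 : ((univ.filter (fun z : Fin n => z ≠ y ∧ c s(y, z) ≠ 0 ∧ c s(y, z) ≠ 1)).card : ℝ) +
        dgm c y 0 + dgm c y 1 ≤ n := by exact_mod_cast h2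
    have h4 := abs_le.mp hbal.1
    have h5 := abs_le.mp hbal.2
    linarith
  refine le_trans ?_ h1
  norm_cast
  refine Finset.card_le_card_of_injOn (fun f => f w) (fun f hf => ?_) ?_
  · simp only [Finset.coe_filter, Finset.mem_filter, Finset.mem_univ, true_and,
      Set.mem_ofPred_eq] at hf
    have hfu : f u = y := hf.2 u hne.1 hne.2.2
    obtain ⟨⟨-, -, -, h3, h4, h5⟩, -⟩ := hf
    rw [hfu] at h3 h4 h5
    simp only [Finset.coe_filter, Finset.mem_univ, true_and, Set.mem_ofPred_eq]
    exact ⟨h3, h4, h5⟩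
  · intro f hf f' hf' h
    simp only [Finset.coe_filter, Finset.mem_filter, Finset.mem_univ, true_and,
      Set.mem_ofPred_eq] at hf hf'
    funext i
    by_cases hi : i = v
    · rw [hi, hf.1.2.1, hf'.1.2.1]
    · by_cases hi' : i = w
      · rw [hi']; exact h
      · rw [hf.2 i hi hi', hf'.2 i hi hi']

open Classical in
/-- The sum of `m` bits. -/
theorem L07_bits {m : ℕ} {α : Type*} (hm : 2 ≤ m) (E : Finset α) (hE : E.card = m) (b : α → ZMod m)
    (hb : ∀ e ∈ E, b e = 0 ∨ b e = 1) (hs : ∑ e ∈ E, b e = 0) :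
    (∀ e ∈ E, b e = 0) ∨ (∀ e ∈ E, b e = 1) := by
  have h01 : (0 : ZMod m) ≠ 1 := by
    have : Fact (1 < m) := ⟨by omega⟩
    exact zero_ne_one
  have h1 : ∑ e ∈ E, b e = (((E.filter (fun e => b e = 1)).card : ℕ) : ZMod m) := by
    rw [← Finset.sum_filter_add_sum_filter_not E (fun e => b e = 1)]
    have h2 : ∑ e ∈ E.filter (fun e => ¬ b e = 1), b e = 0 := by
      refine Finset.sum_eq_zero fun e he => ?_
      rw [Finset.mem_filter] at he
      rcases hb e he.1 with h | h
      · exact h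
      · exact absurd h he.2
    rw [h2, add_zero, Finset.sum_congr rfl (fun e he => (Finset.mem_filter.mp he).2)]
    simp
  rw [h1, ZMod.natCast_eq_zero_iff] at hs
  have h3 : (E.filter (fun e => b e = 1)).card ≤ m := (Finset.card_filter_le _ _).trans hE.le
  rcases Nat.eq_zero_or_pos (E.filter (fun e => b e = 1)).card with h | h
  · left
    intro e he
    rcases hb e he with h' | h'
    · exact h'
    · rw [Finset.card_eq_zero, Finset.filter_eq_empty_iff] at h
      exact absurd h' (h he)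
  · right
    have h4 : (E.filter (fun e => b e = 1)).card = m := le_antisymm h3 (Nat.le_of_dvd h hs)
    intro e he
    have h5 : E.filter (fun e => b e = 1) = E :=
      Finset.eq_of_subset_of_card_le (Finset.filter_subset _ _) (by rw [h4, hE])
    rw [← h5] at he
    exact (Finset.mem_filter.mp he).2

open Classical in
/-- The maps with all edges of the colour `i`. -/
theorem L07_mono {m n : ℕ} (T : SimpleGraph (Fin (m + 1))) (hT : T ∈ TT m) (v : Fin (m + 1))
    (x : Fin n) (c : Sym2 (Fin n) → ZMod m) (B : Finset (Fin n)) (η : ℝ) (hη : 0 ≤ η) (i : ZMod m)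
    (hb : ∀ y, y ∉ B → y ≠ x → (dgm c y i : ℝ) ≤ (1 / 2 + η) * n)
    (hx : (dgm c x i : ℝ) ≤ (1 / 2 + η) * n) :
    ((univ.filter (fun f : Fin (m + 1) → Fin n => (∀ u ∈ ({v} : Finset (Fin (m + 1))), f u = x) ∧
      (∀ u, u ∉ ({v} : Finset (Fin (m + 1))) → (f u ∉ B ∧ f u ≠ x)) ∧
      (∀ u w, T.Adj u w → w ∉ ({v} : Finset (Fin (m + 1))) →
        (f w ≠ f u ∧ c s(f u, f w) = i)))).card : ℝ) ≤ ((1 / 2 + η) * n) ^ m := by
  have h := grow_le T hT {v} (Finset.singleton_nonempty v) (by
      rw [Finset.coe_singleton]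
      have : Subsingleton (({v} : Set (Fin (m + 1)))) :=
        ⟨fun a b => Subtype.ext (a.2.trans b.2.symm)⟩
      have : Nonempty (({v} : Set (Fin (m + 1)))) := ⟨⟨v, rfl⟩⟩
      exact ⟨SimpleGraph.Preconnected.of_subsingleton⟩)
    (fun _ => x) (fun y z => z ≠ y ∧ c s(y, z) = i) (fun y => y ∉ B ∧ y ≠ x) ((1 / 2 + η) * n)
    (by positivity) (by
      intro y hy
      have hd : (dgm c y i : ℝ) ≤ (1 / 2 + η) * n := by
        rcases hy with hy | ⟨u, _, _, hu⟩
        · exact hb y hy.1 hy.2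
        · rw [← hu]; exact hx
      refine le_trans (le_of_eq ?_) hd
      unfold dgm
      congr 2
      convert rfl)
  rw [Finset.card_singleton, Nat.add_sub_cancel] at h
  refine le_trans (le_of_eq ?_) h
  congr 2
  convert rfl

theorem cntv_le {m n : ℕ} (hm : 2 ≤ m) (T : SimpleGraph (Fin (m + 1))) (hT : T ∈ TT m) (v : Fin (m + 1))
    (x : Fin n) (c : Sym2 (Fin n) → ZMod m) (B : Finset (Fin n)) (η : ℝ) (hη : 0 ≤ η)
    (hB : (B.card : ℝ) ≤ η * n) (hb : ∀ y, y ∉ B → y ≠ x → Bal c η y)
    (h01 : ∀ y, y ≠ x → c s(x, y) = 0 ∨ c s(x, y) = 1) (h0 : (dgm c x 0 : ℝ) ≤ (1 / 2 + η) * n)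
    (h1 : (dgm c x 1 : ℝ) ≤ (1 / 2 + η) * n) :
    (cntv c T v x : ℝ) ≤ (2 * (1 / 2 + η) ^ m + 3 * m * η) * (n : ℝ) ^ m := by
  classical
  have hTree : T.IsTree := by
    unfold TT at hT
    exact (Finset.mem_filter.mp hT).2
  have hcard : T.edgeFinset.card = m := by
    have := hTree.card_edgeFinset
    rw [Fintype.card_fin] at this
    omega
  set Gm : ZMod m → Finset (Fin (m + 1) → Fin n) := fun i => univ.filter
    (fun f : Fin (m + 1) → Fin n => (∀ u ∈ ({v} : Finset (Fin (m + 1))), f u = x) ∧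
      (∀ u, u ∉ ({v} : Finset (Fin (m + 1))) → (f u ∉ B ∧ f u ≠ x)) ∧
      (∀ u w, T.Adj u w → w ∉ ({v} : Finset (Fin (m + 1))) →
        (f w ≠ f u ∧ c s(f u, f w) = i))) with hGm
  set F1 : Fin (m + 1) → Finset (Fin (m + 1) → Fin n) := fun w =>
    univ.filter (fun f : Fin (m + 1) → Fin n => f v = x ∧ f w ∈ B) with hF1
  set F2 : Sym2 (Fin (m + 1)) → Finset (Fin (m + 1) → Fin n) := fun e =>
    univ.filter (fun f : Fin (m + 1) → Fin n => (e.out.1 ≠ v ∧ e.out.2 ≠ v ∧ e.out.1 ≠ e.out.2) ∧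
      f v = x ∧ (f e.out.1 ∉ B ∧ f e.out.1 ≠ x) ∧ f e.out.2 ≠ f e.out.1 ∧
      c s(f e.out.1, f e.out.2) ≠ 0 ∧ c s(f e.out.1, f e.out.2) ≠ 1) with hF2
  have hsub : (univ.filter (fun f : Fin (m + 1) → Fin n =>
      Function.Injective f ∧ f v = x ∧ SS c T f = 0)) ⊆
      ((univ.erase v).biUnion F1 ∪ T.edgeFinset.biUnion F2) ∪ (Gm 0 ∪ Gm 1) := by
    intro f hf
    simp only [Finset.mem_filter, Finset.mem_univ, true_and] at hf
    obtain ⟨hinj, hfv, hSS⟩ := hf
    by_contra hcon
    simp only [Finset.mem_union, Finset.mem_biUnion, Finset.mem_erase, Finset.mem_univ, and_true,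
      not_or, not_exists, not_and] at hcon
    obtain ⟨⟨hc1, hc2⟩, hc3, hc4⟩ := hcon
    have hnB : ∀ u, u ≠ v → f u ∉ B := by
      intro u hu hmem
      apply hc1 u hu
      rw [hF1]
      simp only [Finset.mem_filter, Finset.mem_univ, true_and]
      exact ⟨hfv, hmem⟩
    have hnx : ∀ u, u ≠ v → f u ≠ x := by
      intro u hu h
      exact hu (hinj (h.trans hfv.symm))
    have hbit : ∀ e ∈ T.edgeFinset, c (e.map f) = 0 ∨ c (e.map f) = 1 := by
      intro e he
      have hout : s(e.out.1, e.out.2) = e := by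
        rw [Sym2.mk]; exact Quot.out_eq e
      by_contra hcon
      rw [not_or] at hcon
      have hadj : T.Adj e.out.1 e.out.2 := by
        rw [← SimpleGraph.mem_edgeSet, hout]
        exact SimpleGraph.mem_edgeFinset.mp he
      have hne := hadj.ne
      have hmap : e.map f = s(f e.out.1, f e.out.2) := by
        conv_lhs => rw [← hout]
        rfl
      rw [hmap] at hcon
      by_cases h1v : e.out.1 = v
      · rw [h1v, hfv] at hcon
        rcases h01 (f e.out.2) (hnx _ (fun h => hne (h1v.trans h.symm))) with h | h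
        · exact hcon.1 h
        · exact hcon.2 h
      · by_cases h2v : e.out.2 = v
        · rw [h2v, hfv, Sym2.eq_swap] at hcon
          rcases h01 (f e.out.1) (hnx _ h1v) with h | h
          · exact hcon.1 h
          · exact hcon.2 h
        · apply hc2 e he
          rw [hF2]
          simp only [Finset.mem_filter, Finset.mem_univ, true_and]
          exact ⟨⟨h1v, h2v, hne⟩, hfv, ⟨hnB _ h1v, hnx _ h1v⟩, fun h => hne (hinj h.symm), hcon.1,
            hcon.2⟩
    have hmem : ∀ i : ZMod m, (∀ e ∈ T.edgeFinset, c (e.map f) = i) → f ∈ Gm i := by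
      intro i hi
      rw [hGm]
      simp only [Finset.mem_filter, Finset.mem_univ, true_and, Finset.mem_singleton, forall_eq]
      refine ⟨hfv, fun u hu => ⟨hnB u hu, hnx u hu⟩, fun u w huw _ => ⟨fun h => huw.ne (hinj h.symm), ?_⟩⟩
      exact hi s(u, w) (SimpleGraph.mem_edgeFinset.mpr ((SimpleGraph.mem_edgeSet T).mpr huw))
    rcases L07_bits hm T.edgeFinset hcard (fun e => c (e.map f)) hbit (by
      unfold SS at hSS
      convert hSS) with h | h
    · exact hc3 (hmem 0 h)
    · exact hc4 (hmem 1 h)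
  have hb1 : ((univ.erase v).biUnion F1).card ≤ ∑ w ∈ univ.erase v, (F1 w).card :=
    Finset.card_biUnion_le
  have hb2 : (T.edgeFinset.biUnion F2).card ≤ ∑ e ∈ T.edgeFinset, (F2 e).card :=
    Finset.card_biUnion_le
  have hn : η * n * (n : ℝ) ^ (m - 1) = η * (n : ℝ) ^ m := by
    rw [mul_assoc, ← pow_succ']
    congr 2
    omega
  have hb1' : (∑ w ∈ univ.erase v, ((F1 w).card : ℝ)) ≤ m * (η * (n : ℝ) ^ m) := by
    have : ∀ w ∈ univ.erase v, ((F1 w).card : ℝ) ≤ η * (n : ℝ) ^ m := by
      intro w hw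
      rw [← hn]
      exact L07_B v w (Finset.ne_of_mem_erase hw).symm x B η hB
    refine (Finset.sum_le_sum this).trans (le_of_eq ?_)
    rw [Finset.sum_const, Finset.card_erase_of_mem (Finset.mem_univ _), Finset.card_univ,
      Fintype.card_fin, nsmul_eq_mul]
    simp
  have hb2' : (∑ e ∈ T.edgeFinset, ((F2 e).card : ℝ)) ≤ m * (2 * (η * (n : ℝ) ^ m)) := by
    have : ∀ e ∈ T.edgeFinset, ((F2 e).card : ℝ) ≤ 2 * (η * (n : ℝ) ^ m) := by
      intro e _
      have := L07_E v e.out.1 e.out.2 x c B η hη hm hb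
      have h2 : 2 * η * n * (n : ℝ) ^ (m - 1) = 2 * (η * (n : ℝ) ^ m) := by rw [← hn]; ring
      rw [← h2]
      exact this
    refine (Finset.sum_le_sum this).trans (le_of_eq ?_)
    rw [Finset.sum_const, hcard, nsmul_eq_mul]
  have hg0 : ((Gm 0).card : ℝ) ≤ ((1 / 2 + η) * n) ^ m :=
    L07_mono T hT v x c B η hη 0 (fun y hy hy' => by
      have := (abs_le.mp (hb y hy hy').1).2
      linarith) h0
  have hg1 : ((Gm 1).card : ℝ) ≤ ((1 / 2 + η) * n) ^ m :=
    L07_mono T hT v x c B η hη 1 (fun y hy hy' => by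
      have := (abs_le.mp (hb y hy hy').2).2
      linarith) h1
  have hle : (cntv c T v x : ℝ) ≤ (∑ w ∈ univ.erase v, ((F1 w).card : ℝ)) +
      (∑ e ∈ T.edgeFinset, ((F2 e).card : ℝ)) + ((Gm 0).card + (Gm 1).card) := by
    have h2 : cntv c T v x ≤ (∑ w ∈ univ.erase v, (F1 w).card) +
      (∑ e ∈ T.edgeFinset, (F2 e).card) + ((Gm 0).card + (Gm 1).card) := by
      unfold cntv
      refine le_trans (le_of_eq ?_) ((Finset.card_le_card hsub).trans ?_)
      · congr 1
      · refine (Finset.card_union_le _ _).trans ?_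
        refine add_le_add ((Finset.card_union_le _ _).trans (add_le_add hb1 hb2))
          (Finset.card_union_le _ _)
    exact_mod_cast h2
  rw [mul_pow] at hg0 hg1
  nlinarith

end Pool.Agent.MP5g
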