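import Mathlib
import Pool.Agent.MP_5f2667_co.L.L07b

set_option autoImplicit false

open Finset

/-
Proof. d = degree of v >= 1, G = complement of B and x. Lower bound by those f with f v = x, all other values in G, injective, colours of the edges not at v in {0,1}. Fix an injective y : N(v) -> G (R = v and its neighbours, a star, connected).
For every subset S of the m-d edges outside the star (S = edges of colour 1) with |S| = (-z).val, z = sum of c s(x, y_i): grow_ge with K e = colour of (y,z) is 1 if e in S else 0, P = membership in G, L = (1/2-3 eta) n: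
for y in G: dgm y i >= (1/2-eta)n, at most |B|+1 <= eta n + 1 of these are outside G, and (1/2-eta)n - eta n - 1 >= (1/2-3eta)n + m+1 needs eta n >= m+2: see hn. Different (y,S) give different f (f determines y and S). The number of S is (m-d).choose (-z).val = wt m d z
(if (-z).val > m-d both are 0). So cntv >= L^(m-d) * sum over injective y into G of wt. The sum over all y with y_i != x is Ad; those with some y_i in B: at most d |B| n^(d-1) <= d eta n^d; non-injective ones: at most d^2 n^(d-1) <= d^2 eta n^d/(m+2) <= d eta n^d;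
every weight is <= 2^(m-d) <= 2^m. Total loss <= 2^(m+1) m eta n^d. (Index N(v) by Fin d through an equivalence.) If the bracket is negative the bound is trivial.
-/

namespace Pool.Agent.MP5g

theorem L08_bad1 {d n : ℕ} (B : Finset (Fin n)) (i : Fin d) :
    (univ.filter (fun y : Fin d → Fin n => y i ∈ B)).card = B.card * n ^ (d - 1) := by
  classical
  have h1 : (univ.filter (fun y : Fin d → Fin n => y i ∈ B)) =
      Fintype.piFinset (fun j : Fin d => if j = i then B else (univ : Finset (Fin n))) := by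
    ext y
    rw [Finset.mem_filter, Fintype.mem_piFinset]
    constructor
    · rintro ⟨-, h⟩ j
      split_ifs with hj
      · rw [hj]; exact h
      · exact mem_univ _
    · intro h
      refine ⟨mem_univ _, ?_⟩
      have := h i
      rwa [if_pos rfl] at this
  rw [h1, Fintype.card_piFinset, ← Finset.mul_prod_erase univ _ (mem_univ i), if_pos rfl]
  congr 1
  rw [Finset.prod_congr rfl (g := fun _ => n) (fun j hj => by
    rw [if_neg (Finset.ne_of_mem_erase hj), Finset.card_univ, Fintype.card_fin])]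
  rw [Finset.prod_const, Finset.card_erase_of_mem (mem_univ i), Finset.card_univ, Fintype.card_fin]

theorem L08_bad2 {d n : ℕ} (i j : Fin d) (hij : i ≠ j) :
    (univ.filter (fun y : Fin d → Fin n => y i = y j)).card ≤ n ^ (d - 1) := by
  classical
  have hcard : (Finset.univ : Finset ({k : Fin d // k ≠ j} → Fin n)).card = n ^ (d - 1) := by
    rw [Finset.card_univ, Fintype.card_fun, Fintype.card_fin]
    congr 1
    rw [Fintype.card_subtype_compl]
    simp
  rw [← hcard]
  refine Finset.card_le_card_of_injOn (fun y k => y k) (fun _ _ => mem_univ _) ?_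
  intro y hy y' hy' h
  have hy1 : y i = y j := (Finset.mem_filter.1 (Finset.mem_coe.1 hy)).2
  have hy2 : y' i = y' j := (Finset.mem_filter.1 (Finset.mem_coe.1 hy')).2
  have hk : ∀ k, k ≠ j → y k = y' k := fun k hk => congrFun h ⟨k, hk⟩
  funext k
  by_cases hkj : k = j
  · subst hkj
    rw [← hy1, ← hy2]
    exact hk i hij
  · exact hk k hkj

open Classical in
theorem L08_loss {m n d : ℕ} (hd : 1 ≤ d) (hdm : d ≤ m)
    (x : Fin n) (c : Sym2 (Fin n) → ZMod m) (B : Finset (Fin n)) (η : ℝ)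
    (hB : (B.card : ℝ) ≤ η * n) (hn : (m : ℝ) + 2 ≤ η * n) :
    (Ad c x d : ℝ) - 2 ^ (m + 1) * m * η * (n : ℝ) ^ d ≤
      ((∑ y ∈ univ.filter (fun y : Fin d → Fin n => Function.Injective y ∧ ∀ i, y i ∉ B ∧ y i ≠ x),
        wt m d (∑ i, c s(x, y i)) : ℕ) : ℝ) := by
  set Y0 := univ.filter (fun y : Fin d → Fin n => ∀ i, y i ≠ x) with hY0
  set Y := univ.filter (fun y : Fin d → Fin n => Function.Injective y ∧ ∀ i, y i ∉ B ∧ y i ≠ x)
    with hY
  have hsub : Y ⊆ Y0 := by
    intro y hy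
    rw [hY, Finset.mem_filter] at hy
    rw [hY0, Finset.mem_filter]
    exact ⟨mem_univ _, fun i => (hy.2.2 i).2⟩
  have hAd : Ad c x d = ∑ y ∈ Y0, wt m d (∑ i, c s(x, y i)) := by
    unfold Ad
    rw [hY0, Finset.sum_filter]
  have hsplit : Ad c x d = ∑ y ∈ Y0 \ Y, wt m d (∑ i, c s(x, y i)) +
      ∑ y ∈ Y, wt m d (∑ i, c s(x, y i)) := by
    rw [hAd, Finset.sum_sdiff hsub]
  have hwt : ∀ z : ZMod m, wt m d z ≤ 2 ^ m := by
    intro z
    unfold wt
    exact (Nat.choose_le_two_pow _ _).trans (Nat.pow_le_pow_right (by norm_num) (Nat.sub_le _ _))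
  have hbad : (Y0 \ Y).card ≤ d * (B.card * n ^ (d - 1)) + d * d * n ^ (d - 1) := by
    have hs : Y0 \ Y ⊆ (univ.biUnion fun i : Fin d =>
        univ.filter (fun y : Fin d → Fin n => y i ∈ B)) ∪
        ((univ.filter fun p : Fin d × Fin d => p.1 ≠ p.2).biUnion fun p =>
          univ.filter (fun y : Fin d → Fin n => y p.1 = y p.2)) := by
      intro y hy
      rw [Finset.mem_sdiff, hY0, hY, Finset.mem_filter, Finset.mem_filter] at hy
      obtain ⟨⟨-, h1⟩, h2⟩ := hy
      rw [Finset.mem_union, Finset.mem_biUnion, Finset.mem_biUnion]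
      by_cases h3 : ∃ i, y i ∈ B
      · obtain ⟨i, hi⟩ := h3
        exact Or.inl ⟨i, mem_univ _, Finset.mem_filter.2 ⟨mem_univ _, hi⟩⟩
      · right
        push Not at h3
        have h4 : ¬ Function.Injective y := fun h4 => h2 ⟨mem_univ _, h4, fun i => ⟨h3 i, h1 i⟩⟩
        rw [Function.Injective] at h4
        push Not at h4
        obtain ⟨i, j, h5, h6⟩ := h4
        exact ⟨(i, j), Finset.mem_filter.2 ⟨mem_univ _, h6⟩,
          Finset.mem_filter.2 ⟨mem_univ _, h5⟩⟩
    refine (Finset.card_le_card hs).trans ((Finset.card_union_le _ _).trans ?_)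
    refine Nat.add_le_add ?_ ?_
    · refine Finset.card_biUnion_le.trans ?_
      rw [Finset.sum_congr rfl fun i _ => L08_bad1 B i, Finset.sum_const, Finset.card_univ,
        Fintype.card_fin, smul_eq_mul]
    · refine Finset.card_biUnion_le.trans ?_
      refine (Finset.sum_le_card_nsmul _ _ (n ^ (d - 1)) fun p hp =>
        L08_bad2 p.1 p.2 (Finset.mem_filter.1 hp).2).trans ?_
      rw [smul_eq_mul]
      refine Nat.mul_le_mul_right _ ?_
      refine (Finset.card_filter_le _ _).trans ?_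
      rw [Finset.card_univ, Fintype.card_prod, Fintype.card_fin]
  have h1 : ∑ y ∈ Y0 \ Y, wt m d (∑ i, c s(x, y i)) ≤
      (d * (B.card * n ^ (d - 1)) + d * d * n ^ (d - 1)) * 2 ^ m := by
    refine (Finset.sum_le_card_nsmul _ _ (2 ^ m) fun y _ => hwt _).trans ?_
    rw [smul_eq_mul]
    exact Nat.mul_le_mul_right _ hbad
  have h1R : ((∑ y ∈ Y0 \ Y, wt m d (∑ i, c s(x, y i)) : ℕ) : ℝ) ≤
      ((d : ℝ) * (B.card * (n : ℝ) ^ (d - 1)) + d * d * (n : ℝ) ^ (d - 1)) * 2 ^ m := by
    exact_mod_cast h1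
  have h2R : ((d : ℝ) * (B.card * (n : ℝ) ^ (d - 1)) + d * d * (n : ℝ) ^ (d - 1)) * 2 ^ m ≤
      2 ^ (m + 1) * m * η * (n : ℝ) ^ d := by
    have hnd : (n : ℝ) ^ d = n * (n : ℝ) ^ (d - 1) := by
      rw [← pow_succ']
      congr 1
      omega
    have hpn : (0 : ℝ) ≤ (n : ℝ) ^ (d - 1) := by positivity
    have hdm' : (d : ℝ) ≤ m := by exact_mod_cast hdm
    have hd0 : (0 : ℝ) ≤ d := Nat.cast_nonneg d
    have hdn : (d : ℝ) ≤ η * n := by linarith
    have e1 : (d : ℝ) * (B.card * (n : ℝ) ^ (d - 1)) ≤ m * (η * n * (n : ℝ) ^ (d - 1)) := by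
      gcongr
    have e2 : (d : ℝ) * d * (n : ℝ) ^ (d - 1) ≤ m * (η * n) * (n : ℝ) ^ (d - 1) := by
      gcongr
    have e3 : ((d : ℝ) * (B.card * (n : ℝ) ^ (d - 1)) + d * d * (n : ℝ) ^ (d - 1)) ≤
        2 * m * η * (n : ℝ) ^ d := by
      rw [hnd]
      linarith
    calc ((d : ℝ) * (B.card * (n : ℝ) ^ (d - 1)) + d * d * (n : ℝ) ^ (d - 1)) * 2 ^ m ≤
        (2 * m * η * (n : ℝ) ^ d) * 2 ^ m := by gcongr
      _ = 2 ^ (m + 1) * m * η * (n : ℝ) ^ d := by ring
  have h3 : (Ad c x d : ℝ) = ((∑ y ∈ Y0 \ Y, wt m d (∑ i, c s(x, y i)) : ℕ) : ℝ) +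
      ((∑ y ∈ Y, wt m d (∑ i, c s(x, y i)) : ℕ) : ℝ) := by
    rw [hsplit]
    push_cast
    ring
  rw [h3]
  linarith

/-- no edge between two neighbours of `v` in a tree -/
theorem L08_notri {m : ℕ} (T : SimpleGraph (Fin (m + 1))) (hT : T.IsTree) {v u w : Fin (m + 1)}
    (hu : T.Adj v u) (hw : T.Adj v w) (huw : T.Adj u w) : False := by
  have h1 := hT.dist_ne_of_adj v huw
  rw [SimpleGraph.dist_eq_one_iff_adj.2 hu, SimpleGraph.dist_eq_one_iff_adj.2 hw] at h1
  exact h1 rfl

open Classical in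
/-- the colour of an edge: `1` on `S` and `0` outside -/
noncomputable def L08_k {m : ℕ} (S : Finset (Sym2 (Fin (m + 1)))) (e : Sym2 (Fin (m + 1))) :
    ZMod m := if e ∈ S then 1 else 0

theorem L08_k01 {m : ℕ} (S : Finset (Sym2 (Fin (m + 1)))) (e : Sym2 (Fin (m + 1))) :
    L08_k S e = 0 ∨ L08_k S e = 1 := by
  unfold L08_k
  by_cases h : e ∈ S
  · right; rw [if_pos h]
  · left; rw [if_neg h]

open Classical in
/-- the extensions of `y` with the set `S` of edges of colour `1` -/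
noncomputable def L08_F {m n : ℕ} (T : SimpleGraph (Fin (m + 1))) (R : Finset (Fin (m + 1)))
    (g : Fin (m + 1) → Fin n) (x : Fin n) (B : Finset (Fin n)) (c : Sym2 (Fin n) → ZMod m)
    (S : Finset (Sym2 (Fin (m + 1)))) : Finset (Fin (m + 1) → Fin n) :=
  univ.filter (fun f : Fin (m + 1) → Fin n => Function.Injective f ∧
      (∀ u ∈ R, f u = g u) ∧ (∀ u, u ∉ R → (f u ∉ B ∧ f u ≠ x)) ∧
      (∀ u w, T.Adj u w → w ∉ R →
        (f u ≠ f w ∧ c s(f u, f w) = L08_k S s(u, w))))

open Classical in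
/-- the degree condition for `grow_ge` -/
theorem L08_deg {m n : ℕ} (x : Fin n) (c : Sym2 (Fin n) → ZMod m) (B : Finset (Fin n)) (η : ℝ)
    (hB : (B.card : ℝ) ≤ η * n) (hb : ∀ y, y ∉ B → y ≠ x → Bal c η y) (hn : (m : ℝ) + 2 ≤ η * n)
    (y : Fin n) (hy : y ∉ B ∧ y ≠ x) (k : ZMod m) (hk : k = 0 ∨ k = 1) :
    (1 / 2 - 3 * η) * (n : ℝ) + (m + 1) ≤
      ((univ.filter (fun z => (y ≠ z ∧ c s(y, z) = k) ∧ (z ∉ B ∧ z ≠ x))).card : ℝ) := by
  obtain ⟨h0, h1⟩ := hb y hy.1 hy.2
  have hd : (n : ℝ) / 2 - η * n ≤ dgm c y k := by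
    rcases hk with rfl | rfl
    · linarith [(abs_le.1 h0).1]
    · linarith [(abs_le.1 h1).1]
  have hs : univ.filter (fun z : Fin n => z ≠ y ∧ c s(y, z) = k) ⊆
      univ.filter (fun z => (y ≠ z ∧ c s(y, z) = k) ∧ (z ∉ B ∧ z ≠ x)) ∪ (B ∪ {x}) := by
    intro z hz
    obtain ⟨-, h2, h3⟩ := Finset.mem_filter.1 hz
    rw [Finset.mem_union, Finset.mem_union, Finset.mem_singleton, Finset.mem_filter]
    by_cases hzB : z ∈ B
    · exact Or.inr (Or.inl hzB)
    · by_cases hzx : z = x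
      · exact Or.inr (Or.inr hzx)
      · exact Or.inl ⟨mem_univ _, ⟨h2.symm, h3⟩, hzB, hzx⟩
  have hc := (Finset.card_le_card hs).trans (Finset.card_union_le _ _)
  have hc2 : (B ∪ {x}).card ≤ B.card + 1 := by
    refine (Finset.card_union_le _ _).trans ?_
    rw [Finset.card_singleton]
  have hc3 : dgm c y k ≤
      (univ.filter (fun z => (y ≠ z ∧ c s(y, z) = k) ∧ (z ∉ B ∧ z ≠ x))).card + (B.card + 1) :=
    hc.trans (Nat.add_le_add_left hc2 _)
  have hc4 : (dgm c y k : ℝ) ≤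
      ((univ.filter (fun z => (y ≠ z ∧ c s(y, z) = k) ∧ (z ∉ B ∧ z ≠ x))).card : ℝ) +
        (B.card + 1) := by
    exact_mod_cast hc3
  linarith

open Classical in
/-- lower bound for each pair -/
theorem L08_count {m n : ℕ} (T : SimpleGraph (Fin (m + 1))) (hT : T ∈ TT m)
    (v : Fin (m + 1)) (x : Fin n) (c : Sym2 (Fin n) → ZMod m) (B : Finset (Fin n)) (η : ℝ)
    (hB : (B.card : ℝ) ≤ η * n) (hb : ∀ y, y ∉ B → y ≠ x → Bal c η y) (hn : (m : ℝ) + 2 ≤ η * n)
    (hL0 : 0 ≤ (1 / 2 - 3 * η) * (n : ℝ)) (R : Finset (Fin (m + 1)))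
    (hR : R = insert v (T.neighborFinset v)) (g : Fin (m + 1) → Fin n)
    (hginj : ∀ u ∈ R, ∀ w ∈ R, g u = g w → u = w)
    (hgP : ∀ u ∈ T.neighborFinset v, g u ∉ B ∧ g u ≠ x) (S : Finset (Sym2 (Fin (m + 1)))) :
    ((1 / 2 - 3 * η) * (n : ℝ)) ^ (m - T.degree v) ≤ ((L08_F T R g x B c S).card : ℝ) := by
  have hvN : v ∉ T.neighborFinset v := T.notMem_neighborFinset_self v
  have hRcard : R.card = T.degree v + 1 := by
    rw [hR, Finset.card_insert_of_notMem hvN, T.card_neighborFinset_eq_degree v]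
  have hvR : v ∈ R := by rw [hR]; exact Finset.mem_insert_self _ _
  have hconn : (T.induce (R : Set (Fin (m + 1)))).Connected := by
    rw [SimpleGraph.connected_iff_exists_forall_reachable]
    refine ⟨⟨v, Finset.mem_coe.2 hvR⟩, ?_⟩
    rintro ⟨w, hw⟩
    have hw' := hw
    rw [Finset.mem_coe, hR, Finset.mem_insert, SimpleGraph.mem_neighborFinset] at hw'
    rcases hw' with rfl | hw'
    · exact SimpleGraph.Reachable.refl _
    · refine SimpleGraph.Adj.reachable ?_
      exact hw'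
  have h := grow_ge T hT R ⟨v, hvR⟩ hconn g hginj
    (fun z => z ∉ B ∧ z ≠ x)
    (fun e a b => a ≠ b ∧ c s(a, b) = L08_k S e)
    (fun e a b h => ⟨h.1.symm, by rw [Sym2.eq_swap]; exact h.2⟩) ((1 / 2 - 3 * η) * (n : ℝ)) hL0 ?_
  · rw [hRcard] at h
    have e1 : m + 1 - (T.degree v + 1) = m - T.degree v := by omega
    rw [e1] at h
    refine h.trans (le_of_eq ?_)
    unfold L08_F
    congr! 3
  · intro e z hz
    have hzP : z ∉ B ∧ z ≠ x := by
      rcases hz with hz | ⟨u, hu, ⟨w, hw, huw⟩, rfl⟩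
      · exact hz
      · rw [hR, Finset.mem_insert] at hu
        rcases hu with rfl | hu
        · exfalso
          apply hw
          rw [hR, Finset.mem_insert, SimpleGraph.mem_neighborFinset]
          exact Or.inr huw
        · exact hgP u hu
    refine (L08_deg x c B η hB hb hn z hzP (L08_k S e) (L08_k01 S e)).trans (le_of_eq ?_)
    congr! 3

open Classical in
/-- the colour sum of the extensions -/
theorem L08_sum {m n : ℕ} [NeZero m] (T : SimpleGraph (Fin (m + 1)))
    (v : Fin (m + 1)) (x : Fin n) (c : Sym2 (Fin n) → ZMod m) (B : Finset (Fin n))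
    (R : Finset (Fin (m + 1))) (hR : R = insert v (T.neighborFinset v))
    (hout : ∀ u w, s(u, w) ∈ T.edgeFinset.filter (fun e => v ∉ e) → u ∉ R ∨ w ∉ R)
    (φ : T.neighborFinset v ≃ Fin (T.degree v)) (y : Fin (T.degree v) → Fin n)
    (g : Fin (m + 1) → Fin n) (hgv : g v = x) (hgN : ∀ u (h : u ∈ T.neighborFinset v), g u = y (φ ⟨u, h⟩))
    (S : Finset (Sym2 (Fin (m + 1)))) (hS1 : S ⊆ T.edgeFinset.filter (fun e => v ∉ e))
    (hS2 : S.card = (-(∑ i, c s(x, y i))).val) (f : Fin (m + 1) → Fin n)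
    (hf : f ∈ L08_F T R g x B c S) :
    Function.Injective f ∧ f v = x ∧ SS c T f = 0 := by
  obtain ⟨-, hinj, hfR, hfP, hfK⟩ := Finset.mem_filter.1 hf
  have hfv : f v = x := by rw [hfR v (by rw [hR]; exact Finset.mem_insert_self _ _), hgv]
  refine ⟨hinj, hfv, ?_⟩
  unfold SS
  have h1 : ∑ e ∈ T.edgeFinset, c (e.map f) =
      ∑ e ∈ T.edgeFinset.filter (fun e => v ∈ e), c (e.map f) +
        ∑ e ∈ T.edgeFinset.filter (fun e => v ∉ e), c (e.map f) :=
    (Finset.sum_filter_add_sum_filter_not _ _ _).symm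
  have h2 : ∑ e ∈ T.edgeFinset.filter (fun e => v ∉ e), c (e.map f) =
      ((-(∑ i, c s(x, y i))).val : ZMod m) := by
    have h3 : ∀ e ∈ T.edgeFinset.filter (fun e => v ∉ e), c (e.map f) = L08_k S e := by
      intro e
      induction e using Sym2.ind with
      | _ u w =>
        intro he
        have hadj : T.Adj u w := by
          have := (Finset.mem_filter.1 he).1
          rwa [SimpleGraph.mem_edgeFinset, SimpleGraph.mem_edgeSet] at this
        rw [Sym2.map_mk]
        rcases hout u w he with h | h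
        · have := (hfK w u hadj.symm h).2
          rw [Sym2.eq_swap (a := w) (b := u)] at this
          rw [← this, Sym2.eq_swap]
        · exact (hfK u w hadj h).2
    rw [Finset.sum_congr rfl h3]
    unfold L08_k
    rw [← Finset.sum_filter, Finset.sum_const, nsmul_eq_mul, mul_one]
    have h4 : (T.edgeFinset.filter (fun e => v ∉ e)).filter (fun e => e ∈ S) = S := by
      ext e
      rw [Finset.mem_filter]
      exact ⟨fun h => h.2, fun h => ⟨hS1 h, h⟩⟩
    rw [h4, hS2]
  have h5 : ∑ e ∈ T.edgeFinset.filter (fun e => v ∈ e), c (e.map f) = ∑ i, c s(x, y i) := by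
    rw [← T.incidenceFinset_eq_filter v]
    symm
    rw [← φ.sum_comp]
    refine Finset.sum_bij (fun u _ => s(v, (u : Fin (m + 1)))) ?_ ?_ ?_ ?_
    · rintro ⟨u, hu⟩ _
      rw [SimpleGraph.mem_neighborFinset] at hu
      rw [T.incidenceFinset_eq_filter v, Finset.mem_filter, SimpleGraph.mem_edgeFinset]
      exact ⟨hu, Sym2.mem_mk_left _ _⟩
    · rintro ⟨u, hu⟩ _ ⟨w, hw⟩ _ h
      have h6 : s(v, u) = s(v, w) := h
      rw [Sym2.congr_right] at h6
      exact Subtype.ext h6
    · intro e he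
      rw [T.incidenceFinset_eq_filter v, Finset.mem_filter, SimpleGraph.mem_edgeFinset] at he
      obtain ⟨he1, he2⟩ := he
      obtain ⟨u, rfl⟩ := he2
      refine ⟨⟨u, ?_⟩, mem_univ _, rfl⟩
      rw [SimpleGraph.mem_neighborFinset]
      exact he1
    · rintro ⟨u, hu⟩ _
      rw [Sym2.map_mk, hfv, hfR u (by rw [hR]; exact Finset.mem_insert_of_mem hu), hgN u hu]
  rw [h1, h2, h5, ZMod.natCast_zmod_val]
  ring

open Classical in
theorem L08_det {m n : ℕ} [Fact (1 < m)] (T : SimpleGraph (Fin (m + 1)))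
    (v : Fin (m + 1)) (x : Fin n) (c : Sym2 (Fin n) → ZMod m) (B : Finset (Fin n))
    (R : Finset (Fin (m + 1)))
    (hout : ∀ u w, s(u, w) ∈ T.edgeFinset.filter (fun e => v ∉ e) → u ∉ R ∨ w ∉ R)
    (g g' : Fin (m + 1) → Fin n)
    (S S' : Finset (Sym2 (Fin (m + 1)))) (hS1 : S ⊆ T.edgeFinset.filter (fun e => v ∉ e))
    (hS2 : S' ⊆ T.edgeFinset.filter (fun e => v ∉ e)) (f : Fin (m + 1) → Fin n)
    (hf : f ∈ L08_F T R g x B c S) (hf' : f ∈ L08_F T R g' x B c S') :
    (∀ u ∈ R, g u = g' u) ∧ S = S' := by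
  obtain ⟨-, hinj, hfR, hfP, hfK⟩ := Finset.mem_filter.1 hf
  obtain ⟨-, -, hfR', -, hfK'⟩ := Finset.mem_filter.1 hf'
  refine ⟨fun u hu => by rw [← hfR u hu, hfR' u hu], ?_⟩
  have h10 : (1 : ZMod m) ≠ 0 := one_ne_zero
  have hif : ∀ e, L08_k S e = L08_k S' e → (e ∈ S ↔ e ∈ S') := by
    intro e h
    unfold L08_k at h
    by_cases hp : e ∈ S <;> by_cases hq : e ∈ S'
    · exact ⟨fun _ => hq, fun _ => hp⟩
    · rw [if_pos hp, if_neg hq] at h
      exact absurd h h10
    · rw [if_neg hp, if_pos hq] at h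
      exact absurd h.symm h10
    · exact ⟨fun h => absurd h hp, fun h => absurd h hq⟩
  have hkey : ∀ e ∈ T.edgeFinset.filter (fun e => v ∉ e), (e ∈ S ↔ e ∈ S') := by
    intro e
    induction e using Sym2.ind with
    | _ u w =>
      intro he
      have hadj : T.Adj u w := by
        have := (Finset.mem_filter.1 he).1
        rwa [SimpleGraph.mem_edgeFinset, SimpleGraph.mem_edgeSet] at this
      rcases hout u w he with h | h
      · have a1 := (hfK w u hadj.symm h).2
        have a2 := (hfK' w u hadj.symm h).2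
        rw [a1, Sym2.eq_swap (a := w) (b := u)] at a2
        exact hif _ a2
      · have a1 := (hfK u w hadj h).2
        have a2 := (hfK' u w hadj h).2
        rw [a1] at a2
        exact hif _ a2
  ext e
  exact ⟨fun h => (hkey e (hS1 h)).1 h, fun h => (hkey e (hS2 h)).2 h⟩

open Classical in
theorem cntv_ge {m n : ℕ} (hm : 2 ≤ m) (T : SimpleGraph (Fin (m + 1))) (hT : T ∈ TT m) (v : Fin (m + 1))
    (x : Fin n) (c : Sym2 (Fin n) → ZMod m) (B : Finset (Fin n)) (η : ℝ) (hη : 0 ≤ η) (hη' : η ≤ 1 / 6)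
    (hB : (B.card : ℝ) ≤ η * n) (hb : ∀ y, y ∉ B → y ≠ x → Bal c η y) (hn : (m : ℝ) + 2 ≤ η * n) :
    ((1 / 2 - 3 * η) * (n : ℝ)) ^ (m - T.degree v) *
      ((Ad c x (T.degree v) : ℝ) - 2 ^ (m + 1) * m * η * (n : ℝ) ^ (T.degree v)) ≤ cntv c T v x := by
  have hTree : T.IsTree := (Finset.mem_filter.1 hT).2
  have hfact : Fact (1 < m) := ⟨by omega⟩
  have hnz : NeZero m := ⟨by omega⟩
  have hd1 : 1 ≤ T.degree v := by
    have hnt : Nontrivial (Fin (m + 1)) := Fin.nontrivial_iff_two_le.2 (by omega)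
    exact hTree.connected.preconnected.degree_pos_of_nontrivial v
  have hdm : T.degree v ≤ m := by
    have := T.degree_lt_card_verts v
    rw [Fintype.card_fin] at this
    omega
  have hL0 : 0 ≤ (1 / 2 - 3 * η) * (n : ℝ) :=
    mul_nonneg (by linarith) (Nat.cast_nonneg n)
  have hloss := L08_loss hd1 hdm x c B η hB hn
  have hcardN : (T.neighborFinset v).card = T.degree v := T.card_neighborFinset_eq_degree v
  obtain ⟨φ⟩ : Nonempty (T.neighborFinset v ≃ Fin (T.degree v)) :=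
    ⟨(T.neighborFinset v).equivFinOfCardEq hcardN⟩
  have hvN : v ∉ T.neighborFinset v := T.notMem_neighborFinset_self v
  obtain ⟨R, hR⟩ : ∃ R, R = insert v (T.neighborFinset v) := ⟨_, rfl⟩
  obtain ⟨g, hgv, hgN⟩ : ∃ g : (Fin (T.degree v) → Fin n) → Fin (m + 1) → Fin n,
      (∀ y, g y v = x) ∧ ∀ y u (h : u ∈ T.neighborFinset v), g y u = y (φ ⟨u, h⟩) :=
    ⟨fun y u => if h : u ∈ T.neighborFinset v then y (φ ⟨u, h⟩) else x,
      fun y => dif_neg hvN, fun y u h => dif_pos h⟩
  have hE'card : (T.edgeFinset.filter (fun e => v ∉ e)).card = m - T.degree v := by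
    have h1 := T.card_incidenceFinset_eq_degree v
    rw [T.incidenceFinset_eq_filter v] at h1
    have h2 := Finset.card_filter_add_card_filter_not (s := T.edgeFinset) (fun e => v ∈ e)
    have h3 := hTree.card_edgeFinset
    rw [Fintype.card_fin] at h3
    omega
  have hout : ∀ u w, s(u, w) ∈ T.edgeFinset.filter (fun e => v ∉ e) → u ∉ R ∨ w ∉ R := by
    intro u w h
    obtain ⟨h1, h2⟩ := Finset.mem_filter.1 h
    rw [SimpleGraph.mem_edgeFinset, SimpleGraph.mem_edgeSet] at h1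
    rw [Sym2.mem_iff, not_or] at h2
    by_contra hcon
    rw [not_or, not_not, not_not] at hcon
    obtain ⟨h3, h4⟩ := hcon
    rw [hR, Finset.mem_insert, SimpleGraph.mem_neighborFinset] at h3 h4
    rcases h3 with h3 | h3
    · exact h2.1 h3.symm
    · rcases h4 with h4 | h4
      · exact h2.2 h4.symm
      · exact L08_notri T hTree h3 h4 h1
  obtain ⟨Y, hY⟩ : ∃ Y, Y = univ.filter (fun y : Fin (T.degree v) → Fin n =>
      Function.Injective y ∧ ∀ i, y i ∉ B ∧ y i ≠ x) := ⟨_, rfl⟩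
  rw [← hY] at hloss
  have hcount : ∀ y ∈ Y, ∀ S : Finset (Sym2 (Fin (m + 1))),
      ((1 / 2 - 3 * η) * (n : ℝ)) ^ (m - T.degree v) ≤ ((L08_F T R (g y) x B c S).card : ℝ) := by
    intro y hy S
    rw [hY] at hy
    obtain ⟨-, hyinj, hyB⟩ := Finset.mem_filter.1 hy
    refine L08_count T hT v x c B η hB hb hn hL0 R hR (g y) ?_ ?_ S
    · intro u hu w hw h
      rw [hR, Finset.mem_insert] at hu hw
      rcases hu with rfl | hu
      · rcases hw with rfl | hw
        · rfl
        · rw [hgv, hgN y w hw] at h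
          exact absurd h.symm (hyB _).2
      · rcases hw with rfl | hw
        · rw [hgv, hgN y u hu] at h
          exact absurd h (hyB _).2
        · rw [hgN y u hu, hgN y w hw] at h
          have h1 := φ.injective (hyinj h)
          exact congrArg Subtype.val h1
    · intro u hu
      rw [hgN y u hu]
      exact hyB _
  obtain ⟨Ω, hΩ⟩ : ∃ Ω : Finset ((_ : Fin (T.degree v) → Fin n) × Finset (Sym2 (Fin (m + 1)))),
      Ω = Y.sigma (fun y => (T.edgeFinset.filter (fun e => v ∉ e)).powersetCard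
        (-(∑ i, c s(x, y i))).val) := ⟨_, rfl⟩
  have hsubset : ∀ p ∈ Ω, L08_F T R (g p.1) x B c p.2 ⊆ univ.filter (fun f : Fin (m + 1) → Fin n =>
      Function.Injective f ∧ f v = x ∧ SS c T f = 0) := by
    rintro ⟨y, S⟩ hp f hf
    rw [hΩ, Finset.mem_sigma] at hp
    obtain ⟨hy, hS⟩ := hp
    rw [Finset.mem_powersetCard] at hS
    rw [Finset.mem_filter]
    exact ⟨mem_univ _, L08_sum T v x c B R hR hout φ y (g y) (hgv y) (hgN y) S hS.1 hS.2 f hf⟩
  have hdisj : ∀ p ∈ Ω, ∀ p' ∈ Ω, p ≠ p' →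
      Disjoint (L08_F T R (g p.1) x B c p.2) (L08_F T R (g p'.1) x B c p'.2) := by
    rintro ⟨y, S⟩ hp ⟨y', S'⟩ hp' hne
    rw [Finset.disjoint_left]
    intro f hf hf'
    apply hne
    rw [hΩ, Finset.mem_sigma] at hp hp'
    obtain ⟨h1, h2⟩ := L08_det T v x c B R hout (g y) (g y') S S'
      (Finset.mem_powersetCard.1 hp.2).1 (Finset.mem_powersetCard.1 hp'.2).1 f hf hf'
    have hyy : y = y' := by
      funext i
      have h3 := h1 (φ.symm i : Fin (m + 1)) (by
        rw [hR]; exact Finset.mem_insert_of_mem (φ.symm i).2)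
      rw [hgN y _ (φ.symm i).2, hgN y' _ (φ.symm i).2] at h3
      simpa using h3
    rw [hyy, h2]
  have hmain : ∑ p ∈ Ω, (L08_F T R (g p.1) x B c p.2).card ≤ cntv c T v x := by
    rw [← Finset.card_biUnion hdisj]
    exact Finset.card_le_card (Finset.biUnion_subset.2 hsubset)
  have hlow : ((1 / 2 - 3 * η) * (n : ℝ)) ^ (m - T.degree v) *
      ((∑ y ∈ Y, wt m (T.degree v) (∑ i, c s(x, y i)) : ℕ) : ℝ) ≤
      ((∑ p ∈ Ω, (L08_F T R (g p.1) x B c p.2).card : ℕ) : ℝ) := by
    have h1 : Ω.card = ∑ y ∈ Y, wt m (T.degree v) (∑ i, c s(x, y i)) := by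
      rw [hΩ, Finset.card_sigma]
      refine Finset.sum_congr rfl fun y _ => ?_
      rw [Finset.card_powersetCard, hE'card]
      rfl
    rw [← h1]
    push_cast
    rw [mul_comm, ← nsmul_eq_mul]
    refine Finset.card_nsmul_le_sum _ _ _ ?_
    rintro ⟨y, S⟩ hp
    rw [hΩ, Finset.mem_sigma] at hp
    exact hcount y hp.1 S
  have hpos : 0 ≤ ((1 / 2 - 3 * η) * (n : ℝ)) ^ (m - T.degree v) := pow_nonneg hL0 _
  refine (mul_le_mul_of_nonneg_left hloss hpos).trans (hlow.trans ?_)
  exact_mod_cast hmain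

end Pool.Agent.MP5g
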