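import Mathlib
import Pool.Agent.MP_5f2667_co.L.Defs

set_option autoImplicit false

open Finset

/-
Proof. t = n-1-dgm 0-dgm 1 = number of y != x with c s(x,y) not in {0,1}. wt m d z = C(m-d, (-z).val).
d=1: wt 0 = C(m-1,0)=1, wt 1 = C(m-1,m-1) = 1, wt a = C(m-1, m-a) >= m-1 for a.val in 2..m-1. So 2 Ad 1 >= 2(dgm0+dgm1+(m-1)t).
d=2: pairs (0,0): wt 0 = 1; (1,1): wt 2 = C(m-2,m-2) = 1; (a,b) with a not in {0,1}, b in {0,1} (two orders): a.val+b in 2..m, (-(a+b)).val = m-a.val-b in 0..m-2, binomial >= 1. So Ad 2 >= dgm0^2+dgm1^2+2t(dgm0+dgm1).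
d>=3: constant tuples' colours: all 0: wt 0 = 1: dgm0^d tuples; all 1: wt d: (-d).val = m-d if d<m (C = 1), 0 if d = m (C(0,0)=1): dgm1^d tuples.
(The number of y : Fin d -> Fin n with all y_i != x and c s(x,y_i) = k is dgm^d.) Tested numerically.
-/

namespace Pool.Agent.MP5g

theorem L09_choose {N j : ℕ} (h1 : 1 ≤ j) (h2 : j + 1 ≤ N) : N ≤ N.choose j := by
  induction N generalizing j with
  | zero => omega
  | succ N ih =>
    rcases Nat.lt_or_ge j 2 with h | h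
    · have : j = 1 := by omega
      subst this
      rw [Nat.choose_one_right]
    · obtain ⟨k, rfl⟩ : ∃ k, j = k + 1 := ⟨j - 1, by omega⟩
      rw [Nat.choose_succ_succ]
      have h3 := ih (j := k) (by omega) (by omega)
      have h4 : 0 < N.choose k.succ := Nat.choose_pos (by omega)
      omega

theorem L09_wt_zero (m d : ℕ) : wt m d 0 = 1 := by
  rw [wt, neg_zero, ZMod.val_zero, Nat.choose_zero_right]

theorem L09_neg_val {m v : ℕ} [NeZero m] (h1 : 1 ≤ v) (h2 : v ≤ m) :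
    (-((v : ℕ) : ZMod m)).val = m - v := by
  have h3 : -((v : ℕ) : ZMod m) = ((m - v : ℕ) : ZMod m) := by
    rw [Nat.cast_sub h2, ZMod.natCast_self, zero_sub]
  rw [h3, ZMod.val_cast_of_lt (by omega)]

theorem L09_wt_d {m d : ℕ} (hm : 4 ≤ m) (hd : 1 ≤ d) (hd' : d ≤ m) :
    wt m d ((d : ℕ) : ZMod m) = 1 := by
  have : NeZero m := ⟨by omega⟩
  rw [wt, L09_neg_val hd hd', Nat.choose_self]

theorem L09_val {m : ℕ} (hm : 4 ≤ m) (a : ZMod m) (h0 : a ≠ 0) (h1 : a ≠ 1) :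
    ∃ v : ℕ, a = ((v : ℕ) : ZMod m) ∧ 2 ≤ v ∧ v < m := by
  have : NeZero m := ⟨by omega⟩
  refine ⟨a.val, (ZMod.natCast_zmod_val a).symm, ?_, ZMod.val_lt a⟩
  by_contra h
  have h2 : a.val = 0 ∨ a.val = 1 := by omega
  rcases h2 with h2 | h2
  · exact h0 ((ZMod.val_eq_zero a).1 h2)
  · apply h1
    rw [← ZMod.natCast_zmod_val a, h2, Nat.cast_one]

theorem L09_wt_one {m : ℕ} (hm : 4 ≤ m) (a : ZMod m) (h0 : a ≠ 0) (h1 : a ≠ 1) :
    m - 1 ≤ wt m 1 a := by
  have : NeZero m := ⟨by omega⟩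
  obtain ⟨v, rfl, hv, hv'⟩ := L09_val hm a h0 h1
  rw [wt, L09_neg_val (by omega) (by omega)]
  exact L09_choose (by omega) (by omega)

theorem L09_wt_two0 {m : ℕ} (hm : 4 ≤ m) (a : ZMod m) (h0 : a ≠ 0) (h1 : a ≠ 1) :
    1 ≤ wt m 2 a := by
  have : NeZero m := ⟨by omega⟩
  obtain ⟨v, rfl, hv, hv'⟩ := L09_val hm a h0 h1
  rw [wt, L09_neg_val (by omega) (by omega)]
  exact Nat.choose_pos (by omega)

theorem L09_wt_two1 {m : ℕ} (hm : 4 ≤ m) (a : ZMod m) (h0 : a ≠ 0) (h1 : a ≠ 1) :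
    1 ≤ wt m 2 (a + 1) := by
  have : NeZero m := ⟨by omega⟩
  obtain ⟨v, rfl, hv, hv'⟩ := L09_val hm a h0 h1
  have h2 : ((v : ℕ) : ZMod m) + 1 = ((v + 1 : ℕ) : ZMod m) := by push_cast; ring
  rw [h2, wt, L09_neg_val (by omega) (by omega)]
  exact Nat.choose_pos (by omega)

theorem L09_one_ne {m : ℕ} (hm : 4 ≤ m) : (1 : ZMod m) ≠ 0 := by
  have : Fact (1 < m) := ⟨by omega⟩
  exact one_ne_zero

section
variable {m n : ℕ} (c : Sym2 (Fin n) → ZMod m) (x : Fin n)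

def L09_i (k : ZMod m) (y : Fin n) : ℝ := if y ≠ x ∧ c s(x, y) = k then 1 else 0

def L09_j (y : Fin n) : ℝ := if y ≠ x ∧ c s(x, y) ≠ 0 ∧ c s(x, y) ≠ 1 then 1 else 0

theorem L09_sum_i (k : ZMod m) : ∑ y, L09_i c x k y = dgm c x k := by
  unfold L09_i dgm
  rw [Finset.card_filter]
  push_cast
  rfl

theorem L09_sum_j (hm : 4 ≤ m) :
    ∑ y, L09_j c x y = (n : ℝ) - 1 - dgm c x 0 - dgm c x 1 := by
  have h1 : ∀ y, L09_i c x 0 y + L09_i c x 1 y + L09_j c x y + (if y = x then 1 else 0) =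
      (1 : ℝ) := by
    intro y
    unfold L09_i L09_j
    by_cases hy : y = x
    · simp [hy]
    · by_cases h0 : c s(x, y) = 0
      · have := L09_one_ne hm
        simp [hy, h0, this.symm]
      · by_cases h2 : c s(x, y) = 1
        · have := L09_one_ne hm
          simp [hy, h2, this]
        · simp [hy, h0, h2]
  have h2 : ∑ y : Fin n, (L09_i c x 0 y + L09_i c x 1 y + L09_j c x y +
      (if y = x then 1 else 0)) = (n : ℝ) := by
    simp only [h1]
    simp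
  rw [Finset.sum_add_distrib, Finset.sum_add_distrib, Finset.sum_add_distrib, L09_sum_i,
    L09_sum_i, Finset.sum_ite_eq' univ x, if_pos (Finset.mem_univ x)] at h2
  linarith

end

theorem L09_one {m n : ℕ} (hm : 4 ≤ m) (c : Sym2 (Fin n) → ZMod m) (x : Fin n) :
    (dgm c x 0 : ℝ) + dgm c x 1 + (m - 1) * ((n : ℝ) - 1 - dgm c x 0 - dgm c x 1) ≤
      (Ad c x 1 : ℝ) := by
  have h1 : (Ad c x 1 : ℝ) = ∑ y : Fin n, if y ≠ x then (wt m 1 (c s(x, y)) : ℝ) else 0 := by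
    unfold Ad
    push_cast
    rw [← (Equiv.funUnique (Fin 1) (Fin n)).symm.sum_comp]
    refine Finset.sum_congr rfl fun y _ => ?_
    simp
  rw [h1, ← L09_sum_j c x hm, ← L09_sum_i c x 0, ← L09_sum_i c x 1, Finset.mul_sum,
    ← Finset.sum_add_distrib, ← Finset.sum_add_distrib]
  refine Finset.sum_le_sum fun y _ => ?_
  unfold L09_i L09_j
  by_cases hy : y = x
  · simp [hy]
  · by_cases h0 : c s(x, y) = 0
    · have := L09_one_ne hm
      simp [hy, h0, this.symm, L09_wt_zero]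
    · by_cases h2 : c s(x, y) = 1
      · have := L09_one_ne hm
        have h3 := L09_wt_d (d := 1) hm le_rfl (by omega)
        rw [Nat.cast_one] at h3
        simp [hy, h2, this, h3]
      · have h3 := L09_wt_one hm _ h0 h2
        have h4 : ((m - 1 : ℕ) : ℝ) = (m : ℝ) - 1 := by
          rw [Nat.cast_sub (by omega), Nat.cast_one]
        have h5 : ((m : ℝ) - 1) ≤ (wt m 1 (c s(x, y)) : ℝ) := by
          rw [← h4]
          exact_mod_cast h3
        simpa [hy, h0, h2] using h5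

theorem L09_two {m n : ℕ} (hm : 4 ≤ m) (c : Sym2 (Fin n) → ZMod m) (x : Fin n) :
    (dgm c x 0 : ℝ) ^ 2 + (dgm c x 1 : ℝ) ^ 2 +
      2 * ((n : ℝ) - 1 - dgm c x 0 - dgm c x 1) * (dgm c x 0 + dgm c x 1) ≤ (Ad c x 2 : ℝ) := by
  have h1 : (Ad c x 2 : ℝ) = ∑ y : Fin n, ∑ z : Fin n,
      if y ≠ x ∧ z ≠ x then (wt m 2 (c s(x, y) + c s(x, z)) : ℝ) else 0 := by
    unfold Ad
    push_cast
    rw [← (finTwoArrowEquiv (Fin n)).symm.sum_comp, Fintype.sum_prod_type]
    refine Finset.sum_congr rfl fun y _ => Finset.sum_congr rfl fun z _ => ?_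
    simp [Fin.forall_fin_two]
  have h2 : ∀ f g : Fin n → ℝ, (∑ y, f y) * (∑ z, g z) = ∑ y, ∑ z, f y * g z :=
    fun f g => Finset.sum_mul_sum _ _ _ _
  have h3 : (dgm c x 0 : ℝ) ^ 2 + (dgm c x 1 : ℝ) ^ 2 +
      2 * ((n : ℝ) - 1 - dgm c x 0 - dgm c x 1) * (dgm c x 0 + dgm c x 1) =
      ∑ y : Fin n, ∑ z : Fin n, (L09_i c x 0 y * L09_i c x 0 z + L09_i c x 1 y * L09_i c x 1 z +
        L09_j c x y * (L09_i c x 0 z + L09_i c x 1 z) +
        (L09_i c x 0 y + L09_i c x 1 y) * L09_j c x z) := by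
    simp only [Finset.sum_add_distrib]
    rw [← h2, ← h2, ← h2, ← h2, Finset.sum_add_distrib, L09_sum_i, L09_sum_i, L09_sum_j c x hm]
    ring
  rw [h1, h3]
  refine Finset.sum_le_sum fun y _ => Finset.sum_le_sum fun z _ => ?_
  have hne := L09_one_ne hm
  have hw2 : wt m 2 (1 + 1) = 1 := by
    have h4 := L09_wt_d (d := 2) hm (by omega) (by omega)
    rw [Nat.cast_ofNat] at h4
    rw [show (1 + 1 : ZMod m) = 2 by norm_num]
    exact h4
  have hw0 : wt m 2 (0 + 0) = 1 := by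
    rw [add_zero]
    exact L09_wt_zero m 2
  unfold L09_i L09_j
  by_cases hy : y = x
  · simp [hy]
  · by_cases hz : z = x
    · simp [hz]
    · by_cases y0 : c s(x, y) = 0
      · by_cases z0 : c s(x, z) = 0
        · simp [hy, hz, y0, z0, hne.symm, L09_wt_zero]
        · by_cases z1 : c s(x, z) = 1
          · simp [hy, hz, y0, z1, hne, hne.symm]
          · have h5 := L09_wt_two0 hm _ z0 z1
            have h6 : (1 : ℝ) ≤ (wt m 2 (c s(x, z)) : ℝ) := by exact_mod_cast h5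
            simpa [hy, hz, y0, z0, z1, hne.symm] using h6
      · by_cases y1 : c s(x, y) = 1
        · by_cases z0 : c s(x, z) = 0
          · simp [hy, hz, y1, z0, hne, hne.symm]
          · by_cases z1 : c s(x, z) = 1
            · simp [hy, hz, y1, z1, hne, hw2]
            · have h5 := L09_wt_two1 hm _ z0 z1
              have h6 : (1 : ℝ) ≤ (wt m 2 (1 + c s(x, z)) : ℝ) := by
                rw [add_comm]
                exact_mod_cast h5
              simpa [hy, hz, y1, z0, z1, hne] using h6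
        · by_cases z0 : c s(x, z) = 0
          · have h5 := L09_wt_two0 hm _ y0 y1
            have h6 : (1 : ℝ) ≤ (wt m 2 (c s(x, y)) : ℝ) := by exact_mod_cast h5
            simpa [hy, hz, z0, y0, y1, hne.symm] using h6
          · by_cases z1 : c s(x, z) = 1
            · have h5 := L09_wt_two1 hm _ y0 y1
              have h6 : (1 : ℝ) ≤ (wt m 2 (c s(x, y) + 1) : ℝ) := by exact_mod_cast h5
              simpa [hy, hz, z1, y0, y1, hne] using h6
            · simp [hy, hz, y0, y1, z0, z1]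

theorem L09_big {m n : ℕ} (hm : 4 ≤ m) (c : Sym2 (Fin n) → ZMod m) (x : Fin n) (d : ℕ)
    (hd : 1 ≤ d) (hd' : d ≤ m) : dgm c x 0 ^ d + dgm c x 1 ^ d ≤ Ad c x d := by
  classical
  have hne := L09_one_ne hm
  let N : ZMod m → Finset (Fin n) := fun k => univ.filter (fun y => y ≠ x ∧ c s(x, y) = k)
  let Y : ZMod m → Finset (Fin d → Fin n) := fun k => Fintype.piFinset fun _ => N k
  have hcard : ∀ k, (Y k).card = dgm c x k ^ d := by
    intro k
    rw [Fintype.card_piFinset_const]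
    rfl
  have hmem : ∀ k (y : Fin d → Fin n), y ∈ Y k ↔ ∀ i, y i ≠ x ∧ c s(x, y i) = k := by
    intro k y
    rw [Fintype.mem_piFinset]
    exact forall_congr' fun i => by rw [Finset.mem_filter]; simp
  have hdisj : Disjoint (Y 0) (Y 1) := by
    rw [Finset.disjoint_left]
    intro y h0 h1
    rw [hmem] at h0 h1
    have e0 := (h0 ⟨0, hd⟩).2
    have e1 := (h1 ⟨0, hd⟩).2
    rw [e0] at e1
    exact hne e1.symm
  have hsum : ∀ k (w : ℕ), (∀ y ∈ Y k, wt m d (∑ i, c s(x, y i)) = w) →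
      ∑ y ∈ Y k, (if (∀ i, y i ≠ x) then wt m d (∑ i, c s(x, y i)) else 0) =
        dgm c x k ^ d * w := by
    intro k w hw
    rw [← hcard, ← smul_eq_mul, ← Finset.sum_const]
    refine Finset.sum_congr rfl fun y hy => ?_
    rw [if_pos (fun i => ((hmem k y).1 hy i).1), hw y hy]
  have h0 := hsum 0 1 (by
    intro y hy
    have h1 : ∑ i, c s(x, y i) = 0 := Finset.sum_eq_zero fun i _ => ((hmem 0 y).1 hy i).2
    rw [h1, L09_wt_zero])
  have h1 := hsum 1 1 (by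
    intro y hy
    have h1 : ∑ i, c s(x, y i) = ((d : ℕ) : ZMod m) := by
      rw [Finset.sum_congr rfl fun i _ => ((hmem 1 y).1 hy i).2]
      simp
    rw [h1, L09_wt_d hm hd hd'])
  rw [mul_one] at h0 h1
  rw [← h0, ← h1, ← Finset.sum_union hdisj]
  unfold Ad
  exact Finset.sum_le_sum_of_subset (Finset.subset_univ _)

theorem Ad_hh {m n : ℕ} (hm : 4 ≤ m) (c : Sym2 (Fin n) → ZMod m) (x : Fin n) (d : ℕ) (hd : 1 ≤ d) (hd' : d ≤ m) :
    hh m d ((dgm c x 0 : ℝ) / n) ((dgm c x 1 : ℝ) / n) (((n : ℝ) - 1 - dgm c x 0 - dgm c x 1) / n) * (n : ℝ) ^ d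
      ≤ 2 ^ d * (Ad c x d : ℝ) := by
  have hn : (0 : ℝ) < n := by
    have : 0 < n := x.pos
    exact_mod_cast this
  have hn' : (n : ℝ) ≠ 0 := hn.ne'
  unfold hh
  by_cases h1 : d = 1
  · subst h1
    rw [if_pos rfl]
    have h2 := L09_one hm c x
    have h3 : 2 * ((dgm c x 0 : ℝ) / n + (dgm c x 1 : ℝ) / n +
        (m - 1) * (((n : ℝ) - 1 - dgm c x 0 - dgm c x 1) / n)) * (n : ℝ) ^ 1 =
        2 * ((dgm c x 0 : ℝ) + dgm c x 1 + (m - 1) * ((n : ℝ) - 1 - dgm c x 0 - dgm c x 1)) := by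
      field_simp
    rw [h3, pow_one]
    linarith
  · rw [if_neg h1]
    by_cases h2 : d = 2
    · subst h2
      rw [if_pos rfl]
      have h4 := L09_two hm c x
      have h3 : 4 * (((dgm c x 0 : ℝ) / n) ^ 2 + ((dgm c x 1 : ℝ) / n) ^ 2 +
          2 * (((n : ℝ) - 1 - dgm c x 0 - dgm c x 1) / n) *
            ((dgm c x 0 : ℝ) / n + (dgm c x 1 : ℝ) / n)) * (n : ℝ) ^ 2 =
          4 * ((dgm c x 0 : ℝ) ^ 2 + (dgm c x 1 : ℝ) ^ 2 +
      2 * ((n : ℝ) - 1 - dgm c x 0 - dgm c x 1) * (dgm c x 0 + dgm c x 1)) := by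
        field_simp
      rw [h3]
      linarith
    · rw [if_neg h2]
      have h4 : (dgm c x 0 : ℝ) ^ d + (dgm c x 1 : ℝ) ^ d ≤ (Ad c x d : ℝ) := by
        exact_mod_cast L09_big hm c x d hd hd'
      have h3 : 2 ^ d * (((dgm c x 0 : ℝ) / n) ^ d + ((dgm c x 1 : ℝ) / n) ^ d) * (n : ℝ) ^ d =
          2 ^ d * ((dgm c x 0 : ℝ) ^ d + (dgm c x 1 : ℝ) ^ d) := by
        rw [div_pow, div_pow]
        field_simp
      rw [h3]
      exact mul_le_mul_of_nonneg_left h4 (by positivity)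

end Pool.Agent.MP5g
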