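import Mathlib
import Pool.Agent.MP_5f2667_co.L.Defs

set_option autoImplicit false

open Finset

/-
Proof. n_j = number of vertices of degree j; sum n_j = m+1, sum j n_j = 2m, n_1 >= 2. First s = 0 (a0+a1+e=1, e = epsilon). hh 1 = 2(1+(m-2)e); hh 2 = 2(1-e)^2+2(a0-a1)^2+8e(1-e) = 2(1+2e-3e^2)+2(a0-a1)^2;
hh d >= 2(1-e)^d + 2(1-e)^(d-2)(a0-a1)^2 for d >= 3 (Chebyshev: (a0^d+a1^d)/2 >= (a0^2+a1^2)/2 * ((a0+a1)/2)^(d-2)). Bernoulli (1-e)^d >= 1-de. Sum >= 2[(m+1) + e((m-1)n_1+4n_2-2m) - 3 n_2 e^2 + (a0-a1)^2 * sum_(j>=2) n_j (1-e)^(j-2)]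
>= 2[(m+1) + e((m-1)n_1+n_2-2m) + (a0-a1)^2 (1-e)^m]; if n_1 = 2 then n_2 = m-1 and the bracket (m-1)n_1+n_2-2m = m-3 >= 1; if n_1 >= 3 it is >= m-3 >= 1. So sum >= 2(m+1) + 2e + 2 (a0-a1)^2 (1-e)^m.
If e >= delta/4: gain delta/2. If e < delta/4 <= 1/4..: |a0-1/2| > delta or |a1-1/2| > delta forces |a0-a1| >= delta, gain 2 delta^2 (3/4)^m (delta <= 1 without loss: if delta >= 1/2... the hypothesis delta < |a0-1/2| <= 1/2).
General s: replace e by e+s: hh is monotone in e and hh m d a0 a1 (e+s) - hh m d a0 a1 e <= 2 m s... (<= 8 m s), so choose s0 small. Numerically: sum >= 2(m+1) + 8(m-3) max(|a0-1/2|,|a1-1/2|)^2 for s = 0.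
(TT m: T.IsTree; sum of degrees = 2m by IsTree.card_edgeFinset; every degree >= 1; at least two leaves follows from the sum; n_1 = 2 iff all others have degree 2.)
-/

namespace Pool.Agent.MP5g

/-- Chebyshev / power mean. -/
theorem L10_cheb (a0 a1 : ℝ) (h0 : 0 ≤ a0) (h1 : 0 ≤ a1) (k : ℕ) :
    2 * ((a0 + a1) ^ 2 + (a0 - a1) ^ 2) * (a0 + a1) ^ k ≤ 2 ^ (k + 2) * (a0 ^ (k + 2) + a1 ^ (k + 2)) := by
  induction k with
  | zero => exact le_of_eq (by ring)
  | succ k ih =>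
    have hs : 0 ≤ a0 + a1 := by positivity
    have hch : (a0 + a1) * (a0 ^ (k + 2) + a1 ^ (k + 2)) ≤
        2 * (a0 ^ (k + 3) + a1 ^ (k + 3)) := by
      have h2 : 0 ≤ (a0 - a1) * (a0 ^ (k + 2) - a1 ^ (k + 2)) := by
        rcases le_total a0 a1 with h | h
        · have := pow_le_pow_left₀ h0 h (k + 2)
          exact mul_nonneg_of_nonpos_of_nonpos (by linarith) (by linarith)
        · have := pow_le_pow_left₀ h1 h (k + 2)
          exact mul_nonneg (by linarith) (by linarith)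
      have e1 : a0 ^ (k + 3) = a0 * a0 ^ (k + 2) := by ring
      have e2 : a1 ^ (k + 3) = a1 * a1 ^ (k + 2) := by ring
      rw [e1, e2]
      nlinarith
    calc 2 * ((a0 + a1) ^ 2 + (a0 - a1) ^ 2) * (a0 + a1) ^ (k + 1)
        = (2 * ((a0 + a1) ^ 2 + (a0 - a1) ^ 2) * (a0 + a1) ^ k) * (a0 + a1) := by ring
      _ ≤ (2 ^ (k + 2) * (a0 ^ (k + 2) + a1 ^ (k + 2))) * (a0 + a1) :=
          mul_le_mul_of_nonneg_right ih hs
      _ = 2 ^ (k + 2) * ((a0 + a1) * (a0 ^ (k + 2) + a1 ^ (k + 2))) := by ring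
      _ ≤ 2 ^ (k + 2) * (2 * (a0 ^ (k + 3) + a1 ^ (k + 3))) :=
          mul_le_mul_of_nonneg_left hch (by positivity)
      _ = 2 ^ (k + 1 + 2) * (a0 ^ (k + 1 + 2) + a1 ^ (k + 1 + 2)) := by ring

/-- The bound at one vertex. -/
theorem L10_vertex (m d : ℕ) (hm : 4 ≤ m) (hd : 1 ≤ d) (hdm : d ≤ m) (a0 a1 ε s : ℝ) (h0 : 0 ≤ a0)
    (h1 : 0 ≤ a1) (he : 0 ≤ ε) (hs : 0 ≤ s) (hsum : a0 + a1 + ε + s = 1) :
    2 + 2 * (ε + s) * (-(d : ℝ) + (if d = 1 then ((m : ℝ) - 1) else 0) + (if d = 2 then 1 else 0)) +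
      2 * ((a0 + a1) ^ m * (a0 - a1) ^ 2) * (1 - (if d = 1 then 1 else 0)) - 8 * m * s ≤
      hh m d a0 a1 ε := by
  have hm' : (4 : ℝ) ≤ m := by exact_mod_cast hm
  have hq : a0 + a1 = 1 - (ε + s) := by linarith
  have hq0 : 0 ≤ a0 + a1 := by positivity
  have hq1 : a0 + a1 ≤ 1 := by linarith
  have hD : 0 ≤ (a0 - a1) ^ 2 := sq_nonneg _
  unfold hh
  by_cases hd1 : d = 1
  · subst hd1
    simp only [if_true, if_neg (by norm_num : ¬ (1 = 2))]
    push_cast
    nlinarith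
  · by_cases hd2 : d = 2
    · subst hd2
      simp only [if_true, if_neg (by norm_num : ¬ (2 = 1))]
      push_cast
      have hQ : (a0 + a1) ^ m * (a0 - a1) ^ 2 ≤ (a0 - a1) ^ 2 := by
        have := pow_le_one₀ (n := m) hq0 hq1
        nlinarith
      have h4 : 4 * (a0 ^ 2 + a1 ^ 2 + 2 * ε * (a0 + a1)) =
          2 * (a0 - a1) ^ 2 + 2 * (a0 + a1) ^ 2 + 8 * (ε + s) * (a0 + a1) - 8 * s * (a0 + a1) := by
        ring
      rw [h4]
      have h5 : 8 * s * (a0 + a1) ≤ 8 * m * s := by nlinarith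
      have h6 : 2 + 2 * (ε + s) * (-2 + 0 + 1) ≤
          2 * (a0 + a1) ^ 2 + 8 * (ε + s) * (a0 + a1) := by
        rw [hq]
        have : (ε + s) ≤ 1 := by linarith
        have : 0 ≤ ε + s := by positivity
        nlinarith
      linarith
    · rw [if_neg hd1, if_neg hd2, if_neg hd1, if_neg hd2, if_neg hd1]
      obtain ⟨k, rfl⟩ : ∃ k, d = k + 2 := ⟨d - 2, by omega⟩
      have h7 := L10_cheb a0 a1 h0 h1 k
      have h8 : 1 - ((k + 2 : ℕ) : ℝ) * (ε + s) ≤ (a0 + a1) ^ (k + 2) := by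
        have := one_add_mul_le_pow (a := -(ε + s)) (by linarith) (k + 2)
        rw [hq]
        have e : (1 : ℝ) + -(ε + s) = 1 - (ε + s) := by ring
        rw [e] at this
        linarith
      have h9 : (a0 + a1) ^ m ≤ (a0 + a1) ^ k := pow_le_pow_of_le_one hq0 hq1 (by omega)
      have h10 : (a0 + a1) ^ m * (a0 - a1) ^ 2 ≤ (a0 + a1) ^ k * (a0 - a1) ^ 2 :=
        mul_le_mul_of_nonneg_right h9 hD
      have h11 : 2 * ((a0 + a1) ^ 2 + (a0 - a1) ^ 2) * (a0 + a1) ^ k =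
          2 * (a0 + a1) ^ (k + 2) + 2 * ((a0 + a1) ^ k * (a0 - a1) ^ 2) := by ring
      have h12 : 0 ≤ 8 * (m : ℝ) * s := by positivity
      linarith

open Classical in
theorem tree_ineq (m : ℕ) (hm : 4 ≤ m) (δ : ℝ) (hδ : 0 < δ) : ∃ γ > (0 : ℝ), ∃ s0 > (0 : ℝ), ∀ T ∈ TT m,
    ∀ a0 a1 ε s : ℝ, 0 ≤ a0 → 0 ≤ a1 → 0 ≤ ε → 0 ≤ s → s ≤ s0 → a0 + a1 + ε + s = 1 →
    (δ < |a0 - 1 / 2| ∨ δ < |a1 - 1 / 2|) →
    2 * ((m : ℝ) + 1) + γ ≤ ∑ v : Fin (m + 1), hh m (T.degree v) a0 a1 ε := by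
  have hm' : (4 : ℝ) ≤ m := by exact_mod_cast hm
  set γ0 : ℝ := min (δ / 2) (2 * δ ^ 2 * (1 / 2) ^ m) with hγ0
  have hγ0pos : 0 < γ0 := lt_min (by positivity) (by positivity)
  refine ⟨γ0 / 2, by positivity, γ0 / (16 * m * (m + 1)), by positivity, ?_⟩
  intro T hT a0 a1 ε s h0 h1 he hs hs0 hsum hdel
  have hTree : T.IsTree := by
    unfold TT at hT
    exact (Finset.mem_filter.mp hT).2
  have hnt : Nontrivial (Fin (m + 1)) := Fin.nontrivial_iff_two_le.mpr (by omega)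
  have hdeg1 : ∀ v, 1 ≤ T.degree v := fun v => hTree.connected.preconnected.degree_pos_of_nontrivial v
  have hdegm : ∀ v, T.degree v ≤ m := fun v => by
    have := T.degree_lt_card_verts v
    rw [Fintype.card_fin] at this
    omega
  have hdegsum : ∑ v, T.degree v = 2 * m := by
    rw [T.sum_degrees_eq_twice_card_edges]
    have := hTree.card_edgeFinset
    rw [Fintype.card_fin] at this
    omega
  set n1 : ℕ := ∑ v : Fin (m + 1), (if T.degree v = 1 then 1 else 0) with hn1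
  set n2 : ℕ := ∑ v : Fin (m + 1), (if T.degree v = 2 then 1 else 0) with hn2
  have hA : 3 * (m + 1) ≤ 2 * m + 2 * n1 + n2 := by
    have : ∑ v : Fin (m + 1), 3 ≤ ∑ v : Fin (m + 1), (T.degree v +
        2 * (if T.degree v = 1 then 1 else 0) + (if T.degree v = 2 then 1 else 0)) := by
      refine Finset.sum_le_sum fun v _ => ?_
      have := hdeg1 v
      split_ifs <;> omega
    rw [Finset.sum_add_distrib, Finset.sum_add_distrib, ← Finset.mul_sum, hdegsum] at this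
    simp only [Finset.sum_const, Finset.card_univ, Fintype.card_fin, smul_eq_mul] at this
    omega
  have hB : 2 * (m + 1) ≤ 2 * m + n1 := by
    have : ∑ v : Fin (m + 1), 2 ≤ ∑ v : Fin (m + 1), (T.degree v +
        (if T.degree v = 1 then 1 else 0)) := by
      refine Finset.sum_le_sum fun v _ => ?_
      have := hdeg1 v
      split_ifs <;> omega
    rw [Finset.sum_add_distrib, hdegsum] at this
    simp only [Finset.sum_const, Finset.card_univ, Fintype.card_fin, smul_eq_mul] at this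
    omega
  have hC : n1 ≤ m := by
    have : ∑ v : Fin (m + 1), (T.degree v + (m - 1) * (if T.degree v = 1 then 1 else 0)) ≤
        ∑ v : Fin (m + 1), m := by
      refine Finset.sum_le_sum fun v _ => ?_
      have := hdegm v
      split_ifs <;> omega
    rw [Finset.sum_add_distrib, ← Finset.mul_sum, hdegsum] at this
    simp only [Finset.sum_const, Finset.card_univ, Fintype.card_fin, smul_eq_mul] at this
    have h2 : (m - 1) * n1 ≤ (m - 1) * m := by
      obtain ⟨k, rfl⟩ : ∃ k, m = k + 1 := ⟨m - 1, by omega⟩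
      simp only [Nat.add_sub_cancel] at this ⊢
      nlinarith
    exact Nat.le_of_mul_le_mul_left h2 (by omega)
  have hsumV : ∑ v : Fin (m + 1), (2 + 2 * (ε + s) * (-(T.degree v : ℝ) +
      (if T.degree v = 1 then ((m : ℝ) - 1) else 0) + (if T.degree v = 2 then 1 else 0)) +
      2 * ((a0 + a1) ^ m * (a0 - a1) ^ 2) * (1 - (if T.degree v = 1 then 1 else 0)) - 8 * m * s) =
      2 * (m + 1) + 2 * (ε + s) * (-(2 * m) + (m - 1) * n1 + n2) +
        2 * ((a0 + a1) ^ m * (a0 - a1) ^ 2) * ((m + 1) - n1) - 8 * m * s * (m + 1) := by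
    have e1 : ∑ v : Fin (m + 1), (T.degree v : ℝ) = 2 * m := by exact_mod_cast hdegsum
    have e2 : ∑ v : Fin (m + 1), (if T.degree v = 1 then ((m : ℝ) - 1) else 0) = (m - 1) * n1 := by
      rw [hn1]
      push_cast
      rw [Finset.mul_sum]
      refine Finset.sum_congr rfl fun v _ => ?_
      split_ifs <;> simp
    have e3 : ∑ v : Fin (m + 1), (if T.degree v = 2 then (1 : ℝ) else 0) = n2 := by
      rw [hn2]
      push_cast
      rfl
    have e4 : ∑ v : Fin (m + 1), (if T.degree v = 1 then (1 : ℝ) else 0) = n1 := by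
      rw [hn1]
      push_cast
      rfl
    rw [Finset.sum_sub_distrib, Finset.sum_add_distrib, Finset.sum_add_distrib, ← Finset.mul_sum,
      ← Finset.mul_sum, Finset.sum_add_distrib, Finset.sum_add_distrib, Finset.sum_neg_distrib,
      Finset.sum_sub_distrib, e1, e2, e3, e4]
    simp only [Finset.sum_const, Finset.card_univ, Fintype.card_fin, nsmul_eq_mul]
    push_cast
    ring
  have hmain : ∑ v : Fin (m + 1), (2 + 2 * (ε + s) * (-(T.degree v : ℝ) +
      (if T.degree v = 1 then ((m : ℝ) - 1) else 0) + (if T.degree v = 2 then 1 else 0)) +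
      2 * ((a0 + a1) ^ m * (a0 - a1) ^ 2) * (1 - (if T.degree v = 1 then 1 else 0)) - 8 * m * s) ≤
      ∑ v : Fin (m + 1), hh m (T.degree v) a0 a1 ε :=
    Finset.sum_le_sum fun v _ => L10_vertex m _ hm (hdeg1 v) (hdegm v) a0 a1 ε s h0 h1 he hs hsum
  rw [hsumV] at hmain
  refine le_trans ?_ hmain
  have hA' : 3 * ((m : ℝ) + 1) ≤ 2 * m + 2 * n1 + n2 := by exact_mod_cast hA
  have hB' : (2 : ℝ) ≤ n1 := by
    have : 2 ≤ n1 := by omega
    exact_mod_cast this
  have hC' : (n1 : ℝ) ≤ m := by exact_mod_cast hC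
  have hE : (1 : ℝ) ≤ -(2 * m) + (m - 1) * n1 + n2 := by nlinarith
  have hQ0 : 0 ≤ (a0 + a1) ^ m * (a0 - a1) ^ 2 := by positivity
  have hes : 0 ≤ ε + s := by positivity
  have hlow : 2 * (ε + s) + 2 * ((a0 + a1) ^ m * (a0 - a1) ^ 2) ≤
      2 * (ε + s) * (-(2 * m) + (m - 1) * n1 + n2) +
        2 * ((a0 + a1) ^ m * (a0 - a1) ^ 2) * ((m + 1) - n1) := by
    have t1 : 2 * (ε + s) * 1 ≤ 2 * (ε + s) * (-(2 * m) + (m - 1) * n1 + n2) :=
      mul_le_mul_of_nonneg_left hE (by positivity)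
    have t2 : 2 * ((a0 + a1) ^ m * (a0 - a1) ^ 2) * 1 ≤
        2 * ((a0 + a1) ^ m * (a0 - a1) ^ 2) * ((m + 1) - n1) :=
      mul_le_mul_of_nonneg_left (by linarith) (by positivity)
    linarith
  have hgain : γ0 ≤ 2 * (ε + s) + 2 * ((a0 + a1) ^ m * (a0 - a1) ^ 2) := by
    by_cases hc : δ / 4 ≤ ε + s
    · have : γ0 ≤ δ / 2 := min_le_left _ _
      linarith
    · push Not at hc
      have hδ2 : δ < 1 / 2 := by
        rcases hdel with h | h
        · refine lt_of_lt_of_le h ?_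
          rw [abs_le]; constructor <;> linarith
        · refine lt_of_lt_of_le h ?_
          rw [abs_le]; constructor <;> linarith
      have hab : δ ≤ |a0 - a1| := by
        rcases hdel with h | h
        · rcases abs_cases (a0 - 1 / 2) with ⟨h2, h3⟩ | ⟨h2, h3⟩ <;>
          rcases abs_cases (a0 - a1) with ⟨h4, h5⟩ | ⟨h4, h5⟩ <;> linarith
        · rcases abs_cases (a1 - 1 / 2) with ⟨h2, h3⟩ | ⟨h2, h3⟩ <;>
          rcases abs_cases (a0 - a1) with ⟨h4, h5⟩ | ⟨h4, h5⟩ <;> linarith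
      have hD : δ ^ 2 ≤ (a0 - a1) ^ 2 := by
        rw [← sq_abs (a0 - a1)]
        exact pow_le_pow_left₀ hδ.le hab 2
      have hqm : (1 / 2 : ℝ) ^ m ≤ (a0 + a1) ^ m := pow_le_pow_left₀ (by norm_num) (by linarith) m
      have : γ0 ≤ 2 * δ ^ 2 * (1 / 2) ^ m := min_le_right _ _
      have h6 : δ ^ 2 * (1 / 2) ^ m ≤ (a0 + a1) ^ m * (a0 - a1) ^ 2 := by
        rw [mul_comm]
        exact mul_le_mul hqm hD (by positivity) (by positivity)
      linarith
  have hloss : 8 * m * s * (m + 1) ≤ γ0 / 2 := by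
    have := mul_le_mul_of_nonneg_left hs0 (by positivity : (0 : ℝ) ≤ 8 * m * (m + 1))
    have e : 8 * (m : ℝ) * (m + 1) * (γ0 / (16 * m * (m + 1))) = γ0 / 2 := by
      field_simp
      ring
    linarith
  linarith

end Pool.Agent.MP5g
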