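import Mathlib
import Pool.Agent.MP_5f2667_co.L.L04
import Pool.Agent.MP_5f2667_co.L.L07
import Pool.Agent.MP_5f2667_co.L.L08
import Pool.Agent.MP_5f2667_co.L.L09
import Pool.Agent.MP_5f2667_co.L.L10

set_option autoImplicit false

open Finset

/-
Proof. tot_vertex: it is enough that totv c' x <= totv c x. Take gamma, s0 from tree_ineq. Lower bound: by cntv_ge and Ad_hh, with a_i = dgm c x i / n, e = (n-1-dgm0-dgm1)/n, s = 1/n,
2^m cntv c T v x / n^m >= (1-6 eta)^(m-d) (2^d Ad/n^d - 2^d 2^(m+1) m eta) >= (1-6 eta)^m hh - 2^(2m+1) m eta; hh <= C_m. Sum over v: >= 2(m+1)+gamma - C' eta. Upper bound for c' (cntv_le with 2 eta instead of eta: Bal c' (2 eta) y because dgm changes by at most 1 <= eta n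
at y != x): 2^m cntv c' T v x / n^m <= 2(1+4 eta)^m + 2^m 6 m eta <= 2 + C2 eta. Sum over v: 2(m+1) + C3 eta. Choose eta small compared with gamma, n large (eta n >= m+2, 1/n <= s0, 2 <= eta n). |TT m| finite: the inequality holds tree by tree.
-/

namespace Pool.Agent.MP5g

private theorem L11_hh_nonneg (m d : ℕ) (hm : 1 ≤ m) (a0 a1 ε : ℝ) (h0 : 0 ≤ a0) (h1 : 0 ≤ a1)
    (hε : 0 ≤ ε) : 0 ≤ hh m d a0 a1 ε := by
  have hm' : (0 : ℝ) ≤ (m : ℝ) - 1 := by
    have : (1 : ℝ) ≤ m := by exact_mod_cast hm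
    linarith
  unfold hh
  split_ifs
  · positivity
  · positivity
  · positivity

private theorem L11_eta (m : ℕ) (γ : ℝ) (hγ : 0 < γ) : ∃ η > (0 : ℝ), η ≤ 1 / 6 ∧
    ((m : ℝ) + 1) * (2 * (1 + 4 * η) ^ m + 2 ^ m * (6 * m * η)) <
      (1 - 6 * η) ^ m * (2 * ((m : ℝ) + 1) + γ) - ((m : ℝ) + 1) * (2 ^ m * (2 ^ (m + 1) * m * η)) := by
  have hcont : Continuous fun η : ℝ =>
      ((1 - 6 * η) ^ m * (2 * ((m : ℝ) + 1) + γ) - ((m : ℝ) + 1) * (2 ^ m * (2 ^ (m + 1) * m * η))) -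
        ((m : ℝ) + 1) * (2 * (1 + 4 * η) ^ m + 2 ^ m * (6 * m * η)) := by fun_prop
  have h0 := hcont.tendsto 0
  have e0 : ((1 - 6 * (0 : ℝ)) ^ m * (2 * ((m : ℝ) + 1) + γ) -
      ((m : ℝ) + 1) * (2 ^ m * (2 ^ (m + 1) * m * 0))) -
        ((m : ℝ) + 1) * (2 * (1 + 4 * 0) ^ m + 2 ^ m * (6 * m * 0)) = γ := by
    simp
    ring
  rw [e0] at h0
  have h1 := h0.eventually (lt_mem_nhds hγ)
  obtain ⟨ρ, hρ, hball⟩ := Metric.eventually_nhds_iff.1 h1
  refine ⟨min (ρ / 2) (1 / 6), by positivity, min_le_right _ _, ?_⟩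
  have h2 : dist (min (ρ / 2) (1 / 6)) (0 : ℝ) < ρ := by
    rw [Real.dist_eq, sub_zero, abs_of_pos (by positivity)]
    exact (min_le_left _ _).trans_lt (by linarith)
  have h3 := hball h2
  linarith

private theorem L11_dgm_le {m n : ℕ} (c c' : Sym2 (Fin n) → ZMod m) (x y : Fin n) (hy : y ≠ x)
    (h : ∀ y z, y ≠ x → z ≠ x → c s(y, z) = c' s(y, z)) (k : ZMod m) :
    dgm c' y k ≤ dgm c y k + 1 := by
  unfold dgm
  refine (Finset.card_le_card (t := insert x (univ.filter (fun z : Fin n => z ≠ y ∧ c s(y, z) = k)))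
    ?_).trans (Finset.card_insert_le _ _)
  intro z hz
  rw [Finset.mem_filter] at hz
  rw [Finset.mem_insert, Finset.mem_filter]
  by_cases hzx : z = x
  · exact Or.inl hzx
  · exact Or.inr ⟨Finset.mem_univ _, hz.2.1, by rw [h y z hy hzx]; exact hz.2.2⟩

private theorem L11_dgm_sum {m n : ℕ} (hm : 4 ≤ m) (c : Sym2 (Fin n) → ZMod m) (x : Fin n) :
    dgm c x 0 + dgm c x 1 + 1 ≤ n := by
  classical
  haveI : Fact (1 < m) := ⟨by omega⟩
  unfold dgm
  rw [← Finset.card_union_of_disjoint]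
  · have h1 : (univ.filter (fun y : Fin n => y ≠ x ∧ c s(x, y) = 0)) ∪
        (univ.filter (fun y : Fin n => y ≠ x ∧ c s(x, y) = 1)) ⊆ univ.erase x := by
      intro y hy
      rw [Finset.mem_union, Finset.mem_filter, Finset.mem_filter] at hy
      rw [Finset.mem_erase]
      rcases hy with hy | hy
      · exact ⟨hy.2.1, Finset.mem_univ _⟩
      · exact ⟨hy.2.1, Finset.mem_univ _⟩
    have h2 := Finset.card_le_card h1
    rw [Finset.card_erase_of_mem (Finset.mem_univ _), Finset.card_univ, Fintype.card_fin] at h2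
    have h3 : 0 < n := x.pos
    omega
  · rw [Finset.disjoint_left]
    intro y hy hy'
    rw [Finset.mem_filter] at hy hy'
    have : (0 : ZMod m) = 1 := hy.2.2.symm.trans hy'.2.2
    exact zero_ne_one this

open Classical in
private theorem L11_lower {m n : ℕ} (hm : 4 ≤ m) (T : SimpleGraph (Fin (m + 1))) (hT : T ∈ TT m)
    (v : Fin (m + 1)) (x : Fin n) (c : Sym2 (Fin n) → ZMod m) (B : Finset (Fin n)) (η : ℝ)
    (hη : 0 ≤ η) (hη' : η ≤ 1 / 6) (hB : (B.card : ℝ) ≤ η * n) (hb : ∀ y, y ∉ B → y ≠ x → Bal c η y)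
    (hn : (m : ℝ) + 2 ≤ η * n) :
    (n : ℝ) ^ m * ((1 - 6 * η) ^ m * hh m (T.degree v) ((dgm c x 0 : ℝ) / n) ((dgm c x 1 : ℝ) / n)
      (((n : ℝ) - 1 - dgm c x 0 - dgm c x 1) / n) - 2 ^ m * (2 ^ (m + 1) * m * η)) ≤
      2 ^ m * (cntv c T v x : ℝ) := by
  have hT' : T.IsTree := by
    unfold TT at hT
    exact (Finset.mem_filter.1 hT).2
  have hnt : Nontrivial (Fin (m + 1)) := by
    rw [Fin.nontrivial_iff_two_le]
    omega
  have hd1 : 1 ≤ T.degree v := hT'.connected.preconnected.degree_pos_of_nontrivial v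
  have hd2 : T.degree v ≤ m := by
    have := T.degree_lt_card_verts v
    rw [Fintype.card_fin] at this
    omega
  have h1 := cntv_ge (by omega) T hT v x c B η hη hη' hB hb hn
  have h2 := Ad_hh hm c x (T.degree v) hd1 hd2
  set d := T.degree v with hd
  set H := hh m d ((dgm c x 0 : ℝ) / n) ((dgm c x 1 : ℝ) / n)
      (((n : ℝ) - 1 - dgm c x 0 - dgm c x 1) / n) with hH
  have hn0 : (0 : ℝ) ≤ n := Nat.cast_nonneg n
  have hsum := L11_dgm_sum hm c x
  have hsum' : (dgm c x 0 : ℝ) + dgm c x 1 + 1 ≤ n := by exact_mod_cast hsum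
  have hH0 : 0 ≤ H := L11_hh_nonneg m d (by omega) _ _ _ (by positivity) (by positivity)
    (div_nonneg (by linarith) hn0)
  have hq0 : 0 ≤ 1 - 6 * η := by linarith
  have hq1 : 1 - 6 * η ≤ 1 := by linarith
  have hL : (0 : ℝ) ≤ 2 ^ (m + 1) * m * η := by positivity
  set L : ℝ := 2 ^ (m + 1) * m * η with hLd
  -- multiply
  have e1 : (2 : ℝ) ^ m * (((1 / 2 - 3 * η) * (n : ℝ)) ^ (m - d) * ((Ad c x d : ℝ) - L * (n : ℝ) ^ d)) =
      (1 - 6 * η) ^ (m - d) * (n : ℝ) ^ (m - d) * (2 ^ d * (Ad c x d : ℝ) - 2 ^ d * L * (n : ℝ) ^ d) := by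
    have h3 : (2 : ℝ) ^ m = 2 ^ (m - d) * 2 ^ d := by rw [← pow_add, Nat.sub_add_cancel hd2]
    have h4 : (1 - 6 * η) = 2 * (1 / 2 - 3 * η) := by ring
    rw [h3, h4, mul_pow, mul_pow]
    ring
  have h5 : (1 - 6 * η) ^ (m - d) * (n : ℝ) ^ (m - d) * (H * (n : ℝ) ^ d - 2 ^ d * L * (n : ℝ) ^ d) ≤
      2 ^ m * (cntv c T v x : ℝ) := by
    refine le_trans ?_ (mul_le_mul_of_nonneg_left h1 (by positivity))
    rw [e1]
    refine mul_le_mul_of_nonneg_left ?_ (by positivity)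
    linarith
  refine le_trans ?_ h5
  have h6 : (n : ℝ) ^ m = (n : ℝ) ^ (m - d) * (n : ℝ) ^ d := by rw [← pow_add, Nat.sub_add_cancel hd2]
  have e2 : (1 - 6 * η) ^ (m - d) * (n : ℝ) ^ (m - d) * (H * (n : ℝ) ^ d - 2 ^ d * L * (n : ℝ) ^ d) =
      (n : ℝ) ^ m * ((1 - 6 * η) ^ (m - d) * H - (1 - 6 * η) ^ (m - d) * (2 ^ d * L)) := by
    rw [h6]
    ring
  rw [e2]
  refine mul_le_mul_of_nonneg_left ?_ (by positivity)
  have h7 : (1 - 6 * η) ^ m ≤ (1 - 6 * η) ^ (m - d) := pow_le_pow_of_le_one hq0 hq1 (Nat.sub_le _ _)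
  have h8 : (1 - 6 * η) ^ (m - d) ≤ 1 := pow_le_one₀ hq0 hq1
  have h9 : (2 : ℝ) ^ d ≤ 2 ^ m := pow_le_pow_right₀ (by norm_num) hd2
  have h10 : (1 - 6 * η) ^ (m - d) * (2 ^ d * L) ≤ 1 * (2 ^ m * L) := by
    gcongr
  have h11 := mul_le_mul_of_nonneg_right h7 hH0
  linarith

theorem vertex_lemma (m : ℕ) (hm : 4 ≤ m) (δ : ℝ) (hδ : 0 < δ) : ∃ η > (0 : ℝ), ∃ n0 : ℕ, ∀ n ≥ n0,
    ∀ (c c' : Sym2 (Fin n) → ZMod m) (x : Fin n) (B : Finset (Fin n)), (B.card : ℝ) ≤ η * n →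
    (∀ y, y ∉ B → y ≠ x → Bal c η y) → (∀ y z, y ≠ x → z ≠ x → c s(y, z) = c' s(y, z)) →
    (∀ y, y ≠ x → c' s(x, y) = 0 ∨ c' s(x, y) = 1) → |(dgm c' x 0 : ℝ) - n / 2| ≤ 2 →
    |(dgm c' x 1 : ℝ) - n / 2| ≤ 2 → ¬ Bal c δ x → tot c' ≤ tot c := by
  classical
  obtain ⟨γ, hγ, s0, hs0, hineq⟩ := tree_ineq m hm δ hδ
  obtain ⟨η, hη, hη6, hηe⟩ := L11_eta m γ hγ
  refine ⟨η, hη, max 1 (max ⌈1 / s0⌉₊ ⌈((m : ℝ) + 2) / η⌉₊), ?_⟩
  intro n hn c c' x B hB hbal hcc h01 hx0 hx1 hnb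
  have hn1 : 1 ≤ n := (le_max_left _ _).trans hn
  have hn2 : 1 / s0 ≤ n := (Nat.le_ceil _).trans (by
    exact_mod_cast ((le_max_left _ _).trans ((le_max_right _ _).trans hn)))
  have hn3 : ((m : ℝ) + 2) / η ≤ n := (Nat.le_ceil _).trans (by
    exact_mod_cast ((le_max_right _ _).trans ((le_max_right _ _).trans hn)))
  have hnpos : (0 : ℝ) < n := by exact_mod_cast hn1
  have hnη : (m : ℝ) + 2 ≤ η * n := by
    rw [div_le_iff₀ hη] at hn3
    linarith
  have hm0 : (0 : ℝ) ≤ m := Nat.cast_nonneg m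
  have h1η : 1 ≤ η * n := by linarith
  have hs : 1 / (n : ℝ) ≤ s0 := by
    rw [div_le_iff₀ hs0] at hn2
    rw [div_le_iff₀ hnpos]
    linarith
  have hv := tot_vertex c c' x hcc
  suffices h : totv c' x ≤ totv c x by omega
  unfold totv
  refine Finset.sum_le_sum fun T hT => ?_
  -- data at `x`
  have hsum := L11_dgm_sum hm c x
  have hsum' : (dgm c x 0 : ℝ) + dgm c x 1 + 1 ≤ n := by exact_mod_cast hsum
  have hlow : ∀ v : Fin (m + 1), (n : ℝ) ^ m * ((1 - 6 * η) ^ m * hh m (T.degree v)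
      ((dgm c x 0 : ℝ) / n) ((dgm c x 1 : ℝ) / n)
      (((n : ℝ) - 1 - dgm c x 0 - dgm c x 1) / n) - 2 ^ m * (2 ^ (m + 1) * m * η)) ≤
      2 ^ m * (cntv c T v x : ℝ) :=
    fun v => L11_lower hm T hT v x c B η hη.le hη6 hB hbal hnη
  have htree := hineq T hT ((dgm c x 0 : ℝ) / n) ((dgm c x 1 : ℝ) / n)
    (((n : ℝ) - 1 - dgm c x 0 - dgm c x 1) / n) (1 / n) (by positivity) (by positivity)
    (div_nonneg (by linarith) hnpos.le) (by positivity) hs (by field_simp; ring) (by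
      by_contra hcon
      push Not at hcon
      apply hnb
      have hd : ∀ k : ZMod m, |(dgm c x k : ℝ) / n - 1 / 2| ≤ δ →
          |(dgm c x k : ℝ) - n / 2| ≤ δ * n := by
        intro k hk
        have e : (dgm c x k : ℝ) - n / 2 = ((dgm c x k : ℝ) / n - 1 / 2) * n := by
          field_simp
        rw [e, abs_mul, abs_of_pos hnpos]
        exact mul_le_mul_of_nonneg_right hk hnpos.le
      exact ⟨hd 0 hcon.1, hd 1 hcon.2⟩)
  have hup : ∀ v : Fin (m + 1), (cntv c' T v x : ℝ) ≤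
      (2 * (1 / 2 + 2 * η) ^ m + 3 * m * (2 * η)) * (n : ℝ) ^ m := by
    intro v
    refine cntv_le (by omega) T hT v x c' B (2 * η) (by linarith) (by nlinarith) ?_ h01 ?_ ?_
    · intro y hyB hyx
      obtain ⟨b0, b1⟩ := hbal y hyB hyx
      have hk : ∀ k : ZMod m, |(dgm c y k : ℝ) - n / 2| ≤ η * n →
          |(dgm c' y k : ℝ) - n / 2| ≤ 2 * η * n := by
        intro k hk
        have a1 : (dgm c' y k : ℝ) ≤ dgm c y k + 1 := by
          exact_mod_cast L11_dgm_le c c' x y hyx hcc k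
        have a2 : (dgm c y k : ℝ) ≤ dgm c' y k + 1 := by
          exact_mod_cast L11_dgm_le c' c x y hyx (fun y z hy hz => (hcc y z hy hz).symm) k
        rw [abs_le] at hk ⊢
        constructor
        · nlinarith
        · nlinarith
      exact ⟨hk 0 b0, hk 1 b1⟩
    · rw [abs_le] at hx0
      nlinarith
    · rw [abs_le] at hx1
      nlinarith
  -- comparison
  have hreal : (2 : ℝ) ^ m * ∑ v : Fin (m + 1), (cntv c' T v x : ℝ) ≤
      2 ^ m * ∑ v : Fin (m + 1), (cntv c T v x : ℝ) := by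
    have e1 : (2 : ℝ) ^ m * ∑ v : Fin (m + 1), (cntv c' T v x : ℝ) ≤
        (n : ℝ) ^ m * (((m : ℝ) + 1) * (2 * (1 + 4 * η) ^ m + 2 ^ m * (6 * m * η))) := by
      calc (2 : ℝ) ^ m * ∑ v : Fin (m + 1), (cntv c' T v x : ℝ) ≤
          2 ^ m * ∑ _v : Fin (m + 1), (2 * (1 / 2 + 2 * η) ^ m + 3 * m * (2 * η)) * (n : ℝ) ^ m := by
            refine mul_le_mul_of_nonneg_left (Finset.sum_le_sum fun v _ => hup v) (by positivity)
        _ = _ := by
            rw [Finset.sum_const, Finset.card_univ, Fintype.card_fin, nsmul_eq_mul]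
            have e : (1 + 4 * η) = 2 * (1 / 2 + 2 * η) := by ring
            rw [e, mul_pow]
            push_cast
            ring
    have e2 : (n : ℝ) ^ m * ((1 - 6 * η) ^ m * (2 * ((m : ℝ) + 1) + γ) -
        ((m : ℝ) + 1) * (2 ^ m * (2 ^ (m + 1) * m * η))) ≤
        2 ^ m * ∑ v : Fin (m + 1), (cntv c T v x : ℝ) := by
      rw [Finset.mul_sum]
      refine le_trans ?_ (Finset.sum_le_sum fun v _ => hlow v)
      rw [← Finset.mul_sum, Finset.sum_sub_distrib, ← Finset.mul_sum, Finset.sum_const,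
        Finset.card_univ, Fintype.card_fin, nsmul_eq_mul]
      refine mul_le_mul_of_nonneg_left ?_ (by positivity)
      have h7 : (0 : ℝ) ≤ (1 - 6 * η) ^ m := by
        have : 0 ≤ 1 - 6 * η := by linarith
        positivity
      have h8 := mul_le_mul_of_nonneg_left htree h7
      push_cast
      linarith
    refine e1.trans (le_trans ?_ e2)
    exact mul_le_mul_of_nonneg_left hηe.le (by positivity)
  have hreal' := le_of_mul_le_mul_left hreal (by positivity)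
  exact_mod_cast hreal'

end Pool.Agent.MP5g
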