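import Mathlib
import Pool.Agent.MP_5f2667_co.L.L11

set_option autoImplicit false

open Finset

/-
Proof. Let eta1 be the constant of vertex_lemma for delta/4, and eta = min(eta1/4, delta/8). B = vertices which are not Bal c eta. Process the vertices of B one by one (induction over the finset): current colouring c_j. If x is Bal c_j (delta/4), do nothing; otherwise recolour all
edges at x by the parity of the other end: c' s(x,y) = y.val mod 2 (y != x), which is balanced up to 2 (the number of even / odd y != x), tot does not increase (vertex_lemma with eta1: every y outside B has changed at most |B| <= eta n of its edges, so Bal c_j (2 eta) y and 2 eta <= eta1).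
At the end: y outside B: Bal (2 eta) <= delta. y in B: at its time it was Bal (delta/4) or balanced up to 2 <= (delta/4) n, afterwards at most |B| <= eta n edges changed: Bal (delta/2). n large. (dgm changes by at most the number of changed edges at the vertex.)
-/

namespace Pool.Agent.MP5g

theorem L12_diff {m n : ℕ} (c1 c2 : Sym2 (Fin n) → ZMod m) (y : Fin n) (S : Finset (Fin n))
    (h : ∀ z, z ∉ S → c1 s(y, z) = c2 s(y, z)) (k : ZMod m) :
    |(dgm c1 y k : ℝ) - dgm c2 y k| ≤ S.card := by
  have key : ∀ c1 c2 : Sym2 (Fin n) → ZMod m, (∀ z, z ∉ S → c1 s(y, z) = c2 s(y, z)) →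
      dgm c1 y k ≤ dgm c2 y k + S.card := by
    intro c1 c2 h
    unfold dgm
    refine le_trans (Finset.card_le_card ?_) (Finset.card_union_le _ _)
    intro z hz
    rw [Finset.mem_union]
    by_cases hzS : z ∈ S
    · exact Or.inr hzS
    · left
      simp only [Finset.mem_filter, Finset.mem_univ, true_and] at hz ⊢
      rw [← h z hzS]
      exact hz
  have h1 := key c1 c2 h
  have h2 := key c2 c1 (fun z hz => (h z hz).symm)
  have h1' : (dgm c1 y k : ℝ) ≤ dgm c2 y k + S.card := by exact_mod_cast h1
  have h2' : (dgm c2 y k : ℝ) ≤ dgm c1 y k + S.card := by exact_mod_cast h2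
  rw [abs_le]
  constructor <;> linarith

/-- parity colour -/
def L12_par (m : ℕ) {n : ℕ} (y : Fin n) : ZMod m := if y.val % 2 = 0 then 0 else 1

/-- recolouring of the edges at `v` -/
def L12_rec {m n : ℕ} (c : Sym2 (Fin n) → ZMod m) (v : Fin n) : Sym2 (Fin n) → ZMod m :=
  Sym2.lift ⟨fun a b => if a = v then L12_par m b else if b = v then L12_par m a else c s(a, b), by
    intro a b
    by_cases ha : a = v
    · by_cases hb : b = v
      · simp [ha, hb]
      · simp [ha, hb]
    · by_cases hb : b = v
      · simp [ha, hb]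
      · simp only [ha, hb, if_false]
        rw [Sym2.eq_swap]⟩

theorem L12_rec_v {m n : ℕ} (c : Sym2 (Fin n) → ZMod m) (v y : Fin n) :
    L12_rec c v s(v, y) = L12_par m y := by
  unfold L12_rec
  simp

theorem L12_rec_ne {m n : ℕ} (c : Sym2 (Fin n) → ZMod m) (v y z : Fin n) (hy : y ≠ v) (hz : z ≠ v) :
    L12_rec c v s(y, z) = c s(y, z) := by
  unfold L12_rec
  simp [hy, hz]

theorem L12_even (n : ℕ) : (univ.filter (fun y : Fin n => y.val % 2 = 0)).card = (n + 1) / 2 := by
  rw [Finset.card_filter, Fin.sum_univ_eq_sum_range (fun i => if i % 2 = 0 then 1 else 0) n]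
  induction n with
  | zero => rfl
  | succ n ih =>
    rw [Finset.sum_range_succ, ih]
    split_ifs <;> omega

theorem L12_odd (n : ℕ) : (univ.filter (fun y : Fin n => y.val % 2 = 1)).card = n / 2 := by
  rw [Finset.card_filter, Fin.sum_univ_eq_sum_range (fun i => if i % 2 = 1 then 1 else 0) n]
  induction n with
  | zero => rfl
  | succ n ih =>
    rw [Finset.sum_range_succ, ih]
    split_ifs <;> omega

theorem L12_half {n : ℕ} (v : Fin n) (P : Fin n → Prop) [DecidablePred P] (e : ℕ)
    (he : (univ.filter P).card = e) (h1 : n ≤ 2 * e + 1) (h2 : 2 * e ≤ n + 1) :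
    |((univ.filter (fun y : Fin n => y ≠ v ∧ P y)).card : ℝ) - n / 2| ≤ 2 := by
  have h3 : univ.filter (fun y : Fin n => y ≠ v ∧ P y) = (univ.filter P).erase v := by
    ext y
    simp [Finset.mem_erase]
  have h4 : (univ.filter (fun y : Fin n => y ≠ v ∧ P y)).card ≤ e := by
    rw [h3, ← he]; exact Finset.card_erase_le
  have h5 : e ≤ (univ.filter (fun y : Fin n => y ≠ v ∧ P y)).card + 1 := by
    have := Finset.pred_card_le_card_erase (s := univ.filter P) (a := v)
    rw [h3]
    omega
  have h6 : ((univ.filter (fun y : Fin n => y ≠ v ∧ P y)).card : ℝ) ≤ e := by exact_mod_cast h4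
  have h7 : (e : ℝ) ≤ ((univ.filter (fun y : Fin n => y ≠ v ∧ P y)).card : ℝ) + 1 := by
    exact_mod_cast h5
  have h8 : (n : ℝ) ≤ 2 * e + 1 := by exact_mod_cast h1
  have h9 : 2 * (e : ℝ) ≤ n + 1 := by exact_mod_cast h2
  rw [abs_le]
  constructor <;> linarith

theorem L12_deg {m n : ℕ} (hm : 4 ≤ m) (c : Sym2 (Fin n) → ZMod m) (v : Fin n) :
    |(dgm (L12_rec c v) v 0 : ℝ) - n / 2| ≤ 2 ∧ |(dgm (L12_rec c v) v 1 : ℝ) - n / 2| ≤ 2 := by
  have : Fact (1 < m) := ⟨by omega⟩
  have h01 : (1 : ZMod m) ≠ 0 := one_ne_zero
  have h0 : ∀ y : Fin n, (L12_rec c v s(v, y) = 0 ↔ y.val % 2 = 0) := by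
    intro y
    rw [L12_rec_v]
    unfold L12_par
    split_ifs with h
    · simp [h]
    · simp [h]
  have h1 : ∀ y : Fin n, (L12_rec c v s(v, y) = 1 ↔ y.val % 2 = 1) := by
    intro y
    rw [L12_rec_v]
    unfold L12_par
    split_ifs with h
    · constructor
      · intro h'; exact absurd h'.symm h01
      · intro h'; omega
    · constructor
      · intro _; omega
      · intro _; rfl
  unfold dgm
  simp only [h0, h1]
  exact ⟨L12_half v _ _ (L12_even n) (by omega) (by omega),
    L12_half v _ _ (L12_odd n) (by omega) (by omega)⟩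

open Classical in
theorem cleaning (m : ℕ) (hm : 4 ≤ m) (δ : ℝ) (hδ : 0 < δ) : ∃ η > (0 : ℝ), ∃ n0 : ℕ, ∀ n ≥ n0,
    ∀ c : Sym2 (Fin n) → ZMod m, ((univ.filter (fun x => ¬ Bal c η x)).card : ℝ) ≤ η * n →
    ∃ c' : Sym2 (Fin n) → ZMod m, (∀ x, Bal c' δ x) ∧ tot c' ≤ tot c := by
  obtain ⟨η1, hη1, n1, H⟩ := vertex_lemma m hm (δ / 4) (by positivity)
  refine ⟨min (η1 / 4) (δ / 8), lt_min (by positivity) (by positivity), max n1 (⌈8 / δ⌉₊), ?_⟩
  intro n hn c hB
  set η := min (η1 / 4) (δ / 8) with hη
  have hηpos : 0 < η := lt_min (by positivity) (by positivity)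
  have hη1' : η ≤ η1 / 4 := min_le_left _ _
  have hη2' : η ≤ δ / 8 := min_le_right _ _
  have hn1 : n1 ≤ n := (le_max_left _ _).trans hn
  have hn2 : 8 / δ ≤ n := by
    refine (Nat.le_ceil _).trans ?_
    exact_mod_cast (le_max_right _ _).trans hn
  have hn3 : 2 ≤ δ / 4 * n := by
    rw [div_le_iff₀ hδ] at hn2
    linarith
  have hn0 : (0 : ℝ) ≤ n := Nat.cast_nonneg n
  set B := univ.filter (fun x => ¬ Bal c η x) with hBdef
  have hBal : ∀ y, y ∉ B → Bal c η y := by
    intro y hy
    by_contra h
    exact hy (Finset.mem_filter.2 ⟨Finset.mem_univ _, h⟩)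
  have key : ∀ B' : Finset (Fin n), B' ⊆ B → ∃ cj : Sym2 (Fin n) → ZMod m, tot cj ≤ tot c ∧
      (∀ y z, y ∉ B' → z ∉ B' → cj s(y, z) = c s(y, z)) ∧
      (∀ x ∈ B', ∀ i : ZMod m, (i = 0 ∨ i = 1) →
        |(dgm cj x i : ℝ) - n / 2| ≤ δ / 4 * n + B'.card) := by
    intro B'
    induction B' using Finset.induction_on with
    | empty =>
      intro _
      exact ⟨c, le_refl _, fun _ _ _ _ => rfl, fun x hx => absurd hx (Finset.notMem_empty x)⟩
    | insert v B' hv ih =>
      intro hsub
      obtain ⟨cj, h1, h2, h3⟩ := ih ((Finset.subset_insert v B').trans hsub)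
      have hvB : v ∈ B := hsub (Finset.mem_insert_self v B')
      have hB'B : B' ⊆ B := (Finset.subset_insert v B').trans hsub
      have hcard : ((insert v B').card : ℝ) = B'.card + 1 := by
        rw [Finset.card_insert_of_notMem hv]; push_cast; ring
      have hcard0 : (0 : ℝ) ≤ B'.card := Nat.cast_nonneg _
      by_cases hb : Bal cj (δ / 4) v
      · refine ⟨cj, h1, fun y z hy hz => h2 y z (fun h => hy (Finset.mem_insert_of_mem h))
          (fun h => hz (Finset.mem_insert_of_mem h)), ?_⟩
        intro x hx i hi
        rw [hcard]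
        rcases Finset.mem_insert.1 hx with rfl | hx'
        · rcases hi with rfl | rfl
          · have := hb.1; linarith
          · have := hb.2; linarith
        · have := h3 x hx' i hi; linarith
      · have hdeg := L12_deg hm cj v
        refine ⟨L12_rec cj v, ?_, ?_, ?_⟩
        · refine le_trans ?_ h1
          apply H n hn1 cj (L12_rec cj v) v B
          · refine hB.trans ?_
            have : η ≤ η1 := by linarith
            exact mul_le_mul_of_nonneg_right this hn0
          · intro y hy _
            have hy' := hBal y hy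
            have hyB' : y ∉ B' := fun h => hy (hB'B h)
            have hd : ∀ k : ZMod m, |(dgm cj y k : ℝ) - dgm c y k| ≤ η * n := by
              intro k
              have h4 := L12_diff cj c y B' (fun z hz => h2 y z hyB' hz) k
              have h5 : ((B'.card : ℕ) : ℝ) ≤ B.card := by
                exact_mod_cast Finset.card_le_card hB'B
              exact h4.trans (h5.trans hB)
            have hfin : ∀ k : ZMod m, |(dgm c y k : ℝ) - n / 2| ≤ η * n →
                |(dgm cj y k : ℝ) - n / 2| ≤ η1 * n := by
              intro k hk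
              have h4 := hd k
              have h5 : η * n ≤ η1 / 4 * n := mul_le_mul_of_nonneg_right hη1' hn0
              have h6 : 0 ≤ η1 * n := by positivity
              rw [abs_le] at h4 hk ⊢
              constructor <;> linarith
            exact ⟨hfin 0 hy'.1, hfin 1 hy'.2⟩
          · intro y z hy hz
            exact (L12_rec_ne cj v y z hy hz).symm
          · intro y _
            rw [L12_rec_v]
            unfold L12_par
            split_ifs
            · exact Or.inl rfl
            · exact Or.inr rfl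
          · exact hdeg.1
          · exact hdeg.2
          · exact hb
        · intro y z hy hz
          have hy1 : y ≠ v := fun h => hy (h ▸ Finset.mem_insert_self v B')
          have hz1 : z ≠ v := fun h => hz (h ▸ Finset.mem_insert_self v B')
          rw [L12_rec_ne cj v y z hy1 hz1]
          exact h2 y z (fun h => hy (Finset.mem_insert_of_mem h))
            (fun h => hz (Finset.mem_insert_of_mem h))
        · intro x hx i hi
          rw [hcard]
          rcases Finset.mem_insert.1 hx with rfl | hx'
          · rcases hi with rfl | rfl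
            · have := hdeg.1; linarith
            · have := hdeg.2; linarith
          · have hxv : x ≠ v := fun h => hv (h ▸ hx')
            have h4 := h3 x hx' i hi
            have h5 := L12_diff (L12_rec cj v) cj x {v} (fun z hz =>
              L12_rec_ne cj v x z hxv (fun h => hz (Finset.mem_singleton.2 h))) i
            rw [Finset.card_singleton, Nat.cast_one] at h5
            rw [abs_le] at h4 h5 ⊢
            constructor <;> linarith
  obtain ⟨cj, h1, h2, h3⟩ := key B (Finset.Subset.refl B)
  refine ⟨cj, ?_, h1⟩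
  intro x
  have hηn : η * n ≤ δ / 8 * n := mul_le_mul_of_nonneg_right hη2' hn0
  have hδn : 0 ≤ δ * n := by positivity
  by_cases hx : x ∈ B
  · have h4 : ∀ i : ZMod m, (i = 0 ∨ i = 1) → |(dgm cj x i : ℝ) - n / 2| ≤ δ * n := by
      intro i hi
      have h5 := h3 x hx i hi
      linarith
    exact ⟨h4 0 (Or.inl rfl), h4 1 (Or.inr rfl)⟩
  · have hy' := hBal x hx
    have h4 : ∀ k : ZMod m, |(dgm c x k : ℝ) - n / 2| ≤ η * n →
        |(dgm cj x k : ℝ) - n / 2| ≤ δ * n := by
      intro k hk
      have h5 := L12_diff cj c x B (fun z hz => h2 x z hx hz) k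
      rw [abs_le] at h5 hk ⊢
      constructor <;> linarith
    exact ⟨h4 0 hy'.1, h4 1 hy'.2⟩

end Pool.Agent.MP5g
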