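import Mathlib
import Pool.Agent.MP_5f2667_co.L.L07b

set_option autoImplicit false

open Finset

/-
Proof. f injective, f u = x, f w = y, sum 0, colour of xy is 0. Either some other edge has a colour not in {0,1}: at most (m-1) * (2 delta n) * n^(m-2) <= 2 m delta n^(m-1) maps (the edge ab is different from uw, say b is not in {u,w}; choose f at all vertices other than u, w, b, then f b among the at most
n-1-dgm0-dgm1 <= 2 delta n such neighbours of f a); or all m-1 other edges have colours in {0,1} and their sum, an integer in [0,m-1], is 0 mod m, so all are 0: at most ((1/2+delta)n)^(m-1) maps (grow_le with R = {u,w}, A y z := z != y and c s(y,z) = 0, P = True).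
-/

namespace Pool.Agent.MP5g

theorem L13_card_le {α : Type*} [Fintype α] {p q : α → Prop} {hp : DecidablePred p}
    {hq : DecidablePred q} (h : ∀ x, p x → q x) :
    (@Finset.filter α p hp univ).card ≤ (@Finset.filter α q hq univ).card := by
  apply Finset.card_le_card
  intro x hx
  rw [Finset.mem_filter] at hx ⊢
  exact ⟨hx.1, h x hx.2⟩

/-- the number of neighbours of `x` in a colour different from `0` and `1` -/
theorem L13_bad {m n : ℕ} (hm : 2 ≤ m) (c : Sym2 (Fin n) → ZMod m) (δ : ℝ) (x : Fin n)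
    (hb : Bal c δ x) :
    ((univ.filter (fun z : Fin n => z ≠ x ∧ c s(x, z) ≠ 0 ∧ c s(x, z) ≠ 1)).card : ℝ) ≤ 2 * δ * n := by
  have hne : (0 : ZMod m) ≠ 1 := by
    have : Fact (1 < m) := ⟨hm⟩
    exact zero_ne_one
  have h1 : (univ.filter (fun z : Fin n => z ≠ x ∧ c s(x, z) ≠ 0 ∧ c s(x, z) ≠ 1)).card +
      dgm c x 0 + dgm c x 1 ≤ n := by
    unfold dgm
    rw [← Finset.card_union_of_disjoint, ← Finset.card_union_of_disjoint]
    · refine (Finset.card_le_univ _).trans ?_
      rw [Fintype.card_fin]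
    · rw [Finset.disjoint_left]
      intro z hz hz'
      simp only [Finset.mem_union, Finset.mem_filter, Finset.mem_univ, true_and] at hz hz'
      rcases hz with hz | hz
      · exact hz.2.2 hz'.2
      · exact hne (hz.2.symm.trans hz'.2)
    · rw [Finset.disjoint_left]
      intro z hz hz'
      simp only [Finset.mem_filter, Finset.mem_univ, true_and] at hz hz'
      exact hz.2.1 hz'.2
  have h2 : ((univ.filter (fun z : Fin n => z ≠ x ∧ c s(x, z) ≠ 0 ∧ c s(x, z) ≠ 1)).card : ℝ) +
      dgm c x 0 + dgm c x 1 ≤ n := by exact_mod_cast h1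
  have h3 := (abs_le.1 hb.1).1
  have h4 := (abs_le.1 hb.2).1
  linarith

/-- functions with three prescribed values -/
theorem L13_three {m n : ℕ} (u w b : Fin (m + 1)) (huw : u ≠ w) (hub : u ≠ b) (hwb : w ≠ b)
    (x y z : Fin n) :
    (univ.filter (fun f : Fin (m + 1) → Fin n => f u = x ∧ f w = y ∧ f b = z)).card ≤ n ^ (m - 2) := by
  classical
  set X : Finset (Fin (m + 1) → Fin n) :=
    Fintype.piFinset (fun v => if v = u then {x} else if v = w then {y} else if v = b then {z} else
      (univ : Finset (Fin n))) with hX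
  have h1 : (univ.filter (fun f : Fin (m + 1) → Fin n => f u = x ∧ f w = y ∧ f b = z)) ⊆ X := by
    intro f hf
    rw [Finset.mem_filter] at hf
    rw [hX, Fintype.mem_piFinset]
    intro v
    split_ifs with h1 h2 h3
    · rw [Finset.mem_singleton, h1]; exact hf.2.1
    · rw [Finset.mem_singleton, h2]; exact hf.2.2.1
    · rw [Finset.mem_singleton, h3]; exact hf.2.2.2
    · exact Finset.mem_univ _
  refine (Finset.card_le_card h1).trans ?_
  rw [hX, Fintype.card_piFinset]
  have h2 : ∀ v : Fin (m + 1), (if v = u then ({x} : Finset (Fin n)) else if v = w then {y} else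
      if v = b then {z} else univ).card = if v ∈ ({u, w, b} : Finset (Fin (m + 1))) then 1 else n := by
    intro v
    by_cases hu : v = u
    · simp [hu]
    · by_cases hw : v = w
      · simp [hw, huw.symm]
      · by_cases hb : v = b
        · simp [hb, hub.symm, hwb.symm]
        · simp [hu, hw, hb]
  rw [Finset.prod_congr rfl (fun v _ => h2 v), Finset.prod_ite, Finset.prod_const_one, one_mul,
    Finset.prod_const]
  apply le_of_eq
  congr 1
  have h3 : (univ.filter (fun v : Fin (m + 1) => v ∉ ({u, w, b} : Finset (Fin (m + 1))))) =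
      univ \ {u, w, b} := by
    ext v
    simp
  have h4 : ({u, w, b} : Finset (Fin (m + 1))).card = 3 := by
    rw [Finset.card_insert_of_notMem, Finset.card_insert_of_notMem, Finset.card_singleton]
    · simpa using hwb
    · simp [huw, hub]
  rw [h3, Finset.card_sdiff_of_subset (Finset.subset_univ _), h4, Finset.card_univ, Fintype.card_fin]
  omega

open Classical in
/-- maps with a bad edge `(a, b)`, `b ∉ {u, w}` -/
theorem L13_edge {m n : ℕ} (hm : 2 ≤ m) (u w a b : Fin (m + 1)) (huw : u ≠ w) (hub : u ≠ b)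
    (hwb : w ≠ b) (hab : a ≠ b) (x y : Fin n) (c : Sym2 (Fin n) → ZMod m) (δ : ℝ) (hδ : 0 ≤ δ)
    (hb : ∀ z, Bal c δ z) :
    ((univ.filter (fun f : Fin (m + 1) → Fin n => f u = x ∧ f w = y ∧
      f b ≠ f a ∧ c s(f a, f b) ≠ 0 ∧ c s(f a, f b) ≠ 1)).card : ℝ) ≤
      (n : ℝ) ^ (m - 2) * (2 * δ * n) := by
  set S := univ.filter (fun f : Fin (m + 1) → Fin n => f u = x ∧ f w = y ∧
      f b ≠ f a ∧ c s(f a, f b) ≠ 0 ∧ c s(f a, f b) ≠ 1) with hS
  set S' := univ.filter (fun f : Fin (m + 1) → Fin n => f u = x ∧ f w = y ∧ f b = x) with hS'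
  have hmaps : ∀ f ∈ S, Function.update f b x ∈ S' := by
    intro f hf
    rw [hS, Finset.mem_filter] at hf
    rw [hS', Finset.mem_filter]
    refine ⟨Finset.mem_univ _, ?_, ?_, ?_⟩
    · rw [Function.update_of_ne hub]; exact hf.2.1
    · rw [Function.update_of_ne hwb]; exact hf.2.2.1
    · rw [Function.update_self]
  rw [Finset.card_eq_sum_card_fiberwise hmaps]
  push_cast
  have hfib : ∀ f' ∈ S', (((S.filter (fun f => Function.update f b x = f')).card : ℕ) : ℝ) ≤
      2 * δ * n := by
    intro f' _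
    refine le_trans ?_ (L13_bad hm c δ (f' a) (hb (f' a)))
    apply Nat.cast_le.2
    apply Finset.card_le_card_of_injOn (fun f => f b)
    · intro f hf
      rw [Finset.coe_filter] at hf
      obtain ⟨hf1, hf2⟩ := hf
      rw [hS, Finset.mem_filter] at hf1
      have h5 : f' a = f a := by
        rw [← hf2, Function.update_of_ne hab]
      simp only [Finset.coe_filter, Finset.mem_univ, true_and]
      show f b ≠ f' a ∧ c s(f' a, f b) ≠ 0 ∧ c s(f' a, f b) ≠ 1
      rw [h5]
      exact hf1.2.2.2
    · intro f hf f2 hf2 heq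
      rw [Finset.coe_filter] at hf hf2
      funext v
      by_cases hv : v = b
      · rw [hv]; exact heq
      · have h6 := congrFun (hf.2.trans hf2.2.symm) v
        rw [Function.update_of_ne hv, Function.update_of_ne hv] at h6
        exact h6
  calc ∑ f' ∈ S', ((S.filter (fun f => Function.update f b x = f')).card : ℝ)
      ≤ ∑ _f' ∈ S', 2 * δ * (n : ℝ) := Finset.sum_le_sum hfib
    _ = S'.card * (2 * δ * n) := by rw [Finset.sum_const, nsmul_eq_mul]
    _ ≤ (n : ℝ) ^ (m - 2) * (2 * δ * n) := by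
      apply mul_le_mul_of_nonneg_right _ (by positivity)
      have h1 := L13_three u w b huw hub hwb x y x
      have h2 : S'.card ≤ n ^ (m - 2) := h1
      exact_mod_cast h2

theorem L13_edge_mem {m : ℕ} (T : SimpleGraph (Fin (m + 1))) (u w : Fin (m + 1))
    (e : Sym2 (Fin (m + 1))) (he : e ∈ T.edgeSet) (hne : e ≠ s(u, w)) :
    ∃ a b, e = s(a, b) ∧ T.Adj a b ∧ u ≠ b ∧ w ≠ b := by
  induction e using Sym2.ind with
  | _ a b =>
    have hadj : T.Adj a b := he
    by_cases h1 : u ≠ b ∧ w ≠ b
    · exact ⟨a, b, rfl, hadj, h1.1, h1.2⟩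
    · refine ⟨b, a, Sym2.eq_swap, hadj.symm, ?_, ?_⟩
      · rintro rfl
        apply h1
        refine ⟨hadj.ne, ?_⟩
        rintro rfl
        exact hne rfl
      · rintro rfl
        apply h1
        refine ⟨?_, hadj.ne⟩
        rintro rfl
        exact hne Sym2.eq_swap

theorem cnte_le {m n : ℕ} (hm : 2 ≤ m) (T : SimpleGraph (Fin (m + 1))) (hT : T ∈ TT m) (u w : Fin (m + 1))
    (huw : T.Adj u w) (x y : Fin n) (hxy : x ≠ y) (c : Sym2 (Fin n) → ZMod m) (δ : ℝ) (hδ : 0 ≤ δ)
    (hb : ∀ z, Bal c δ z) (h0 : c s(x, y) = 0) :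
    (cnte c T u w x y : ℝ) ≤ ((1 / 2 + δ) ^ (m - 1) + 2 * m * δ) * (n : ℝ) ^ (m - 1) := by
  classical
  have hTree : T.IsTree := by
    unfold TT at hT
    exact (Finset.mem_filter.1 hT).2
  have hcardE : T.edgeFinset.card = m := by
    have h1 := hTree.card_edgeFinset
    rw [Fintype.card_fin] at h1
    omega
  have huwE : s(u, w) ∈ T.edgeFinset := SimpleGraph.mem_edgeFinset.2 huw
  -- the good maps
  set G1 := univ.filter (fun f : Fin (m + 1) → Fin n =>
    (∀ v ∈ ({u, w} : Finset (Fin (m + 1))), f v = (fun v => if v = u then x else y) v) ∧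
    (∀ v, v ∉ ({u, w} : Finset (Fin (m + 1))) → (fun _ : Fin n => True) (f v)) ∧
    (∀ a b, T.Adj a b → b ∉ ({u, w} : Finset (Fin (m + 1))) →
      (fun y z : Fin n => z ≠ y ∧ c s(y, z) = 0) (f a) (f b))) with hG1
  set G2 : Sym2 (Fin (m + 1)) → Finset (Fin (m + 1) → Fin n) := fun e =>
    univ.filter (fun f : Fin (m + 1) → Fin n => f u = x ∧ f w = y ∧ Function.Injective f ∧
      c (e.map f) ≠ 0 ∧ c (e.map f) ≠ 1) with hG2
  have hG1card : (G1.card : ℝ) ≤ ((1 / 2 + δ) * n) ^ (m - 1) := by
    have hRcard : ({u, w} : Finset (Fin (m + 1))).card = 2 := Finset.card_pair huw.ne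
    have hconn : (T.induce (({u, w} : Finset (Fin (m + 1))) : Set (Fin (m + 1)))).Connected := by
      rw [Finset.coe_pair]
      exact SimpleGraph.induce_pair_connected_of_adj huw
    have h1 := grow_le T hT {u, w} ⟨u, by simp⟩ hconn (fun v => if v = u then x else y)
      (fun y z : Fin n => z ≠ y ∧ c s(y, z) = 0) (fun _ => True) ((1 / 2 + δ) * n) (by positivity) (by
        intro y' _
        have h3 := (abs_le.1 (hb y').1).2
        have h2 : (dgm c y' 0 : ℝ) ≤ (1 / 2 + δ) * n := by linarith
        refine le_trans (Nat.cast_le.2 ?_) h2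
        unfold dgm
        exact L13_card_le (fun z hz => hz))
    rw [hRcard] at h1
    have h4 : m + 1 - 2 = m - 1 := by omega
    rw [h4] at h1
    refine le_trans (Nat.cast_le.2 ?_) h1
    rw [hG1]
    exact L13_card_le (fun z hz => hz)
  have hG2card : ∀ e ∈ T.edgeFinset.erase s(u, w), ((G2 e).card : ℝ) ≤ 2 * δ * (n : ℝ) ^ (m - 1) := by
    intro e he
    rw [Finset.mem_erase, SimpleGraph.mem_edgeFinset] at he
    obtain ⟨a, b, rfl, hadj, hub, hwb⟩ := L13_edge_mem T u w e he.2 he.1
    have h1 : G2 s(a, b) ⊆ univ.filter (fun f : Fin (m + 1) → Fin n => f u = x ∧ f w = y ∧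
      f b ≠ f a ∧ c s(f a, f b) ≠ 0 ∧ c s(f a, f b) ≠ 1) := by
      intro f hf
      have hf' := (Finset.mem_filter.1 hf).2
      rw [Sym2.map_mk] at hf'
      rw [Finset.mem_filter]
      refine ⟨Finset.mem_univ _, hf'.1, hf'.2.1, ?_, hf'.2.2.2⟩
      intro h
      exact hadj.ne (hf'.2.2.1 h).symm
    have h2 := L13_edge hm u w a b huw.ne hub hwb hadj.ne x y c δ hδ hb
    refine (Nat.cast_le.2 (Finset.card_le_card h1)).trans (h2.trans (le_of_eq ?_))
    have h3 : (n : ℝ) ^ (m - 1) = (n : ℝ) ^ (m - 2) * n := by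
      rw [← pow_succ]; congr 1; omega
    rw [h3]
    ring
  -- covering
  have hcov : (univ.filter (fun f : Fin (m + 1) → Fin n =>
      Function.Injective f ∧ f u = x ∧ f w = y ∧ SS c T f = 0)) ⊆
      G1 ∪ (T.edgeFinset.erase s(u, w)).biUnion G2 := by
    intro f hf
    rw [Finset.mem_filter] at hf
    obtain ⟨_, hinj, hfu, hfw, hsum⟩ := hf
    rw [Finset.mem_union]
    by_cases hbad : ∃ e ∈ T.edgeFinset.erase s(u, w), c (e.map f) ≠ 0 ∧ c (e.map f) ≠ 1
    · right
      obtain ⟨e, he, h1, h2⟩ := hbad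
      rw [Finset.mem_biUnion]
      refine ⟨e, he, ?_⟩
      exact Finset.mem_filter.2 ⟨Finset.mem_univ _, hfu, hfw, hinj, h1, h2⟩
    · left
      push Not at hbad
      -- all colours are `0` or `1`
      have hSS : ∑ e ∈ T.edgeFinset.erase s(u, w), c (e.map f) = 0 := by
        have h1 : SS c T f = ∑ e ∈ T.edgeFinset, c (e.map f) := rfl
        rw [h1, ← Finset.add_sum_erase _ _ huwE] at hsum
        rw [Sym2.map_mk, hfu, hfw, h0, zero_add] at hsum
        exact hsum
      set O := (T.edgeFinset.erase s(u, w)).filter (fun e => c (e.map f) ≠ 0) with hO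
      have hsum2 : ((O.card : ℕ) : ZMod m) = 0 := by
        rw [← hSS, ← Finset.sum_filter_add_sum_filter_not (T.edgeFinset.erase s(u, w))
          (fun e => c (e.map f) ≠ 0)]
        have h2 : ∑ e ∈ (T.edgeFinset.erase s(u, w)).filter (fun e => ¬ c (e.map f) ≠ 0),
            c (e.map f) = 0 := by
          apply Finset.sum_eq_zero
          intro e he
          rw [Finset.mem_filter] at he
          exact not_not.1 he.2
        rw [h2, add_zero]
        have h3 : ∀ e ∈ (T.edgeFinset.erase s(u, w)).filter (fun e => c (e.map f) ≠ 0),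
            c (e.map f) = 1 := by
          intro e he
          rw [Finset.mem_filter] at he
          exact hbad e he.1 he.2
        rw [Finset.sum_congr rfl h3, Finset.sum_const, nsmul_eq_mul, mul_one]
      have hOcard : O.card < m := by
        have h1 : O.card ≤ (T.edgeFinset.erase s(u, w)).card := Finset.card_filter_le _ _
        rw [Finset.card_erase_of_mem huwE, hcardE] at h1
        omega
      have hO0 : O = ∅ := by
        rw [ZMod.natCast_eq_zero_iff] at hsum2
        rw [← Finset.card_eq_zero]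
        exact Nat.eq_zero_of_dvd_of_lt hsum2 hOcard
      rw [hG1, Finset.mem_filter]
      refine ⟨Finset.mem_univ _, ?_, fun _ _ => trivial, ?_⟩
      · intro v hv
        rw [Finset.mem_insert, Finset.mem_singleton] at hv
        rcases hv with rfl | rfl
        · simp [hfu]
        · simp [hfw, huw.ne.symm]
      · intro a b hadj hbR
        rw [Finset.mem_insert, Finset.mem_singleton, not_or] at hbR
        refine ⟨fun h => hadj.ne (hinj h).symm, ?_⟩
        by_contra hcon
        have he : s(a, b) ∈ O := by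
          rw [hO, Finset.mem_filter, Finset.mem_erase, SimpleGraph.mem_edgeFinset]
          refine ⟨⟨?_, hadj⟩, by rw [Sym2.map_mk]; exact hcon⟩
          intro h
          rw [Sym2.eq_iff] at h
          rcases h with h | h
          · exact hbR.2 h.2
          · exact hbR.1 h.2
        rw [hO0] at he
        exact absurd he (Finset.notMem_empty _)
  have hfin : (cnte c T u w x y : ℝ) ≤ G1.card + ∑ e ∈ T.edgeFinset.erase s(u, w), ((G2 e).card : ℝ) := by
    have h1 : cnte c T u w x y ≤ G1.card + ∑ e ∈ T.edgeFinset.erase s(u, w), (G2 e).card := by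
      unfold cnte
      refine (Finset.card_le_card hcov).trans ((Finset.card_union_le _ _).trans ?_)
      exact Nat.add_le_add_left Finset.card_biUnion_le _
    exact_mod_cast h1
  have hsumG2 : ∑ e ∈ T.edgeFinset.erase s(u, w), ((G2 e).card : ℝ) ≤
      2 * m * δ * (n : ℝ) ^ (m - 1) := by
    refine (Finset.sum_le_sum hG2card).trans ?_
    rw [Finset.sum_const, nsmul_eq_mul, Finset.card_erase_of_mem huwE, hcardE]
    have h1 : ((m - 1 : ℕ) : ℝ) ≤ m := by exact_mod_cast Nat.sub_le m 1
    have h2 : 0 ≤ 2 * δ * (n : ℝ) ^ (m - 1) := by positivity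
    calc ((m - 1 : ℕ) : ℝ) * (2 * δ * (n : ℝ) ^ (m - 1)) ≤ m * (2 * δ * (n : ℝ) ^ (m - 1)) :=
          mul_le_mul_of_nonneg_right h1 h2
      _ = 2 * m * δ * (n : ℝ) ^ (m - 1) := by ring
  rw [mul_pow] at hG1card
  linarith

end Pool.Agent.MP5g
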