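import Mathlib
import Pool.Agent.MP_5f2667_co.L.L07b

set_option autoImplicit false

open Finset

/-
Proof. Colour a = c s(x,y) not in {0,1}: for every set S of j = (-a).val = m - a.val in [1,m-2] of the m-1 edges other than uw (S = edges of colour 1): grow_ge with R = {u,w}, P = True, L = (1/2-2 delta) n, K e y z := z != y and c s(y,z) = (if e in S then 1 else 0)
(dgm >= (1/2-delta) n >= L + m+1 since delta n >= m+1). Number of S: C(m-1,j) >= m-1. The colour sum is a + j = 0. Different S give disjoint sets of maps f (0 is not 1 in ZMod m).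
-/

namespace Pool.Agent.MP5g

theorem L14_choose (N : ℕ) : ∀ j, 1 ≤ j → j + 1 ≤ N → N ≤ N.choose j := by
  induction N with
  | zero => intro j h1 h2; omega
  | succ N ih =>
    intro j h1 h2
    obtain ⟨i, rfl⟩ : ∃ i, j = i + 1 := ⟨j - 1, by omega⟩
    rw [Nat.choose_succ_succ']
    by_cases h : i + 1 + 1 ≤ N
    · have h3 := ih (i + 1) (by omega) h
      have h4 : 0 < N.choose i := Nat.choose_pos (by omega)
      omega
    · have h5 : i + 1 = N := by omega
      rw [h5, Nat.choose_self]
      have h6 : N.choose i = N := by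
        rw [← h5, Nat.choose_succ_self_right]
      omega

theorem L14_card_le {α : Type*} [Fintype α] {p q : α → Prop} {hp : DecidablePred p}
    {hq : DecidablePred q} (h : ∀ x, p x → q x) :
    (@Finset.filter α p hp univ).card ≤ (@Finset.filter α q hq univ).card := by
  apply Finset.card_le_card
  intro x hx
  rw [Finset.mem_filter] at hx ⊢
  exact ⟨hx.1, h x hx.2⟩

theorem L14_sub {α : Type*} [Fintype α] {p : α → Prop} {hp : DecidablePred p} {B : Finset α}
    (h : ∀ x, p x → x ∈ B) : (@Finset.filter α p hp univ).card ≤ B.card := by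
  apply Finset.card_le_card
  intro x hx
  rw [Finset.mem_filter] at hx
  exact h x hx.2

open Classical in
/-- the maps with the colour 1 exactly on the edges in `S` (colour 0 on the other edges, apart from `uw`) -/
noncomputable def L14_F {m n : ℕ} (T : SimpleGraph (Fin (m + 1))) (u w : Fin (m + 1)) (x y : Fin n)
    (c : Sym2 (Fin n) → ZMod m) (S : Finset (Sym2 (Fin (m + 1)))) :
    Finset (Fin (m + 1) → Fin n) :=
  univ.filter (fun f => Function.Injective f ∧ f u = x ∧ f w = y ∧
    ∀ e ∈ T.edgeFinset.erase s(u, w), c (e.map f) = if e ∈ S then 1 else 0)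

theorem L14_mem {m n : ℕ} {T : SimpleGraph (Fin (m + 1))} {u w : Fin (m + 1)} {x y : Fin n}
    {c : Sym2 (Fin n) → ZMod m} {S : Finset (Sym2 (Fin (m + 1)))} {f : Fin (m + 1) → Fin n} :
    f ∈ L14_F T u w x y c S ↔ Function.Injective f ∧ f u = x ∧ f w = y ∧
      ∀ e : Sym2 (Fin (m + 1)), e ∈ T.edgeSet → e ≠ s(u, w) →
        (e ∈ S → c (e.map f) = 1) ∧ (e ∉ S → c (e.map f) = 0) := by
  classical
  unfold L14_F
  rw [Finset.mem_filter]
  simp only [Finset.mem_univ, true_and]
  constructor
  · rintro ⟨h1, h2, h3, h4⟩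
    refine ⟨h1, h2, h3, fun e he hne => ?_⟩
    have h5 := h4 e (Finset.mem_erase.2 ⟨hne, SimpleGraph.mem_edgeFinset.2 he⟩)
    constructor
    · intro h; rw [h5, if_pos h]
    · intro h; rw [h5, if_neg h]
  · rintro ⟨h1, h2, h3, h4⟩
    refine ⟨h1, h2, h3, fun e he => ?_⟩
    rw [Finset.mem_erase, SimpleGraph.mem_edgeFinset] at he
    have h5 := h4 e he.2 he.1
    by_cases h : e ∈ S
    · rw [if_pos h]; exact h5.1 h
    · rw [if_neg h]; exact h5.2 h

theorem L14_card {m n : ℕ} (T : SimpleGraph (Fin (m + 1))) (hT : T ∈ TT m) (u w : Fin (m + 1))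
    (huw : T.Adj u w) (x y : Fin n) (hxy : x ≠ y) (c : Sym2 (Fin n) → ZMod m) (δ : ℝ)
    (hδ' : δ ≤ 1 / 4) (hn : (m : ℝ) + 1 ≤ δ * n) (hb : ∀ z, Bal c δ z)
    (S : Finset (Sym2 (Fin (m + 1)))) :
    ((1 / 2 - 2 * δ) * (n : ℝ)) ^ (m - 1) ≤ ((L14_F T u w x y c S).card : ℝ) := by
  classical
  have hconn : (T.induce (({u, w} : Finset (Fin (m + 1))) : Set (Fin (m + 1)))).Connected := by
    rw [Finset.coe_pair]
    exact SimpleGraph.induce_pair_connected_of_adj huw
  have hL : 0 ≤ (1 / 2 - 2 * δ) * (n : ℝ) := mul_nonneg (by linarith) (Nat.cast_nonneg n)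
  have h1 := grow_ge T hT {u, w} ⟨u, by simp⟩ hconn (fun v => if v = u then x else y) (by
      intro a ha b hb' hab
      rw [Finset.mem_insert, Finset.mem_singleton] at ha hb'
      have hwu : w ≠ u := huw.ne.symm
      rcases ha with rfl | rfl <;> rcases hb' with rfl | rfl
      · rfl
      · exfalso
        simp only [if_true, if_neg hwu] at hab
        exact hxy hab
      · exfalso
        simp only [if_true, if_neg hwu] at hab
        exact hxy hab.symm
      · rfl) (fun _ => True)
    (fun e y z => z ≠ y ∧ c s(y, z) = if e ∈ S then 1 else 0) (by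
      rintro e y z ⟨h1, h2⟩
      exact ⟨h1.symm, by rw [Sym2.eq_swap]; exact h2⟩) ((1 / 2 - 2 * δ) * (n : ℝ)) hL (by
      intro e y' _
      have h3 := (abs_le.1 (hb y').1).1
      have h4 := (abs_le.1 (hb y').2).1
      by_cases he : e ∈ S
      · have h5 : (1 / 2 - 2 * δ) * (n : ℝ) + (m + 1) ≤ dgm c y' 1 := by linarith
        refine h5.trans (Nat.cast_le.2 ?_)
        unfold dgm
        refine L14_card_le (fun z hz => ⟨⟨hz.1, ?_⟩, trivial⟩)
        rw [if_pos he]; exact hz.2
      · have h5 : (1 / 2 - 2 * δ) * (n : ℝ) + (m + 1) ≤ dgm c y' 0 := by linarith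
        refine h5.trans (Nat.cast_le.2 ?_)
        unfold dgm
        refine L14_card_le (fun z hz => ⟨⟨hz.1, ?_⟩, trivial⟩)
        rw [if_neg he]; exact hz.2)
  have hRcard : ({u, w} : Finset (Fin (m + 1))).card = 2 := Finset.card_pair huw.ne
  have h4 : m + 1 - 2 = m - 1 := by omega
  rw [hRcard, h4] at h1
  refine h1.trans (Nat.cast_le.2 ?_)
  refine L14_sub (fun f hf => ?_)
  obtain ⟨hinj, hR, _, hK⟩ := hf
  rw [L14_mem]
  have hfu : f u = x := by
    have := hR u (by simp)
    simpa using this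
  have hfw : f w = y := by
    have := hR w (by simp)
    simpa [huw.ne.symm] using this
  refine ⟨hinj, hfu, hfw, ?_⟩
  intro e he hne
  -- choose an orientation with the second vertex outside of `{u, w}`
  have key : ∀ a b, e = s(a, b) → T.Adj a b → b ∉ ({u, w} : Finset (Fin (m + 1))) →
      (e ∈ S → c (e.map f) = 1) ∧ (e ∉ S → c (e.map f) = 0) := by
    intro a b heab hadj hbR
    have h5 := (hK a b hadj hbR).2
    rw [heab, Sym2.map_mk]
    constructor
    · intro h; rw [h5, if_pos h]
    · intro h; rw [h5, if_neg h]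
  induction e using Sym2.ind with
  | _ a b =>
    have hadj : T.Adj a b := he
    by_cases hbR : b ∉ ({u, w} : Finset (Fin (m + 1)))
    · exact key a b rfl hadj hbR
    · apply key b a Sym2.eq_swap hadj.symm
      rw [not_not, Finset.mem_insert, Finset.mem_singleton] at hbR
      rw [Finset.mem_insert, Finset.mem_singleton, not_or]
      constructor
      · rintro rfl
        rcases hbR with rfl | rfl
        · exact hadj.ne rfl
        · exact hne rfl
      · rintro rfl
        rcases hbR with rfl | rfl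
        · exact hne Sym2.eq_swap
        · exact hadj.ne rfl

theorem cnte_ge {m n : ℕ} (hm : 4 ≤ m) (T : SimpleGraph (Fin (m + 1))) (hT : T ∈ TT m) (u w : Fin (m + 1))
    (huw : T.Adj u w) (x y : Fin n) (hxy : x ≠ y) (c : Sym2 (Fin n) → ZMod m) (δ : ℝ) (hδ : 0 ≤ δ)
    (hδ' : δ ≤ 1 / 4) (hn : (m : ℝ) + 1 ≤ δ * n)
    (hb : ∀ z, Bal c δ z) (h0 : c s(x, y) ≠ 0) (h1 : c s(x, y) ≠ 1) :
    ((m : ℝ) - 1) * ((1 / 2 - 2 * δ) * (n : ℝ)) ^ (m - 1) ≤ (cnte c T u w x y : ℝ) := by
  classical
  have hNZ : NeZero m := ⟨by omega⟩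
  have hF : Fact (1 < m) := ⟨by omega⟩
  have hTree : T.IsTree := by
    unfold TT at hT
    exact (Finset.mem_filter.1 hT).2
  have hcardE : T.edgeFinset.card = m := by
    have h1 := hTree.card_edgeFinset
    rw [Fintype.card_fin] at h1
    omega
  have huwE : s(u, w) ∈ T.edgeFinset := SimpleGraph.mem_edgeFinset.2 huw
  set E' := T.edgeFinset.erase s(u, w) with hE'
  have hE'card : E'.card = m - 1 := by rw [hE', Finset.card_erase_of_mem huwE, hcardE]
  set j := (-c s(x, y)).val with hj
  have hj1 : 1 ≤ j := by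
    rw [Nat.one_le_iff_ne_zero, hj]
    intro h
    rw [ZMod.val_eq_zero, neg_eq_zero] at h
    exact h0 h
  have hjm : j < m := ZMod.val_lt _
  have hjcast : ((j : ℕ) : ZMod m) = -c s(x, y) := by
    rw [hj]; exact ZMod.natCast_zmod_val _
  have hj2 : j + 1 ≤ m - 1 := by
    by_contra hcon
    have hjeq : j = m - 1 := by omega
    apply h1
    have h2 : ((j : ℕ) : ZMod m) + 1 = 0 := by
      have h3 : ((j + 1 : ℕ) : ZMod m) = ((m : ℕ) : ZMod m) := by
        congr 1
        omega
      push_cast at h3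
      rw [h3, CharP.cast_eq_zero]
    rw [hjcast] at h2
    have h4 : c s(x, y) = 1 := by linear_combination -h2
    exact h4
  have hchoose : m - 1 ≤ (m - 1).choose j := L14_choose (m - 1) j hj1 hj2
  -- the union over the sets `S`
  have hdisj : ∀ S ∈ Finset.powersetCard j E', ∀ S' ∈ Finset.powersetCard j E', S ≠ S' →
      Disjoint (L14_F T u w x y c S) (L14_F T u w x y c S') := by
    intro S hS S' hS' hne
    rw [Finset.mem_powersetCard] at hS hS'
    rw [Finset.disjoint_left]
    intro f hf hf'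
    rw [L14_mem] at hf hf'
    have hsub : S ⊆ S' := by
      intro e he
      by_contra hcon
      have he' := hS.1 he
      rw [hE', Finset.mem_erase, SimpleGraph.mem_edgeFinset] at he'
      have h3 := (hf.2.2.2 e he'.2 he'.1).1 he
      have h4 := (hf'.2.2.2 e he'.2 he'.1).2 hcon
      rw [h3] at h4
      exact one_ne_zero h4
    exact hne (Finset.eq_of_subset_of_card_le hsub (by rw [hS.2, hS'.2]))
  have hsubset : (Finset.powersetCard j E').biUnion (L14_F T u w x y c) ⊆
      univ.filter (fun f : Fin (m + 1) → Fin n =>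
        Function.Injective f ∧ f u = x ∧ f w = y ∧ SS c T f = 0) := by
    intro f hf
    rw [Finset.mem_biUnion] at hf
    obtain ⟨S, hS, hf⟩ := hf
    rw [Finset.mem_powersetCard] at hS
    rw [L14_mem] at hf
    rw [Finset.mem_filter]
    refine ⟨Finset.mem_univ _, hf.1, hf.2.1, hf.2.2.1, ?_⟩
    have h2 : SS c T f = ∑ e ∈ T.edgeFinset, c (e.map f) := rfl
    rw [h2, ← Finset.add_sum_erase _ _ huwE, Sym2.map_mk, hf.2.1, hf.2.2.1]
    have h3 : ∑ e ∈ T.edgeFinset.erase s(u, w), c (e.map f) = ∑ e ∈ E', if e ∈ S then 1 else 0 := by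
      apply Finset.sum_congr rfl
      intro e he
      rw [Finset.mem_erase, SimpleGraph.mem_edgeFinset] at he
      have h4 := hf.2.2.2 e he.2 he.1
      by_cases h : e ∈ S
      · rw [if_pos h]; exact h4.1 h
      · rw [if_neg h]; exact h4.2 h
    rw [h3, Finset.sum_ite_mem, Finset.inter_eq_right.2 hS.1, Finset.sum_const, hS.2, nsmul_eq_mul,
      mul_one, hjcast]
    ring
  have hcard : (((Finset.powersetCard j E').biUnion (L14_F T u w x y c)).card : ℝ) ≤
      (cnte c T u w x y : ℝ) := by
    apply Nat.cast_le.2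
    unfold cnte
    exact (Finset.card_le_card hsubset).trans (L14_card_le (fun f hf => hf))
  refine le_trans ?_ hcard
  rw [Finset.card_biUnion hdisj]
  push_cast
  have hL : 0 ≤ ((1 / 2 - 2 * δ) * (n : ℝ)) ^ (m - 1) := by
    apply pow_nonneg
    exact mul_nonneg (by linarith) (Nat.cast_nonneg n)
  calc ((m : ℝ) - 1) * ((1 / 2 - 2 * δ) * (n : ℝ)) ^ (m - 1)
      ≤ ((m - 1).choose j : ℝ) * ((1 / 2 - 2 * δ) * (n : ℝ)) ^ (m - 1) := by
        apply mul_le_mul_of_nonneg_right _ hL
        have h2 : ((m - 1 : ℕ) : ℝ) ≤ ((m - 1).choose j : ℝ) := by exact_mod_cast hchoose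
        rw [Nat.cast_sub (by omega)] at h2
        push_cast at h2
        exact h2
    _ = ∑ _S ∈ Finset.powersetCard j E', ((1 / 2 - 2 * δ) * (n : ℝ)) ^ (m - 1) := by
        rw [Finset.sum_const, Finset.card_powersetCard, hE'card, nsmul_eq_mul]
    _ ≤ ∑ S ∈ Finset.powersetCard j E', ((L14_F T u w x y c S).card : ℝ) :=
        Finset.sum_le_sum (fun S _ => L14_card T hT u w huw x y hxy c δ hδ' hn hb S)

end Pool.Agent.MP5g
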