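import Mathlib
import Pool.Agent.MP_5f2667_co.L.L04
import Pool.Agent.MP_5f2667_co.L.L13
import Pool.Agent.MP_5f2667_co.L.L14

set_option autoImplicit false

open Finset

/-
Proof. tot_edge, cnte_le for c', cnte_ge for c, summed over T and adjacent ordered pairs (same index set): (1/2+d)^(m-1)+2md <= (m-1)(1/2-2d)^(m-1) for small d since m-1 >= 3 > 1.
-/

namespace Pool.Agent.MP5g

theorem L15_delta (m : ℕ) (hm : 4 ≤ m) : ∃ δ > (0 : ℝ), δ ≤ 1 / 4 ∧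
    (1 / 2 + δ) ^ (m - 1) + 2 * m * δ ≤ ((m : ℝ) - 1) * (1 / 2 - 2 * δ) ^ (m - 1) := by
  have hm' : (4 : ℝ) ≤ m := by exact_mod_cast hm
  have hcont : Continuous fun δ : ℝ => ((m : ℝ) - 1) * (1 / 2 - 2 * δ) ^ (m - 1) -
      ((1 / 2 + δ) ^ (m - 1) + 2 * m * δ) := by fun_prop
  have h0 : (0 : ℝ) < (fun δ : ℝ => ((m : ℝ) - 1) * (1 / 2 - 2 * δ) ^ (m - 1) -
      ((1 / 2 + δ) ^ (m - 1) + 2 * m * δ)) 0 := by
    have hp : (0 : ℝ) < (1 / 2) ^ (m - 1) := by positivity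
    simp only [mul_zero, sub_zero, add_zero]
    nlinarith
  have h1 : ∀ᶠ δ in nhdsWithin (0 : ℝ) (Set.Ioi 0), (0 : ℝ) < ((m : ℝ) - 1) * (1 / 2 - 2 * δ) ^ (m - 1) -
      ((1 / 2 + δ) ^ (m - 1) + 2 * m * δ) :=
    (hcont.continuousAt.eventually (lt_mem_nhds h0)).filter_mono nhdsWithin_le_nhds
  have h2 : ∀ᶠ δ in nhdsWithin (0 : ℝ) (Set.Ioi 0), δ ∈ Set.Ioc (0 : ℝ) (1 / 4) :=
    Ioc_mem_nhdsGT (by norm_num)
  obtain ⟨δ, hδ1, hδ2⟩ := (h1.and h2).exists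
  exact ⟨δ, hδ2.1, hδ2.2, by linarith⟩

theorem edge_lemma (m : ℕ) (hm : 4 ≤ m) : ∃ δ > (0 : ℝ), ∃ n0 : ℕ, ∀ n ≥ n0,
    ∀ (c c' : Sym2 (Fin n) → ZMod m) (x y : Fin n), x ≠ y → (∀ z, Bal c δ z) → (∀ z, Bal c' δ z) →
    c s(x, y) ≠ 0 → c s(x, y) ≠ 1 → (∀ e, e ≠ s(x, y) → c e = c' e) → c' s(x, y) = 0 →
    tot c' ≤ tot c := by
  obtain ⟨δ, hδ0, hδ4, hδ⟩ := L15_delta m hm
  obtain ⟨n0, hn0⟩ := exists_nat_ge (((m : ℝ) + 1) / δ)
  refine ⟨δ, hδ0, n0, fun n hn c c' x y hxy hb hb' h0 h1 he h' => ?_⟩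
  have hn' : (m : ℝ) + 1 ≤ δ * n := by
    have : ((m : ℝ) + 1) / δ ≤ n := hn0.trans (by exact_mod_cast hn)
    rw [div_le_iff₀ hδ0] at this
    linarith
  have key := tot_edge c c' x y hxy he
  have hle : tote c' x y ≤ tote c x y := by
    unfold tote
    refine Finset.sum_le_sum fun T hT => Finset.sum_le_sum fun u _ => Finset.sum_le_sum fun w _ => ?_
    split_ifs with huw
    · have a1 := cnte_le (by omega) T hT u w huw x y hxy c' δ hδ0.le hb' h'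
      have a2 := cnte_ge hm T hT u w huw x y hxy c δ hδ0.le hδ4 hn' hb h0 h1
      have a3 : ((1 / 2 + δ) ^ (m - 1) + 2 * m * δ) * (n : ℝ) ^ (m - 1) ≤
          ((m : ℝ) - 1) * ((1 / 2 - 2 * δ) * (n : ℝ)) ^ (m - 1) := by
        rw [mul_pow, ← mul_assoc]
        exact mul_le_mul_of_nonneg_right hδ (by positivity)
      exact_mod_cast a1.trans (a3.trans a2)
    · exact le_rfl
  omega

end Pool.Agent.MP5g
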