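import Mathlib
import Pool.Agent.MP_5f2667_co.L.L15

set_option autoImplicit false

open Finset

/-
Proof. delta1 from edge_lemma, delta = delta1/4. Recolour the non-loop edges with a colour not in {0,1} to 0 one after the other (induction on a finset of edges). Every vertex has at most n-1-dgm0-dgm1 <= 2 delta n such edges, so dgm(.,0) increases by at most 2 delta n and dgm(.,1) is unchanged: all colourings on the way satisfy Bal (3 delta) <= delta1.
(In fact dgm(.,0) <= n - dgm(.,1) <= n/2 + delta n, so Bal delta itself is preserved.)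
-/

namespace Pool.Agent.MP5g

open Classical in
/-- recolour the edges in `S` to `0` -/
noncomputable def L16_rc {m n : ℕ} (c : Sym2 (Fin n) → ZMod m) (S : Finset (Sym2 (Fin n))) :
    Sym2 (Fin n) → ZMod m := fun e => if e ∈ S then 0 else c e

theorem L16_add {m n : ℕ} (hm : 4 ≤ m) (c : Sym2 (Fin n) → ZMod m) (z : Fin n) :
    dgm c z 0 + dgm c z 1 ≤ n := by
  have : Fact (1 < m) := ⟨by omega⟩
  unfold dgm
  rw [← Finset.card_union_of_disjoint]
  · calc _ ≤ (univ : Finset (Fin n)).card := Finset.card_le_card (Finset.subset_univ _)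
      _ = n := by simp
  · rw [Finset.disjoint_left]
    intro y h0 h1
    rw [mem_filter] at h0 h1
    exact zero_ne_one (h0.2.2.symm.trans h1.2.2)

theorem L16_bal {m n : ℕ} (hm : 4 ≤ m) (c : Sym2 (Fin n) → ZMod m) (S : Finset (Sym2 (Fin n)))
    (hS : ∀ e ∈ S, c e ≠ 0 ∧ c e ≠ 1) (δ : ℝ) (z : Fin n) (h : Bal c δ z) :
    Bal (L16_rc c S) δ z := by
  have : Fact (1 < m) := ⟨by omega⟩
  have h1 : dgm (L16_rc c S) z 1 = dgm c z 1 := by
    unfold dgm
    congr 1
    ext y
    rw [mem_filter, mem_filter]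
    apply and_congr_right
    intro _
    apply and_congr_right
    intro _
    unfold L16_rc
    by_cases hy : s(z, y) ∈ S
    · rw [if_pos hy]
      exact ⟨fun h => absurd h zero_ne_one, fun h => absurd h (hS _ hy).2⟩
    · rw [if_neg hy]
  have h0 : dgm c z 0 ≤ dgm (L16_rc c S) z 0 := by
    unfold dgm
    apply Finset.card_le_card
    intro y hy
    rw [mem_filter] at hy ⊢
    refine ⟨mem_univ _, hy.2.1, ?_⟩
    unfold L16_rc
    rw [hy.2.2, ite_self]
  have h2 := L16_add hm (L16_rc c S) z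
  rw [h1] at h2
  have h0' : (dgm c z 0 : ℝ) ≤ dgm (L16_rc c S) z 0 := by exact_mod_cast h0
  have h2' : (dgm (L16_rc c S) z 0 : ℝ) + dgm c z 1 ≤ n := by exact_mod_cast h2
  obtain ⟨ha, hb⟩ := h
  have hb' := hb
  rw [abs_le] at ha hb'
  refine ⟨?_, ?_⟩
  · rw [abs_le]
    constructor <;> linarith
  · rw [h1]
    exact hb

theorem purify (m : ℕ) (hm : 4 ≤ m) : ∃ δ > (0 : ℝ), ∃ n0 : ℕ, ∀ n ≥ n0,
    ∀ c : Sym2 (Fin n) → ZMod m, (∀ z, Bal c δ z) →
    ∃ c' : Sym2 (Fin n) → ZMod m, (∀ x y, x ≠ y → c' s(x, y) = 0 ∨ c' s(x, y) = 1) ∧ tot c' ≤ tot c := by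
  classical
  obtain ⟨δ, hδ, n0, H⟩ := edge_lemma m hm
  refine ⟨δ, hδ, n0, ?_⟩
  intro n hn c hc
  have key : ∀ S : Finset (Sym2 (Fin n)), (∀ e ∈ S, ¬ e.IsDiag ∧ c e ≠ 0 ∧ c e ≠ 1) →
      tot (L16_rc c S) ≤ tot c := by
    intro S
    induction S using Finset.induction_on with
    | empty =>
      intro _
      have : L16_rc c ∅ = c := by
        funext e
        simp [L16_rc]
      rw [this]
    | insert e S he ih =>
      intro hS
      have hS' : ∀ e ∈ S, ¬ e.IsDiag ∧ c e ≠ 0 ∧ c e ≠ 1 :=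
        fun f hf => hS f (Finset.mem_insert_of_mem hf)
      refine le_trans ?_ (ih hS')
      have hh := hS e (Finset.mem_insert_self e S)
      have hb1 : ∀ z, Bal (L16_rc c S) δ z := fun z =>
        L16_bal hm c S (fun f hf => (hS' f hf).2) δ z (hc z)
      have hb2 : ∀ z, Bal (L16_rc c (insert e S)) δ z := fun z =>
        L16_bal hm c (insert e S) (fun f hf => (hS f hf).2) δ z (hc z)
      have hval : L16_rc c S e = c e := by
        unfold L16_rc
        rw [if_neg he]
      have hval' : L16_rc c (insert e S) e = 0 := by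
        unfold L16_rc
        rw [if_pos (Finset.mem_insert_self e S)]
      have hoff : ∀ f, f ≠ e → L16_rc c S f = L16_rc c (insert e S) f := by
        intro f hf
        unfold L16_rc
        by_cases hfS : f ∈ S
        · rw [if_pos hfS, if_pos (Finset.mem_insert_of_mem hfS)]
        · rw [if_neg hfS, if_neg (fun h => (Finset.mem_insert.mp h).elim hf hfS)]
      clear ih hS hS'
      induction e using Sym2.ind with
      | _ x y =>
        have hxy : x ≠ y := by
          intro h
          exact hh.1 (by rw [h]; exact Sym2.mk_isDiag_iff.mpr rfl)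
        exact H n hn (L16_rc c S) (L16_rc c (insert s(x, y) S)) x y hxy hb1 hb2
          (by rw [hval]; exact hh.2.1) (by rw [hval]; exact hh.2.2) hoff hval'
  refine ⟨L16_rc c (univ.filter (fun e => ¬ e.IsDiag ∧ c e ≠ 0 ∧ c e ≠ 1)), ?_, ?_⟩
  · intro x y hxy
    unfold L16_rc
    by_cases h : s(x, y) ∈ univ.filter (fun e => ¬ e.IsDiag ∧ c e ≠ 0 ∧ c e ≠ 1)
    · rw [if_pos h]
      exact Or.inl rfl
    · rw [if_neg h]
      rw [mem_filter] at h
      have hd : ¬ (s(x, y)).IsDiag := fun hd => hxy (Sym2.mk_isDiag_iff.mp hd)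
      by_contra hcon
      rw [not_or] at hcon
      exact h ⟨mem_univ _, hd, hcon⟩
  · apply key
    intro e he
    exact (mem_filter.mp he).2

end Pool.Agent.MP5g
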