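import Mathlib
import Pool.Agent.MP_5f2667_co.L.L01
import Pool.Agent.MP_5f2667_co.L.L02
import Pool.Agent.MP_5f2667_co.L.L12
import Pool.Agent.MP_5f2667_co.L.L16

set_option autoImplicit false

open Finset

/-
Proof. delta from purify, eta from cleaning delta. c -> c1 (Bal delta everywhere) -> c2 (colours 0/1 off the diagonal), tot c2 <= tot c1 <= tot c. Let c3 e = if c2 e = 1 then 1 else 0 : Fin 2. lft m c3 agrees with c2 off the loops (0 and 1 are different in ZMod m),
and tot only sees non-loop edges. So (m+1)! mom m c3 = (m+1)! zsm m (lft m c3) = tot (lft m c3) = tot c2 <= tot c = (m+1)! zsm m c; ciInf_le (Nat).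
-/

namespace Pool.Agent.MP5g

open Classical in
theorem L17_SS {m n : ℕ} (hm : 4 ≤ m) {c : Sym2 (Fin n) → ZMod m}
    (h01 : ∀ x y, x ≠ y → c s(x, y) = 0 ∨ c s(x, y) = 1) (T : SimpleGraph (Fin (m + 1)))
    {f : Fin (m + 1) → Fin n} (hf : Function.Injective f) :
    SS (lft m fun e => if c e = 1 then 1 else 0) T f = SS c T f := by
  have : Fact (1 < m) := ⟨by omega⟩
  unfold SS
  apply Finset.sum_congr rfl
  intro e he
  induction e using Sym2.ind with
  | _ u w =>
    have hadj : T.Adj u w := by simpa using he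
    have hne : f u ≠ f w := fun h => hadj.ne (hf h)
    have h := h01 (f u) (f w) hne
    rw [Sym2.map_mk]
    unfold lft
    show (((if c s(f u, f w) = 1 then (1 : Fin 2) else 0 : Fin 2) : ℕ) : ZMod m) = c s(f u, f w)
    rcases h with h | h
    · rw [h, if_neg (by exact zero_ne_one)]
      simp
    · rw [h, if_pos rfl]
      simp

open Classical in
theorem L17_tot {m n : ℕ} (hm : 4 ≤ m) {c : Sym2 (Fin n) → ZMod m}
    (h01 : ∀ x y, x ≠ y → c s(x, y) = 0 ∨ c s(x, y) = 1) :
    tot (lft m fun e => if c e = 1 then 1 else 0) = tot c := by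
  unfold tot
  apply Finset.sum_congr rfl
  intro T _
  unfold cnt
  congr 1
  ext f
  simp only [Finset.mem_filter, Finset.mem_univ, true_and]
  constructor
  · rintro ⟨h1, h2⟩
    exact ⟨h1, by rw [← L17_SS hm h01 T h1]; exact h2⟩
  · rintro ⟨h1, h2⟩
    exact ⟨h1, by rw [L17_SS hm h01 T h1]; exact h2⟩

open Classical in
theorem local_bal (m : ℕ) (hm : 4 ≤ m) : ∃ η > (0 : ℝ), ∃ n0 : ℕ, ∀ n ≥ n0,
    ∀ c : Sym2 (Fin n) → ZMod m, ((univ.filter (fun x => ¬ Bal c η x)).card : ℝ) ≤ η * n →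
    (⨅ c' : Sym2 (Fin n) → Fin 2, mom m c') ≤ zsm m c := by
  obtain ⟨δ, hδ, n1, hpur⟩ := purify m hm
  obtain ⟨η, hη, n2, hcl⟩ := cleaning m hm δ hδ
  refine ⟨η, hη, max n1 n2, fun n hn c hc => ?_⟩
  obtain ⟨c1, hb, h1⟩ := hcl n (le_trans (le_max_right _ _) hn) c hc
  obtain ⟨c2, h01, h2⟩ := hpur n (le_trans (le_max_left _ _) hn) c1 hb
  have h3 : (⨅ c' : Sym2 (Fin n) → Fin 2, mom m c') ≤ mom m (fun e => if c2 e = 1 then 1 else 0) :=
    ciInf_le (OrderBot.bddBelow _) _
  refine le_trans h3 ?_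
  rw [mom_eq (by omega)]
  have h4 := tot_eq (m := m) (by omega) (lft m fun e => if c2 e = 1 then 1 else 0)
  have h5 := tot_eq (m := m) (by omega) c
  rw [L17_tot hm h01] at h4
  have h6 : (m + 1).factorial * zsm m (lft m fun e => if c2 e = 1 then 1 else 0)
      ≤ (m + 1).factorial * zsm m c := by
    rw [h4, h5]
    exact h2.trans h1
  exact Nat.le_of_mul_le_mul_left h6 (Nat.factorial_pos _)

end Pool.Agent.MP5g
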