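import Mathlib
import Pool.Agent.MP_5f2667_co.L.L17
import Pool.Agent.MP_5f2667_co.L.L03
import Pool.Agent.MP_5f2667_co.L.L06
import Pool.Agent.MP_5f2667_co.L.F08

set_option autoImplicit false

open Finset

/-
Proof. Suppose zsm 4 c < inf mom. By tot_eq and mom_le: tot c = 120 zsm <= 120 inf mom <= 125/8 n^5 (16 * 120 * inf <= 2 * 125 * n^5, card_TT_four). eta from local_bal 4, stability (eta/2) gives a, b. b - a is 1 or 3, a unit; u = its inverse, c' e = u * c e + (-(u*a)): colours a -> 0, b -> 1.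
dgm c' x 0 = number of y != x with c s(x,y) = a, so |dgm c' x 0 - n mu_a| <= 1 <= eta/2 n. So all but eta n vertices are Bal c' eta; local_bal: inf mom <= zsm c' = zsm c. Contradiction. The other inequality: mom_eq: for every 2-colouring, inf zsm <= zsm (lft) = mom.
-/

namespace Pool.Agent.MP5g

theorem F09_dgm {n : ℕ} (c c' : Sym2 (Fin n) → ZMod 4) (x : Fin n) (a k : ZMod 4)
    (h : ∀ e, c' e = k ↔ c e = a) (hn : 0 < n) :
    (dgm c' x k : ℝ) ≤ n * mu c x a ∧ n * mu c x a ≤ dgm c' x k + 1 := by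
  have hn' : (0 : ℝ) < n := by exact_mod_cast hn
  have h1 : (n : ℝ) * mu c x a = ((univ.filter (fun y : Fin n => c s(x, y) = a)).card : ℝ) := by
    unfold mu
    field_simp
  rw [h1]
  constructor
  · norm_cast
    unfold dgm
    apply Finset.card_le_card
    intro y hy
    rw [mem_filter] at hy ⊢
    exact ⟨mem_univ _, (h _).mp hy.2.2⟩
  · norm_cast
    unfold dgm
    calc (univ.filter (fun y : Fin n => c s(x, y) = a)).card
        ≤ (insert x (univ.filter (fun y : Fin n => y ≠ x ∧ c' s(x, y) = k))).card := by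
          apply Finset.card_le_card
          intro y hy
          rw [mem_filter] at hy
          by_cases hyx : y = x
          · rw [hyx]
            exact Finset.mem_insert_self _ _
          · exact Finset.mem_insert_of_mem (mem_filter.mpr ⟨mem_univ _, hyx, (h _).mpr hy.2⟩)
      _ ≤ _ := Finset.card_insert_le _ _

theorem F09_bal {n : ℕ} (c c' : Sym2 (Fin n) → ZMod 4) (x : Fin n) (a b : ZMod 4) (η : ℝ)
    (h0 : ∀ e, c' e = 0 ↔ c e = a) (h1 : ∀ e, c' e = 1 ↔ c e = b) (hn : 0 < n)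
    (hη : 2 ≤ η * n) (ha : |mu c x a - 1 / 2| ≤ η / 2) (hb : |mu c x b - 1 / 2| ≤ η / 2) :
    Bal c' η x := by
  have hn' : (0 : ℝ) < n := by exact_mod_cast hn
  obtain ⟨p1, p2⟩ := F09_dgm c c' x a 0 h0 hn
  obtain ⟨q1, q2⟩ := F09_dgm c c' x b 1 h1 hn
  rw [abs_le] at ha hb
  have e1 : (n : ℝ) * (-(η / 2)) ≤ n * (mu c x a - 1 / 2) := mul_le_mul_of_nonneg_left ha.1 hn'.le
  have e2 : (n : ℝ) * (mu c x a - 1 / 2) ≤ n * (η / 2) := mul_le_mul_of_nonneg_left ha.2 hn'.le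
  have e3 : (n : ℝ) * (-(η / 2)) ≤ n * (mu c x b - 1 / 2) := mul_le_mul_of_nonneg_left hb.1 hn'.le
  have e4 : (n : ℝ) * (mu c x b - 1 / 2) ≤ n * (η / 2) := mul_le_mul_of_nonneg_left hb.2 hn'.le
  refine ⟨?_, ?_⟩
  · rw [abs_le]
    constructor <;> nlinarith
  · rw [abs_le]
    constructor <;> nlinarith

theorem F09_unit (a b : ZMod 4) (ha : a = 0 ∨ a = 2) (hb : b = 1 ∨ b = 3) :
    ∃ u : (ZMod 4)ˣ, ∃ t : ZMod 4, (∀ z : ZMod 4, (u : ZMod 4) * z + t = 0 ↔ z = a) ∧
      (∀ z : ZMod 4, (u : ZMod 4) * z + t = 1 ↔ z = b) := by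
  rcases ha with rfl | rfl <;> rcases hb with rfl | rfl <;> decide +revert

theorem F09_tot {n : ℕ} (c : Sym2 (Fin n) → ZMod 4)
    (h : zsm 4 c < ⨅ c : Sym2 (Fin n) → Fin 2, mom 4 c) : (tot c : ℝ) ≤ 125 / 8 * (n : ℝ) ^ 5 := by
  have h1 := tot_eq (m := 4) (by norm_num) c
  have h2 := mom_le (m := 4) (n := n) (by norm_num)
  rw [card_TT_four] at h2
  have h3 : (4 + 1).factorial = 120 := by decide
  rw [h3] at h1 h2
  have h4 : 16 * tot c ≤ 250 * n ^ 5 := by
    have h5 : 120 * zsm 4 c ≤ 120 * (⨅ c : Sym2 (Fin n) → Fin 2, mom 4 c) :=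
      Nat.mul_le_mul_left _ h.le
    have h6 : 2 ^ 4 * (120 * (⨅ c : Sym2 (Fin n) → Fin 2, mom 4 c)) ≤ 2 * (125 * n ^ (4 + 1)) := h2
    norm_num at h6
    omega
  have h7 : (16 : ℝ) * tot c ≤ 250 * (n : ℝ) ^ 5 := by exact_mod_cast h4
  linarith

theorem four_large : ∃ n0 : ℕ, ∀ n ≥ n0,
    (⨅ c : Sym2 (Fin n) → ZMod 4, zsm 4 c) = (⨅ c : Sym2 (Fin n) → Fin 2, mom 4 c) := by
  classical
  obtain ⟨η, hη, n1, H1⟩ := local_bal 4 le_rfl
  obtain ⟨n2, H2⟩ := stability (η / 2) (by positivity)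
  obtain ⟨n3, hn3⟩ := exists_nat_ge (2 / η)
  refine ⟨n1 + n2 + n3 + 1, ?_⟩
  intro n hn
  have hn0 : 0 < n := by omega
  have hn0' : (0 : ℝ) < n := by exact_mod_cast hn0
  have hηn : 2 ≤ η * n := by
    have h1 : (n3 : ℝ) ≤ n := by exact_mod_cast (by omega : n3 ≤ n)
    have h2 : 2 / η ≤ n := le_trans hn3 h1
    rw [div_le_iff₀ hη] at h2
    linarith
  apply le_antisymm
  · apply le_ciInf
    intro c
    rw [mom_eq (by norm_num)]
    exact ciInf_le (OrderBot.bddBelow _) _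
  · apply le_ciInf
    intro c
    by_contra hcon
    rw [not_le] at hcon
    have ht := F09_tot c hcon
    obtain ⟨a, b, ha, hb, hst⟩ := H2 n (by omega) c ht
    obtain ⟨u, t, hu0, hu1⟩ := F09_unit a b ha hb
    set c' : Sym2 (Fin n) → ZMod 4 := fun e => (u : ZMod 4) * c e + t with hc'
    have hbal : ((univ.filter (fun x => ¬ Bal c' η x)).card : ℝ) ≤ η * n := by
      have h1 : (univ.filter (fun x => ¬ Bal c' η x)).card ≤
          (univ.filter (fun x => ¬ (|mu c x a - 1 / 2| ≤ η / 2 ∧ |mu c x b - 1 / 2| ≤ η / 2))).card := by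
        apply Finset.card_le_card
        intro x hx
        rw [mem_filter] at hx ⊢
        refine ⟨mem_univ _, fun hh => hx.2 ?_⟩
        exact F09_bal c c' x a b η (fun e => hu0 (c e)) (fun e => hu1 (c e)) hn0 hηn hh.1 hh.2
      have h2 : ((univ.filter (fun x => ¬ Bal c' η x)).card : ℝ) ≤
          ((univ.filter (fun x => ¬ (|mu c x a - 1 / 2| ≤ η / 2 ∧ |mu c x b - 1 / 2| ≤ η / 2))).card : ℝ) := by
        exact_mod_cast h1
      have h3 : η / 2 * (n : ℝ) ≤ η * n := by nlinarith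
      exact le_trans h2 (le_trans hst h3)
    have hfin := H1 n (by omega) c' hbal
    rw [hc', zsm_affine u t c] at hfin
    exact absurd hfin (not_le.mpr hcon)

end Pool.Agent.MP5g
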