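import Mathlib
import Pool.Agent.MP_5f2667_co.L.Defs

set_option autoImplicit false

open Finset

/-
Proof (tree homomorphisms, Jensen). If the graph has no edge the left side is 0 (m >= 1). Let D = sum of degrees > 0. Choose a root and an order (tree_order style, or induct on leaves). Random homomorphism: root at x with probability deg x / D, then every child uniform among the neighbours of the image of its parent. Every vertex then has distribution
pi(x) = deg x / D (stationarity), and each homomorphism f has probability P(f) = (1/D) * prod over vertices u of deg(f u)^(1 - deg_T u) (or deg(f root)/D * prod 1/deg(f parent)). Weighted AM-GM (inner_le_nnorm / Real.inner_mul... , or convexity of exp): hom = sum_f P(f) * (1/P(f)) >= exp(sum_f P(f) log(1/P(f))),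
and sum_f P(f) log(1/P(f)) = log D + (m-1) * sum_x pi(x) log(deg x) >= log D + (m-1) log(D/n), the last step by convexity of t log t. So hom >= D (D/n)^(m-1), i.e. D^m <= n^(m-1) hom.
Alternative without entropy: any other proof of Sidorenko's inequality for trees, for example by induction proving the weighted statement sum_x F_T,v(x)... is fine.
-/

namespace Pool.Agent.MP5g

theorem L18_jensen {ι : Type*} (s : Finset ι) (w a : ι → ℝ) (hw : ∀ i ∈ s, 0 ≤ w i)
    (hs : ∑ i ∈ s, w i = 1) (ha : ∀ i ∈ s, 0 < a i) :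
    ∑ i ∈ s, w i * Real.log (a i) ≤ Real.log (∑ i ∈ s, w i * a i) := by
  have h := strictConcaveOn_log_Ioi.concaveOn.le_map_sum (t := s) (w := w) (p := a) hw hs
    (fun i hi => ha i hi)
  simpa only [smul_eq_mul] using h

section
open Classical

variable {n : ℕ} (G : SimpleGraph (Fin n))

/-- the weighted number of homomorphisms -/
noncomputable def L18_Z {V : Type} [Fintype V] (T : SimpleGraph V) (a : V → Fin n → ℝ) : ℝ :=
  ∑ f : V → Fin n, if (∀ u w, T.Adj u w → G.Adj (f u) (f w)) then ∏ v, a v (f v) else 0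

theorem L18_sum_deg (L : Fin n → ℝ) :
    ∑ x, ∑ y ∈ G.neighborFinset x, L y = ∑ y, (G.degree y : ℝ) * L y := by
  have h1 : ∀ x, ∑ y ∈ G.neighborFinset x, L y = ∑ y, if G.Adj x y then L y else 0 := by
    intro x
    rw [SimpleGraph.neighborFinset_eq_filter, Finset.sum_filter]
  simp only [h1]
  rw [Finset.sum_comm]
  refine Finset.sum_congr rfl fun y _ => ?_
  rw [← Finset.sum_filter, Finset.sum_const, nsmul_eq_mul]
  congr 2
  rw [← SimpleGraph.card_neighborFinset_eq_degree, SimpleGraph.neighborFinset_eq_filter]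
  congr 1
  ext x
  simp only [mem_filter, mem_univ, true_and]
  exact G.adj_comm x y

/-- removing a leaf -/
theorem L18_leaf {V : Type} [Fintype V] (T : SimpleGraph V) (v u : V) (huv : u ≠ v)
    (hadj : ∀ w, T.Adj v w ↔ w = u) (a : V → Fin n → ℝ) :
    L18_Z G T a = L18_Z G (T.comap (fun j : {j : V // j ≠ v} => (j : V)))
      (fun j x => a j x * if (j : V) = u then ∑ y ∈ G.neighborFinset x, a v y else 1) := by
  unfold L18_Z
  rw [← (Equiv.funSplitAt v (Fin n)).symm.sum_comp, Fintype.sum_prod_type, Finset.sum_comm]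
  refine Finset.sum_congr (by ext; simp) fun g _ => ?_
  have hval : ∀ y : Fin n, ∀ j : {j : V // j ≠ v},
      (Equiv.funSplitAt v (Fin n)).symm (y, g) j = g j := by
    intro y j
    simp [Equiv.funSplitAt, Equiv.piSplitAt, j.2]
  have hvalv : ∀ y : Fin n, (Equiv.funSplitAt v (Fin n)).symm (y, g) v = y := by
    intro y
    simp [Equiv.funSplitAt, Equiv.piSplitAt]
  have hcond : ∀ y : Fin n, (∀ p q, T.Adj p q →
      G.Adj ((Equiv.funSplitAt v (Fin n)).symm (y, g) p)
        ((Equiv.funSplitAt v (Fin n)).symm (y, g) q)) ↔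
      ((∀ p q : {j : V // j ≠ v}, (T.comap (fun j : {j : V // j ≠ v} => (j : V))).Adj p q →
        G.Adj (g p) (g q)) ∧ G.Adj (g ⟨u, huv⟩) y) := by
    intro y
    constructor
    · intro h
      refine ⟨fun p q hpq => ?_, ?_⟩
      · have h1 := h p q hpq
        rwa [hval, hval] at h1
      · have h1 := h u v ((T.adj_comm _ _).1 ((hadj u).2 rfl))
        have h2 := hval y ⟨u, huv⟩
        rw [hvalv] at h1
        rw [← h2]
        exact h1
    · rintro ⟨h1, h2⟩ p q hpq
      by_cases hp : p = v
      · subst hp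
        have hq := (hadj q).1 hpq
        subst hq
        rw [hvalv]
        have h3 := hval y ⟨q, huv⟩
        change G.Adj y ((Equiv.funSplitAt p (Fin n)).symm (y, g) ((⟨q, huv⟩ : {j : V // j ≠ p}) : V))
        rw [h3]
        exact h2.symm
      · by_cases hq : q = v
        · subst hq
          have hp' := (hadj p).1 hpq.symm
          subst hp'
          rw [hvalv]
          have h3 := hval y ⟨p, huv⟩
          change G.Adj ((Equiv.funSplitAt q (Fin n)).symm (y, g) ((⟨p, huv⟩ : {j : V // j ≠ q}) : V)) y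
          rw [h3]
          exact h2
        · have h3 := hval y ⟨p, hp⟩
          have h4 := hval y ⟨q, hq⟩
          change G.Adj ((Equiv.funSplitAt v (Fin n)).symm (y, g) ((⟨p, hp⟩ : {j : V // j ≠ v}) : V))
            ((Equiv.funSplitAt v (Fin n)).symm (y, g) ((⟨q, hq⟩ : {j : V // j ≠ v}) : V))
          rw [h3, h4]
          exact h1 ⟨p, hp⟩ ⟨q, hq⟩ hpq
  have hprod : ∀ y : Fin n, ∏ w, a w ((Equiv.funSplitAt v (Fin n)).symm (y, g) w) =
      a v y * ∏ j : {j : V // j ≠ v}, a j (g j) := by
    intro y
    rw [← Finset.mul_prod_erase _ _ (mem_univ v), hvalv]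
    congr 1
    rw [Finset.prod_subtype (s := univ.erase v) (p := fun j => j ≠ v) (by simp)
      (fun w => a w ((Equiv.funSplitAt v (Fin n)).symm (y, g) w))]
    refine Finset.prod_congr rfl fun j _ => ?_
    rw [hval]
  simp only [hcond, hprod]
  by_cases hc : ∀ p q : {j : V // j ≠ v},
      (T.comap (fun j : {j : V // j ≠ v} => (j : V))).Adj p q → G.Adj (g p) (g q)
  · simp only [fun y => and_iff_right (b := G.Adj (g ⟨u, huv⟩) y) hc]
    rw [if_pos hc, Finset.prod_mul_distrib, ← Finset.sum_filter,
      ← Finset.sum_mul, mul_comm]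
    congr 1
    rw [Finset.prod_eq_single (⟨u, huv⟩ : {j : V // j ≠ v}), if_pos rfl,
      SimpleGraph.neighborFinset_eq_filter]
    · intro j _ hj
      rw [if_neg]
      intro h
      exact hj (Subtype.ext h)
    · intro h
      exact absurd (mem_univ _) h
  · rw [if_neg hc]
    refine Finset.sum_eq_zero fun y _ => ?_
    rw [if_neg (fun h => hc h.1)]

variable (D : ℝ) (hD : D = ∑ x, (G.degree x : ℝ)) (hD0 : 0 < D)
include hD hD0

/-- one vertex -/
theorem L18_base (a : Fin n → ℝ) (ha : ∀ x, 0 ≤ a x) (ha' : ∀ x, 0 < G.degree x → 0 < a x) :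
    Real.log D - (∑ x, (G.degree x : ℝ) / D * Real.log (G.degree x)) +
      ∑ x, (G.degree x : ℝ) / D * Real.log (a x) ≤ Real.log (∑ x, a x) := by
  set S : Finset (Fin n) := univ.filter fun x => 0 < G.degree x with hS
  have hout : ∀ (φ : Fin n → ℝ), ∑ x, (G.degree x : ℝ) / D * φ x =
      ∑ x ∈ S, (G.degree x : ℝ) / D * φ x := by
    intro φ
    rw [hS, Finset.sum_filter]
    refine Finset.sum_congr rfl fun x _ => ?_
    split_ifs with h
    · rfl
    · have h1 : G.degree x = 0 := by omega
      rw [h1]
      simp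
  have hw : ∑ x ∈ S, (G.degree x : ℝ) / D = 1 := by
    have h1 := hout fun _ => 1
    simp only [mul_one] at h1
    rw [← h1, ← Finset.sum_div, ← hD, div_self hD0.ne']
  have hpos : ∀ x ∈ S, 0 < (G.degree x : ℝ) := by
    intro x hx
    exact_mod_cast (mem_filter.1 hx).2
  have hpa : ∀ x ∈ S, 0 < a x := fun x hx => ha' x (mem_filter.1 hx).2
  have h1 := L18_jensen S (fun x => (G.degree x : ℝ) / D)
    (fun x => a x / ((G.degree x : ℝ) / D)) (fun x hx => (div_pos (hpos x hx) hD0).le) hw
    (fun x hx => div_pos (hpa x hx) (div_pos (hpos x hx) hD0))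
  have h2 : ∑ x ∈ S, (G.degree x : ℝ) / D * (a x / ((G.degree x : ℝ) / D)) = ∑ x ∈ S, a x := by
    refine Finset.sum_congr rfl fun x hx => ?_
    have := hpos x hx
    field_simp
  have h3 : ∑ x ∈ S, (G.degree x : ℝ) / D * Real.log (a x / ((G.degree x : ℝ) / D)) =
      Real.log D - (∑ x, (G.degree x : ℝ) / D * Real.log (G.degree x)) +
      ∑ x, (G.degree x : ℝ) / D * Real.log (a x) := by
    have h4 : ∀ x ∈ S, (G.degree x : ℝ) / D * Real.log (a x / ((G.degree x : ℝ) / D)) =
        (G.degree x : ℝ) / D * Real.log D - (G.degree x : ℝ) / D * Real.log (G.degree x) +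
        (G.degree x : ℝ) / D * Real.log (a x) := by
      intro x hx
      rw [Real.log_div (hpa x hx).ne' (div_pos (hpos x hx) hD0).ne',
        Real.log_div (hpos x hx).ne' hD0.ne']
      ring
    rw [Finset.sum_congr rfl h4, Finset.sum_add_distrib, Finset.sum_sub_distrib, ← Finset.sum_mul,
      hw, one_mul, hout, hout]
  rw [h2, h3] at h1
  refine h1.trans ?_
  have hSne : S.Nonempty := by
    rw [Finset.nonempty_iff_ne_empty]
    intro h
    rw [h, Finset.sum_empty] at hw
    norm_num at hw
  exact Real.log_le_log (Finset.sum_pos hpa hSne)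
    (Finset.sum_le_sum_of_subset_of_nonneg (Finset.subset_univ _) fun x _ _ => ha x)

/-- Jensen at a vertex -/
theorem L18_step (a : Fin n → ℝ) (ha' : ∀ x, 0 < G.degree x → 0 < a x) :
    (∑ x, (G.degree x : ℝ) / D * Real.log (G.degree x)) +
      ∑ x, (G.degree x : ℝ) / D * Real.log (a x) ≤
    ∑ x, (G.degree x : ℝ) / D * Real.log (∑ y ∈ G.neighborFinset x, a y) := by
  have h1 := L18_sum_deg G fun y => Real.log (a y)
  have h2 : ∑ x, (G.degree x : ℝ) / D * Real.log (a x) =
      ∑ x, (∑ y ∈ G.neighborFinset x, Real.log (a y)) / D := by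
    rw [← Finset.sum_div, h1, Finset.sum_div]
    refine Finset.sum_congr rfl fun x _ => ?_
    ring
  rw [h2, ← Finset.sum_add_distrib]
  refine Finset.sum_le_sum fun x _ => ?_
  by_cases hx : 0 < G.degree x
  · have hx' : (0 : ℝ) < G.degree x := by exact_mod_cast hx
    have hya : ∀ y ∈ G.neighborFinset x, 0 < a y := by
      intro y hy
      rw [SimpleGraph.mem_neighborFinset] at hy
      exact ha' y (G.degree_pos_iff_exists_adj y |>.2 ⟨x, hy.symm⟩)
    have h3 := L18_jensen (G.neighborFinset x) (fun _ => 1 / (G.degree x : ℝ)) a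
      (fun _ _ => by positivity)
      (by rw [Finset.sum_const, SimpleGraph.card_neighborFinset_eq_degree, nsmul_eq_mul]
          field_simp) hya
    rw [← Finset.mul_sum, ← Finset.mul_sum] at h3
    have hne : (G.neighborFinset x).Nonempty := by
      rw [← Finset.card_pos, SimpleGraph.card_neighborFinset_eq_degree]
      exact hx
    have hsum : 0 < ∑ y ∈ G.neighborFinset x, a y := Finset.sum_pos hya hne
    rw [Real.log_mul (by positivity) hsum.ne', one_div, Real.log_inv] at h3
    have h4 := mul_le_mul_of_nonneg_left h3 (div_pos hx' hD0).le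
    have h5 : (G.degree x : ℝ) / D * ((G.degree x : ℝ)⁻¹ * ∑ y ∈ G.neighborFinset x, Real.log (a y)) =
        (∑ y ∈ G.neighborFinset x, Real.log (a y)) / D := by
      field_simp
    rw [h5] at h4
    linarith
  · have h3 : G.degree x = 0 := by omega
    have h4 : G.neighborFinset x = ∅ := by
      rw [← Finset.card_eq_zero, SimpleGraph.card_neighborFinset_eq_degree, h3]
    rw [h4, h3]
    simp

/-- the weighted inequality, induction on the number of vertices -/
theorem L18_key : ∀ (k : ℕ) (V : Type) [Fintype V] (T : SimpleGraph V), T.IsTree →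
    Fintype.card V = k + 1 → ∀ a : V → Fin n → ℝ, (∀ v x, 0 ≤ a v x) →
    (∀ v x, 0 < G.degree x → 0 < a v x) → 0 < L18_Z G T a ∧
    Real.log D + ((k : ℝ) - 1) * (∑ x, (G.degree x : ℝ) / D * Real.log (G.degree x)) +
      ∑ v, ∑ x, (G.degree x : ℝ) / D * Real.log (a v x) ≤ Real.log (L18_Z G T a) := by
  intro k
  induction k with
  | zero =>
    intro V _ T hT hV a ha ha'
    obtain ⟨v, hv⟩ := Fintype.card_eq_one_iff.1 hV
    letI : Unique V := ⟨⟨v⟩, hv⟩
    have h1 := L18_base G D hD hD0 (a v) (ha v) (ha' v)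
    have h2 : L18_Z G T a = ∑ x, a v x := by
      unfold L18_Z
      rw [← (Equiv.funUnique V (Fin n)).symm.sum_comp]
      refine Finset.sum_congr rfl fun x _ => ?_
      rw [if_pos]
      · rw [Fintype.prod_unique]
        rfl
      · intro p q hpq
        rw [hv p, hv q] at hpq
        exact absurd hpq (T.irrefl)
    have h3 : ∑ v, ∑ x, (G.degree x : ℝ) / D * Real.log (a v x) =
        ∑ x, (G.degree x : ℝ) / D * Real.log (a v x) := by
      rw [Fintype.sum_unique]
      rfl
    rw [h2, h3]
    refine ⟨?_, ?_⟩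
    · obtain ⟨x, hx⟩ : ∃ x, 0 < G.degree x := by
        by_contra hcon
        push Not at hcon
        have h4 : D = 0 := by
          rw [hD]
          refine Finset.sum_eq_zero fun x _ => ?_
          have := hcon x
          have h5 : G.degree x = 0 := by omega
          rw [h5, Nat.cast_zero]
        exact hD0.ne' h4
      exact Finset.sum_pos' (fun x _ => ha v x) ⟨x, mem_univ _, ha' v x hx⟩
    · push_cast
      linarith
  | succ k ih =>
    intro V _ T hT hV a ha ha'
    haveI : Nontrivial V := by
      rw [← Fintype.one_lt_card_iff_nontrivial]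
      omega
    obtain ⟨v, hv⟩ := hT.exists_vert_degree_one_of_nontrivial
    obtain ⟨u, hu, huniq⟩ := SimpleGraph.degree_eq_one_iff_existsUnique_adj.1 hv
    have huv : u ≠ v := fun h => by
      rw [h] at hu
      exact T.irrefl hu
    have hadj : ∀ w, T.Adj v w ↔ w = u := fun w => ⟨fun h => huniq w h, fun h => by rw [h]; exact hu⟩
    rw [L18_leaf G T v u huv hadj a]
    have hT' : (T.comap (fun j : {j : V // j ≠ v} => (j : V))).IsTree := by
      have h1 : (T.induce ({v}ᶜ : Set V)).IsTree :=
        ⟨hT.connected.induce_compl_singleton_of_degree_eq_one hv, hT.isAcyclic.induce _⟩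
      exact h1
    have hV' : Fintype.card {j : V // j ≠ v} = k + 1 := by
      rw [Fintype.card_subtype_compl, Fintype.card_subtype_eq]
      omega
    have hA0 : ∀ x, 0 ≤ ∑ y ∈ G.neighborFinset x, a v y :=
      fun x => Finset.sum_nonneg fun y _ => ha v y
    have hApos : ∀ x, 0 < G.degree x → 0 < ∑ y ∈ G.neighborFinset x, a v y := by
      intro x hx
      refine Finset.sum_pos (fun y hy => ?_) ?_
      · rw [SimpleGraph.mem_neighborFinset] at hy
        exact ha' v y (G.degree_pos_iff_exists_adj y |>.2 ⟨x, hy.symm⟩)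
      · rw [← Finset.card_pos, SimpleGraph.card_neighborFinset_eq_degree]
        exact hx
    have hi := ih {j : V // j ≠ v} (T.comap (fun j : {j : V // j ≠ v} => (j : V))) hT' hV'
      (fun j x => a j x * if (j : V) = u then ∑ y ∈ G.neighborFinset x, a v y else 1)
      (fun j x => mul_nonneg (ha _ _) (by split_ifs; exacts [hA0 x, zero_le_one]))
      (fun j x hx => mul_pos (ha' _ _ hx) (by split_ifs; exacts [hApos x hx, zero_lt_one]))
    refine ⟨hi.1, le_trans ?_ hi.2⟩
    have hst := L18_step G D hD hD0 (a v) (ha' v)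
    have h1 : ∑ j : {j : V // j ≠ v}, ∑ x, (G.degree x : ℝ) / D *
        Real.log (a j x * if (j : V) = u then ∑ y ∈ G.neighborFinset x, a v y else 1) =
        (∑ j : {j : V // j ≠ v}, ∑ x, (G.degree x : ℝ) / D * Real.log (a j x)) +
          ∑ x, (G.degree x : ℝ) / D * Real.log (∑ y ∈ G.neighborFinset x, a v y) := by
      have h2 : ∀ j : {j : V // j ≠ v}, ∑ x, (G.degree x : ℝ) / D *
        Real.log (a j x * if (j : V) = u then ∑ y ∈ G.neighborFinset x, a v y else 1) =
        (∑ x, (G.degree x : ℝ) / D * Real.log (a j x)) +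
          if (j : V) = u then ∑ x, (G.degree x : ℝ) / D *
            Real.log (∑ y ∈ G.neighborFinset x, a v y) else 0 := by
        intro j
        by_cases hj : (j : V) = u
        · simp only [if_pos hj]
          rw [← Finset.sum_add_distrib]
          refine Finset.sum_congr rfl fun x _ => ?_
          by_cases hx : 0 < G.degree x
          · rw [Real.log_mul (ha' _ _ hx).ne' (hApos x hx).ne']
            ring
          · have h3 : G.degree x = 0 := by omega
            rw [h3]
            simp
        · simp only [if_neg hj, mul_one, add_zero]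
      simp only [h2]
      rw [Finset.sum_add_distrib]
      congr 1
      rw [Finset.sum_eq_single (⟨u, huv⟩ : {j : V // j ≠ v}), if_pos rfl]
      · intro j _ hj
        rw [if_neg]
        intro h
        exact hj (Subtype.ext h)
      · intro h
        exact absurd (mem_univ _) h
    rw [h1]
    have h2 : ∑ w, ∑ x, (G.degree x : ℝ) / D * Real.log (a w x) =
        (∑ x, (G.degree x : ℝ) / D * Real.log (a v x)) +
          ∑ j : {j : V // j ≠ v}, ∑ x, (G.degree x : ℝ) / D * Real.log (a j x) := by
      rw [← Finset.add_sum_erase _ _ (mem_univ v)]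
      congr 1
      rw [Finset.sum_subtype (s := univ.erase v) (p := fun j => j ≠ v) (by simp)
        (fun w => ∑ x, (G.degree x : ℝ) / D * Real.log (a w x))]
    rw [h2]
    push_cast
    linarith

end

theorem L18_final (D n H : ℝ) (m : ℕ) (hm : 1 ≤ m) (hD : 0 < D) (hn : 0 < n) (hH : 0 < H)
    (h : Real.log D + ((m : ℝ) - 1) * Real.log (D / n) ≤ Real.log H) :
    D ^ m ≤ n ^ (m - 1) * H := by
  have h2 : Real.log D + ((m : ℝ) - 1) * Real.log (D / n) = Real.log (D * (D / n) ^ (m - 1)) := by
    rw [Real.log_mul hD.ne' (by positivity), Real.log_pow]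
    have h3 : ((m - 1 : ℕ) : ℝ) = (m : ℝ) - 1 := by
      rw [Nat.cast_sub hm, Nat.cast_one]
    rw [h3]
  rw [h2] at h
  have h4 := (Real.log_le_log_iff (by positivity) hH).1 h
  have h5 : D ^ m = n ^ (m - 1) * (D * (D / n) ^ (m - 1)) := by
    obtain ⟨k, rfl⟩ : ∃ k, m = k + 1 := ⟨m - 1, by omega⟩
    rw [Nat.add_sub_cancel, div_pow]
    field_simp
    ring
  rw [h5]
  exact mul_le_mul_of_nonneg_left h4 (by positivity)

open Classical in
theorem tree_hom {m n : ℕ} (hm : 1 ≤ m) (T : SimpleGraph (Fin (m + 1))) (hT : T ∈ TT m) (G : SimpleGraph (Fin n)) :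
    (∑ x : Fin n, (G.degree x : ℝ)) ^ m ≤ (n : ℝ) ^ (m - 1) *
      ((univ.filter (fun f : Fin (m + 1) → Fin n => ∀ u w, T.Adj u w → G.Adj (f u) (f w))).card : ℝ) := by
  have hT' : T.IsTree := (mem_filter.1 hT).2
  set D : ℝ := ∑ x : Fin n, (G.degree x : ℝ) with hD
  have hD0 : 0 ≤ D := Finset.sum_nonneg fun x _ => Nat.cast_nonneg _
  rcases hD0.eq_or_lt with h0 | h0
  · rw [← h0, zero_pow (by omega)]
    positivity
  have hkey := L18_key G D hD h0 m (Fin (m + 1)) T hT' (Fintype.card_fin _) (fun _ _ => 1)
    (fun _ _ => zero_le_one) (fun _ _ _ => zero_lt_one)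
  have hZ : L18_Z G T (fun _ _ => 1) =
      ((univ.filter (fun f : Fin (m + 1) → Fin n => ∀ u w, T.Adj u w → G.Adj (f u) (f w))).card : ℝ) := by
    unfold L18_Z
    simp only [Finset.prod_const_one]
    rw [Finset.sum_ite, Finset.sum_const_zero, add_zero, Finset.sum_const, nsmul_eq_mul, mul_one]
    apply congrArg Nat.cast
    apply congrArg Finset.card
    ext f
    simp only [mem_filter, mem_univ, true_and]
  obtain ⟨hZ0, hkey⟩ := hkey
  simp only [Real.log_one, mul_zero, Finset.sum_const_zero, add_zero] at hkey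
  rw [hZ] at hkey hZ0
  -- the lower bound for the entropy term
  have hn : 0 < (n : ℝ) := by
    rcases Nat.eq_zero_or_pos n with h | h
    · subst h
      rw [hD, Finset.univ_eq_empty, Finset.sum_empty] at h0
      exact absurd h0 (lt_irrefl _)
    · exact_mod_cast h
  have hh : Real.log (D / n) ≤ ∑ x, (G.degree x : ℝ) / D * Real.log (G.degree x) := by
    set S : Finset (Fin n) := univ.filter fun x => 0 < G.degree x with hS
    have hout : ∀ (φ : Fin n → ℝ), ∑ x, (G.degree x : ℝ) / D * φ x =
        ∑ x ∈ S, (G.degree x : ℝ) / D * φ x := by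
      intro φ
      rw [hS, Finset.sum_filter]
      refine Finset.sum_congr rfl fun x _ => ?_
      split_ifs with h
      · rfl
      · have h1 : G.degree x = 0 := by omega
        rw [h1]
        simp
    have hw : ∑ x ∈ S, (G.degree x : ℝ) / D = 1 := by
      have h1 := hout fun _ => 1
      simp only [mul_one] at h1
      rw [← h1, ← Finset.sum_div, ← hD, div_self h0.ne']
    have hpos : ∀ x ∈ S, 0 < (G.degree x : ℝ) := by
      intro x hx
      exact_mod_cast (mem_filter.1 hx).2
    have h1 := L18_jensen S (fun x => (G.degree x : ℝ) / D) (fun x => ((G.degree x : ℝ))⁻¹)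
      (fun x hx => (div_pos (hpos x hx) h0).le) hw (fun x hx => inv_pos.2 (hpos x hx))
    have h2 : ∑ x ∈ S, (G.degree x : ℝ) / D * ((G.degree x : ℝ))⁻¹ = S.card / D := by
      rw [Finset.sum_congr rfl (g := fun _ => 1 / D), Finset.sum_const, nsmul_eq_mul]
      · ring
      · intro x hx
        have := hpos x hx
        field_simp
    have h3 : ∑ x ∈ S, (G.degree x : ℝ) / D * Real.log ((G.degree x : ℝ))⁻¹ =
        - ∑ x, (G.degree x : ℝ) / D * Real.log (G.degree x) := by
      rw [hout, ← Finset.sum_neg_distrib]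
      refine Finset.sum_congr rfl fun x _ => ?_
      rw [Real.log_inv]
      ring
    rw [h2, h3] at h1
    have hSne : S.Nonempty := by
      rw [Finset.nonempty_iff_ne_empty]
      intro h
      rw [h, Finset.sum_empty] at hw
      norm_num at hw
    have hSc : (0 : ℝ) < S.card := by exact_mod_cast Finset.card_pos.2 hSne
    have hSn : (S.card : ℝ) ≤ n := by
      have h4 := Finset.card_le_univ S
      rw [Fintype.card_fin] at h4
      exact_mod_cast h4
    have h5 : Real.log (S.card / D) ≤ Real.log (n / D) :=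
      Real.log_le_log (by positivity) (by gcongr)
    have h6 : Real.log (n / D) = - Real.log (D / n) := by
      rw [← Real.log_inv, inv_div]
    linarith
  -- conclusion
  refine L18_final D n _ m hm h0 hn hZ0 (le_trans ?_ hkey)
  have hm' : (0 : ℝ) ≤ (m : ℝ) - 1 := by
    have : (1 : ℝ) ≤ m := by exact_mod_cast hm
    linarith
  have := mul_le_mul_of_nonneg_left hh hm'
  linarith

end Pool.Agent.MP5g
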