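import Mathlib
import Pool.Agent.MP_5f2667_co.L.L01
import Pool.Agent.MP_5f2667_co.L.L03
import Pool.Agent.MP_5f2667_co.L.L18

set_option autoImplicit false

open Finset

/-
Proof. G_i = graph of the edges of colour i (i = 0,1), D_i = sum_x dgm c x i. A labelled injective copy which is a homomorphism into G_i is zero-sum (m*i = 0). Homomorphisms into G_0 and G_1 are different, non-injective maps are at most (m+1)^2 n^m. So (m+1)! zsm c = tot c >= sum_T [hom(T,G_0)+hom(T,G_1)] - 2|TT m|(m+1)^2 n^m.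
For every T: hom_0+hom_1 >= n^(1-m)(D_0^m+D_1^m) >= 2 n^(1-m)((D_0+D_1)/2)^m >= 2^(1-m) n^(m+1)(1-eps-1/n)^m. For the star S with centre 0 (S in TT m): hom(S,G_i) = sum_x dgm(x,i)^m, and a^m+b^m >= 2((a+b)/2)^m + (a+b)^(m-2) (a-b)^2 / 2^(m-1) (as in Chebyshev).
More than eta n vertices are not Bal eta: at most (2 eps/eta... ) few of them have more than eta n/2 third colour edges (total of ordered third pairs <= eps n^2), the others have |dgm0 - dgm1| >= (eta/2) n roughly and dgm0+dgm1 >= (1-eta/2)n - 1. So the star gains gamma n^(m+1), gamma = gamma(eta,m) > 0, over 2^(1-m) n^(m+1)(1-O(eps)).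
Together tot c >= 2^(1-m)|TT m| n^(m+1) + gamma n^(m+1) - O(eps) n^(m+1) - O(n^m) > 2^(1-m) |TT m| n^(m+1) >= (m+1)! * inf mom (L03).
-/

namespace Pool.Agent.MP5g

/-- the graph of the colour `i` -/
def L19_G {m n : ℕ} (c : Sym2 (Fin n) → ZMod m) (i : ZMod m) : SimpleGraph (Fin n) where
  Adj x y := x ≠ y ∧ c s(x, y) = i
  symm := ⟨fun x y h => ⟨h.1.symm, by rw [Sym2.eq_swap]; exact h.2⟩⟩
  loopless := ⟨fun x h => h.1 rfl⟩

section
open Classical

variable {m n : ℕ} (c : Sym2 (Fin n) → ZMod m)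

theorem L19_deg (i : ZMod m) (x : Fin n) : (L19_G c i).degree x = dgm c x i := by
  rw [← SimpleGraph.card_neighborFinset_eq_degree, SimpleGraph.neighborFinset_eq_filter]
  unfold dgm
  congr 1
  ext y
  simp only [mem_filter, mem_univ, true_and]
  exact and_congr_left fun _ => ne_comm

/-- homomorphisms -/
noncomputable def L19_H (T : SimpleGraph (Fin (m + 1))) (i : ZMod m) :
    Finset (Fin (m + 1) → Fin n) :=
  univ.filter fun f => ∀ u w, T.Adj u w → (L19_G c i).Adj (f u) (f w)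

theorem L19_mem_H (T : SimpleGraph (Fin (m + 1))) (i : ZMod m) (f : Fin (m + 1) → Fin n) :
    f ∈ L19_H c T i ↔ ∀ u w, T.Adj u w → (L19_G c i).Adj (f u) (f w) := by
  unfold L19_H
  rw [mem_filter]
  exact and_iff_right (mem_univ _)

theorem L19_hom_SS (T : SimpleGraph (Fin (m + 1))) (hT : T.IsTree) (i : ZMod m)
    (f : Fin (m + 1) → Fin n) (hf : f ∈ L19_H c T i) : SS c T f = 0 := by
  unfold SS
  have h1 : ∀ e ∈ T.edgeFinset, c (e.map f) = i := by
    intro e he
    rw [SimpleGraph.mem_edgeFinset] at he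
    induction e using Sym2.ind with
    | _ u w => exact ((mem_filter.1 hf).2 u w he).2
  rw [Finset.sum_congr rfl h1, Finset.sum_const]
  have h2 := hT.card_edgeFinset
  rw [Fintype.card_fin] at h2
  have h3 : T.edgeFinset.card = m := by
    have : T.edgeFinset.card + 1 = m + 1 := by convert h2
    omega
  rw [h3, nsmul_eq_mul, ZMod.natCast_self, zero_mul]

/-- non-injective maps -/
theorem L19_noninj (hn : 1 ≤ n) : (univ.filter fun f : Fin (m + 1) → Fin n =>
    ¬ Function.Injective f).card ≤ (m + 1) ^ 2 * n ^ m := by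
  have h1 : (univ.filter fun f : Fin (m + 1) → Fin n => ¬ Function.Injective f) ⊆
      (univ : Finset (Fin (m + 1) × Fin (m + 1))).biUnion fun p =>
        if p.1 ≠ p.2 then univ.filter fun f : Fin (m + 1) → Fin n => f p.1 = f p.2 else ∅ := by
    intro f hf
    rw [mem_filter] at hf
    obtain ⟨u, w, h2, h3⟩ := Function.not_injective_iff.1 hf.2
    rw [mem_biUnion]
    refine ⟨(u, w), mem_univ _, ?_⟩
    rw [if_pos h3, mem_filter]
    exact ⟨mem_univ _, h2⟩
  refine (card_le_card h1).trans (card_biUnion_le.trans ?_)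
  have h2 : ∀ p ∈ (univ : Finset (Fin (m + 1) × Fin (m + 1))),
      (if p.1 ≠ p.2 then univ.filter fun f : Fin (m + 1) → Fin n => f p.1 = f p.2 else ∅).card ≤
        n ^ m := by
    rintro ⟨u, w⟩ -
    split_ifs with huw
    · have h3 : (univ.filter fun f : Fin (m + 1) → Fin n => f u = f w).card ≤
          (univ : Finset ({j : Fin (m + 1) // j ≠ u} → Fin n)).card := by
        refine card_le_card_of_injOn (fun f j => f j) (fun _ _ => mem_coe.2 (mem_univ _)) ?_
        intro f hf g hg hfg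
        rw [mem_coe, mem_filter] at hf hg
        funext j
        by_cases hj : j = u
        · subst hj
          have := congrFun hfg ⟨w, Ne.symm huw⟩
          rw [hf.2, hg.2]
          exact this
        · exact congrFun hfg ⟨j, hj⟩
      refine h3.trans (le_of_eq ?_)
      rw [card_univ, Fintype.card_fun, Fintype.card_fin, Fintype.card_subtype_compl,
        Fintype.card_subtype_eq, Fintype.card_fin, Nat.add_sub_cancel]
    · rw [card_empty]
      positivity
  refine (sum_le_sum h2).trans (le_of_eq ?_)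
  rw [sum_const, card_univ, Fintype.card_prod, Fintype.card_fin, smul_eq_mul]
  ring

theorem L19_cnt (hm : 2 ≤ m) (hn : 1 ≤ n) (T : SimpleGraph (Fin (m + 1))) (hT : T.IsTree) :
    ((L19_H c T 0).card : ℝ) + (L19_H c T 1).card ≤ cnt c T + (m + 1) ^ 2 * n ^ m := by
  have hdis : Disjoint (L19_H c T 0) (L19_H c T 1) := by
    rw [Finset.disjoint_left]
    intro f h0 h1
    haveI : Nontrivial (Fin (m + 1)) := Fin.nontrivial_iff_two_le.2 (by omega)
    obtain ⟨v, hv⟩ := hT.exists_vert_degree_one_of_nontrivial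
    obtain ⟨u, hu, -⟩ := SimpleGraph.degree_eq_one_iff_existsUnique_adj.1 hv
    have e0 := ((mem_filter.1 h0).2 v u hu).2
    have e1 := ((mem_filter.1 h1).2 v u hu).2
    rw [e0] at e1
    haveI : Fact (1 < m) := ⟨by omega⟩
    exact zero_ne_one e1
  have hsub : L19_H c T 0 ∪ L19_H c T 1 ⊆
      (univ.filter (fun f : Fin (m + 1) → Fin n => Function.Injective f ∧ SS c T f = 0)) ∪
      (univ.filter fun f : Fin (m + 1) → Fin n => ¬ Function.Injective f) := by
    intro f hf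
    rw [mem_union] at hf ⊢
    have h0 : SS c T f = 0 := by
      rcases hf with hf | hf
      · exact L19_hom_SS c T hT 0 f hf
      · exact L19_hom_SS c T hT 1 f hf
    by_cases hinj : Function.Injective f
    · left
      rw [mem_filter]
      exact ⟨mem_univ _, hinj, h0⟩
    · right
      rw [mem_filter]
      exact ⟨mem_univ _, hinj⟩
  have h1 := (card_le_card hsub).trans (card_union_le _ _)
  rw [card_union_of_disjoint hdis] at h1
  have h2 := h1.trans (Nat.add_le_add_left (L19_noninj (m := m) hn) _)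
  unfold cnt
  exact_mod_cast h2

/-- the number of homomorphisms of the star -/
theorem L19_star (i : ZMod m) :
    (L19_H c (SimpleGraph.starGraph 0) i).card = ∑ x, dgm c x i ^ m := by
  have h1 : (L19_H c (SimpleGraph.starGraph 0) i).card =
      ((univ : Finset (Fin n)).sigma fun x =>
        Fintype.piFinset fun _ : Fin m => (L19_G c i).neighborFinset x).card := by
    refine Finset.card_bij (fun f _ => ⟨f 0, fun j => f j.succ⟩) ?_ ?_ ?_
    · intro f hf
      rw [mem_sigma]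
      refine ⟨mem_univ _, ?_⟩
      rw [Fintype.mem_piFinset]
      intro j
      rw [SimpleGraph.mem_neighborFinset]
      exact (L19_mem_H c _ i f).1 hf 0 j.succ
        (SimpleGraph.starGraph_center_adj (Fin.succ_ne_zero j).symm)
    · intro f _ g _ hfg
      rw [Sigma.mk.injEq] at hfg
      have h2 := eq_of_heq hfg.2
      funext j
      refine Fin.cases ?_ (fun j => ?_) j
      · exact hfg.1
      · exact congrFun h2 j
    · rintro ⟨x, g⟩ hg
      rw [mem_sigma, Fintype.mem_piFinset] at hg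
      refine ⟨Fin.cons x g, ?_, ?_⟩
      · rw [L19_mem_H]
        intro u w huw
        rw [SimpleGraph.starGraph_adj] at huw
        obtain ⟨h2, h3 | h3⟩ := huw
        · subst h3
          obtain ⟨j, rfl⟩ := Fin.exists_succ_eq.2 h2.symm
          rw [Fin.cons_zero, Fin.cons_succ]
          have := hg.2 j
          rwa [SimpleGraph.mem_neighborFinset] at this
        · subst h3
          obtain ⟨j, rfl⟩ := Fin.exists_succ_eq.2 h2
          rw [Fin.cons_zero, Fin.cons_succ]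
          have := hg.2 j
          rw [SimpleGraph.mem_neighborFinset] at this
          exact this.symm
      · simp
  rw [h1, card_sigma]
  refine Finset.sum_congr rfl fun x _ => ?_
  rw [Fintype.card_piFinset_const, SimpleGraph.card_neighborFinset_eq_degree, L19_deg]

end

/-- `a^m + b^m` -/
theorem L19_pow (s t : ℝ) (ht : 0 ≤ t) (hst : t ≤ s) (k : ℕ) :
    2 * s ^ (k + 2) + 2 * s ^ k * t ^ 2 ≤ (s + t) ^ (k + 2) + (s - t) ^ (k + 2) := by
  have hs : 0 ≤ s := ht.trans hst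
  induction k with
  | zero =>
    have h1 : (s + t) ^ (0 + 2) + (s - t) ^ (0 + 2) = 2 * s ^ (0 + 2) + 2 * s ^ 0 * t ^ 2 := by ring
    exact h1.ge
  | succ k ih =>
    have h1 : (s - t) ^ (k + 2) ≤ (s + t) ^ (k + 2) :=
      pow_le_pow_left₀ (by linarith) (by linarith) _
    have h2 : (s + t) ^ (k + 1 + 2) + (s - t) ^ (k + 1 + 2) =
        s * ((s + t) ^ (k + 2) + (s - t) ^ (k + 2)) + t * ((s + t) ^ (k + 2) - (s - t) ^ (k + 2)) := by
      ring
    have h3 : 2 * s ^ (k + 1 + 2) + 2 * s ^ (k + 1) * t ^ 2 =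
        s * (2 * s ^ (k + 2) + 2 * s ^ k * t ^ 2) := by ring
    rw [h2, h3]
    have h4 := mul_le_mul_of_nonneg_left ih hs
    have h5 : 0 ≤ t * ((s + t) ^ (k + 2) - (s - t) ^ (k + 2)) := mul_nonneg ht (by linarith)
    linarith

theorem L19_two (a b : ℝ) (ha : 0 ≤ a) (hb : 0 ≤ b) (m : ℕ) (hm : 2 ≤ m) :
    2 * ((a + b) / 2) ^ m + 2 * ((a + b) / 2) ^ (m - 2) * ((a - b) / 2) ^ 2 ≤ a ^ m + b ^ m := by
  obtain ⟨k, rfl⟩ : ∃ k, m = k + 2 := ⟨m - 2, by omega⟩
  rw [Nat.add_sub_cancel]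
  rcases le_total b a with h | h
  · have := L19_pow ((a + b) / 2) ((a - b) / 2) (by linarith) (by linarith) k
    have h1 : (a + b) / 2 + (a - b) / 2 = a := by ring
    have h2 : (a + b) / 2 - (a - b) / 2 = b := by ring
    rwa [h1, h2] at this
  · have := L19_pow ((a + b) / 2) ((b - a) / 2) (by linarith) (by linarith) k
    have h1 : (a + b) / 2 + (b - a) / 2 = b := by ring
    have h2 : (a + b) / 2 - (b - a) / 2 = a := by ring
    rw [h1, h2] at this
    have h3 : ((b - a) / 2) ^ 2 = ((a - b) / 2) ^ 2 := by ring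
    rw [h3] at this
    linarith

section
open Classical

variable {m n : ℕ} (c : Sym2 (Fin n) → ZMod m)

/-- third colours at `x` -/
noncomputable def L19_t (x : Fin n) : ℕ :=
  (univ.filter fun y : Fin n => x ≠ y ∧ c s(x, y) ≠ 0 ∧ c s(x, y) ≠ 1).card

theorem L19_t_sum : (univ.filter (fun p : Fin n × Fin n => p.1 ≠ p.2 ∧ c s(p.1, p.2) ≠ 0 ∧
    c s(p.1, p.2) ≠ 1)).card = ∑ x, L19_t c x := by
  unfold L19_t
  simp only [Finset.card_filter]
  rw [Fintype.sum_prod_type]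

theorem L19_total (hm : 2 ≤ m) (x : Fin n) : dgm c x 0 + dgm c x 1 + L19_t c x + 1 = n := by
  haveI : Fact (1 < m) := ⟨by omega⟩
  have h1 : ∀ y : Fin n, (if y ≠ x ∧ c s(x, y) = 0 then 1 else 0) +
      (if y ≠ x ∧ c s(x, y) = 1 then 1 else 0) +
      (if x ≠ y ∧ c s(x, y) ≠ 0 ∧ c s(x, y) ≠ 1 then 1 else 0) + (if y = x then 1 else 0) = 1 := by
    intro y
    have h01 : (0 : ZMod m) ≠ 1 := zero_ne_one
    by_cases hyx : y = x
    · simp [hyx]
    · have hxy : x ≠ y := fun h => hyx h.symm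
      by_cases h0 : c s(x, y) = 0
      · simp [hyx, hxy, h0, h01]
      · by_cases h2 : c s(x, y) = 1
        · simp [hyx, hxy, h2, h01.symm]
        · simp [hyx, hxy, h0, h2]
  have h2 : ∑ y : Fin n, ((if y ≠ x ∧ c s(x, y) = 0 then 1 else 0) +
      (if y ≠ x ∧ c s(x, y) = 1 then 1 else 0) +
      (if x ≠ y ∧ c s(x, y) ≠ 0 ∧ c s(x, y) ≠ 1 then 1 else 0) + (if y = x then 1 else 0)) = n := by
    rw [Finset.sum_congr rfl fun y _ => h1 y]
    simp
  rw [Finset.sum_add_distrib, Finset.sum_add_distrib, Finset.sum_add_distrib] at h2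
  unfold dgm L19_t
  rw [Finset.card_filter, Finset.card_filter, Finset.card_filter]
  rw [Finset.sum_ite_eq' univ x] at h2
  simpa using h2

theorem L19_hom (hm : 1 ≤ m) (hn : 1 ≤ n) (T : SimpleGraph (Fin (m + 1))) (hT : T ∈ TT m)
    (i : ZMod m) : (∑ x, (dgm c x i : ℝ)) ^ m / (n : ℝ) ^ (m - 1) ≤ ((L19_H c T i).card : ℝ) := by
  have h1 := tree_hom hm T hT (L19_G c i)
  simp only [L19_deg] at h1
  have hn' : (0 : ℝ) < (n : ℝ) ^ (m - 1) := by
    have : (0 : ℝ) < n := by exact_mod_cast hn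
    positivity
  rw [div_le_iff₀' hn']
  refine h1.trans (le_of_eq ?_)
  unfold L19_H
  congr!

/-- the lower bound -/
noncomputable def L19_P : ℝ :=
  2 * ((∑ x, (dgm c x 0 : ℝ) + ∑ x, (dgm c x 1 : ℝ)) / 2) ^ m / (n : ℝ) ^ (m - 1)

theorem L19_lower (hm : 2 ≤ m) (hn : 1 ≤ n) (T : SimpleGraph (Fin (m + 1))) (hT : T ∈ TT m) :
    L19_P c ≤ ((L19_H c T 0).card : ℝ) + (L19_H c T 1).card := by
  have h0 := L19_hom c (by omega) hn T hT 0
  have h1 := L19_hom c (by omega) hn T hT 1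
  refine le_trans ?_ (add_le_add h0 h1)
  rw [← add_div]
  unfold L19_P
  have hA : 0 ≤ ∑ x, (dgm c x 0 : ℝ) := Finset.sum_nonneg fun x _ => Nat.cast_nonneg _
  have hB : 0 ≤ ∑ x, (dgm c x 1 : ℝ) := Finset.sum_nonneg fun x _ => Nat.cast_nonneg _
  have h2 := L19_two _ _ hA hB m hm
  gcongr
  refine le_trans ?_ h2
  have : 0 ≤ 2 * ((∑ x, (dgm c x 0 : ℝ) + ∑ x, (dgm c x 1 : ℝ)) / 2) ^ (m - 2) *
    ((∑ x, (dgm c x 0 : ℝ) - ∑ x, (dgm c x 1 : ℝ)) / 2) ^ 2 := by positivity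
  linarith

theorem L19_lower_star (hm : 2 ≤ m) (B : Finset (Fin n)) (g : ℝ)
    (hB : ∀ x ∈ B, g ≤ 2 * (((dgm c x 0 : ℝ) + dgm c x 1) / 2) ^ (m - 2) *
      (((dgm c x 0 : ℝ) - dgm c x 1) / 2) ^ 2) :
    L19_P c + B.card * g ≤ ((L19_H c (SimpleGraph.starGraph 0) 0).card : ℝ) +
      (L19_H c (SimpleGraph.starGraph 0) 1).card := by
  rw [L19_star, L19_star]
  push_cast
  rw [← Finset.sum_add_distrib]
  have h1 : ∑ x, (2 * (((dgm c x 0 : ℝ) + dgm c x 1) / 2) ^ m +
      2 * (((dgm c x 0 : ℝ) + dgm c x 1) / 2) ^ (m - 2) *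
        (((dgm c x 0 : ℝ) - dgm c x 1) / 2) ^ 2) ≤
      ∑ x, ((dgm c x 0 : ℝ) ^ m + (dgm c x 1 : ℝ) ^ m) :=
    Finset.sum_le_sum fun x _ => L19_two _ _ (Nat.cast_nonneg _) (Nat.cast_nonneg _) m hm
  refine le_trans ?_ h1
  rw [Finset.sum_add_distrib]
  refine add_le_add ?_ ?_
  · unfold L19_P
    rw [← Finset.mul_sum, mul_div_assoc]
    refine mul_le_mul_of_nonneg_left ?_ zero_le_two
    have h2 := pow_sum_div_card_le_sum_pow (s := (univ : Finset (Fin n)))
      (f := fun x => ((dgm c x 0 : ℝ) + dgm c x 1) / 2) (fun x _ => by positivity) (m - 1)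
    rw [card_univ, Fintype.card_fin, ← Finset.sum_div, Finset.sum_add_distrib,
      Nat.sub_add_cancel (by omega : 1 ≤ m)] at h2
    exact h2
  · calc (B.card : ℝ) * g = ∑ x ∈ B, g := by rw [Finset.sum_const, nsmul_eq_mul]
      _ ≤ ∑ x ∈ B, 2 * (((dgm c x 0 : ℝ) + dgm c x 1) / 2) ^ (m - 2) *
        (((dgm c x 0 : ℝ) - dgm c x 1) / 2) ^ 2 := Finset.sum_le_sum hB
      _ ≤ _ := Finset.sum_le_sum_of_subset_of_nonneg (Finset.subset_univ _)
        fun x _ _ => by positivity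

theorem L19_tot (hm : 2 ≤ m) (hn : 1 ≤ n) (B : Finset (Fin n)) (g : ℝ)
    (hB : ∀ x ∈ B, g ≤ 2 * (((dgm c x 0 : ℝ) + dgm c x 1) / 2) ^ (m - 2) *
      (((dgm c x 0 : ℝ) - dgm c x 1) / 2) ^ 2) :
    (TT m).card * L19_P c + B.card * g - (TT m).card * ((m + 1) ^ 2 * n ^ m) ≤ (tot c : ℝ) := by
  have hstar : SimpleGraph.starGraph (0 : Fin (m + 1)) ∈ TT m :=
    mem_filter.2 ⟨mem_univ _, SimpleGraph.isTree_starGraph 0⟩
  unfold tot
  push_cast
  have h1 : ∀ T ∈ TT m, L19_P c + (if T = SimpleGraph.starGraph 0 then B.card * g else 0) -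
      (m + 1) ^ 2 * n ^ m ≤ (cnt c T : ℝ) := by
    intro T hT
    have h2 := L19_cnt c hm hn T (mem_filter.1 hT).2
    split_ifs with h
    · subst h
      have h3 := L19_lower_star c hm B g hB
      linarith
    · have h3 := L19_lower c hm hn T hT
      linarith
  refine le_trans (le_of_eq ?_) (Finset.sum_le_sum h1)
  rw [Finset.sum_sub_distrib, Finset.sum_add_distrib, Finset.sum_const, Finset.sum_const,
    nsmul_eq_mul, nsmul_eq_mul, Finset.sum_ite_eq' (TT m), if_pos hstar]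

end

theorem L19_P_lower {m n : ℕ} (c : Sym2 (Fin n) → ZMod m) (hm : 2 ≤ m) (hn : 1 ≤ n) (δ : ℝ)
    (hδ : δ ≤ 1) (h : (n : ℝ) ^ 2 * (1 - δ) ≤ ∑ x, (dgm c x 0 : ℝ) + ∑ x, (dgm c x 1 : ℝ)) :
    2 * (n : ℝ) ^ (m + 1) * (1 - m * δ) ≤ 2 ^ m * L19_P c := by
  have hn' : (0 : ℝ) < n := by exact_mod_cast hn
  have h1 : (1 : ℝ) - m * δ ≤ (1 - δ) ^ m := by
    have := one_add_mul_le_pow (a := -δ) (by linarith) m
    have h2 : (1 : ℝ) + m * -δ = 1 - m * δ := by ring
    have h3 : (1 : ℝ) + -δ = 1 - δ := by ring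
    rwa [h2, h3] at this
  have h2 : ((n : ℝ) ^ 2 * (1 - δ)) ^ m ≤
      (∑ x, (dgm c x 0 : ℝ) + ∑ x, (dgm c x 1 : ℝ)) ^ m :=
    pow_le_pow_left₀ (mul_nonneg (by positivity) (by linarith)) h m
  have h3 : 2 ^ m * L19_P c = 2 * (∑ x, (dgm c x 0 : ℝ) + ∑ x, (dgm c x 1 : ℝ)) ^ m /
      (n : ℝ) ^ (m - 1) := by
    unfold L19_P
    rw [div_pow]
    field_simp
  rw [h3, le_div_iff₀ (by positivity)]
  have h4 : (n : ℝ) ^ (m + 1) * (n : ℝ) ^ (m - 1) = ((n : ℝ) ^ 2) ^ m := by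
    rw [← pow_add, ← pow_mul]
    congr 1
    omega
  calc 2 * (n : ℝ) ^ (m + 1) * (1 - m * δ) * (n : ℝ) ^ (m - 1)
      = 2 * ((n : ℝ) ^ (m + 1) * (n : ℝ) ^ (m - 1)) * (1 - m * δ) := by ring
    _ = 2 * ((n : ℝ) ^ 2) ^ m * (1 - m * δ) := by rw [h4]
    _ ≤ 2 * ((n : ℝ) ^ 2) ^ m * (1 - δ) ^ m :=
        mul_le_mul_of_nonneg_left h1 (by positivity)
    _ = 2 * ((n : ℝ) ^ 2 * (1 - δ)) ^ m := by rw [mul_pow]; ring
    _ ≤ _ := mul_le_mul_of_nonneg_left h2 zero_le_two

theorem L19_num (K P S γ ε μ q n N p t : ℝ) (hK : 0 ≤ K) (hn : 0 < n) (hN : 0 < N) (hμ : 0 ≤ μ)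
    (hp : 2 ≤ p) (hq : 0 ≤ q) (hε : 0 ≤ ε)
    (h1 : 2 * (N * n) * (1 - μ * (ε + 1 / n)) ≤ p * P) (h2 : γ * (N * n) ≤ S)
    (h3 : K * μ * ε * n + K * (μ + q) ≤ γ * n) (h4 : K * P + S - K * (q * N) ≤ t) :
    2 * (K * (N * n)) ≤ p * t := by
  have hp0 : 0 ≤ p := by linarith
  have e1 := mul_le_mul_of_nonneg_left h4 hp0
  have e2 := mul_le_mul_of_nonneg_left h1 hK
  have e3 := mul_le_mul_of_nonneg_left h2 hp0
  have e4 : K * (2 * (N * n) * (1 - μ * (ε + 1 / n))) =
      2 * (K * (N * n)) - 2 * ((K * μ * ε * n + K * μ) * N) := by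
    field_simp
  have e5 := mul_le_mul_of_nonneg_left (mul_le_mul_of_nonneg_right h3 hN.le) hp0
  have e6 : 2 * ((K * μ * ε * n + K * μ) * N) ≤ p * ((K * μ * ε * n + K * μ) * N) :=
    mul_le_mul_of_nonneg_right hp (by positivity)
  rw [e4] at e2
  have e7 : p * (K * P + S - K * (q * N)) = K * (p * P) + p * S - p * (K * (q * N)) := by ring
  have e8 : p * ((K * μ * ε * n + K * (μ + q)) * N) =
      p * ((K * μ * ε * n + K * μ) * N) + p * (K * (q * N)) := by ring
  have e9 : p * (γ * n * N) = p * (γ * (N * n)) := by ring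
  rw [e7] at e1
  rw [e8, e9] at e5
  linarith

open Classical in
theorem irregular (m : ℕ) (hm : 2 ≤ m) (η : ℝ) (hη : 0 < η) : ∃ ε > (0 : ℝ), ∃ n0 : ℕ, ∀ n ≥ n0,
    ∀ c : Sym2 (Fin n) → ZMod m,
    ((univ.filter (fun p : Fin n × Fin n => p.1 ≠ p.2 ∧ c s(p.1, p.2) ≠ 0 ∧ c s(p.1, p.2) ≠ 1)).card : ℝ)
      ≤ ε * (n : ℝ) ^ 2 →
    η * n < ((univ.filter (fun x => ¬ Bal c η x)).card : ℝ) →
    (⨅ c' : Sym2 (Fin n) → Fin 2, mom m c') ≤ zsm m c := by
  set γ : ℝ := η ^ 3 / (4 * 8 ^ (m - 2)) with hγ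
  have hγ0 : 0 < γ := by positivity
  set K : ℝ := ((TT m).card : ℝ) with hK
  have hK0 : 0 ≤ K := Nat.cast_nonneg _
  have hmR : (2 : ℝ) ≤ m := by exact_mod_cast hm
  set ε : ℝ := min (min (η ^ 2 / 4) (γ / (2 * (K * m + 1)))) (1 / 2) with hε
  have hε0 : 0 < ε := lt_min (lt_min (by positivity) (by positivity)) (by norm_num)
  have hε1 : ε ≤ η ^ 2 / 4 := (min_le_left _ _).trans (min_le_left _ _)
  have hε2 : ε ≤ γ / (2 * (K * m + 1)) := (min_le_left _ _).trans (min_le_right _ _)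
  have hε3 : ε ≤ 1 / 2 := min_le_right _ _
  refine ⟨ε, hε0, max 4 (max ⌈2 / η⌉₊ ⌈2 * (K * (m + (m + 1) ^ 2)) / γ⌉₊), ?_⟩
  intro n hn c hthird hbad
  have hn4 : 4 ≤ n := (le_max_left _ _).trans hn
  have hn4R : (4 : ℝ) ≤ n := by exact_mod_cast hn4
  have hn0 : (0 : ℝ) < n := by linarith
  have hnη : 2 / η ≤ n := by
    have h1 : ⌈2 / η⌉₊ ≤ n := (le_max_left _ _).trans ((le_max_right _ _).trans hn)
    exact (Nat.le_ceil _).trans (by exact_mod_cast h1)
  have hnγ : 2 * (K * (m + (m + 1) ^ 2)) / γ ≤ n := by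
    have h1 : ⌈2 * (K * (m + (m + 1) ^ 2)) / γ⌉₊ ≤ n :=
      (le_max_right _ _).trans ((le_max_right _ _).trans hn)
    exact (Nat.le_ceil _).trans (by exact_mod_cast h1)
  have hnη' : 2 ≤ η * n := by
    rw [div_le_iff₀ hη] at hnη
    linarith
  have hη1 : η < 1 := by
    have h1 : ((univ.filter (fun x => ¬ Bal c η x)).card : ℝ) ≤ n := by
      have := card_le_univ (univ.filter (fun x => ¬ Bal c η x))
      rw [Fintype.card_fin] at this
      exact_mod_cast this
    have h2 : η * n < 1 * n := by linarith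
    exact lt_of_mul_lt_mul_right h2 hn0.le
  -- totals
  have htot : ∀ x, (dgm c x 0 : ℝ) + dgm c x 1 + L19_t c x + 1 = n := by
    intro x
    exact_mod_cast L19_total c hm x
  have hts : ∑ x, (L19_t c x : ℝ) ≤ ε * (n : ℝ) ^ 2 := by
    have h1 := L19_t_sum c
    rw [← Nat.cast_sum, ← h1]
    exact hthird
  have hsum : ∑ x, (dgm c x 0 : ℝ) + ∑ x, (dgm c x 1 : ℝ) = n * (n - 1) - ∑ x, (L19_t c x : ℝ) := by
    have h1 : ∑ x : Fin n, ((dgm c x 0 : ℝ) + dgm c x 1 + L19_t c x + 1) = n * n := by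
      rw [Finset.sum_congr rfl fun x _ => htot x, Finset.sum_const, card_univ, Fintype.card_fin,
        nsmul_eq_mul]
    rw [Finset.sum_add_distrib, Finset.sum_add_distrib, Finset.sum_add_distrib, Finset.sum_const,
      card_univ, Fintype.card_fin, nsmul_eq_mul, mul_one] at h1
    linarith
  have hδ : ε + 1 / n ≤ 1 := by
    have h1 : 1 / (n : ℝ) ≤ 1 / 4 := by gcongr
    linarith
  have hPl := L19_P_lower c hm (by omega) (ε + 1 / n) hδ (by
    rw [hsum]
    have h1 : (n : ℝ) ^ 2 * (1 - (ε + 1 / n)) = n * (n - 1) - ε * n ^ 2 := by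
      field_simp
      ring
    rw [h1]
    linarith)
  -- the bad vertices
  set BB : Finset (Fin n) := univ.filter (fun x => ¬ Bal c η x) with hBB
  set TB : Finset (Fin n) := univ.filter (fun x => η * n / 2 < L19_t c x) with hTB
  have hTBc : (TB.card : ℝ) ≤ η * n / 2 := by
    have h1 : (TB.card : ℝ) * (η * n / 2) ≤ ε * (n : ℝ) ^ 2 := by
      calc (TB.card : ℝ) * (η * n / 2) = ∑ x ∈ TB, (η * n / 2) := by
            rw [Finset.sum_const, nsmul_eq_mul]
        _ ≤ ∑ x ∈ TB, (L19_t c x : ℝ) := Finset.sum_le_sum fun x hx => (mem_filter.1 hx).2.le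
        _ ≤ ∑ x, (L19_t c x : ℝ) := Finset.sum_le_sum_of_subset_of_nonneg (Finset.subset_univ _)
            fun x _ _ => Nat.cast_nonneg _
        _ ≤ _ := hts
    have h2 : ε * (n : ℝ) ^ 2 ≤ (η * n / 2) * (η * n / 2) := by
      have := mul_le_mul_of_nonneg_right hε1 (sq_nonneg (n : ℝ))
      have e : η ^ 2 / 4 * (n : ℝ) ^ 2 = (η * n / 2) * (η * n / 2) := by ring
      linarith
    have h3 : 0 < η * n / 2 := by linarith
    exact le_of_mul_le_mul_right (h1.trans h2) h3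
  have hBc : η * n / 2 ≤ ((BB \ TB).card : ℝ) := by
    have h1 : BB.card ≤ (BB \ TB).card + TB.card := by
      have := Finset.card_le_card_sdiff_add_card (s := BB) (t := TB)
      exact this
    have h2 : (BB.card : ℝ) ≤ ((BB \ TB).card : ℝ) + TB.card := by exact_mod_cast h1
    linarith
  set g : ℝ := 2 * (n / 8) ^ (m - 2) * (η * n / 2) ^ 2 with hg
  have hgB : ∀ x ∈ BB \ TB, g ≤ 2 * (((dgm c x 0 : ℝ) + dgm c x 1) / 2) ^ (m - 2) *
      (((dgm c x 0 : ℝ) - dgm c x 1) / 2) ^ 2 := by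
    intro x hx
    rw [mem_sdiff, hBB, hTB, mem_filter, mem_filter] at hx
    have hx1 : ¬ Bal c η x := hx.1.2
    have hx2 : (L19_t c x : ℝ) ≤ η * n / 2 := by
      by_contra hcon
      exact hx.2 ⟨mem_univ _, not_le.1 hcon⟩
    have ht0 : (0 : ℝ) ≤ L19_t c x := Nat.cast_nonneg _
    have hx3 := htot x
    have hsum8 : (n : ℝ) / 8 ≤ ((dgm c x 0 : ℝ) + dgm c x 1) / 2 := by
      have h1 : η * n ≤ n := mul_le_of_le_one_left hn0.le hη1.le
      linarith
    have habs : (η * n / 2) ^ 2 ≤ (((dgm c x 0 : ℝ) - dgm c x 1) / 2) ^ 2 := by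
      rw [← sq_abs (((dgm c x 0 : ℝ) - dgm c x 1) / 2)]
      refine pow_le_pow_left₀ (by linarith) ?_ 2
      unfold Bal at hx1
      rw [not_and_or, not_le, not_le] at hx1
      rcases hx1 with h | h
      · rcases abs_cases ((dgm c x 0 : ℝ) - n / 2) with ⟨h1, h2⟩ | ⟨h1, h2⟩
        · rw [h1] at h
          refine le_trans ?_ (le_abs_self _)
          linarith
        · rw [h1] at h
          refine le_trans ?_ (neg_le_abs _)
          linarith
      · rcases abs_cases ((dgm c x 1 : ℝ) - n / 2) with ⟨h1, h2⟩ | ⟨h1, h2⟩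
        · rw [h1] at h
          refine le_trans ?_ (neg_le_abs _)
          linarith
        · rw [h1] at h
          refine le_trans ?_ (le_abs_self _)
          linarith
    rw [hg]
    gcongr
  have htotc := L19_tot c hm (by omega) (BB \ TB) g hgB
  -- the gain
  have hgain : γ * (n : ℝ) ^ (m + 1) ≤ ((BB \ TB).card : ℝ) * g := by
    have hg0 : 0 ≤ g := by positivity
    refine le_trans (le_of_eq ?_) (mul_le_mul_of_nonneg_right hBc hg0)
    rw [hγ, hg, div_pow]
    have h1 : (n : ℝ) ^ (m + 1) = n ^ 3 * n ^ (m - 2) := by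
      rw [← pow_add]
      congr 1
      omega
    rw [h1]
    field_simp
    ring
  -- numerics
  have hnum : K * m * ε * n + K * (m + (m + 1) ^ 2) ≤ γ * n := by
    have h1 : K * m * ε ≤ γ / 2 := by
      have h2 : K * m * ε ≤ (K * m + 1) * ε := by rw [add_mul, one_mul]; linarith
      have h3 : (K * m + 1) * ε ≤ (K * m + 1) * (γ / (2 * (K * m + 1))) := by gcongr
      have h4 : (K * m + 1) * (γ / (2 * (K * m + 1))) = γ / 2 := by
        have : K * m + 1 ≠ 0 := by positivity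
        field_simp
      linarith
    have h5 : K * (m + (m + 1) ^ 2) ≤ γ / 2 * n := by
      rw [div_le_iff₀ hγ0] at hnγ
      linarith
    have h6 := mul_le_mul_of_nonneg_right h1 hn0.le
    linarith
  have h2m : (2 : ℝ) ≤ 2 ^ m := by
    calc (2 : ℝ) = 2 ^ 1 := (pow_one _).symm
      _ ≤ 2 ^ m := pow_le_pow_right₀ (by norm_num) (by omega)
  have hfin : 2 * (K * (n : ℝ) ^ (m + 1)) ≤ 2 ^ m * (tot c : ℝ) := by
    rw [pow_succ] at hgain hPl ⊢
    exact L19_num K (L19_P c) _ γ ε m ((m + 1) ^ 2) n (n ^ m) (2 ^ m) (tot c) hK0 hn0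
      (by positivity) (by linarith) h2m (by positivity) hε0.le hPl hgain hnum htotc
  have hmom := mom_le (m := m) (n := n) (by omega)
  have htoteq := tot_eq (m := m) (n := n) (by omega) c
  have hfinN : 2 * ((TT m).card * n ^ (m + 1)) ≤ 2 ^ m * tot c := by
    rw [hK] at hfin
    exact_mod_cast hfin
  have h1 := hmom.trans hfinN
  rw [← htoteq] at h1
  have h2 := Nat.le_of_mul_le_mul_left h1 (by positivity : 0 < 2 ^ m)
  exact Nat.le_of_mul_le_mul_left h2 (Nat.factorial_pos _)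

end Pool.Agent.MP5g
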