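import Mathlib
import Pool.Agent.MP_5f2667_co.L.L06
import Pool.Agent.MP_5f2667_co.L.L17
import Pool.Agent.MP_5f2667_co.L.L19

set_option autoImplicit false

open Finset

/-
Proof. Let u be the inverse of b - a and c' e = u * c e + (-(u * a)), so that colour a becomes 0 and b becomes 1; zsm_affine. eta from local_bal, eps from irregular eta (for m). If at most eta n vertices are not balanced use local_bal, otherwise irregular.
-/

namespace Pool.Agent.MP5g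

open Classical in
theorem local_all (m : ℕ) (hm : 4 ≤ m) : ∃ ε > (0 : ℝ), ∃ n0 : ℕ, ∀ n ≥ n0,
    ∀ (c : Sym2 (Fin n) → ZMod m) (a b : ZMod m), IsUnit (b - a) →
    ((univ.filter (fun p : Fin n × Fin n => p.1 ≠ p.2 ∧ c s(p.1, p.2) ≠ a ∧ c s(p.1, p.2) ≠ b)).card : ℝ)
      ≤ ε * (n : ℝ) ^ 2 →
    (⨅ c' : Sym2 (Fin n) → Fin 2, mom m c') ≤ zsm m c := by
  obtain ⟨η, hη, n1, hloc⟩ := local_bal m hm
  obtain ⟨ε, hε, n2, hirr⟩ := irregular m (by omega) η hη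
  refine ⟨ε, hε, max n1 n2, fun n hn c a b hab hc => ?_⟩
  obtain ⟨u, hu⟩ := hab
  have hinv : ((u⁻¹ : (ZMod m)ˣ) : ZMod m) * (b - a) = 1 := by
    rw [← hu]
    exact Units.inv_mul u
  have haff := zsm_affine (u⁻¹) (-(((u⁻¹ : (ZMod m)ˣ) : ZMod m) * a)) c
  rw [← haff]
  by_cases hbal : ((univ.filter (fun x => ¬ Bal
      (fun e => ((u⁻¹ : (ZMod m)ˣ) : ZMod m) * c e + -(((u⁻¹ : (ZMod m)ˣ) : ZMod m) * a)) η x)).card
        : ℝ) ≤ η * n
  · exact hloc n (le_trans (le_max_left _ _) hn) _ hbal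
  · apply hirr n (le_trans (le_max_right _ _) hn) _ _ (not_le.1 hbal)
    refine le_trans ?_ hc
    have hsub : (univ.filter (fun p : Fin n × Fin n => p.1 ≠ p.2 ∧
        ((u⁻¹ : (ZMod m)ˣ) : ZMod m) * c s(p.1, p.2) + -(((u⁻¹ : (ZMod m)ˣ) : ZMod m) * a) ≠ 0 ∧
        ((u⁻¹ : (ZMod m)ˣ) : ZMod m) * c s(p.1, p.2) + -(((u⁻¹ : (ZMod m)ˣ) : ZMod m) * a) ≠ 1)) ⊆
        (univ.filter (fun p : Fin n × Fin n => p.1 ≠ p.2 ∧ c s(p.1, p.2) ≠ a ∧
          c s(p.1, p.2) ≠ b)) := by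
      intro p hp
      rw [Finset.mem_filter] at hp ⊢
      refine ⟨hp.1, hp.2.1, ?_, ?_⟩
      · intro h
        apply hp.2.2.1
        rw [h]
        ring
      · intro h
        apply hp.2.2.2
        rw [h, ← hinv]
        ring
    exact_mod_cast Finset.card_le_card hsub

end Pool.Agent.MP5g
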